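import Pool.Agent.Work.MP_8dbde4_lc.Full.StmtsB

/-!
Assembly of the classification from the statements of the block (all as hypotheses).
-/

set_option autoImplicit false
open Classical

namespace Pool.Agent.Work.MP_8dbde4_lc.Full

open Pool.Agent.Work.MP_8dbde4_lc.TS Pool.Agent.Work.MP_8dbde4_lc.Tree
  Pool.Agent.Work.MP_8dbde4_lc.Phy BT

/-- If the arrows do not reach all the combs they are rerootings: the quartet relation is primitive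
positive definable and every point can be made the top. -/
theorem quartets_of {c : ℚ → Bool} {σ : Sig} (hLNC : S_LNC) (hEXT : S_EXT2) (hVD : S_VD)
    (hLTI : S_LTI) (hD2C : S_D2C) (hSJT : S_SJT) (hSJC : S_SJC) (hLTC : S_LTC) (hQV : S_QV)
    (hBLT : S_BLT) (hRRT : S_RRT) (hQPP : S_QPP) (𝔅 : Str σ (Word c)) (hA : AllInv 𝔅)
    (hN : NEq 𝔅) (h3 : E3 𝔅) (hCC : ¬ CC 𝔅) : PP 𝔅 (Q4 (c := c)) ∧ RR 𝔅 := by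
  have hLIN : ¬ LIN 𝔅 := fun h => hCC (hLNC c σ 𝔅 hA h)
  have hE : Ext 𝔅 := hEXT c σ 𝔅 hA hN hLIN
  have hF : F3 𝔅 := by
    by_contra hF
    rcases hVD c σ 𝔅 hA h3 hE with h | h
    · exact hCC (hLTC c σ 𝔅 hA (hLTI c σ 𝔅 hA hE hF h))
    · exact hCC (hSJC c σ 𝔅 hA (hSJT c σ 𝔅 hA (hD2C c σ 𝔅 hA hE hF h)))
  have hQ : QP 𝔅 := by
    by_contra hQ
    exact hCC (hLTC c σ 𝔅 hA (hBLT c σ 𝔅 hA hF (hQV c σ 𝔅 hA hN hE hQ)))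
  exact ⟨hQPP c σ 𝔅 hA hF hQ, hRRT c σ 𝔅 hA hF⟩

/-- The classification, negative direction. -/
theorem class_of {c : ℚ → Bool} {σ : Sig}
    (hNEC : S_NEC) (hE3 : S_E3)
    (hPH : ∀ (𝔅 : Str σ (Word c)), PLang 𝔅 → InFPC (CSP 𝔅) → ∀ R, HornC (𝔅.rel R))
    (hQ : ∀ (𝔅 : Str σ (Word c)), AllInv 𝔅 → NEq 𝔅 → E3 𝔅 → ¬ CC 𝔅 →
      PP 𝔅 (Q4 (c := c)) ∧ RR 𝔅)
    (hNF : ∀ (𝔅 : Str σ (Word c)), AllInv 𝔅 → PP 𝔅 (Q4 (c := c)) → RR 𝔅 → ¬ InFPC (CSP 𝔅))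
    (hEH : ∀ (𝔅 : Str σ (Word c)), AllInv 𝔅 → NEq 𝔅 → CC 𝔅 → InFPC (CSP 𝔅) →
      ∀ R, EqH (𝔅.rel R))
    (𝔅 : Str σ (Word c)) (hA : AllInv 𝔅) (hF : InFPC (CSP 𝔅)) :
    Cst0 𝔅 ∨ (∀ R, HornC (𝔅.rel R)) ∨ ∀ R, EqH (𝔅.rel R) := by
  by_cases hN : NEq 𝔅
  · right
    by_cases hC : PP 𝔅 (C3 (c := c))
    · exact Or.inl (hPH 𝔅 ⟨hA, hC⟩ hF)
    · right
      have h3 := hE3 c σ 𝔅 hA hN hC
      by_cases hCC : CC 𝔅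
      · exact hEH 𝔅 hA hN hCC hF
      · obtain ⟨h1, h2⟩ := hQ 𝔅 hA hN h3 hCC
        exact absurd hF (hNF 𝔅 hA h1 h2)
  · exact Or.inl (hNEC c σ 𝔅 hA hN)

end Pool.Agent.Work.MP_8dbde4_lc.Full
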