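import Pool.Agent.Work.MP_8dbde4_lc.Phy.Stmts2

/-!
# All phylogeny templates: definitions

Continuation of `Phy/Defs.lean`. The domain is `Word c`, `c : ℚ → Bool`, with the split relation
`Cc z x y` (`z` splits off from `x` and `y` first).
-/

set_option autoImplicit false
open Classical

namespace Pool.Agent.Work.MP_8dbde4_lc.Full

open Pool.Agent.Work.MP_8dbde4_lc.TS Pool.Agent.Work.MP_8dbde4_lc.Tree
  Pool.Agent.Work.MP_8dbde4_lc.Phy

variable {c : ℚ → Bool} {σ : Sig}

/-! ### Facts on the split relation (all proved here) -/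

theorem cc_symm {z x y : Word c} (h : Cc z x y) : Cc z y x := by
  obtain ⟨q, h1, h2, h3, h4⟩ := h
  exact ⟨q, h2, h1, h3.symm, fun h => h4 (h.trans h3.symm)⟩

theorem cc_ne {z x y : Word c} (h : Cc z x y) : z ≠ x := by
  obtain ⟨q, h1, h2, h3, h4⟩ := h
  intro h
  exact h4 (by rw [h])

theorem cc_ne' {z x y : Word c} (h : Cc z x y) : z ≠ y := cc_ne (cc_symm h)

theorem cc_self {z x : Word c} (h : z ≠ x) : Cc z x x := by
  have hfin : {q | z.1 q ≠ x.1 q}.Finite := by
    refine (z.2.union x.2).subset ?_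
    intro q hq
    by_contra hc
    simp only [Set.mem_union, Set.mem_ofPred_eq, not_or, not_not] at hc
    exact hq (hc.1.trans hc.2.symm)
  have hne : {q | z.1 q ≠ x.1 q}.Nonempty := by
    by_contra hc
    rw [Set.not_nonempty_iff_eq_empty] at hc
    apply h
    apply Subtype.ext
    funext q
    by_contra hq
    have : q ∈ {q | z.1 q ≠ x.1 q} := hq
    rw [hc] at this
    exact this
  obtain ⟨q, hq, hmin⟩ := Set.exists_min_image _ id hfin hne
  have hA : Agr z x q := by
    intro q' hq'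
    by_contra hc
    exact absurd (hmin q' hc) (not_le.2 hq')
  exact ⟨q, hA, hA, rfl, hq⟩

theorem cc_iff_ne {z x : Word c} : Cc z x x ↔ z ≠ x := ⟨cc_ne, cc_self⟩

/-- Asymmetry. -/
theorem cc_asymm {z x y : Word c} (h : Cc z x y) : ¬ Cc x z y := by
  rintro ⟨q', h1', h2', h3', h4'⟩
  obtain ⟨q, h1, h2, h3, h4⟩ := h
  -- `q` is the first place where `z, x` differ, and `z, y`
  rcases lt_trichotomy q q' with hlt | heq | hgt
  · have h5 : x.1 q = z.1 q := h1' q hlt
    exact h4 h5.symm
  · subst heq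
    exact h4' (h3.trans h3'.symm)
  · exact h4' (h1 q' hgt).symm

/-- The main axiom: a further point is on one of the two sides. -/
theorem cc_or {z x y : Word c} (h : Cc z x y) (w : Word c) : Cc z x w ∨ Cc w x y := by
  obtain ⟨q, h1, h2, h3, h4⟩ := h
  by_cases hA : Agr z w q
  · by_cases hw : w.1 q = x.1 q
    · left
      exact ⟨q, h1, hA, hw.symm, h4⟩
    · right
      refine ⟨q, ?_, ?_, h3, hw⟩
      · intro q' hq'
        exact (hA q' hq').symm.trans (h1 q' hq')
      · intro q' hq'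
        exact (hA q' hq').symm.trans (h2 q' hq')
  · right
    -- `w` and `z` differ below `q`; take the first place
    have hne : w ≠ x := by
      rintro rfl
      exact hA h1
    obtain ⟨r, hr1, hr2, hr3, hr4⟩ := cc_self hne
    have hrq : r < q := by
      by_contra hc
      apply hA
      intro q' hq'
      rw [h1 q' hq']
      exact (hr1 q' (lt_of_lt_of_le hq' (not_lt.1 hc))).symm
    have hxy : ∀ q' < q, x.1 q' = y.1 q' := fun q' hq' => (h1 q' hq').symm.trans (h2 q' hq')
    refine ⟨r, hr1, ?_, hxy r hrq, hr4⟩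
    intro q' hq'
    exact (hr1 q' hq').trans (hxy q' (hq'.trans hrq))

theorem cc_trans {z x y w : Word c} (h : Cc z x y) (h' : Cc z y w) : Cc z x w := by
  rcases cc_or h w with h1 | h1
  · exact h1
  · rcases cc_or (cc_symm h') x with h2 | h2
    · exact cc_symm h2
    · exact absurd h2 (cc_asymm h1)

/-- Two of three different points are together (`y = z` is allowed). -/
theorem cc_tri {x y z : Word c} (hxy : x ≠ y) (hxz : x ≠ z) :
    Cc x y z ∨ Cc y x z ∨ Cc z x y := by
  obtain ⟨q, h1, _, _, h2⟩ := cc_self hxy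
  -- `q`: the first place where `x, y` differ
  by_cases hA : Agr x z q
  · have hb : z.1 q = x.1 q ∨ z.1 q = y.1 q := by
      cases hz : z.1 q <;> cases hx : x.1 q <;> cases hy : y.1 q <;> simp_all
    rcases hb with hb | hb
    · right
      left
      refine ⟨q, fun q' hq' => (h1 q' hq').symm, ?_, hb.symm, fun h => h2 h.symm⟩
      intro q' hq'
      exact (h1 q' hq').symm.trans (hA q' hq')
    · left
      exact ⟨q, h1, hA, hb.symm, h2⟩
  · right
    right
    obtain ⟨r, hr1, hr2, hr3, hr4⟩ := cc_self (Ne.symm hxz)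
    have hrq : r < q := by
      by_contra hc
      apply hA
      intro q' hq'
      exact (hr1 q' (lt_of_lt_of_le hq' (not_lt.1 hc))).symm
    refine ⟨r, hr1, ?_, h1 r hrq, hr4⟩
    intro q' hq'
    exact (hr1 q' hq').trans (h1 q' (hq'.trans hrq))

/-- `x` and `y` on different sides of `u | v`. -/
theorem cc_mid {x y z w : Word c} (h : Cc z x y) (h' : Cc x z w) : Cc y z w := by
  rcases cc_or h' y with h1 | h1
  · exact absurd h1 (cc_asymm h)
  · exact h1

theorem cc_irrefl {x y : Word c} : ¬ Cc x x y := fun h => cc_ne h rfl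

theorem cc_irrefl' {x y : Word c} : ¬ Cc x y x := fun h => cc_ne' h rfl

/-! ### Arrows -/

/-- Every primitive positive definable set which contains `v` contains `w`. -/
def Arr {B : Type} (𝔅 : Str σ B) {X : Type} (v w : X → B) : Prop :=
  ∀ S : (X → B) → Prop, PP 𝔅 S → S v → S w

theorem Arr.refl {B : Type} (𝔅 : Str σ B) {X : Type} (v : X → B) : Arr 𝔅 v v := fun _ _ h => h

theorem Arr.trans {B : Type} {𝔅 : Str σ B} {X : Type} {u v w : X → B} (h : Arr 𝔅 u v)
    (h' : Arr 𝔅 v w) : Arr 𝔅 u w := fun S hS hu => h' S hS (h S hS hu)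

/-- All the relations are invariant (first-order definable from the split relation). -/
def AllInv (𝔅 : Str σ (Word c)) : Prop := ∀ R, Inv (𝔅.rel R)

/-- Disequality is primitive positive definable. -/
def NEq {B : Type} (𝔅 : Str σ B) : Prop := PP 𝔅 (fun v : Fin 2 → B => v 0 ≠ v 1)

/-- `v'` is obtained from `v` by replacing points by (possibly empty) blocks: a block does not split
relative to the other points. -/
def Bl {X Y : Type} (π : Y → X) (v : X → Word c) (v' : Y → Word c) : Prop :=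
  ∀ y y' y'', π y'' ≠ π y → π y'' ≠ π y' →
    (Cc (v' y'') (v' y) (v' y') ↔ Cc (v (π y'')) (v (π y)) (v (π y')))

/-- Fat arrows: arrows after all replacements of the points in `F` by blocks (and after omitting
points). -/
def Fat (𝔅 : Str σ (Word c)) {X : Type} (F : Set X) (v w : X → Word c) : Prop :=
  ∀ (Y : Type) [Finite Y] (π : Y → X) (v' w' : Y → Word c),
    (∀ y y', π y = π y' → π y ∉ F → y = y') → Function.Injective v' → Function.Injective w' →
    Bl π v v' → Bl π w w' → (∀ x, SameOn {y | π y = x} v' w') → Arr 𝔅 v' w'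

/-- Fat arrows can be extended to a further point, which is then fat. -/
def Ext (𝔅 : Str σ (Word c)) : Prop :=
  ∀ (X : Type) [Finite X] (F : Set X) (v w : X → Word c), Function.Injective v →
    Function.Injective w → Fat 𝔅 F v w → ∀ v' : Option X → Word c, Function.Injective v' →
    (∀ x, v' (some x) = v x) → ∃ w' : Option X → Word c, Function.Injective w' ∧
      (∀ x, w' (some x) = w x) ∧ Fat 𝔅 {o | ∀ x, o = some x → x ∈ F} v' w'

/-- Arrows between all shapes of three points. -/
def E3 (𝔅 : Str σ (Word c)) : Prop := ∀ v w : Fin 3 → Word c, Function.Injective v →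
  Function.Injective w → Arr 𝔅 v w

/-- A displacement of a point `0` from its fat neighbour `1`, past the fat point `2`. -/
def D1 (𝔅 : Str σ (Word c)) : Prop := ∃ v w : Fin 3 → Word c, Function.Injective v ∧
  Function.Injective w ∧ Fat 𝔅 {1, 2} v w ∧ Cc (v 2) (v 0) (v 1) ∧ Cc (w 0) (w 1) (w 2)

/-- A displacement of a point `0` from its fat neighbour `1` to the fat point `2`. -/
def D2 (𝔅 : Str σ (Word c)) : Prop := ∃ v w : Fin 3 → Word c, Function.Injective v ∧
  Function.Injective w ∧ Fat 𝔅 {1, 2} v w ∧ Cc (v 2) (v 0) (v 1) ∧ Cc (w 1) (w 0) (w 2)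

/-- All the fat arrows between the shapes of three points. -/
def F3 (𝔅 : Str σ (Word c)) : Prop := ∀ v w : Fin 3 → Word c, Function.Injective v →
  Function.Injective w → Fat 𝔅 Set.univ v w

/-- The displacement `D2` in a context `P`. -/
def D2C (𝔅 : Str σ (Word c)) : Prop := ∀ (P : Type) [Finite P] (v w : Fin 3 ⊕ P → Word c),
  Function.Injective v → Function.Injective w →
  Cc (v (.inl 2)) (v (.inl 0)) (v (.inl 1)) → Cc (w (.inl 1)) (w (.inl 0)) (w (.inl 2)) →
  (∀ p i j, Cc (v (.inr p)) (v (.inl i)) (v (.inl j))) →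
  (∀ p i j, Cc (w (.inr p)) (w (.inl i)) (w (.inl j))) →
  SameOn {x | x ≠ .inl 0} v w → Fat 𝔅 {x | x ≠ .inl 0} v w

/-- The quartet relation `x y | z t` of the unrooted tree. -/
def Qr (x y z t : Word c) : Prop :=
  x ≠ y ∧ z ≠ t ∧ ((Cc z x y ∧ Cc t x y) ∨ (Cc x z t ∧ Cc y z t))

/-- The quartet relation as a set of tuples. -/
def Q4 (v : Fin 4 → Word c) : Prop := Qr (v 0) (v 1) (v 2) (v 3)

/-- Quartets are preserved. -/
def QP (𝔅 : Str σ (Word c)) : Prop := ∀ v w : Fin 4 → Word c, Function.Injective v →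
  Arr 𝔅 v w → Q4 v → Q4 w

/-- A displacement of a point `0` relative to three fat points in the unrooted tree. -/
def BP (𝔅 : Str σ (Word c)) : Prop := ∃ v w : Fin 4 → Word c, Function.Injective v ∧
  Function.Injective w ∧ Fat 𝔅 {1, 2, 3} v w ∧ Qr (v 0) (v 1) (v 2) (v 3) ∧
    Qr (w 0) (w 2) (w 1) (w 3)

/-- Points can be moved to the top. -/
def LT (𝔅 : Str σ (Word c)) : Prop := ∀ (X : Type) [Finite X] (v w : Option X → Word c),
  Function.Injective v → Function.Injective w → SameOn {o | o ≠ none} v w →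
  (∀ x y : X, Cc (w none) (w (some x)) (w (some y))) → Arr 𝔅 v w

/-- Every point can be made the top. -/
def RR (𝔅 : Str σ (Word c)) : Prop := ∀ (X : Type) [Finite X] (v : X → Word c) (s : X),
  Function.Injective v → ∃ w : X → Word c, Function.Injective w ∧ Arr 𝔅 v w ∧
    ∀ x y, x ≠ s → y ≠ s → Cc (w s) (w x) (w y)

/-! ### Trees -/

/-- Binary trees with labelled leaves. -/
inductive BT (X : Type) : Type
  | lf (x : X) : BT X
  | nd (l r : BT X) : BT X

namespace BT

variable {X Y : Type}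

/-- The list of the leaves. -/
def lvs : BT X → List X
  | lf x => [x]
  | nd l r => l.lvs ++ r.lvs

/-- Renaming of the leaves. -/
def map (e : X → Y) : BT X → BT Y
  | lf x => lf (e x)
  | nd l r => nd (l.map e) (r.map e)

/-- The mirror image. -/
def mir : BT X → BT X
  | lf x => lf x
  | nd l r => nd r.mir l.mir

/-- Complete trees of depth `n`. -/
def Cpl : BT X → ℕ → Prop
  | lf _, 0 => True
  | nd l r, n + 1 => l.Cpl n ∧ r.Cpl n
  | _, _ => False

/-- The number of leaves. -/
def size : BT X → ℕ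
  | lf _ => 1
  | nd l r => l.size + r.size

end BT

open BT

/-- `t` is obtained from `s` by deleting leaves. -/
inductive Sub {X : Type} : BT X → BT X → Prop
  | rfl (x : X) : Sub (lf x) (lf x)
  | left {t l : BT X} (r : BT X) : Sub t l → Sub t (nd l r)
  | right {t r : BT X} (l : BT X) : Sub t r → Sub t (nd l r)
  | both {t u l r : BT X} : Sub t l → Sub u r → Sub (nd t u) (nd l r)

/-- The points of `A` and `B` are separated. -/
def Sep {X : Type} (v : X → Word c) (A B : List X) : Prop :=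
  (∀ x ∈ A, ∀ y ∈ A, ∀ z ∈ B, Cc (v z) (v x) (v y)) ∧
    ∀ x ∈ A, ∀ y ∈ B, ∀ z ∈ B, Cc (v x) (v y) (v z)

/-- The tuple `v` has the shape `T`. -/
def Sh {X : Type} (v : X → Word c) : BT X → Prop
  | lf _ => True
  | nd l r => Sh v l ∧ Sh v r ∧ Sep v l.lvs r.lvs

/-- The entries split off one after the other. -/
def CombL {X : Type} (v : X → Word c) : List X → Prop
  | [] => True
  | x :: ℓ => (∀ y ∈ ℓ, ∀ z ∈ ℓ, Cc (v x) (v y) (v z)) ∧ CombL v ℓ

/-- Every tuple can be mapped to all combs. -/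
def CC (𝔅 : Str σ (Word c)) : Prop := ∀ (X : Type) [Finite X] (v z : X → Word c) (ℓ : List X),
  Function.Injective v → (∀ x, x ∈ ℓ) → ℓ.Nodup → CombL z ℓ → Arr 𝔅 v z

/-- Every shape can be mapped to the comb with the same order of the leaves. -/
def LIN (𝔅 : Str σ (Word c)) : Prop := ∀ (X : Type) [Finite X] (T : BT X) (v z : X → Word c),
  (∀ x, x ∈ T.lvs) → Sh v T → CombL z T.lvs → Arr 𝔅 v z

/-- Arrows between blow-ups of `v`, `w` with complete trees of depth `n` at the points of `F`. -/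
def NF (𝔅 : Str σ (Word c)) {X : Type} (n : ℕ) (F : Set X) (v w : X → Word c) : Prop :=
  ∃ (Y : Type) (_ : Finite Y) (π : Y → X) (K : X → BT Y) (v' w' : Y → Word c),
    Function.Injective v' ∧ Function.Injective w' ∧ Bl π v v' ∧ Bl π w w' ∧ Arr 𝔅 v' w' ∧
      ∀ x, (∀ y ∈ (K x).lvs, π y = x) ∧ Sh v' (K x) ∧ Sh w' (K x) ∧ (x ∈ F → (K x).Cpl n)

/-- Contexts. -/
inductive Cx (X : Type) : Type
  | hole : Cx X
  | ctx (k : Cx X) (r : BT X) : Cx X

/-- Filling the hole. -/
def Cx.fill {X : Type} : Cx X → BT X → BT X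
  | .hole, t => t
  | .ctx k r, t => k.fill (nd t r)

/-- A leaf `x` jumps from its neighbour `Y` to the sibling `Z` of the two, in any context. -/
def SJ (𝔅 : Str σ (Word c)) : Prop := ∀ (X : Type) [Finite X] (K : Cx X) (x : X) (Y Z : BT X)
  (v w : X → Word c), (∀ y, y ∈ (K.fill (nd (nd (lf x) Y) Z)).lvs) →
  Sh v (K.fill (nd (nd (lf x) Y) Z)) → Sh w (K.fill (nd (nd (lf x) Z) Y)) → Arr 𝔅 v w

/-- The rewriting generated by such jumps and by exchanging left and right. -/
inductive Rw {X : Type} : BT X → BT X → Prop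
  | refl (t : BT X) : Rw t t
  | trans {t u s : BT X} : Rw t u → Rw u s → Rw t s
  | swap (l r : BT X) : Rw (nd l r) (nd r l)
  | jump (x : X) (Y Z : BT X) : Rw (nd (nd (lf x) Y) Z) (nd (nd (lf x) Z) Y)
  | congr {l l' : BT X} (r : BT X) : Rw l l' → Rw (nd l r) (nd l' r)

/-- Combs. -/
def combT {X : Type} : X → List X → BT X
  | x, [] => lf x
  | x, y :: ℓ => nd (lf x) (combT y ℓ)

/-! ### Equality languages -/

/-- Sets of tuples which depend on the equalities only. -/
def KI {B X : Type} (S : (X → B) → Prop) : Prop :=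
  ∀ v w : X → B, (∀ x y, v x = v y ↔ w x = w y) → S v → S w

/-- `v 0 ≠ v 1` and `v 2` is one of them. -/
def U3 {B : Type} (v : Fin 3 → B) : Prop := v 0 ≠ v 1 ∧ (v 2 = v 0 ∨ v 2 = v 1)

/-- `v 4`, `v 5`, `v 6` are different, the first four entries are `v 4` or `v 5`, and `v 0 = v 1` or
`v 2 = v 3`. -/
def K7 {B : Type} (v : Fin 7 → B) : Prop := v 4 ≠ v 5 ∧ v 4 ≠ v 6 ∧ v 5 ≠ v 6 ∧
  (v 0 = v 4 ∨ v 0 = v 5) ∧ (v 1 = v 4 ∨ v 1 = v 5) ∧ (v 2 = v 4 ∨ v 2 = v 5) ∧
  (v 3 = v 4 ∨ v 3 = v 5) ∧ (v 0 = v 1 ∨ v 2 = v 3)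

/-- `v 0`, `v 1` are `v 4`, `v 5` in some order (as a condition on seven entries). -/
def N7 {B : Type} (v : Fin 7 → B) : Prop := v 4 ≠ v 5 ∧
  (v 0 = v 4 ∨ v 0 = v 5) ∧ (v 1 = v 4 ∨ v 1 = v 5) ∧ v 0 ≠ v 1

/-- The points `v 2`, `v 3` are attached at the same place of the path from `v 0` to `v 1`. -/
def QQ (v : Fin 4 → Word c) : Prop :=
  (v 0 ≠ v 1 ∧ v 2 ≠ v 0 ∧ v 2 ≠ v 1 ∧ v 2 = v 3) ∨ Qr (v 0) (v 1) (v 2) (v 3)

/-- The kernel closure: all tuples with the same equalities as a tuple of the relation. -/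
def kc {B : Type} (𝔅 : Str σ B) : Str σ B where
  rel R v := ∃ u, 𝔅.rel R u ∧ ∀ x y, u x = u y ↔ v x = v y

/-- Tuples whose different entries form a comb. -/
def CombT {X : Type} (z : X → Word c) : Prop := ∃ r : X → ℕ, (∀ x y, r x = r y ↔ z x = z y) ∧
  ∀ x y y', r x < r y → r x < r y' → Cc (z x) (z y) (z y')

/-- Closed under the injective linear binary operations: the relation contains all combs whose
equalities are the common equalities of two of its members. -/
def EqH {n : ℕ} (R : (Fin n → Word c) → Prop) : Prop := ∀ v w z : Fin n → Word c, R v → R w →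
  CombT z → (∀ x y, z x = z y ↔ v x = v y ∧ w x = w y) → R z

/-- Every nonempty relation contains a constant tuple. -/
def Cst0 {B : Type} (𝔅 : Str σ B) : Prop := ∀ R, (∃ v, 𝔅.rel R v) → ∃ a, 𝔅.rel R (fun _ => a)

/-! ### Frames for the engine -/

/-- The points touched by a base. -/
noncomputable def tbb {G : Type} [Group G] (g h : G) : G ⊕ G → Finset G
  | .inl v => {v}
  | .inr v => row g h v

/-- A family of instances for the two values of `b`: elements `E`, constraints `T` of kinds `K` with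
endpoints `ep b τ : X → E`; an action of the flips `y : G → ZMod p` which exchanges the instances
`b` and `b'` where the row equations hold. -/
structure Frame (G : Type) [Group G] (g h : G) (p : ℕ) (E T K X : Type) where
  bE : E → G ⊕ G
  bT : T → G
  aE : (G → ZMod p) → E → E
  aT : (G → ZMod p) → T → T
  kd : T → K
  ep : ZMod p → T → X → E
  e0 : E
  be0 : bE e0 = Sum.inl 1
  aE_zero : ∀ x, aE (fun _ => 0) x = x
  aE_base : ∀ y x, bE (aE y x) = bE x
  aE_congr : ∀ y y' x, (∀ u ∈ tbb g h (bE x), y u = y' u) → aE y x = aE y' x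
  aE_neg : ∀ y x, aE (fun u => - y u) (aE y x) = x
  aT_base : ∀ y τ, bT (aT y τ) = bT τ
  aT_congr : ∀ y y' τ, (∀ u ∈ row g h (bT τ), y u = y' u) → aT y τ = aT y' τ
  aT_neg : ∀ y τ, aT (fun u => - y u) (aT y τ) = τ
  kd_act : ∀ y τ, kd (aT y τ) = kd τ
  ep_act : ∀ b b' y τ, y 1 = 0 → y (bT τ) + y (bT τ * g) - y (bT τ * h) = b' - b →
    ∀ x, aE y (ep b τ x) = ep b' (aT y τ) x
  ep_ex : ∀ b b' y τ, y 1 = 0 → ∃ τ', kd τ' = kd τ ∧
    ∀ x, bE (ep b τ x) ≠ Sum.inr (bT τ) → aE y (ep b τ x) = ep b' τ' x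

/-- The instance over structures `str k` on the common domain `D` with marked points `m k`. -/
noncomputable def psE {E T D X : Type} (m : X → D) (ep : X → E) (τ : T) (d : D) : E ⊕ T × D :=
  if h : ∃ x, m x = d then Sum.inl (ep h.choose) else Sum.inr (τ, d)

/-- The glued structure. -/
noncomputable def Glue {E T K D X : Type} (str : K → Str σ D) (m : K → X → D) (kd : T → K)
    (ep : T → X → E) : Str σ (E ⊕ T × D) where
  rel R e := ∃ (τ : T) (d : Fin (σ.ar R) → D), (str (kd τ)).rel R d ∧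
    e = fun j => psE (m (kd τ)) (ep τ) τ (d j)

end Pool.Agent.Work.MP_8dbde4_lc.Full
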