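import Pool.Agent.Work.MP_8dbde4_lc.Full.Defs
import Pool.Agent.Work.MP_8dbde4_lc.Phy.Example

/-!
# Example: the quartet relation
-/

set_option autoImplicit false
open Classical

namespace Pool.Agent.Work.MP_8dbde4_lc.Full

open Pool.Agent.Work.MP_8dbde4_lc.TS Pool.Agent.Work.MP_8dbde4_lc.Tree
  Pool.Agent.Work.MP_8dbde4_lc.Phy

variable {c : ℚ → Bool}

/-- The structure with the quartet relation only. -/
def Qst (c : ℚ → Bool) : Str (sg 4) (Word c) where
  rel _ t := Q4 (c := c) t

theorem allInv_Qst : AllInv (Qst c) := by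
  intro R v w H hv
  have e : ∀ i j : Fin 4, v i = v j ↔ w i = w j := fun i j =>
    H.1 i (Set.mem_univ _) j (Set.mem_univ _)
  have s : ∀ i j k : Fin 4, Cc (v k) (v i) (v j) ↔ Cc (w k) (w i) (w j) := fun i j k =>
    H.2 i (Set.mem_univ _) j (Set.mem_univ _) k (Set.mem_univ _)
  obtain ⟨h1, h2, h3⟩ := hv
  refine ⟨fun h => h1 ((e 0 1).2 h), fun h => h2 ((e 2 3).2 h), ?_⟩
  rcases h3 with ⟨h3, h4⟩ | ⟨h3, h4⟩
  · exact Or.inl ⟨(s 0 1 2).1 h3, (s 0 1 3).1 h4⟩
  · exact Or.inr ⟨(s 2 3 0).1 h3, (s 2 3 1).1 h4⟩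

theorem wd_agr1 {a b d a' b' d' : Bool} (h : a = a') :
    Agr (wd c a b d) (wd c a' b' d') 1 := by
  subst h
  intro q hq
  have h1 : q ≠ 1 := hq.ne
  have h2 : q ≠ 2 := (hq.trans one_lt_two).ne
  by_cases h0 : q = 0
  · subst h0
    rw [wd_zero, wd_zero]
  · simp [wd, h0, h1, h2]

theorem wd_agr2 {a b d a' b' d' : Bool} (h : a = a') (h' : b = b') :
    Agr (wd c a b d) (wd c a' b' d') 2 := by
  subst h
  subst h'
  intro q hq
  have h2 : q ≠ 2 := hq.ne
  simp [wd, h2]

theorem cc_wd0 {a b d a' b' d' a'' b'' d'' : Bool} (h : a' = a'') (h' : a ≠ a') :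
    Cc (wd c a b d) (wd c a' b' d') (wd c a'' b'' d'') :=
  ⟨0, wd_agr _ _ _ _ _ _, wd_agr _ _ _ _ _ _, by rw [wd_zero, wd_zero, h],
    by rw [wd_zero, wd_zero]; exact h'⟩

theorem cc_wd1 {a b d a' b' d' a'' b'' d'' : Bool} (e : a = a') (e' : a = a'') (h : b' = b'')
    (h' : b ≠ b') : Cc (wd c a b d) (wd c a' b' d') (wd c a'' b'' d'') :=
  ⟨1, wd_agr1 e, wd_agr1 e', by rw [wd_one, wd_one, h], by rw [wd_one, wd_one]; exact h'⟩

theorem cc_wd2 {a b d a' b' d' a'' b'' d'' : Bool} (e : a = a') (e' : a = a'') (f : b = b')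
    (f' : b = b'') (h : d' = d'') (h' : d ≠ d') :
    Cc (wd c a b d) (wd c a' b' d') (wd c a'' b'' d'') :=
  ⟨2, wd_agr2 e f, wd_agr2 e' f', by rw [wd_two, wd_two, h], by rw [wd_two, wd_two]; exact h'⟩

/-- Quartets with a prescribed point on the top. -/
theorem q4_top (i : Fin 4) : ∃ v : Fin 4 → Word c, Q4 v ∧
    Spl Set.univ v (fun x => decide (x = i)) := by
  have key : ∀ (a b d : Fin 4 → Bool), (∀ x, a x = decide (x = i)) →
      Q4 (fun x => wd c (a x) (b x) (d x)) → ∃ v : Fin 4 → Word c, Q4 v ∧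
        Spl Set.univ v (fun x => decide (x = i)) := by
    intro a b d ha hq
    refine ⟨fun x => wd c (a x) (b x) (d x), hq, ?_⟩
    have h1 : (fun x => decide (x = i)) = a := by
      funext x
      rw [ha]
    rw [h1]
    refine wd_spl Set.univ a b d ⟨i, Set.mem_univ _, i + 1, Set.mem_univ _, ?_⟩
    rw [ha, ha]
    have h9 : ∀ i : Fin 4, decide (i = i) ≠ decide (i + 1 = i) := by decide
    exact h9 i
  have ne : ∀ {a b d a' b' d' : Bool}, (a ≠ a' ∨ b ≠ b' ∨ d ≠ d') →
      wd c a b d ≠ wd c a' b' d' := by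
    intro a b d a' b' d' h h'
    obtain ⟨h1, h2, h3⟩ := wd_inj h'
    rcases h with h | h | h
    · exact h h1
    · exact h h2
    · exact h h3
  fin_cases i
  · refine key ![true, false, false, false] ![false, true, false, false]
      ![false, false, true, false] (by decide) ?_
    exact ⟨ne (by decide), ne (by decide), Or.inr ⟨cc_wd0 (by decide) (by decide),
      cc_wd1 (by decide) (by decide) (by decide) (by decide)⟩⟩
  · refine key ![false, true, false, false] ![true, false, false, false]
      ![false, false, true, false] (by decide) ?_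
    exact ⟨ne (by decide), ne (by decide), Or.inr
      ⟨cc_wd1 (by decide) (by decide) (by decide) (by decide), cc_wd0 (by decide) (by decide)⟩⟩
  · refine key ![false, false, true, false] ![false, false, false, true]
      ![true, false, false, false] (by decide) ?_
    exact ⟨ne (by decide), ne (by decide), Or.inl ⟨cc_wd0 (by decide) (by decide),
      cc_wd1 (by decide) (by decide) (by decide) (by decide)⟩⟩
  · refine key ![false, false, false, true] ![false, false, true, false]
      ![true, false, false, false] (by decide) ?_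
    exact ⟨ne (by decide), ne (by decide), Or.inl
      ⟨cc_wd1 (by decide) (by decide) (by decide) (by decide), cc_wd0 (by decide) (by decide)⟩⟩

/-- The comb `0 (2 (1 3))`. -/
def cmb (c : ℚ → Bool) (x : Fin 4) : Word c :=
  wd c ((![true, false, false, false] : Fin 4 → Bool) x)
    ((![false, false, true, false] : Fin 4 → Bool) x)
    ((![false, true, false, false] : Fin 4 → Bool) x)

theorem cmb_inj {i j : Fin 4} (h : cmb c i = cmb c j) : i = j := by
  obtain ⟨h1, h2, h3⟩ := wd_inj h
  clear h
  revert i j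
  decide

theorem not_q4_cmb : ¬ Q4 (cmb c) := by
  have h0 : Cc (cmb c 0) (cmb c 2) (cmb c 1) := cc_wd0 (by decide) (by decide)
  have h2 : Cc (cmb c 2) (cmb c 1) (cmb c 3) :=
    cc_wd1 (by decide) (by decide) (by decide) (by decide)
  rintro ⟨_, _, ⟨h3, _⟩ | ⟨_, h3⟩⟩
  · exact cc_asymm h0 h3
  · exact cc_asymm h2 h3

theorem combT_cmb : CombT (cmb c) := by
  refine ⟨![0, 2, 1, 3], ?_, ?_⟩
  · intro x y
    constructor
    · intro h
      have : x = y := by
        revert x y
        decide
      rw [this]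
    · intro h
      rw [cmb_inj h]
  · intro x y y' h h'
    fin_cases x
    · refine cc_wd0 ?_ ?_ <;> revert y y' <;> decide
    · refine cc_wd2 ?_ ?_ ?_ ?_ ?_ ?_ <;> revert y y' <;> decide
    · refine cc_wd1 ?_ ?_ ?_ ?_ <;> revert y y' <;> decide
    · exfalso
      revert y y'
      decide

theorem not_cst0_Qst : ¬ Cst0 (Qst c) := by
  intro h
  obtain ⟨v, hv, _⟩ := q4_top (c := c) 0
  obtain ⟨a, ha⟩ := h () ⟨v, hv⟩
  exact ha.1 rfl

theorem not_eqH_Q4 : ¬ EqH (Q4 (c := c)) := by
  intro h
  obtain ⟨v, hv, _⟩ := q4_top (c := c) 0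
  have hvi : ∀ x y, v x = v y → x = y := by
    obtain ⟨h1, h2, h3⟩ := hv
    intro x y
    rcases h3 with ⟨h3, h4⟩ | ⟨h3, h4⟩
    · have a1 := cc_ne h3
      have a2 := cc_ne' h3
      have a3 := cc_ne h4
      have a4 := cc_ne' h4
      fin_cases x <;> fin_cases y <;> simp <;> intro he <;>
        first
          | exact h1 he
          | exact h1 he.symm
          | exact h2 he
          | exact h2 he.symm
          | exact a1 he
          | exact a1 he.symm
          | exact a2 he
          | exact a2 he.symm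
          | exact a3 he
          | exact a3 he.symm
          | exact a4 he
          | exact a4 he.symm
    · have a1 := cc_ne h3
      have a2 := cc_ne' h3
      have a3 := cc_ne h4
      have a4 := cc_ne' h4
      fin_cases x <;> fin_cases y <;> simp <;> intro he <;>
        first
          | exact h1 he
          | exact h1 he.symm
          | exact h2 he
          | exact h2 he.symm
          | exact a1 he
          | exact a1 he.symm
          | exact a2 he
          | exact a2 he.symm
          | exact a3 he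
          | exact a3 he.symm
          | exact a4 he
          | exact a4 he.symm
  refine not_q4_cmb (h v v (cmb c) hv hv combT_cmb ?_)
  intro x y
  constructor
  · intro he
    rw [cmb_inj he]
    exact ⟨rfl, rfl⟩
  · intro he
    rw [hvi x y he.1]

theorem not_hornC_Q4 : ¬ HornC (Q4 (c := c)) := by
  rintro ⟨cs, hcs⟩
  have htn : ¬ Q4 (cmb c) := not_q4_cmb
  rw [hcs] at htn
  push Not at htn
  obtain ⟨C, hC, hCt⟩ := htn
  unfold Cl.Holds at hCt
  push Not at hCt
  obtain ⟨hp, hc⟩ := hCt
  have hprem : ∀ v : Fin 4 → Word c, ∀ e ∈ C.prem, v e.1 = v e.2 := by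
    intro v e he
    rw [cmb_inj (hp e he)]
  have hv : ∀ v : Fin 4 → Word c, Q4 v → CHolds v C.concl := by
    intro v hv
    rw [hcs] at hv
    exact hv C hC (hprem v)
  cases hcc : C.concl with
  | none =>
    obtain ⟨v, hq, _⟩ := q4_top (c := c) 0
    have h0 := hv v hq
    rw [hcc] at h0
    exact h0
  | some z =>
    obtain ⟨i, j, Y⟩ := z
    rw [hcc] at hc
    have hij : i ≠ j := by
      rintro rfl
      exact hc (fun h _ => rfl)
    obtain ⟨v, hq, hs⟩ := q4_top (c := c) i
    have h2 := hv v hq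
    rw [hcc] at h2
    have h3 := h2 (fun x => decide (x = i)) (hs.mono (Set.subset_univ _)
      ⟨i, by simp, j, by simp, by simp [hij.symm]⟩)
    simp [hij.symm] at h3

end Pool.Agent.Work.MP_8dbde4_lc.Full
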