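import Pool.Agent.Work.MP_8dbde4_lc.Full.StmtsA

set_option autoImplicit false
open Classical

namespace Pool.Agent.Work.MP_8dbde4_lc.Full

open Pool.Agent.Work.MP_8dbde4_lc.TS Pool.Agent.Work.MP_8dbde4_lc.Tree
  Pool.Agent.Work.MP_8dbde4_lc.Phy BT

namespace FARR

variable {c : ℚ → Bool} {σ : Sig}

/-- The class of a tuple. -/
def cls {X : Type} (u : X → Word c) : Set (X × X) × Set (X × X × X) :=
  ({p | u p.1 = u p.2}, {p | Cc (u p.1) (u p.2.1) (u p.2.2)})

theorem cls_same {X : Type} {u w : X → Word c} (h : cls u = cls w) :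
    SameOn Set.univ u w := by
  have h1 : {p : X × X | u p.1 = u p.2} = {p | w p.1 = w p.2} := congrArg Prod.fst h
  have h2 : {p : X × X × X | Cc (u p.1) (u p.2.1) (u p.2.2)} =
      {p | Cc (w p.1) (w p.2.1) (w p.2.2)} := congrArg Prod.snd h
  refine ⟨?_, ?_⟩
  · intro x _ y _
    have := Set.ext_iff.1 h1 (x, y)
    simpa using this
  · intro x _ y _ z _
    have := Set.ext_iff.1 h2 (z, x, y)
    simpa using this

theorem arr_pp (hIN : S_IN2) (hPP : S_PPB) (𝔅 : Str σ (Word c)) (hA : AllInv 𝔅)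
    (X : Type) [Finite X] (v : X → Word c) : PP 𝔅 (fun u => Arr 𝔅 v u) := by
  have hex : ∀ k : Set (X × X) × Set (X × X × X), ∃ S : (X → Word c) → Prop, PP 𝔅 S ∧ S v ∧
      ∀ u, cls u = k → ¬ Arr 𝔅 v u → ¬ S u := by
    intro k
    by_cases h : ∃ u, cls u = k ∧ ¬ Arr 𝔅 v u
    · obtain ⟨u, hu, hn⟩ := h
      unfold Arr at hn
      push Not at hn
      obtain ⟨S, hS, hv, hnu⟩ := hn
      refine ⟨S, hS, hv, ?_⟩
      intro u' hu' _ hSu'
      exact hnu (hIN c σ 𝔅 hA X S hS u' u (cls_same (hu'.trans hu.symm)) hSu')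
    · push Not at h
      refine ⟨fun _ => True, (hPP σ (Word c) 𝔅).2.2.2.2.2.1 X, trivial, ?_⟩
      intro u hu hn
      exact absurd (h u hu) hn
  choose F h1 h2 h3 using hex
  have hfin : Finite (Set (X × X) × Set (X × X × X)) := inferInstance
  have hpp := (hPP σ (Word c) 𝔅).2.2.2.2.2.2 X (Set (X × X) × Set (X × X × X)) F h1
  have he : (fun u => Arr 𝔅 v u) = (fun u => ∀ k, F k u) := by
    funext u
    apply propext
    constructor
    · intro h k
      exact h (F k) (h1 k) (h2 k)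
    · intro h
      by_contra hc
      exact h3 (cls u) u rfl hc (h (cls u))
  rw [he]
  exact hpp

end FARR

theorem ARR_pf (hIN : S_IN2) (hPP : S_PPB) : S_ARR := by
  intro c σ 𝔅 hA
  refine ⟨?_, ?_, ?_, ?_, ?_, ?_⟩
  · intro X _ v w h S hS hv
    exact hIN c σ 𝔅 hA X S hS v w h hv
  · intro X Y _ e v w h S hS hv
    exact h _ ((hPP σ (Word c) 𝔅).2.2.1 Y X S e hS) hv
  · intro X _ v
    exact FARR.arr_pp hIN hPP 𝔅 hA X v
  · intro X X' _ i v' w h
    have hp := FARR.arr_pp hIN hPP 𝔅 hA X' v'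
    have hq := (hPP σ (Word c) 𝔅).2.2.2.1 X' X (fun u => Arr 𝔅 v' u) i hp
    obtain ⟨w', hw1, hw2⟩ := h _ hq ⟨v', Arr.refl 𝔅 v', fun _ => rfl⟩
    exact ⟨w', fun x => (hw2 x).symm, hw1⟩
  · intro X _ v w x y h hxy
    exact h _ ((hPP σ (Word c) 𝔅).2.2.2.2.1 X x y) hxy
  · intro hN X _ v w x y h hxy
    have hq := (hPP σ (Word c) 𝔅).2.2.1 (Fin 2) X (fun v : Fin 2 → Word c => v 0 ≠ v 1) ![x, y] hN
    exact h _ hq (by simpa using hxy)

end Pool.Agent.Work.MP_8dbde4_lc.Full
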