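import Pool.Agent.Work.MP_8dbde4_lc.Full.StmtsA

/-!
Item BEH of the block Full of MP_8dbde4_lc: constant behaviour on triples of leaves.
-/

set_option autoImplicit false
open Classical

namespace Pool.Agent.Work.MP_8dbde4_lc.Full

open Pool.Agent.Work.MP_8dbde4_lc.TS Pool.Agent.Work.MP_8dbde4_lc.Tree
  Pool.Agent.Work.MP_8dbde4_lc.Phy BT

namespace FBEH

variable {c : ℚ → Bool} {Λ : Type}

/-- Leaves are subtrees. -/
theorem sub_leaf (t : BT Λ) : ∀ a ∈ t.lvs, Sub (lf a) t := by
  induction t with
  | lf x =>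
    intro a ha
    have : a = x := by simpa [BT.lvs] using ha
    subst this
    exact Sub.rfl _
  | nd l r ihl ihr =>
    intro a ha
    rcases List.mem_append.1 ha with h | h
    · exact Sub.left r (ihl a h)
    · exact Sub.right l (ihr a h)

/-- Pairs in the right order are subtrees. -/
theorem sub_pair (t : BT Λ) : ∀ a b, List.Sublist [a, b] t.lvs →
    Sub (nd (lf a) (lf b)) t := by
  induction t with
  | lf x =>
    intro a b h
    have := h.length_le
    simp [BT.lvs] at this
  | nd l r ihl ihr =>
    intro a b h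
    obtain ⟨l1, l2, hE, h1, h2⟩ := List.sublist_append_iff.1 h
    match l1, hE, h1 with
    | [], hE, _ =>
      have hE' : l2 = [a, b] := by simpa using hE.symm
      subst hE'
      exact Sub.right l (ihr a b h2)
    | [a'], hE, h1 =>
      have hE' : a = a' ∧ l2 = [b] := by
        simp only [List.cons_append, List.nil_append, List.cons.injEq] at hE
        exact ⟨hE.1, hE.2.symm⟩
      obtain ⟨rfl, rfl⟩ := hE'
      refine Sub.both (sub_leaf l a ?_) (sub_leaf r b ?_)
      · exact h1.subset (by simp)
      · exact h2.subset (by simp)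
    | a' :: b' :: l3, hE, h1 =>
      have hE' : a = a' ∧ b = b' ∧ l3 = [] := by
        simp only [List.cons_append, List.cons.injEq] at hE
        refine ⟨hE.1, hE.2.1, ?_⟩
        have := hE.2.2
        have h3 := congrArg List.length this
        simp only [List.length_nil, List.length_append] at h3
        exact List.eq_nil_of_length_eq_zero (by omega)
      obtain ⟨rfl, rfl, rfl⟩ := hE'
      exact Sub.left r (ihl a b h1)

/-- Triples in the right order are subtrees of one of the two shapes. -/
theorem sub_triple (t : BT Λ) : ∀ a b d, List.Sublist [a, b, d] t.lvs →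
    Sub (nd (nd (lf a) (lf b)) (lf d)) t ∨ Sub (nd (lf a) (nd (lf b) (lf d))) t := by
  induction t with
  | lf x =>
    intro a b d h
    have := h.length_le
    simp [BT.lvs] at this
  | nd l r ihl ihr =>
    intro a b d h
    obtain ⟨l1, l2, hE, h1, h2⟩ := List.sublist_append_iff.1 h
    match l1, hE, h1 with
    | [], hE, _ =>
      have hE' : l2 = [a, b, d] := by simpa using hE.symm
      subst hE'
      rcases ihr a b d h2 with h | h
      · exact Or.inl (Sub.right l h)
      · exact Or.inr (Sub.right l h)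
    | [a'], hE, h1 =>
      have hE' : a = a' ∧ l2 = [b, d] := by
        simp only [List.cons_append, List.nil_append, List.cons.injEq] at hE
        exact ⟨hE.1, hE.2.symm⟩
      obtain ⟨rfl, rfl⟩ := hE'
      right
      refine Sub.both (sub_leaf l a (h1.subset (by simp))) (sub_pair r b d h2)
    | [a', b'], hE, h1 =>
      have hE' : a = a' ∧ b = b' ∧ l2 = [d] := by
        simp only [List.cons_append, List.nil_append, List.cons.injEq] at hE
        exact ⟨hE.1, hE.2.1, hE.2.2.symm⟩
      obtain ⟨rfl, rfl, rfl⟩ := hE'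
      left
      refine Sub.both (sub_pair l a b h1) (sub_leaf r d (h2.subset (by simp)))
    | a' :: b' :: d' :: l3, hE, h1 =>
      have hE' : a = a' ∧ b = b' ∧ d = d' ∧ l3 = [] := by
        simp only [List.cons_append, List.cons.injEq] at hE
        refine ⟨hE.1, hE.2.1, hE.2.2.1, ?_⟩
        have := hE.2.2.2
        have h3 := congrArg List.length this
        simp only [List.length_nil, List.length_append] at h3
        exact List.eq_nil_of_length_eq_zero (by omega)
      obtain ⟨rfl, rfl, rfl, rfl⟩ := hE'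
      rcases ihl a b d h1 with h | h
      · exact Or.inl (Sub.left r h)
      · exact Or.inr (Sub.left r h)

/-- Two different members of a list, in some order. -/
theorem pair_sublist (ℓ : List Λ) : ∀ x ∈ ℓ, ∀ y ∈ ℓ, x ≠ y →
    List.Sublist [x, y] ℓ ∨ List.Sublist [y, x] ℓ := by
  induction ℓ with
  | nil => intro x hx; simp at hx
  | cons a ℓ ih =>
    intro x hx y hy hxy
    rcases List.mem_cons.1 hx with hxa | hx'
    · subst hxa
      rcases List.mem_cons.1 hy with hya | hy'
      · exact absurd hya.symm hxy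
      · left
        exact List.Sublist.cons_cons _ (List.singleton_sublist.2 hy')
    · rcases List.mem_cons.1 hy with hya | hy'
      · subst hya
        right
        exact List.Sublist.cons_cons _ (List.singleton_sublist.2 hx')
      · rcases ih x hx' y hy' hxy with h | h
        · exact Or.inl (List.Sublist.cons _ h)
        · exact Or.inr (List.Sublist.cons _ h)

/-- Combs from triples. -/
theorem combL_of (w : Λ → Word c) (ℓ : List Λ) (hn : ℓ.Nodup) (hi : Set.InjOn w {x | x ∈ ℓ})
    (h : ∀ a b d, List.Sublist [a, b, d] ℓ → Cc (w a) (w b) (w d)) : CombL w ℓ := by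
  induction ℓ with
  | nil => trivial
  | cons x ℓ ih =>
    have hn' := List.nodup_cons.1 hn
    refine ⟨?_, ih hn'.2 (hi.mono (fun y hy => List.mem_cons_of_mem _ hy))
      (fun a b d hs => h a b d (List.Sublist.cons _ hs))⟩
    intro y hy z hz
    by_cases hyz : y = z
    · subst hyz
      apply cc_self
      intro he
      have hxy : x = y := hi (show x ∈ x :: ℓ by simp)
        (show y ∈ x :: ℓ from List.mem_cons_of_mem _ hy) he
      exact hn'.1 (hxy ▸ hy)
    · rcases pair_sublist ℓ y hy z hz hyz with hs | hs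
      · exact h x y z (List.Sublist.cons_cons _ hs)
      · exact cc_symm (h x z y (List.Sublist.cons_cons _ hs))

/-- Shapes from triples. -/
theorem sh_of (w : Λ → Word c) (t : BT Λ) (hn : t.lvs.Nodup)
    (hi : Set.InjOn w {x | x ∈ t.lvs})
    (h1 : ∀ a b d, Sub (nd (nd (lf a) (lf b)) (lf d)) t → Cc (w d) (w a) (w b))
    (h2 : ∀ a b d, Sub (nd (lf a) (nd (lf b) (lf d))) t → Cc (w a) (w b) (w d)) : Sh w t := by
  induction t with
  | lf x => trivial
  | nd l r ihl ihr =>
    have hn' := List.nodup_append.1 hn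
    have hl : ∀ x ∈ l.lvs, x ∈ (nd l r).lvs := fun x hx => List.mem_append.2 (Or.inl hx)
    have hr : ∀ x ∈ r.lvs, x ∈ (nd l r).lvs := fun x hx => List.mem_append.2 (Or.inr hx)
    have hne : ∀ x ∈ l.lvs, ∀ y ∈ r.lvs, w x ≠ w y := by
      intro x hx y hy he
      exact hn'.2.2 x hx y hy (hi (hl x hx) (hr y hy) he)
    refine ⟨ihl hn'.1 (hi.mono hl) (fun a b d hs => h1 a b d (Sub.left r hs))
        (fun a b d hs => h2 a b d (Sub.left r hs)),
      ihr hn'.2.1 (hi.mono hr) (fun a b d hs => h1 a b d (Sub.right l hs))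
        (fun a b d hs => h2 a b d (Sub.right l hs)), ?_, ?_⟩
    · intro x hx y hy u hu
      by_cases hxy : x = y
      · subst hxy
        exact cc_self (hne x hx u hu).symm
      · rcases pair_sublist l.lvs x hx y hy hxy with hs | hs
        · exact h1 x y u (Sub.both (sub_pair l x y hs) (sub_leaf r u hu))
        · exact cc_symm (h1 y x u (Sub.both (sub_pair l y x hs) (sub_leaf r u hu)))
    · intro x hx y hy u hu
      by_cases hyu : y = u
      · subst hyu
        exact cc_self (hne x hx y hy)
      · rcases pair_sublist r.lvs y hy u hu hyu with hs | hs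
        · exact h2 x y u (Sub.both (sub_leaf l x hx) (sub_pair r y u hs))
        · exact cc_symm (h2 x u y (Sub.both (sub_leaf l x hx) (sub_pair r u y hs)))

/-- A leaf exists. -/
theorem ex_leaf (t : BT Λ) : ∃ a, a ∈ t.lvs := by
  induction t with
  | lf x => exact ⟨x, by simp [BT.lvs]⟩
  | nd l r ihl _ =>
    obtain ⟨a, ha⟩ := ihl
    exact ⟨a, List.mem_append.2 (Or.inl ha)⟩

/-- A complete tree of positive depth is a node. -/
theorem cpl_succ (t : BT Λ) (n : ℕ) (h : t.Cpl (n + 1)) : ∃ l r, t = nd l r ∧ l.Cpl n ∧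
    r.Cpl n := by
  cases t with
  | lf x => exact absurd h (by simp [BT.Cpl])
  | nd l r => exact ⟨l, r, rfl, h⟩

end FBEH

open FBEH in
theorem BEH_pf : S_BEH := by
  intro c Λ z w n i j hn hz hnd hinj h1 h2
  obtain ⟨m, rfl⟩ : ∃ m, n = m + 1 + 1 + 1 := ⟨n - 3, by omega⟩
  obtain ⟨l, r, rfl, hl, hr⟩ := cpl_succ z _ hz
  obtain ⟨ll, lr, rfl, hll, hlr⟩ := cpl_succ l _ hl
  obtain ⟨rl, rr, rfl, hrl, hrr⟩ := cpl_succ r _ hr
  obtain ⟨lll, llr, rfl, -, -⟩ := cpl_succ ll _ hll
  obtain ⟨rrl, rrr, rfl, -, -⟩ := cpl_succ rr _ hrr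
  -- the first behaviour is not `1`
  have hi1 : i ≠ 1 := by
    rintro rfl
    obtain ⟨a, ha⟩ := ex_leaf lll
    obtain ⟨b, hb⟩ := ex_leaf llr
    obtain ⟨d, hd⟩ := ex_leaf lr
    obtain ⟨e, he⟩ := ex_leaf (nd rl (nd rrl rrr))
    have hE := sub_leaf _ e he
    have hD := sub_leaf _ d hd
    have hAB : Sub (nd (lf a) (lf b)) (nd lll llr) :=
      Sub.both (sub_leaf _ a ha) (sub_leaf _ b hb)
    have k1 : Cc (w b) (w a) (w d) := h1 a b d (Sub.left _ (Sub.both hAB hD))
    have k2 : Cc (w b) (w a) (w e) := h1 a b e (Sub.both (Sub.left _ hAB) hE)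
    have k3 : Cc (w d) (w b) (w e) :=
      h1 b d e (Sub.both (Sub.both (Sub.right _ (sub_leaf _ b hb)) hD) hE)
    exact cc_asymm (cc_trans (cc_symm k1) k2) k3
  -- the second behaviour is not `1`
  have hj1 : j ≠ 1 := by
    rintro rfl
    obtain ⟨a, ha⟩ := ex_leaf (nd (nd lll llr) lr)
    obtain ⟨b, hb⟩ := ex_leaf rl
    obtain ⟨d, hd⟩ := ex_leaf rrl
    obtain ⟨e, he⟩ := ex_leaf rrr
    have hA := sub_leaf _ a ha
    have hB := sub_leaf _ b hb
    have hD : Sub (lf d) (nd rrl rrr) := Sub.left _ (sub_leaf _ d hd)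
    have hE : Sub (lf e) (nd rrl rrr) := Sub.right _ (sub_leaf _ e he)
    have hDE : Sub (nd (lf d) (lf e)) (nd rrl rrr) :=
      Sub.both (sub_leaf _ d hd) (sub_leaf _ e he)
    have k1 : Cc (w b) (w a) (w d) := h2 a b d (Sub.both hA (Sub.both hB hD))
    have k2 : Cc (w b) (w a) (w e) := h2 a b e (Sub.both hA (Sub.both hB hE))
    have k3 : Cc (w d) (w b) (w e) := h2 b d e (Sub.right _ (Sub.both hB hDE))
    exact cc_asymm (cc_trans (cc_symm k1) k2) k3
  -- the pair `(0, 2)` is excluded
  have h02 : ¬ (i = 0 ∧ j = 2) := by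
    rintro ⟨rfl, rfl⟩
    obtain ⟨a, ha⟩ := ex_leaf lll
    obtain ⟨b, hb⟩ := ex_leaf llr
    obtain ⟨d, hd⟩ := ex_leaf rl
    obtain ⟨e, he⟩ := ex_leaf (nd rrl rrr)
    have hAB : Sub (nd (lf a) (lf b)) (nd (nd lll llr) lr) :=
      Sub.left _ (Sub.both (sub_leaf _ a ha) (sub_leaf _ b hb))
    have hA : Sub (lf a) (nd (nd lll llr) lr) := Sub.left _ (Sub.left _ (sub_leaf _ a ha))
    have hD := sub_leaf _ d hd
    have hE := sub_leaf _ e he
    have k1 : Cc (w a) (w b) (w d) := h1 a b d (Sub.both hAB (Sub.left _ hD))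
    have k2 : Cc (w a) (w b) (w e) := h1 a b e (Sub.both hAB (Sub.right _ hE))
    have k3 : Cc (w e) (w a) (w d) := h2 a d e (Sub.both hA (Sub.both hD hE))
    exact cc_asymm (cc_trans (cc_symm k2) k1) k3
  have hi : i = 0 ∨ i = 2 := by
    match i, hi1 with
    | 0, _ => exact Or.inl rfl
    | 1, h => exact absurd rfl h
    | 2, _ => exact Or.inr rfl
  have hj : j = 0 ∨ j = 2 := by
    match j, hj1 with
    | 0, _ => exact Or.inl rfl
    | 1, h => exact absurd rfl h
    | 2, _ => exact Or.inr rfl
  rcases hi with rfl | rfl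
  · rcases hj with rfl | rfl
    · right
      left
      refine combL_of w _ hnd hinj ?_
      intro a b d hs
      rcases sub_triple _ a b d hs with hs | hs
      · exact h1 a b d hs
      · exact h2 a b d hs
    · exact absurd ⟨rfl, rfl⟩ h02
  · rcases hj with rfl | rfl
    · left
      exact sh_of w _ hnd hinj (fun a b d hs => h1 a b d hs) (fun a b d hs => h2 a b d hs)
    · right
      right
      refine combL_of w _ (List.nodup_reverse.2 hnd) ?_ ?_
      · intro x hx y hy he
        exact hinj (List.mem_reverse.1 hx) (List.mem_reverse.1 hy) he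
      · intro a b d hs
        have hs' : List.Sublist [d, b, a]
            (nd (nd (nd lll llr) lr) (nd rl (nd rrl rrr))).lvs := by
          have := List.reverse_sublist.2 hs
          rw [List.reverse_reverse] at this
          simpa using this
        rcases sub_triple _ d b a hs' with hs | hs
        · have k : Cc (w a) (w d) (w b) := h1 d b a hs
          exact cc_symm k
        · have k : Cc (w a) (w d) (w b) := h2 d b a hs
          exact cc_symm k

end Pool.Agent.Work.MP_8dbde4_lc.Full
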