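import Pool.Agent.Work.MP_8dbde4_lc.Full.StmtsB

/-!
# Item BET: the displacement `BP` for trees
-/

set_option autoImplicit false
open Classical

namespace Pool.Agent.Work.MP_8dbde4_lc.Full

open Pool.Agent.Work.MP_8dbde4_lc.TS Pool.Agent.Work.MP_8dbde4_lc.Tree
  Pool.Agent.Work.MP_8dbde4_lc.Phy BT

namespace FBET

variable {c : ℚ → Bool} {X : Type}

theorem lvs_ne (T : BT X) : ∃ x, x ∈ T.lvs := by
  induction T with
  | lf x => exact ⟨x, by simp [BT.lvs]⟩
  | nd l r ihl _ =>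
    obtain ⟨x, hx⟩ := ihl
    exact ⟨x, by simp [BT.lvs, hx]⟩

/-- the labelling of the four blocks -/
def Lab (a : X) (A B C : BT X) (f : X → Fin 4) : Prop :=
  ∀ x, (f x = 0 ∧ x = a) ∨ (f x = 1 ∧ x ∈ A.lvs) ∨ (f x = 2 ∧ x ∈ B.lvs) ∨
    (f x = 3 ∧ x ∈ C.lvs)

theorem below {a : X} {A B C : BT X} {f : X → Fin 4} (hf : Lab a A B C f) {v : X → Word c}
    (h : Sh v (nd (lf a) (nd A (nd B C)))) (x y z : X) (h1 : f x < f y) (h2 : f x < f z) :
    Cc (v x) (v y) (v z) := by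
  obtain ⟨-, ⟨-, ⟨-, -, h3⟩, h4⟩, h5⟩ := h
  simp only [BT.lvs] at h3 h4 h5
  have b : ∀ u, f u ≠ 0 → u ∈ A.lvs ++ (B.lvs ++ C.lvs) := by
    intro u hu
    rcases hf u with ⟨e, -⟩ | ⟨-, e⟩ | ⟨-, e⟩ | ⟨-, e⟩
    · exact absurd e hu
    · simp [e]
    · simp [e]
    · simp [e]
  have b2 : ∀ u, 1 < f u → u ∈ B.lvs ++ C.lvs := by
    intro u hu
    rcases hf u with ⟨e, -⟩ | ⟨e, -⟩ | ⟨-, e⟩ | ⟨-, e⟩
    · rw [e] at hu
      exact absurd hu (by decide)
    · rw [e] at hu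
      exact absurd hu (by decide)
    · simp [e]
    · simp [e]
  have b3 : ∀ u, 2 < f u → u ∈ C.lvs := by
    intro u hu
    rcases hf u with ⟨e, -⟩ | ⟨e, -⟩ | ⟨e, -⟩ | ⟨-, e⟩
    · rw [e] at hu
      exact absurd hu (by decide)
    · rw [e] at hu
      exact absurd hu (by decide)
    · rw [e] at hu
      exact absurd hu (by decide)
    · exact e
  rcases hf x with ⟨e, e'⟩ | ⟨e, e'⟩ | ⟨e, e'⟩ | ⟨e, e'⟩
  · rw [e] at h1 h2
    exact h5.2 x (by simp [e']) y (b y (ne_of_gt h1)) z (b z (ne_of_gt h2))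
  · rw [e] at h1 h2
    exact h4.2 x e' y (b2 y h1) z (b2 z h2)
  · rw [e] at h1 h2
    exact h3.2 x e' y (b3 y h1) z (b3 z h2)
  · rw [e] at h1
    exact absurd h1 (not_lt.2 (Fin.le_last (f y)))

theorem same {a : X} {A B C : BT X} {f : X → Fin 4} (hf : Lab a A B C f) {v : X → Word c}
    (h : Sh v (nd (lf a) (nd A (nd B C)))) (x y z : X) (h1 : f x ≠ f y) (h2 : f y = f z) :
    Cc (v x) (v y) (v z) := by
  rcases lt_or_gt_of_ne h1 with hlt | hgt
  · exact below hf h x y z hlt (h2 ▸ hlt)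
  · obtain ⟨-, ⟨-, ⟨-, -, h3⟩, h4⟩, h5⟩ := h
    simp only [BT.lvs] at h3 h4 h5
    rcases hf y with ⟨e, ey⟩ | ⟨e, ey⟩ | ⟨e, ey⟩ | ⟨e, ey⟩
    · have ez : z = a := by
        rcases hf z with ⟨-, ez⟩ | ⟨ez, -⟩ | ⟨ez, -⟩ | ⟨ez, -⟩
        · exact ez
        all_goals
          rw [← h2, e] at ez
          exact absurd ez (by decide)
      have ex : x ∈ A.lvs ++ (B.lvs ++ C.lvs) := by
        rcases hf x with ⟨e2, -⟩ | ⟨-, e2⟩ | ⟨-, e2⟩ | ⟨-, e2⟩
        · rw [e, e2] at hgt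
          exact absurd hgt (by decide)
        · simp [e2]
        · simp [e2]
        · simp [e2]
      exact h5.1 y (by simp [ey]) z (by simp [ez]) x ex
    · have ez : z ∈ A.lvs := by
        rcases hf z with ⟨ez, -⟩ | ⟨-, ez⟩ | ⟨ez, -⟩ | ⟨ez, -⟩
        · rw [← h2, e] at ez
          exact absurd ez (by decide)
        · exact ez
        all_goals
          rw [← h2, e] at ez
          exact absurd ez (by decide)
      have ex : x ∈ B.lvs ++ C.lvs := by
        rcases hf x with ⟨e2, -⟩ | ⟨e2, -⟩ | ⟨-, e2⟩ | ⟨-, e2⟩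
        · rw [e, e2] at hgt
          exact absurd hgt (by decide)
        · rw [e, e2] at hgt
          exact absurd hgt (by decide)
        · simp [e2]
        · simp [e2]
      exact h4.1 y ey z ez x ex
    · have ez : z ∈ B.lvs := by
        rcases hf z with ⟨ez, -⟩ | ⟨ez, -⟩ | ⟨-, ez⟩ | ⟨ez, -⟩
        · rw [← h2, e] at ez
          exact absurd ez (by decide)
        · rw [← h2, e] at ez
          exact absurd ez (by decide)
        · exact ez
        · rw [← h2, e] at ez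
          exact absurd ez (by decide)
      have ex : x ∈ C.lvs := by
        rcases hf x with ⟨e2, -⟩ | ⟨e2, -⟩ | ⟨e2, -⟩ | ⟨-, e2⟩
        · rw [e, e2] at hgt
          exact absurd hgt (by decide)
        · rw [e, e2] at hgt
          exact absurd hgt (by decide)
        · rw [e, e2] at hgt
          exact absurd hgt (by decide)
        · exact e2
      exact h3.1 y ey z ez x ex
    · rw [e] at hgt
      exact absurd hgt (not_lt.2 (Fin.le_last (f x)))

theorem blk {a : X} {A B C : BT X} {f : X → Fin 4} (hf : Lab a A B C f) {v : X → Word c}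
    (h : Sh v (nd (lf a) (nd A (nd B C)))) (y y' y'' : X) (h1 : f y'' ≠ f y)
    (h2 : f y'' ≠ f y') :
    Cc (v y'') (v y) (v y') ↔ (f y = f y' ∨ (f y'' < f y ∧ f y'' < f y')) := by
  by_cases h3 : f y = f y'
  · exact ⟨fun _ => Or.inl h3, fun _ => same hf h y'' y y' h1 h3⟩
  · by_cases h4 : f y'' < f y ∧ f y'' < f y'
    · exact ⟨fun _ => Or.inr h4, fun _ => below hf h y'' y y' h4.1 h4.2⟩
    · constructor
      · intro hc
        exfalso
        have h5 : (f y < f y' ∧ f y < f y'') ∨ (f y' < f y ∧ f y' < f y'') := by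
          by_cases h6 : f y'' < f y
          · right
            have h7 : ¬ f y'' < f y' := fun h8 => h4 ⟨h6, h8⟩
            have h8 : f y' < f y'' := lt_of_le_of_ne (not_lt.1 h7) (fun h9 => h2 h9.symm)
            exact ⟨h8.trans h6, h8⟩
          · have h8 : f y < f y'' := lt_of_le_of_ne (not_lt.1 h6) (fun h9 => h1 h9.symm)
            rcases lt_or_gt_of_ne h3 with h9 | h9
            · exact Or.inl ⟨h9, h8⟩
            · exact Or.inr ⟨h9, h9.trans h8⟩
        rcases h5 with ⟨h6, h7⟩ | ⟨h6, h7⟩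
        · exact cc_asymm (below hf h y y'' y' h7 h6) hc
        · exact cc_asymm (below hf h y' y'' y h7 h6) (cc_symm hc)
      · rintro (h5 | h5)
        · exact absurd h5 h3
        · exact absurd h5 h4

end FBET

open FBET in
theorem BET_pf (hQFT : S_QFT) (hFAT : S_FAT) (hSHF : S_SHF) : S_BET := by
  intro c σ 𝔅 hI hF3 hBP X _ a A B C v w hall hv hw
  have hvinj : Function.Injective v := by
    intro x y hxy
    exact ((hSHF c X _).1 v hv).2 (hall x) (hall y) hxy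
  have hallw : ∀ x, x ∈ (nd (lf a) (nd B (nd A C))).lvs := by
    intro x
    have := hall x
    simp only [BT.lvs, List.mem_append, List.mem_singleton] at this ⊢
    tauto
  have hwinj : Function.Injective w := by
    intro x y hxy
    exact ((hSHF c X _).1 w hw).2 (hallw x) (hallw y) hxy
  -- disjointness
  have hv' := hv
  obtain ⟨-, ⟨-, ⟨-, -, h3⟩, h4⟩, h5⟩ := hv'
  simp only [BT.lvs] at h3 h4 h5
  have dA : ∀ x, x ∈ A.lvs ++ (B.lvs ++ C.lvs) → x ≠ a := by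
    rintro x hx rfl
    exact cc_irrefl (h5.2 x (by simp) x hx x hx)
  have dB : ∀ x, x ∈ B.lvs ++ C.lvs → x ∉ A.lvs := by
    intro x hx hx'
    exact cc_irrefl (h4.2 x hx' x hx x hx)
  have dC : ∀ x, x ∈ C.lvs → x ∉ B.lvs := by
    intro x hx hx'
    exact cc_irrefl (h3.2 x hx' x hx x hx)
  let π : X → Fin 4 := fun x => if x = a then 0 else if x ∈ A.lvs then 1 else
    if x ∈ B.lvs then 2 else 3
  have hπ : Lab a A B C π := by
    intro x
    have hx := hall x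
    simp only [BT.lvs, List.mem_append, List.mem_singleton] at hx
    by_cases e1 : x = a
    · exact Or.inl ⟨if_pos e1, e1⟩
    · by_cases e2 : x ∈ A.lvs
      · exact Or.inr (Or.inl ⟨by simp only [π]; rw [if_neg e1, if_pos e2], e2⟩)
      · by_cases e3 : x ∈ B.lvs
        · exact Or.inr (Or.inr (Or.inl
            ⟨by simp only [π]; rw [if_neg e1, if_neg e2, if_pos e3], e3⟩))
        · exact Or.inr (Or.inr (Or.inr
            ⟨by simp only [π]; rw [if_neg e1, if_neg e2, if_neg e3], by tauto⟩))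
  have hτπ : Lab a B A C (fun x => Equiv.swap (1 : Fin 4) 2 (π x)) := by
    intro x
    rcases hπ x with ⟨e, e'⟩ | ⟨e, e'⟩ | ⟨e, e'⟩ | ⟨e, e'⟩
    · exact Or.inl ⟨by simp only [e]; decide, e'⟩
    · exact Or.inr (Or.inr (Or.inl ⟨by simp only [e]; decide, e'⟩))
    · exact Or.inr (Or.inl ⟨by simp only [e]; decide, e'⟩)
    · exact Or.inr (Or.inr (Or.inr ⟨by simp only [e]; decide, e'⟩))
  have hs : ∀ i : Fin 4, ∃ x, π x = i := by
    intro i
    obtain ⟨xA, hA⟩ := lvs_ne A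
    obtain ⟨xB, hB⟩ := lvs_ne B
    obtain ⟨xC, hC⟩ := lvs_ne C
    fin_cases i
    · exact ⟨a, if_pos rfl⟩
    · refine ⟨xA, ?_⟩
      have e1 : xA ≠ a := dA xA (by simp [hA])
      simp only [π]
      rw [if_neg e1, if_pos hA]
      rfl
    · refine ⟨xB, ?_⟩
      have e1 : xB ≠ a := dA xB (by simp [hB])
      have e2 : xB ∉ A.lvs := dB xB (by simp [hB])
      simp only [π]
      rw [if_neg e1, if_neg e2, if_pos hB]
      rfl
    · refine ⟨xC, ?_⟩
      have e1 : xC ≠ a := dA xC (by simp [hC])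
      have e2 : xC ∉ A.lvs := dB xC (by simp [hC])
      have e3 : xC ∉ B.lvs := dC xC hC
      simp only [π]
      rw [if_neg e1, if_neg e2, if_neg e3]
      rfl
  choose s hs using hs
  have hsinj : Function.Injective s := by
    intro i j hij
    rw [← hs i, ← hs j, hij]
  let v₁ : Fin 4 → Word c := fun i => v (s i)
  let w₁ : Fin 4 → Word c := fun i => w (s i)
  have hv₁ : Function.Injective v₁ := hvinj.comp hsinj
  have hw₁ : Function.Injective w₁ := hwinj.comp hsinj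
  have hτ : ∀ x y : Fin 4, Equiv.swap (1 : Fin 4) 2 x = Equiv.swap (1 : Fin 4) 2 y ↔ x = y :=
    fun x y => (Equiv.swap (1 : Fin 4) 2).injective.eq_iff
  have bv : Bl π v₁ v := by
    intro y y' y'' g1 g2
    rw [blk hπ hv y y' y'' g1 g2]
    show _ ↔ Cc (v (s (π y''))) (v (s (π y))) (v (s (π y')))
    rw [blk hπ hv (s (π y)) (s (π y')) (s (π y'')) (by rw [hs, hs]; exact g1)
      (by rw [hs, hs]; exact g2), hs, hs, hs]
  have bw : Bl π w₁ w := by
    intro y y' y'' g1 g2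
    rw [blk hτπ hw y y' y'' (fun h => g1 ((hτ _ _).1 h)) (fun h => g2 ((hτ _ _).1 h))]
    show _ ↔ Cc (w (s (π y''))) (w (s (π y))) (w (s (π y')))
    rw [blk hτπ hw (s (π y)) (s (π y')) (s (π y''))
      (fun h => g1 (by rw [← hs (π y''), ← hs (π y)]; exact (hτ _ _).1 h))
      (fun h => g2 (by rw [← hs (π y''), ← hs (π y')]; exact (hτ _ _).1 h)), hs, hs, hs]
  have hQv : Q4 v₁ := by
    have c0 : Cc (v₁ 0) (v₁ 2) (v₁ 3) :=
      (blk hπ hv (s 2) (s 3) (s 0) (by rw [hs, hs]; decide) (by rw [hs, hs]; decide)).2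
        (Or.inr ⟨by rw [hs, hs]; decide, by rw [hs, hs]; decide⟩)
    have c1 : Cc (v₁ 1) (v₁ 2) (v₁ 3) :=
      (blk hπ hv (s 2) (s 3) (s 1) (by rw [hs, hs]; decide) (by rw [hs, hs]; decide)).2
        (Or.inr ⟨by rw [hs, hs]; decide, by rw [hs, hs]; decide⟩)
    exact ⟨fun h => absurd (hv₁ h) (by decide), fun h => absurd (hv₁ h) (by decide),
      Or.inr ⟨c0, c1⟩⟩
  have hQw : Q4 (fun i => w₁ (Equiv.swap (1 : Fin 4) 2 i)) := by
    have t0 : Equiv.swap (1 : Fin 4) 2 0 = 0 := by decide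
    have t1 : Equiv.swap (1 : Fin 4) 2 1 = 2 := by decide
    have t2 : Equiv.swap (1 : Fin 4) 2 2 = 1 := by decide
    have t3 : Equiv.swap (1 : Fin 4) 2 3 = 3 := by decide
    have c0 : Cc (w₁ 0) (w₁ 1) (w₁ 3) :=
      (blk hτπ hw (s 1) (s 3) (s 0) (by rw [hs, hs]; decide) (by rw [hs, hs]; decide)).2
        (Or.inr ⟨by rw [hs, hs]; decide, by rw [hs, hs]; decide⟩)
    have c1 : Cc (w₁ 2) (w₁ 1) (w₁ 3) :=
      (blk hτπ hw (s 1) (s 3) (s 2) (by rw [hs, hs]; decide) (by rw [hs, hs]; decide)).2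
        (Or.inr ⟨by rw [hs, hs]; decide, by rw [hs, hs]; decide⟩)
    show Qr (w₁ (Equiv.swap (1 : Fin 4) 2 0)) (w₁ (Equiv.swap (1 : Fin 4) 2 1))
      (w₁ (Equiv.swap (1 : Fin 4) 2 2)) (w₁ (Equiv.swap (1 : Fin 4) 2 3))
    rw [t0, t1, t2, t3]
    exact ⟨fun h => absurd (hw₁ h) (by decide), fun h => absurd (hw₁ h) (by decide),
      Or.inr ⟨c0, c1⟩⟩
  obtain ⟨v₀, w₀, hv₀, hw₀, hfat, hq1, hq2⟩ := hBP
  have hQw₀ : Q4 (fun i => w₀ (Equiv.swap (1 : Fin 4) 2 i)) := by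
    have t0 : Equiv.swap (1 : Fin 4) 2 0 = 0 := by decide
    have t1 : Equiv.swap (1 : Fin 4) 2 1 = 2 := by decide
    have t2 : Equiv.swap (1 : Fin 4) 2 2 = 1 := by decide
    have t3 : Equiv.swap (1 : Fin 4) 2 3 = 3 := by decide
    show Qr (w₀ (Equiv.swap (1 : Fin 4) 2 0)) (w₀ (Equiv.swap (1 : Fin 4) 2 1))
      (w₀ (Equiv.swap (1 : Fin 4) 2 2)) (w₀ (Equiv.swap (1 : Fin 4) 2 3))
    rw [t0, t1, t2, t3]
    exact hq2
  have hτi : Function.Injective (Equiv.swap (1 : Fin 4) 2) := (Equiv.swap (1 : Fin 4) 2).injective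
  -- the three fat arrows
  have f1 : Fat 𝔅 {1, 2, 3} v₁ v₀ := by
    have g := hQFT c σ 𝔅 hI hF3 v₁ v₀ hv₁ hv₀ hQv hq1
    exact (hFAT c σ 𝔅 hI (Fin 4) Set.univ v₁ v₀ hv₁ hv₀).2.2.2.1 _ (Set.subset_univ _) g
  have f3 : Fat 𝔅 {1, 2, 3} w₀ w₁ := by
    have g := hQFT c σ 𝔅 hI hF3 _ _ (hw₀.comp hτi) (hw₁.comp hτi) hQw₀ hQw
    have g2 := (hFAT c σ 𝔅 hI (Fin 4) Set.univ _ _ (hw₀.comp hτi) (hw₁.comp hτi)).2.2.2.2.2.1
      (Fin 4) (Equiv.swap (1 : Fin 4) 2) hτi g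
    have e0 : (fun x => (w₀ ∘ Equiv.swap (1 : Fin 4) 2) (Equiv.swap (1 : Fin 4) 2 x)) = w₀ := by
      funext x
      simp
    have e1 : (fun x => (w₁ ∘ Equiv.swap (1 : Fin 4) 2) (Equiv.swap (1 : Fin 4) 2 x)) = w₁ := by
      funext x
      simp
    rw [e0, e1] at g2
    exact (hFAT c σ 𝔅 hI (Fin 4) _ w₀ w₁ hw₀ hw₁).2.2.2.1 _ (fun x _ => Set.mem_univ _) g2
  have f12 : Fat 𝔅 {1, 2, 3} v₁ w₀ :=
    (hFAT c σ 𝔅 hI (Fin 4) {1, 2, 3} v₁ w₀ hv₁ hw₀).2.2.1 v₀ hv₀ f1 hfat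
  have f123 : Fat 𝔅 {1, 2, 3} v₁ w₁ :=
    (hFAT c σ 𝔅 hI (Fin 4) {1, 2, 3} v₁ w₁ hv₁ hw₁).2.2.1 w₀ hw₀ f12 f3
  refine f123 X π v w ?_ hvinj hwinj bv bw ?_
  · intro y y' h1 h2
    have h0 : π y = 0 := by
      rcases hπ y with ⟨e, -⟩ | ⟨e, -⟩ | ⟨e, -⟩ | ⟨e, -⟩
      · exact e
      all_goals
        exfalso
        apply h2
        rw [e]
        simp
    have key : ∀ u, π u = 0 → u = a := by
      intro u hu
      rcases hπ u with ⟨-, e⟩ | ⟨e, -⟩ | ⟨e, -⟩ | ⟨e, -⟩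
      · exact e
      all_goals
        rw [e] at hu
        exact absurd hu (by decide)
    rw [key y h0, key y' (h1 ▸ h0)]
  · intro i
    obtain ⟨-, ⟨svA, ⟨svB, svC, -⟩, -⟩, -⟩ := hv
    obtain ⟨-, ⟨swB, ⟨swA, swC, -⟩, -⟩, -⟩ := hw
    have block : ∀ (T : BT X), Sh v T → Sh w T → (∀ y, π y = i → y ∈ T.lvs) →
        SameOn {y | π y = i} v w := fun T h1 h2 h3 =>
      ((hSHF c X T).2.1 v w h1 h2).mono fun y hy => h3 y hy
    fin_cases i
    · refine block (lf a) trivial trivial ?_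
      intro y hy
      rcases hπ y with ⟨-, e⟩ | ⟨e, -⟩ | ⟨e, -⟩ | ⟨e, -⟩
      · simp [BT.lvs, e]
      all_goals
        rw [e] at hy
        exact absurd hy (by decide)
    · refine block A svA swA ?_
      intro y hy
      rcases hπ y with ⟨e, -⟩ | ⟨-, e⟩ | ⟨e, -⟩ | ⟨e, -⟩
      · rw [e] at hy
        exact absurd hy (by decide)
      · exact e
      all_goals
        rw [e] at hy
        exact absurd hy (by decide)
    · refine block B svB swB ?_
      intro y hy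
      rcases hπ y with ⟨e, -⟩ | ⟨e, -⟩ | ⟨-, e⟩ | ⟨e, -⟩
      · rw [e] at hy
        exact absurd hy (by decide)
      · rw [e] at hy
        exact absurd hy (by decide)
      · exact e
      · rw [e] at hy
        exact absurd hy (by decide)
    · refine block C svC swC ?_
      intro y hy
      rcases hπ y with ⟨e, -⟩ | ⟨e, -⟩ | ⟨e, -⟩ | ⟨-, e⟩
      · rw [e] at hy
        exact absurd hy (by decide)
      · rw [e] at hy
        exact absurd hy (by decide)
      · rw [e] at hy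
        exact absurd hy (by decide)
      · exact e

end Pool.Agent.Work.MP_8dbde4_lc.Full
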