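import Pool.Agent.Work.MP_8dbde4_lc.Full.StmtsB

/-!
The back-and-forth system between the two glued structures of a frame: see the docstring of
`S_BFG`. Adapted from `Phy/I_BFP.lean`.
-/

set_option autoImplicit false
open Classical

namespace Pool.Agent.Work.MP_8dbde4_lc.Full

open Pool.Agent.Work.MP_8dbde4_lc.TS Pool.Agent.Work.MP_8dbde4_lc.Tree
  Pool.Agent.Work.MP_8dbde4_lc.Phy BT

namespace FBFG

variable {σ : Sig} {G : Type} [Group G] {g h : G} {p : ℕ} {E T K D X : Type}

/-- The action of the flips. -/
def act (fr : Frame G g h p E T K X) (y : G → ZMod p) : E ⊕ T × D → E ⊕ T × D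
  | .inl e => .inl (fr.aE y e)
  | .inr (τ, d) => .inr (fr.aT y τ, d)

/-- The base of an element. -/
def base (fr : Frame G g h p E T K X) : E ⊕ T × D → G ⊕ G
  | .inl e => fr.bE e
  | .inr (τ, _) => Sum.inr (fr.bT τ)

theorem base_act (fr : Frame G g h p E T K X) (y : G → ZMod p) (x : E ⊕ T × D) :
    base fr (act fr y x) = base fr x := by
  rcases x with e | ⟨τ, d⟩
  · exact fr.aE_base y e
  · simp only [act, base, fr.aT_base]

theorem act_congr (fr : Frame G g h p E T K X) (y y' : G → ZMod p) (x : E ⊕ T × D)
    (hy : ∀ u ∈ tbb g h (base fr x), y u = y' u) : act fr y x = act fr y' x := by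
  rcases x with e | ⟨τ, d⟩
  · have h1 := fr.aE_congr y y' e hy
    simp only [act, h1]
  · have h1 := fr.aT_congr y y' τ hy
    simp only [act, h1]

theorem act_neg (fr : Frame G g h p E T K X) (y : G → ZMod p) (x : E ⊕ T × D) :
    act fr (fun u => - y u) (act fr y x) = x := by
  rcases x with e | ⟨τ, d⟩
  · simp only [act, fr.aE_neg]
  · simp only [act, fr.aT_neg]

theorem act_neg' (fr : Frame G g h p E T K X) (y : G → ZMod p) (x : E ⊕ T × D) :
    act fr y (act fr (fun u => - y u) x) = x := by
  have h1 := act_neg fr (fun u => - y u) x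
  simp only [neg_neg] at h1
  exact h1

theorem act_inj (fr : Frame G g h p E T K X) (y : G → ZMod p) :
    Function.Injective (act fr y : E ⊕ T × D → _) := by
  intro x x' h
  rw [← act_neg fr y x, ← act_neg fr y x', h]

theorem psE_act (fr : Frame G g h p E T K X) (m : K → X → D) {b b' : ZMod p}
    {y : G → ZMod p} (hy : y 1 = 0) (τ : T)
    (hrow : y (fr.bT τ) + y (fr.bT τ * g) - y (fr.bT τ * h) = b' - b) (d : D) :
    act fr y (psE (m (fr.kd τ)) (fr.ep b τ) τ d) =
      psE (m (fr.kd (fr.aT y τ))) (fr.ep b' (fr.aT y τ)) (fr.aT y τ) d := by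
  rw [fr.kd_act y τ]
  unfold psE
  by_cases h0 : ∃ x, m (fr.kd τ) x = d
  · rw [dif_pos h0, dif_pos h0]
    exact congrArg Sum.inl (fr.ep_act b b' y τ hy hrow _)
  · rw [dif_neg h0, dif_neg h0]
    rfl

theorem rel_act (fr : Frame G g h p E T K X) {str : K → Str σ D} {m : K → X → D}
    {b b' : ZMod p} {y : G → ZMod p} (hy : y 1 = 0) {R : σ.S}
    {e : Fin (σ.ar R) → E ⊕ T × D} (he : (Glue str m fr.kd (fr.ep b)).rel R e)
    (hrow : ∀ j v, base fr (e j) = Sum.inr v → y v + y (v * g) - y (v * h) = b' - b) :
    (Glue str m fr.kd (fr.ep b')).rel R (fun j => act fr y (e j)) := by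
  obtain ⟨τ, d, hd, he⟩ := he
  by_cases hb : ∃ j, base fr (e j) = Sum.inr (fr.bT τ)
  · obtain ⟨j₀, hj₀⟩ := hb
    have hr := hrow j₀ _ hj₀
    refine ⟨fr.aT y τ, d, ?_, ?_⟩
    · rw [fr.kd_act y τ]
      exact hd
    · funext j
      rw [he]
      exact psE_act fr m hy τ hr (d j)
  · have hb' : ∀ j, base fr (e j) ≠ Sum.inr (fr.bT τ) := fun j hj => hb ⟨j, hj⟩
    obtain ⟨τ', hk, hτ'⟩ := fr.ep_ex b b' y τ hy
    refine ⟨τ', d, ?_, ?_⟩
    · rw [hk]
      exact hd
    · funext j
      have h3 := hb' j
      rw [he] at h3 ⊢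
      simp only at h3 ⊢
      rw [hk]
      unfold psE at h3 ⊢
      by_cases h0 : ∃ x, m (fr.kd τ) x = d j
      · rw [dif_pos h0] at h3 ⊢
        rw [dif_pos h0]
        exact congrArg Sum.inl (hτ' _ h3)
      · rw [dif_neg h0] at h3
        exact absurd rfl h3

/-- The touched points of a tuple. -/
noncomputable def pts (fr : Frame G g h p E T K X) {k : ℕ} (v : Fin k → E ⊕ T × D) :
    Finset G :=
  insert 1 (Finset.univ.biUnion (fun i => tbb g h (base fr (v i))))

omit [Group G] in
theorem cl_mono [Fintype G] (E : G → Finset G) {P Q : Finset G} (h : P ⊆ Q) :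
    cl E P ⊆ cl E Q := by
  intro x hx
  unfold cl at hx ⊢
  rw [Finset.mem_filter] at hx ⊢
  exact ⟨hx.1, fun T hT hc => hx.2 T (h.trans hT) hc⟩

omit [Group G] in
theorem sub_cl [Fintype G] (E : G → Finset G) (P : Finset G) : P ⊆ cl E P := by
  intro x hx
  unfold cl
  rw [Finset.mem_filter]
  exact ⟨Finset.mem_univ _, fun T hT _ => hT hx⟩

theorem tbb_card (g h : G) (b : G ⊕ G) : (tbb g h b).card ≤ 3 := by
  cases b with
  | inl v => simp [tbb]
  | inr v => exact Finset.card_le_three

/-- The system. -/
def ZZ [Fintype G] (fr : Frame G g h p E T K X) (k : ℕ) (v w : Fin k → E ⊕ T × D) : Prop :=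
  ∃ y : G → ZMod p, y 1 = 0 ∧ (∀ u, row g h u ⊆ cl (row g h) (pts fr v) → RowEq g h y u) ∧
    ∀ i, w i = act fr y (v i)

end FBFG

open FBFG in
theorem BFG_pf (h2 : Tree.S_EXT) : S_BFG := by
  intro σ G _ _ g h p E T K D X str m fr k hp hrow hDen
  have : Fintype G := Fintype.ofFinite G
  have hrel : ∀ (v w : Fin k → E ⊕ T × D), ZZ fr k v w → ∀ (R : σ.S)
      (i : Fin (σ.ar R) → Fin k), (Glue str m fr.kd (fr.ep 0)).rel R (fun j => v (i j)) ↔
        (Glue str m fr.kd (fr.ep 1)).rel R (fun j => w (i j)) := by
    rintro v w ⟨y, hy1, hy2, hy3⟩ R i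
    have hR : ∀ (j : Fin (σ.ar R)) u, base fr (v (i j)) = Sum.inr u →
        y u + y (u * g) - y (u * h) = 1 := by
      intro j u hu
      apply hy2
      refine Finset.Subset.trans ?_ (sub_cl _ _)
      unfold pts
      refine Finset.Subset.trans ?_ (Finset.subset_insert _ _)
      intro z hz
      rw [Finset.mem_biUnion]
      exact ⟨i j, Finset.mem_univ _, by rw [hu]; exact hz⟩
    constructor
    · intro hT
      have h3 := rel_act (b' := 1) (y := y) fr hy1 hT (by
        intro j u hu
        rw [hR j u hu, sub_zero])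
      simpa only [← hy3] using h3
    · intro hT
      have h3 := rel_act (b' := 0) (y := fun u => - y u) fr (by simp [hy1]) hT (by
        intro j u hu
        rw [hy3, base_act] at hu
        have := hR j u hu
        rw [← this]
        ring)
      have h4 : (fun j => act fr (fun u => - y u) (w (i j))) = fun j => v (i j) := by
        funext j
        rw [hy3, act_neg]
      rw [h4] at h3
      exact h3
  refine ⟨ZZ fr k, ⟨hrel, ?_, ?_, ?_⟩, ?_⟩
  · rintro v w ⟨y, hy1, hy2, hy3⟩ i j
    rw [hy3, hy3]
    exact (act_inj fr y).eq_iff.symm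
  · rintro v w ⟨y, hy1, hy2, hy3⟩ ρ
    refine ⟨y, hy1, ?_, fun i => hy3 (ρ i)⟩
    intro u hu
    apply hy2
    refine hu.trans (cl_mono _ ?_)
    unfold pts
    apply Finset.insert_subset_insert
    intro z hz
    rw [Finset.mem_biUnion] at hz ⊢
    obtain ⟨i, _, hi⟩ := hz
    exact ⟨ρ i, Finset.mem_univ _, hi⟩
  · rintro v w ⟨y, hy1, hy2, hy3⟩ x
    obtain ⟨P, hP⟩ : ∃ P : Finset G, P = insert 1 ((Finset.univ.erase x).biUnion
      (fun i => tbb g h (base fr (v i)))) := ⟨_, rfl⟩
    have hPcard : P.card ≤ 3 * k + 1 := by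
      rw [hP]
      refine (Finset.card_insert_le _ _).trans ?_
      have h3 : ((Finset.univ.erase x).biUnion (fun i => tbb g h (base fr (v i)))).card ≤
          (Finset.univ.erase x).card * 3 := by
        apply Finset.card_biUnion_le_card_mul
        intro i _
        exact tbb_card g h _
      have h4 : (Finset.univ.erase x : Finset (Fin k)).card ≤ k := by
        refine (Finset.card_le_univ _).trans ?_
        simp
      omega
    have hPsub : P ⊆ pts fr v := by
      rw [hP]
      unfold pts
      apply Finset.insert_subset_insert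
      apply Finset.biUnion_subset_biUnion_of_subset_left
      exact Finset.subset_univ _
    have hext : ∀ b : G ⊕ G, ∃ y' : G → ZMod p, (∀ u ∈ cl (row g h) P, y' u = y u) ∧
        ∀ u, row g h u ⊆ cl (row g h) (P ∪ tbb g h b) → RowEq g h y' u := by
      intro b
      apply h2 G g h (3 * k + 5) p P (P ∪ tbb g h b) y hrow hDen Finset.subset_union_left
      · have h3 := Finset.card_union_le P (tbb g h b)
        have h4 := tbb_card g h b
        omega
      · intro u hu
        exact hy2 u (hu.trans (cl_mono _ hPsub))
    choose ys hys1 hys2 using hext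
    refine ⟨⟨fun a => act fr (ys (base fr a)) a, fun a => act fr (fun u => - ys (base fr a) u) a,
      ?_, ?_⟩, ?_⟩
    · intro a
      simp only [base_act]
      exact act_neg fr _ a
    · intro a
      simp only [base_act]
      exact act_neg' fr _ a
    · intro a
      refine ⟨ys (base fr a), ?_, ?_, ?_⟩
      · rw [hys1 (base fr a) 1, hy1]
        apply sub_cl
        rw [hP]
        exact Finset.mem_insert_self _ _
      · intro u hu
        apply hys2
        refine hu.trans (cl_mono _ ?_)
        intro z hz
        unfold pts at hz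
        rw [Finset.mem_insert, Finset.mem_biUnion] at hz
        rw [Finset.mem_union]
        rcases hz with hz | ⟨i, _, hi⟩
        · left
          rw [hP, hz]
          exact Finset.mem_insert_self _ _
        · by_cases hix : i = x
          · right
            rw [hix, Function.update_self] at hi
            exact hi
          · left
            rw [Function.update_of_ne hix] at hi
            rw [hP]
            apply Finset.mem_insert_of_mem
            rw [Finset.mem_biUnion]
            exact ⟨i, Finset.mem_erase.2 ⟨hix, Finset.mem_univ _⟩, hi⟩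
      · intro i
        by_cases hix : i = x
        · rw [hix, Function.update_self, Function.update_self]
          rfl
        · rw [Function.update_of_ne hix, Function.update_of_ne hix, hy3]
          apply act_congr fr
          intro u hu
          rw [hys1 (base fr a) u]
          apply sub_cl
          rw [hP]
          apply Finset.mem_insert_of_mem
          rw [Finset.mem_biUnion]
          exact ⟨i, Finset.mem_erase.2 ⟨hix, Finset.mem_univ _⟩, hu⟩
  · refine ⟨fun _ => Sum.inl fr.e0, fun _ => Sum.inl fr.e0, fun _ => 0, rfl, ?_, ?_⟩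
    · intro u hu
      exfalso
      have h3 : cl (row g h) (pts fr (fun _ : Fin k => (Sum.inl fr.e0 : E ⊕ T × D))) ⊆
          {1} := by
        intro z hz
        unfold cl at hz
        rw [Finset.mem_filter] at hz
        apply hz.2
        · unfold pts
          intro z' hz'
          rw [Finset.mem_insert, Finset.mem_biUnion] at hz'
          rcases hz' with hz' | ⟨i, _, hi⟩
          · rw [hz']
            exact Finset.mem_singleton_self _
          · simpa only [base, fr.be0, tbb] using hi
        · intro u' hu'
          exfalso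
          have h4 : (row g h u' ∩ {1}).card ≤ 1 := by
            refine (Finset.card_le_card Finset.inter_subset_right).trans ?_
            simp
          omega
      have h5 := Finset.card_le_card (hu.trans h3)
      rw [hrow u, Finset.card_singleton] at h5
      omega
    · intro i
      simp only [act, fr.aE_zero]

end Pool.Agent.Work.MP_8dbde4_lc.Full
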