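import Pool.Agent.Work.MP_8dbde4_lc.Full.StmtsA

/-!
# Item BLF: facts on blow-ups
-/

set_option autoImplicit false
open Classical

namespace Pool.Agent.Work.MP_8dbde4_lc.Full

open Pool.Agent.Work.MP_8dbde4_lc.TS Pool.Agent.Work.MP_8dbde4_lc.Tree
  Pool.Agent.Work.MP_8dbde4_lc.Phy BT

namespace FBLF

variable {c : ℚ → Bool} {X Y : Type} {π : Y → X} {v : X → Word c}

theorem bl_not {w : Y → Word c} (hv : Function.Injective v) (hb : Bl π v w) {x y z : Y}
    (h : π z = π x) (h' : π z ≠ π y) : ¬ Cc (w z) (w x) (w y) := by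
  intro h1
  have h2 : Cc (w y) (w z) (w x) := by
    rw [hb z x y (Ne.symm h') (by rw [← h]; exact Ne.symm h'), h]
    apply cc_self
    intro h3
    exact h' (by rw [h]; exact (hv h3).symm)
  exact cc_asymm h2 (cc_symm h1)

theorem bl_not' {w : Y → Word c} (hv : Function.Injective v) (hb : Bl π v w) {x y z : Y}
    (h : π z = π y) (h' : π z ≠ π x) : ¬ Cc (w z) (w x) (w y) :=
  fun h1 => bl_not hv hb h h' (cc_symm h1)

end FBLF

open FBLF in
theorem BLF_pf : S_BLF := by
  intro c X Y π v v' hv hv' hb
  refine ⟨?_, ?_, ?_, ?_⟩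
  · intro hπ
    refine ⟨?_, ?_⟩
    · intro x _ y _
      constructor
      · intro h
        rw [hπ (hv h)]
      · intro h
        rw [hv' h]
    · intro x _ y _ z _
      by_cases h1 : z = x
      · subst h1
        exact ⟨fun h => absurd h cc_irrefl, fun h => absurd h cc_irrefl⟩
      · by_cases h2 : z = y
        · subst h2
          exact ⟨fun h => absurd h cc_irrefl', fun h => absurd h cc_irrefl'⟩
        · exact (hb x y z (fun h => h1 (hπ h)) (fun h => h2 (hπ h))).symm
  · intro Z ρ v'' hb' y y' y'' h1 h2
    rw [hb' y y' y'' (fun h => h1 (congrArg π h)) (fun h => h2 (congrArg π h))]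
    exact hb _ _ _ h1 h2
  · intro v'' hv'' hb'' hs
    refine ⟨?_, ?_⟩
    · intro x _ y _
      constructor
      · intro h
        rw [hv' h]
      · intro h
        rw [hv'' h]
    · intro x _ y _ z _
      by_cases h1 : π z = π x
      · by_cases h2 : π z = π y
        · exact (hs (π z)).2 x h1.symm y h2.symm z rfl
        · exact ⟨fun h => absurd h (bl_not hv hb h1 h2), fun h => absurd h (bl_not hv hb'' h1 h2)⟩
      · by_cases h2 : π z = π y
        · exact ⟨fun h => absurd h (bl_not' hv hb h2 h1),
            fun h => absurd h (bl_not' hv hb'' h2 h1)⟩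
        · rw [hb x y z h1 h2, hb'' x y z h1 h2]
  · intro s hs
    refine ⟨?_, ?_⟩
    · intro x _ y _
      constructor
      · intro h
        rw [hv h]
      · intro h
        have h1 := hv' h
        rw [← hs x, ← hs y, h1]
    · intro x _ y _ z _
      by_cases h1 : z = x
      · subst h1
        exact ⟨fun h => absurd h cc_irrefl, fun h => absurd h cc_irrefl⟩
      · by_cases h2 : z = y
        · subst h2
          exact ⟨fun h => absurd h cc_irrefl', fun h => absurd h cc_irrefl'⟩
        · have h3 := hb (s x) (s y) (s z) (by rw [hs, hs]; exact h1) (by rw [hs, hs]; exact h2)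
          rw [hs, hs, hs] at h3
          exact h3.symm

end Pool.Agent.Work.MP_8dbde4_lc.Full
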