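import Pool.Agent.Work.MP_8dbde4_lc.Full.StmtsB

set_option autoImplicit false
open Classical

namespace Pool.Agent.Work.MP_8dbde4_lc.Full

open Pool.Agent.Work.MP_8dbde4_lc.TS Pool.Agent.Work.MP_8dbde4_lc.Tree
  Pool.Agent.Work.MP_8dbde4_lc.Phy BT

namespace FBLT

variable {c : ℚ → Bool} {σ : Sig}

/-- `Rm a T S`: the tree `S` is `T` without the leaf `a`. -/
inductive Rm {X : Type} (a : X) : BT X → BT X → Prop
  | l (r : BT X) : Rm a (nd (lf a) r) r
  | r (l : BT X) : Rm a (nd l (lf a)) l
  | il {l l' : BT X} (r : BT X) : Rm a l l' → Rm a (nd l r) (nd l' r)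
  | ir {r r' : BT X} (l : BT X) : Rm a r r' → Rm a (nd l r) (nd l r')

theorem Rm.perm {X : Type} {a : X} {T S : BT X} (h : Rm a T S) :
    List.Perm T.lvs (a :: S.lvs) := by
  induction h with
  | l r => exact List.Perm.refl _
  | r l => exact List.perm_append_comm (l₁ := l.lvs) (l₂ := [a])
  | il r _ ih => exact ih.append_right r.lvs
  | @ir r r' l _ ih =>
    exact (ih.append_left l.lvs).trans List.perm_middle

theorem rm_ex {X : Type} (a : X) (T : BT X) (h : a ∈ T.lvs) : T = lf a ∨ ∃ S, Rm a T S := by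
  induction T with
  | lf x =>
    left
    simp only [BT.lvs, List.mem_singleton] at h
    rw [h]
  | nd l r ihl ihr =>
    right
    simp only [BT.lvs, List.mem_append] at h
    rcases h with h | h
    · rcases ihl h with h1 | ⟨S, h1⟩
      · rw [h1]; exact ⟨r, Rm.l r⟩
      · exact ⟨nd S r, Rm.il r h1⟩
    · rcases ihr h with h1 | ⟨S, h1⟩
      · rw [h1]; exact ⟨l, Rm.r l⟩
      · exact ⟨nd l S, Rm.ir l h1⟩

theorem sep_symm {X : Type} {v : X → Word c} {A B : List X} (h : Sep v A B) : Sep v B A :=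
  ⟨fun x hx y hy z hz => h.2 z hz x hx y hy, fun x hx y hy z hz => h.1 y hy z hz x hx⟩

theorem sep_mono {X : Type} {v : X → Word c} {A B A' B' : List X} (h : Sep v A B)
    (hA : ∀ x ∈ A', x ∈ A) (hB : ∀ x ∈ B', x ∈ B) : Sep v A' B' :=
  ⟨fun x hx y hy z hz => h.1 x (hA x hx) y (hA y hy) z (hB z hz),
    fun x hx y hy z hz => h.2 x (hA x hx) y (hB y hy) z (hB z hz)⟩

theorem sh_swap {X : Type} {v : X → Word c} {l r : BT X} (h : Sh v (nd l r)) : Sh v (nd r l) :=
  ⟨h.2.1, h.1, sep_symm h.2.2⟩

theorem sh_congr_r {X : Type} {v : X → Word c} {l r r' : BT X} (h : Sh v (nd l r))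
    (hr : Sh v r → Sh v r') (hm : ∀ x ∈ r'.lvs, x ∈ r.lvs) : Sh v (nd l r') :=
  ⟨h.1, hr h.2.1, sep_mono h.2.2 (fun _ hx => hx) hm⟩

theorem sh_congr_l {X : Type} {v : X → Word c} {l l' r : BT X} (h : Sh v (nd l r))
    (hl : Sh v l → Sh v l') (hm : ∀ x ∈ l'.lvs, x ∈ l.lvs) : Sh v (nd l' r) :=
  ⟨hl h.1, h.2.1, sep_mono h.2.2 hm (fun _ hx => hx)⟩

theorem mem_swap {X : Type} {l r : BT X} {x : X} (h : x ∈ (nd l r).lvs) : x ∈ (nd r l).lvs := by
  simp only [BT.lvs, List.mem_append] at h ⊢
  exact h.symm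

theorem Rm.sh {X : Type} {a : X} {T S : BT X} (h : Rm a T S) {v : X → Word c} (hT : Sh v T) :
    Sh v S := by
  induction h with
  | l r => exact hT.2.1
  | r l => exact hT.1
  | @il l l' r hl ih =>
    refine sh_congr_l hT ih ?_
    intro x hx
    exact hl.perm.mem_iff.2 (List.mem_cons_of_mem _ hx)
  | @ir r r' l hr ih =>
    refine sh_congr_r hT ih ?_
    intro x hx
    exact hr.perm.mem_iff.2 (List.mem_cons_of_mem _ hx)

section

variable {𝔅 : Str σ (Word c)}

/-- The main step. -/
theorem main (hI : AllInv 𝔅) (hF : F3 𝔅) (hB : BP 𝔅) (h1 : S_F3T) (h2 : S_BET) (h3 : S_ARR)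
    (h4 : S_SHF) (h5 : S_SHX) {X : Type} [Finite X] (a : X) :
    ∀ (n : ℕ) (P B P' : BT X) (v w : X → Word c), P.size ≤ n → Rm a P P' →
      (∀ x, x ∈ (nd P B).lvs) → Sh v (nd P B) → Sh w (nd (lf a) (nd P' B)) → Arr 𝔅 v w := by
  intro n
  induction n with
  | zero =>
    intro P B P' v w hs
    exfalso
    have : ∀ P : BT X, 0 < P.size := by
      intro P
      induction P with
      | lf x => exact Nat.one_pos
      | nd l r ihl ihr => exact Nat.add_pos_left ihl _
    exact absurd hs (not_le.2 (this P))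
  | succ n ih =>
    have hpos : ∀ P : BT X, 0 < P.size := by
      intro P
      induction P with
      | lf x => exact Nat.one_pos
      | nd l r ihl ihr => exact Nat.add_pos_left ihl _
    -- the step with `a` in the left part
    have key : ∀ (A₁ A₂ B A₁' : BT X) (v w : X → Word c), A₁.size ≤ n → Rm a A₁ A₁' →
        (∀ x, x ∈ (nd (nd A₁ A₂) B).lvs) → Sh v (nd (nd A₁ A₂) B) →
        Sh w (nd (lf a) (nd (nd A₁' A₂) B)) → Arr 𝔅 v w := by
      intro A₁ A₂ B A₁' v w hs hR hall hv hw
      have hnd : (nd (nd A₁ A₂) B).lvs.Nodup := ((h4 c X _).1 v hv).1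
      have hnd1 : (nd A₁ (nd A₂ B)).lvs.Nodup := by
        have e : (nd A₁ (nd A₂ B)).lvs = (nd (nd A₁ A₂) B).lvs := by
          simp only [BT.lvs, List.append_assoc]
        rw [e]; exact hnd
      obtain ⟨u1, hu1⟩ := (h5 c X).1 _ hnd1
      have hP : List.Perm (nd A₁ (nd A₂ B)).lvs (nd (lf a) (nd A₁' (nd A₂ B))).lvs := by
        have := hR.perm.append_right (nd A₂ B).lvs
        simpa only [BT.lvs, List.cons_append, List.nil_append] using this
      obtain ⟨u2, hu2⟩ := (h5 c X).1 _ (hP.nodup_iff.1 hnd1)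
      have hall1 : ∀ x, x ∈ (nd A₁ (nd A₂ B)).lvs := by
        intro x
        have := hall x
        simp only [BT.lvs, List.mem_append, List.append_assoc] at this ⊢
        exact this
      have hall2 : ∀ x, x ∈ (nd (lf a) (nd A₁' (nd A₂ B))).lvs := fun x =>
        hP.mem_iff.1 (hall1 x)
      have e1 : Arr 𝔅 v u1 := h1 c σ 𝔅 hI hF X A₁ A₂ B v u1 hall hv hu1
      have e2 : Arr 𝔅 u1 u2 := ih A₁ (nd A₂ B) A₁' u1 u2 hs hR hall1 hu1 hu2
      have e3 : Arr 𝔅 u2 w := by
        refine h2 c σ 𝔅 hI hF hB X a A₁' B A₂ u2 w ?_ ?_ ?_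
        · intro x
          have := hall2 x
          simp only [BT.lvs, List.mem_append] at this ⊢
          tauto
        · refine sh_congr_r hu2 (fun h => sh_congr_r h sh_swap ?_) ?_
          · intro x hx
            exact mem_swap hx
          · intro x hx
            simp only [BT.lvs, List.mem_append] at hx ⊢
            tauto
        · refine sh_congr_r hw sh_swap ?_
          intro x hx
          exact mem_swap hx
      exact e1.trans (e2.trans e3)
    intro P B P' v w hs hR hall hv hw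
    cases hR with
    | l r =>
      exact h1 c σ 𝔅 hI hF X (lf a) P' B v w hall hv hw
    | r l =>
      refine h1 c σ 𝔅 hI hF X (lf a) P' B v w ?_ ?_ hw
      · intro x
        have := hall x
        simp only [BT.lvs, List.mem_append] at this ⊢
        tauto
      · exact sh_congr_l hv sh_swap (fun x hx => mem_swap hx)
    | @il l l' r h =>
      refine key l r B l' v w ?_ h hall hv hw
      have := hpos r
      simp only [BT.size] at hs
      omega
    | @ir r r' l h =>
      refine key r l B r' v w ?_ h ?_ ?_ ?_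
      · have := hpos l
        simp only [BT.size] at hs
        omega
      · intro x
        have := hall x
        simp only [BT.lvs, List.mem_append] at this ⊢
        tauto
      · exact sh_congr_l hv sh_swap (fun x hx => mem_swap hx)
      · refine sh_congr_r hw (fun h => sh_congr_l h sh_swap (fun x hx => mem_swap hx)) ?_
        intro x hx
        simp only [BT.lvs, List.mem_append] at hx ⊢
        tauto

theorem fin (hI : AllInv 𝔅) (hF : F3 𝔅) (hB : BP 𝔅) (h1 : S_F3T) (h2 : S_BET) (h3 : S_ARR)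
    (h4 : S_SHF) (h5 : S_SHX) {X : Type} [Finite X] (v w : Option X → Word c)
    (hv : Function.Injective v) (hw : Function.Injective w) (hs : SameOn {o | o ≠ none} v w)
    (ht : ∀ x y : X, Cc (w none) (w (some x)) (w (some y))) (P B : BT (Option X))
    (hall : ∀ x, x ∈ (nd P B).lvs) (hsh : Sh v (nd P B)) (hP : none ∈ P.lvs) : Arr 𝔅 v w := by
  have hnd : (nd P B).lvs.Nodup := ((h4 c _ _).1 v hsh).1
  -- the new shape
  have claim : ∀ S : BT (Option X), List.Perm (nd P B).lvs (none :: S.lvs) → Sh v S →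
      Sh w (nd (lf none) S) := by
    intro S hp hS
    have hnd' : (none :: S.lvs).Nodup := hp.nodup_iff.1 hnd
    have hno : ∀ x ∈ S.lvs, x ≠ none := by
      intro x hx h
      subst h
      exact (List.nodup_cons.1 hnd').1 hx
    refine ⟨trivial, ?_, ?_, ?_⟩
    · refine (h4 c _ S).2.2.1 v w hS ⟨?_, ?_⟩
      · intro x hx y hy
        exact hs.1 x (hno x hx) y (hno y hy)
      · intro x hx y hy z hz
        exact hs.2 x (hno x hx) y (hno y hy) z (hno z hz)
    · intro x hx y hy z hz
      simp only [BT.lvs, List.mem_singleton] at hx hy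
      subst hx
      subst hy
      exact cc_self (fun h => hno z hz (hw h))
    · intro x hx y hy z hz
      simp only [BT.lvs, List.mem_singleton] at hx
      subst hx
      have hy' := hno y hy
      have hz' := hno z hz
      obtain ⟨y', rfl⟩ := Option.ne_none_iff_exists'.1 hy'
      obtain ⟨z', rfl⟩ := Option.ne_none_iff_exists'.1 hz'
      exact ht y' z'
  rcases rm_ex none P hP with h | ⟨P', h⟩
  · subst h
    have h6 := claim B (List.Perm.refl _) hsh.2.1
    refine (h3 c σ 𝔅 hI).1 _ v w ?_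
    have h7 := (h4 c _ _).2.1 v w hsh h6
    refine ⟨fun x _ y _ => h7.1 x (hall x) y (hall y), fun x _ y _ z _ =>
      h7.2 x (hall x) y (hall y) z (hall z)⟩
  · have h6 := claim (nd P' B) (h.perm.append_right B.lvs)
      (sh_congr_l hsh h.sh (fun x hx => h.perm.mem_iff.2 (List.mem_cons_of_mem _ hx)))
    exact main hI hF hB h1 h2 h3 h4 h5 none P.size P B P' v w le_rfl h hall hsh h6

end

end FBLT

open FBLT in
theorem BLT_pf (h1 : S_F3T) (h2 : S_BET) (h3 : S_ARR) (h4 : S_SHF) (h5 : S_SHX) : S_BLT := by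
  intro c σ 𝔅 hI hF hB X _ v w hv hw hs ht
  obtain ⟨T, hT1, hT2⟩ := (h5 c (Option X)).2 v Set.univ ⟨none, trivial⟩ hv.injOn
  have hall : ∀ x, x ∈ T.lvs := fun x => (hT1 x).2 trivial
  cases T with
  | lf x =>
    have hx : ∀ y : Option X, y = x := by
      intro y
      have := hall y
      simpa only [BT.lvs, List.mem_singleton] using this
    refine (h3 c σ 𝔅 hI).1 _ v w ⟨?_, ?_⟩
    · intro y _ z _
      rw [hx y, hx z]
      exact ⟨fun _ => rfl, fun _ => rfl⟩
    · intro y _ z _ t _
      rw [hx y, hx z, hx t]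
      exact ⟨fun h => absurd h cc_irrefl, fun h => absurd h cc_irrefl⟩
  | nd P B =>
    have hn : none ∈ P.lvs ∨ none ∈ B.lvs := by
      have := hall none
      simpa only [BT.lvs, List.mem_append] using this
    rcases hn with hn | hn
    · exact fin hI hF hB h1 h2 h3 h4 h5 v w hv hw hs ht P B hall hT2 hn
    · exact fin hI hF hB h1 h2 h3 h4 h5 v w hv hw hs ht B P (fun x => mem_swap (hall x))
        (sh_swap hT2) hn

end Pool.Agent.Work.MP_8dbde4_lc.Full
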