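import Pool.Agent.Work.MP_8dbde4_lc.Full.StmtsA

/-!
# Item [8dbde4 FU BLW]: blow-ups exist
-/

set_option autoImplicit false
open Classical

namespace Pool.Agent.Work.MP_8dbde4_lc.Full

open Pool.Agent.Work.MP_8dbde4_lc.TS Pool.Agent.Work.MP_8dbde4_lc.Tree
  Pool.Agent.Work.MP_8dbde4_lc.Phy BT

namespace FBLW

variable {c : ℚ → Bool}

lemma exists_high {X : Type} [Finite X] (v : X → Word c) :
    ∃ q : ℚ, ∀ x, ∀ r, q < r → (v x).1 r = c r := by
  have hfin : (⋃ i, {r | (v i).1 r ≠ c r}).Finite := Set.finite_iUnion (fun i => (v i).2)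
  obtain ⟨m, hm⟩ := hfin.bddAbove
  refine ⟨m, fun i r hr => ?_⟩
  by_contra hne
  have := hm (Set.mem_iUnion.2 ⟨i, hne⟩)
  linarith

lemma exists_low {X : Type} [Finite X] (v : X → Word c) :
    ∃ q : ℚ, ∀ x, ∀ r ≤ q, (v x).1 r = c r := by
  have hfin : (⋃ i, {r | (v i).1 r ≠ c r}).Finite := Set.finite_iUnion (fun i => (v i).2)
  obtain ⟨m, hm⟩ := hfin.bddBelow
  refine ⟨m - 1, fun i r hr => ?_⟩
  by_contra hne
  have := hm (Set.mem_iUnion.2 ⟨i, hne⟩)
  linarith

/-- the new words, as functions -/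
noncomputable def nf {X Y : Type} (π : Y → X) (v : X → Word c) (u : Y → Word c) (q t : ℚ)
    (y : Y) : ℚ → Bool := fun r =>
  if r ≤ q then (v (π y)).1 r else
    if ∃ y', (u y').1 (r - t) ≠ c (r - t) then (u y).1 (r - t) else c r

lemma nf_fin {X Y : Type} [Finite Y] (π : Y → X) (v : X → Word c) (u : Y → Word c) (q t : ℚ)
    (y : Y) : {r | nf π v u q t y r ≠ c r}.Finite := by
  have h1 : (⋃ y, {s | (u y).1 s ≠ c s}).Finite := Set.finite_iUnion (fun y => (u y).2)
  have h2 : ((fun s => s + t) '' (⋃ y, {s | (u y).1 s ≠ c s})).Finite := h1.image _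
  refine (h2.union (v (π y)).2).subset ?_
  intro r hr
  have hr' : nf π v u q t y r ≠ c r := hr
  unfold nf at hr'
  by_cases h3 : r ≤ q
  · right
    rw [if_pos h3] at hr'
    exact hr'
  · rw [if_neg h3] at hr'
    by_cases h5 : ∃ y', (u y').1 (r - t) ≠ c (r - t)
    · left
      obtain ⟨y', hy'⟩ := h5
      exact ⟨r - t, Set.mem_iUnion.2 ⟨y', hy'⟩, by simp⟩
    · rw [if_neg h5] at hr'
      exact absurd rfl hr'

end FBLW

theorem BLW_pf : S_BLW := by
  intro c X Y _ _ π v u hv hu
  obtain ⟨q, hq⟩ := FBLW.exists_high v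
  obtain ⟨m, hm⟩ := FBLW.exists_low u
  set t : ℚ := q - m with ht
  set V : Y → Word c := fun y => ⟨FBLW.nf π v u q t y, FBLW.nf_fin π v u q t y⟩ with hV
  have F1 : ∀ y r, r ≤ q → (V y).1 r = (v (π y)).1 r := by
    intro y r hr
    change FBLW.nf π v u q t y r = _
    unfold FBLW.nf
    rw [if_pos hr]
  have F2 : ∀ y y' r, q < r → ((V y).1 r = (V y').1 r ↔ (u y).1 (r - t) = (u y').1 (r - t)) := by
    intro y y' r hr
    change FBLW.nf π v u q t y r = FBLW.nf π v u q t y' r ↔ _
    unfold FBLW.nf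
    rw [if_neg (not_le.2 hr), if_neg (not_le.2 hr)]
    by_cases h5 : ∃ y', (u y').1 (r - t) ≠ c (r - t)
    · rw [if_pos h5, if_pos h5]
    · rw [if_neg h5, if_neg h5]
      refine ⟨fun _ => ?_, fun _ => rfl⟩
      have h6 : ∀ z, (u z).1 (r - t) = c (r - t) := by
        intro z
        by_contra h7
        exact h5 ⟨z, h7⟩
      rw [h6 y, h6 y']
  -- in different blocks
  have G1 : ∀ x x', (∀ r ≤ q, (v x).1 r = (v x').1 r) → x = x' := by
    intro x x' h
    apply hv
    apply Subtype.ext
    funext r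
    rcases le_or_gt r q with hr | hr
    · exact h r hr
    · rw [hq x r hr, hq x' r hr]
  have G2 : ∀ y y', (∀ s, m < s → (u y).1 s = (u y').1 s) → u y = u y' := by
    intro y y' h
    apply Subtype.ext
    funext s
    rcases le_or_gt s m with hs | hs
    · rw [hm y s hs, hm y' s hs]
    · exact h s hs
  have G3 : ∀ y y' s, m < s → (V y).1 (s + t) = (V y').1 (s + t) → (u y).1 s = (u y').1 s := by
    intro y y' s hs h
    have h1 : q < s + t := by rw [ht]; linarith
    have h2 := (F2 y y' (s + t) h1).1 h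
    simpa using h2
  refine ⟨V, ?_, ?_, ?_⟩
  · intro y y' h
    have hπ : π y = π y' := G1 _ _ fun r hr => by rw [← F1 y r hr, ← F1 y' r hr, h]
    exact hu y y' hπ (G2 y y' fun s hs => G3 y y' s hs (by rw [h]))
  · intro y y' y'' h1 h2
    constructor
    · rintro ⟨r, a1, a2, a3, a4⟩
      have hr : r ≤ q := by
        by_contra hr
        apply h1
        apply G1
        intro r' hr'
        rw [← F1 y'' r' hr', ← F1 y r' hr']
        exact a1 r' (lt_of_le_of_lt hr' (not_le.1 hr))
      refine ⟨r, fun r' hr' => ?_, fun r' hr' => ?_, ?_, ?_⟩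
      · rw [← F1 y'' r' (hr'.le.trans hr), ← F1 y r' (hr'.le.trans hr)]
        exact a1 r' hr'
      · rw [← F1 y'' r' (hr'.le.trans hr), ← F1 y' r' (hr'.le.trans hr)]
        exact a2 r' hr'
      · rw [← F1 y r hr, ← F1 y' r hr]
        exact a3
      · rw [← F1 y r hr, ← F1 y'' r hr]
        exact a4
    · rintro ⟨r, a1, a2, a3, a4⟩
      have hr : r ≤ q := by
        by_contra hr
        apply a4
        rw [hq _ r (not_le.1 hr), hq _ r (not_le.1 hr)]
      refine ⟨r, fun r' hr' => ?_, fun r' hr' => ?_, ?_, ?_⟩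
      · rw [F1 y'' r' (hr'.le.trans hr), F1 y r' (hr'.le.trans hr)]
        exact a1 r' hr'
      · rw [F1 y'' r' (hr'.le.trans hr), F1 y' r' (hr'.le.trans hr)]
        exact a2 r' hr'
      · rw [F1 y r hr, F1 y' r hr]
        exact a3
      · rw [F1 y r hr, F1 y'' r hr]
        exact a4
  · intro x
    -- agreement in one block
    have A1 : ∀ y y' s, π y = π y' → Agr (u y) (u y') s → Agr (V y) (V y') (s + t) := by
      intro y y' s hπ h r hr
      rcases le_or_gt r q with hrq | hrq
      · rw [F1 y r hrq, F1 y' r hrq, hπ]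
      · rw [F2 y y' r hrq]
        exact h (r - t) (by linarith)
    have A2 : ∀ y y' s, Agr (V y) (V y') (s + t) → Agr (u y) (u y') s := by
      intro y y' s h s' hs'
      rcases le_or_gt s' m with hsm | hsm
      · rw [hm y s' hsm, hm y' s' hsm]
      · exact G3 y y' s' hsm (h (s' + t) (by linarith))
    refine ⟨?_, ?_⟩
    · intro y hy y' hy'
      constructor
      · intro h
        rw [hu y y' (hy.trans hy'.symm) h]
      · intro h
        exact G2 y y' fun s hs => G3 y y' s hs (by rw [h])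
    · intro y hy y' hy' y'' hy''
      have e1 : π y'' = π y := hy''.trans hy.symm
      have e2 : π y'' = π y' := hy''.trans hy'.symm
      have e3 : π y = π y' := hy.trans hy'.symm
      constructor
      · rintro ⟨s, a1, a2, a3, a4⟩
        have hs : m < s := by
          by_contra hs
          apply a4
          rw [hm _ s (not_lt.1 hs), hm _ s (not_lt.1 hs)]
        have hq1 : q < s + t := by rw [ht]; linarith
        refine ⟨s + t, A1 _ _ s e1 a1, A1 _ _ s e2 a2, ?_, fun h => a4 (G3 _ _ s hs h)⟩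
        rw [F2 y y' (s + t) hq1]
        simpa using a3
      · rintro ⟨r, a1, a2, a3, a4⟩
        have hr : q < r := by
          by_contra hr
          apply a4
          rw [F1 _ r (not_lt.1 hr), F1 _ r (not_lt.1 hr), e1]
        have hrr : r - t + t = r := by ring
        refine ⟨r - t, A2 _ _ (r - t) (by rw [hrr]; exact a1),
          A2 _ _ (r - t) (by rw [hrr]; exact a2), (F2 y y' r hr).1 a3, fun h => a4 ?_⟩
        exact (F2 y'' y r hr).2 h

end Pool.Agent.Work.MP_8dbde4_lc.Full
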