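import Pool.Agent.Work.MP_8dbde4_lc.Full.StmtsA

set_option autoImplicit false
open Classical

namespace Pool.Agent.Work.MP_8dbde4_lc.Full

open Pool.Agent.Work.MP_8dbde4_lc.TS Pool.Agent.Work.MP_8dbde4_lc.Tree
  Pool.Agent.Work.MP_8dbde4_lc.Phy BT

namespace FCAN

theorem combL_sublist {c : ℚ → Bool} {X : Type} (w : X → Word c) {l1 l2 : List X}
    (h : List.Sublist l1 l2) : CombL w l2 → CombL w l1 := by
  induction h with
  | slnil => exact id
  | cons a _ ih => exact fun h => ih h.2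
  | cons_cons a hs ih =>
    intro h
    exact ⟨fun y hy z hz => h.1 y (hs.subset hy) z (hs.subset hz), ih h.2⟩

/-- The colouring. -/
noncomputable def chi {c : ℚ → Bool} {Λ : Type} (w : Λ → Word c) (t : BT Λ) : Fin 3 :=
  if h : ∃ (i : Fin 3), ∃ a b d, t.lvs = [a, b, d] ∧ Beh w i a b d then h.choose else 0

theorem chi_spec {c : ℚ → Bool} {Λ : Type} (w : Λ → Word c) (t : BT Λ) (a b d : Λ)
    (ht : t.lvs = [a, b, d]) (hw : ∃ i, Beh w i a b d) : Beh w (chi w t) a b d := by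
  obtain ⟨i, hi⟩ := hw
  have h : ∃ (i : Fin 3), ∃ a b d, t.lvs = [a, b, d] ∧ Beh w i a b d := ⟨i, a, b, d, ht, hi⟩
  have h2 : chi w t = h.choose := by
    unfold chi
    rw [dif_pos h]
  rw [h2]
  obtain ⟨a', b', d', h3, h4⟩ := h.choose_spec
  rw [ht] at h3
  simp only [List.cons.injEq, and_true] at h3
  obtain ⟨rfl, rfl, rfl⟩ := h3
  exact h4

theorem beh_ex {c : ℚ → Bool} {Λ : Type} (w : Λ → Word c) (a b d : Λ) (hab : w a ≠ w b)
    (had : w a ≠ w d) : ∃ i, Beh w i a b d := by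
  rcases cc_tri hab had with h | h | h
  · exact ⟨0, h⟩
  · exact ⟨1, h⟩
  · exact ⟨2, h⟩

end FCAN

theorem CAN_pf (hRAM : S_RAM) (hBEH : S_BEH) (hSUB : S_SUB) (hSHF : S_SHF) : S_CAN := by
  intro n
  obtain ⟨N2, hN2⟩ := hRAM (nd (lf ()) (nd (lf ()) (lf ()))) 3 (max n 3)
  obtain ⟨N1, hN1⟩ := hRAM (nd (nd (lf ()) (lf ())) (lf ())) 3 N2
  refine ⟨N1, ?_⟩
  intro c Λ y w hy hnd hinj
  obtain ⟨hrefl, htrans, hcut, -, -, -⟩ := hSUB Λ
  obtain ⟨z1, hz1y, hz1, k1, hk1⟩ := hN1 Λ y hy (FCAN.chi w)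
  obtain ⟨z2, hz2z1, hz2, k2, hk2⟩ := hN2 Λ z1 hz1 (FCAN.chi w)
  have hz2y : Sub z2 y := htrans _ _ _ hz2z1 hz1y
  have hsl : List.Sublist z2.lvs y.lvs := (hSHF c Λ y).2.2.2.2.2.2 z2 hz2y
  have hnd2 : z2.lvs.Nodup := hsl.nodup hnd
  have hinj2 : Set.InjOn w {x | x ∈ z2.lvs} := fun a ha b hb h =>
    hinj (hsl.subset ha) (hsl.subset hb) h
  have key : ∀ (t : BT Λ) (a b d : Λ), t.lvs = [a, b, d] → Sub t z2 →
      Beh w (FCAN.chi w t) a b d := by
    intro t a b d ht hs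
    have hsl3 : List.Sublist t.lvs z2.lvs := (hSHF c Λ z2).2.2.2.2.2.2 t hs
    have hnd3 : t.lvs.Nodup := hsl3.nodup hnd2
    rw [ht] at hnd3 hsl3
    have ha : a ∈ z2.lvs := hsl3.subset (by simp)
    have hb : b ∈ z2.lvs := hsl3.subset (by simp)
    have hd : d ∈ z2.lvs := hsl3.subset (by simp)
    simp only [List.nodup_cons, List.mem_cons, not_or, List.not_mem_nil, not_false_eq_true,
      and_true, List.nodup_nil] at hnd3
    apply FCAN.chi_spec w t a b d ht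
    apply FCAN.beh_ex
    · intro h
      exact hnd3.1.1 (hinj2 ha hb h)
    · intro h
      exact hnd3.1.2 (hinj2 ha hd h)
  have h1 : ∀ a b d, Sub (nd (nd (lf a) (lf b)) (lf d)) z2 → Beh w k1 a b d := by
    intro a b d hs
    have h3 := key _ a b d (by simp [BT.lvs]) hs
    rw [hk1 _ (htrans _ _ _ hs hz2z1) (by simp [BT.map])] at h3
    exact h3
  have h2 : ∀ a b d, Sub (nd (lf a) (nd (lf b) (lf d))) z2 → Beh w k2 a b d := by
    intro a b d hs
    have h3 := key _ a b d (by simp [BT.lvs]) hs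
    rw [hk2 _ hs (by simp [BT.map])] at h3
    exact h3
  obtain ⟨z, hzz2, hz⟩ := hcut z2 n (max n 3) hz2 (le_max_left _ _)
  have hslz : List.Sublist z.lvs z2.lvs := (hSHF c Λ z2).2.2.2.2.2.2 z hzz2
  refine ⟨z, htrans _ _ _ hzz2 hz2y, hz, ?_⟩
  rcases hBEH c Λ z2 w (max n 3) k1 k2 (le_max_right _ _) hz2 hnd2 hinj2 h1 h2 with h | h | h
  · left
    exact (hSHF c Λ z2).2.2.2.2.2.1 z w hzz2 h
  · right
    left
    exact FCAN.combL_sublist w hslz h
  · right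
    right
    exact FCAN.combL_sublist w hslz.reverse h

end Pool.Agent.Work.MP_8dbde4_lc.Full
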