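import Pool.Agent.Work.MP_8dbde4_lc.Full.StmtsB
import Pool.Agent.Work.MP_8dbde4_lc.Phy.I_PPB

set_option autoImplicit false
open Classical

namespace Pool.Agent.Work.MP_8dbde4_lc.Full

open Pool.Agent.Work.MP_8dbde4_lc.TS Pool.Agent.Work.MP_8dbde4_lc.Tree
  Pool.Agent.Work.MP_8dbde4_lc.Phy BT

namespace FCCK

theorem exList {Y : Type} [Finite Y] (r : Y → ℕ) (hr : Function.Injective r) :
    ∃ ℓ : List Y, (∀ x, x ∈ ℓ) ∧ ℓ.Nodup ∧ ℓ.Pairwise (fun x y => r x < r y) := by
  haveI := Fintype.ofFinite Y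
  letI : LinearOrder Y := LinearOrder.lift' r hr
  refine ⟨(Finset.univ : Finset Y).sort (· ≤ ·), ?_, Finset.sort_nodup _ _, ?_⟩
  · intro x
    simp
  · have h := Finset.sortedLT_sort (Finset.univ : Finset Y)
    exact h.pairwise.imp (fun {a b} hab => hab)

theorem comb {c : ℚ → Bool} {Y : Type} (z : Y → Word c) (r : Y → ℕ)
    (hz : ∀ x y y', r x < r y → r x < r y' → Cc (z x) (z y) (z y')) :
    ∀ ℓ : List Y, ℓ.Pairwise (fun x y => r x < r y) → CombL z ℓ := by
  intro ℓ
  induction ℓ with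
  | nil => intro _; exact trivial
  | cons x ℓ ih =>
    intro h
    rw [List.pairwise_cons] at h
    exact ⟨fun y hy w hw => hz x y w (h.1 y hy) (h.1 w hw), ih h.2⟩

end FCCK

theorem CCK_pf : S_CCK := by
  intro c σ 𝔅 _ hCC X _ S hS v z hv hz hvz
  obtain ⟨r, hr1, hr2⟩ := hz
  let e : X → Set.range v := fun x => ⟨v x, x, rfl⟩
  let rep : Set.range v → X := fun a => a.2.choose
  have hrep : ∀ a : Set.range v, v (rep a) = a.1 := fun a => a.2.choose_spec
  have hPP : PP 𝔅 (fun u : Set.range v → Word c => S (fun x => u (e x))) := XPPB.pull e hS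
  have hinj : Function.Injective (fun a : Set.range v => r (rep a)) := by
    intro a b hab
    have h1 : z (rep a) = z (rep b) := (hr1 _ _).1 hab
    have h2 : v (rep a) = v (rep b) := (hvz _ _).1 h1
    rw [hrep, hrep] at h2
    exact Subtype.ext h2
  obtain ⟨ℓ, hℓ1, hℓ2, hℓ3⟩ := FCCK.exList (fun a : Set.range v => r (rep a)) hinj
  have hc : CombL (fun a : Set.range v => z (rep a)) ℓ :=
    FCCK.comb _ (fun a : Set.range v => r (rep a)) (fun x y y' h h' => hr2 _ _ _ h h') ℓ hℓ3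
  have hA := hCC (Set.range v) (fun a => a.1) (fun a => z (rep a)) ℓ Subtype.val_injective hℓ1 hℓ2 hc
  have h := hA _ hPP (by exact hv)
  have he : (fun x => z (rep (e x))) = z := by
    funext x
    exact (hvz _ _).2 (hrep (e x))
  have h' : S (fun x => z (rep (e x))) := h
  rw [he] at h'
  exact h'

end Pool.Agent.Work.MP_8dbde4_lc.Full
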