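import Pool.Agent.Work.MP_8dbde4_lc.Full.StmtsB

set_option autoImplicit false
open Classical

namespace Pool.Agent.Work.MP_8dbde4_lc.Full

open Pool.Agent.Work.MP_8dbde4_lc.TS Pool.Agent.Work.MP_8dbde4_lc.Tree
  Pool.Agent.Work.MP_8dbde4_lc.Phy BT

namespace FCMB

/-- `c` changed at one place. -/
def chg (c : ℚ → Bool) (p : ℚ) : Word c :=
  ⟨fun q => if q = p then !c q else c q, by
    refine (Set.finite_singleton p).subset ?_
    intro q hq
    simp only [Set.mem_ofPred_eq] at hq
    by_contra hc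
    apply hq
    rw [if_neg (by simpa using hc)]⟩

theorem chg_self (c : ℚ → Bool) (p : ℚ) : (chg c p).1 p = !c p := by simp [chg]

theorem chg_ne (c : ℚ → Bool) {p q : ℚ} (h : q ≠ p) : (chg c p).1 q = c q := by simp [chg, h]

theorem chg_inj (c : ℚ → Bool) {p q : ℚ} (h : chg c p = chg c q) : p = q := by
  by_contra hne
  have h1 := chg_self c p
  rw [h, chg_ne c hne] at h1
  simp at h1

theorem chg_cc (c : ℚ → Bool) {p q r : ℚ} (h : p < q) (h' : p < r) :
    Cc (chg c p) (chg c q) (chg c r) := by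
  refine ⟨p, ?_, ?_, ?_, ?_⟩
  · intro s hs
    rw [chg_ne c hs.ne, chg_ne c (hs.trans h).ne]
  · intro s hs
    rw [chg_ne c hs.ne, chg_ne c (hs.trans h').ne]
  · rw [chg_ne c h.ne, chg_ne c h'.ne]
  · rw [chg_self, chg_ne c h.ne]
    simp

end FCMB

theorem CMB_pf : S_CMB := by
  intro c X B _ f
  obtain ⟨g, hg⟩ := Countable.exists_injective_nat (Set.range f)
  have hz : ∀ x y : X, g ⟨f x, x, rfl⟩ = g ⟨f y, y, rfl⟩ ↔ f x = f y := by
    intro x y
    constructor
    · intro h
      exact congrArg Subtype.val (hg h)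
    · intro h
      congr 1
      exact Subtype.ext h
  refine ⟨fun x => FCMB.chg c (g ⟨f x, x, rfl⟩ : ℕ), ⟨fun x => g ⟨f x, x, rfl⟩, ?_, ?_⟩, ?_⟩
  · intro x y
    constructor
    · intro h
      exact congrArg (fun n : ℕ => FCMB.chg c (n : ℚ)) h
    · intro h
      have := FCMB.chg_inj c h
      exact_mod_cast this
  · intro x y y' h h'
    exact FCMB.chg_cc c (by exact_mod_cast h) (by exact_mod_cast h')
  · intro x y
    rw [← hz x y]
    constructor
    · intro h
      have := FCMB.chg_inj c h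
      exact_mod_cast this
    · intro h
      exact congrArg (fun n : ℕ => FCMB.chg c (n : ℚ)) h

end Pool.Agent.Work.MP_8dbde4_lc.Full
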