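import Pool.Agent.Work.MP_8dbde4_lc.Full.StmtsB

/-!
# Item COM: a common domain for finitely many gadgets
-/

set_option autoImplicit false
open Classical

namespace Pool.Agent.Work.MP_8dbde4_lc.Full

open Pool.Agent.Work.MP_8dbde4_lc.TS Pool.Agent.Work.MP_8dbde4_lc.Tree
  Pool.Agent.Work.MP_8dbde4_lc.Phy BT

namespace FCOM

variable {σ : Sig}

/-- The structure `𝔇 k` on its part of the sum. -/
def part {K : Type} (Dk : K → Type) (𝔇 : ∀ k, Str σ (Dk k)) (k : K) : Str σ (Σ k, Dk k) where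
  rel R t := ∃ s : Fin (σ.ar R) → Dk k, (𝔇 k).rel R s ∧ t = fun j => ⟨k, s j⟩

/-- Extension of a map on one part by a constant. -/
noncomputable def ext {K B : Type} (Dk : K → Type) (b : B) (k : K) (f : Dk k → B)
    (d : Σ k, Dk k) : B :=
  if h : d.1 = k then f (h ▸ d.2) else b

lemma ext_mk {K B : Type} (Dk : K → Type) (b : B) (k : K) (f : Dk k → B) (d : Dk k) :
    ext Dk b k f ⟨k, d⟩ = f d := by
  unfold ext
  rw [dif_pos rfl]

end FCOM

open FCOM

theorem COM_pf : S_COM := by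
  intro σ B _ 𝔅 K X _ S hS hne
  choose Dk hDk 𝔇 mk hmk using hS
  obtain ⟨b⟩ := (inferInstance : Nonempty B)
  refine ⟨Σ k, Dk k, inferInstance, part Dk 𝔇, fun k x => ⟨k, mk k x⟩, ?_, ?_⟩
  · intro k x x' h
    by_contra hx
    obtain ⟨v, hv, hvx⟩ := hne k x x' hx
    obtain ⟨f, -, hf⟩ := (hmk k v).1 hv
    have h2 : mk k x = mk k x' := by
      have := h
      simpa using this
    apply hvx
    rw [hf x, hf x', h2]
  · intro k v
    rw [hmk k v]
    constructor
    · rintro ⟨f, hf, hfx⟩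
      refine ⟨ext Dk b k f, ?_, ?_⟩
      · rintro R t ⟨s, hs, rfl⟩
        have h1 : (fun j => ext Dk b k f ⟨k, s j⟩) = fun j => f (s j) := by
          funext j
          exact ext_mk Dk b k f (s j)
        show 𝔅.rel R (fun j => ext Dk b k f ⟨k, s j⟩)
        rw [h1]
        exact hf R s hs
      · intro x
        show v x = ext Dk b k f ⟨k, mk k x⟩
        rw [ext_mk]
        exact hfx x
    · rintro ⟨f, hf, hfx⟩
      refine ⟨fun d => f ⟨k, d⟩, ?_, fun x => hfx x⟩
      intro R s hs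
      exact hf R (fun j => ⟨k, s j⟩) ⟨s, hs, rfl⟩

end Pool.Agent.Work.MP_8dbde4_lc.Full
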