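import Pool.Agent.Work.MP_8dbde4_lc.Full.StmtsB

/-!
# Item [8dbde4 FU D2C]: the displacement `D2` in a context
-/

set_option autoImplicit false
open Classical

namespace Pool.Agent.Work.MP_8dbde4_lc.Full

open Pool.Agent.Work.MP_8dbde4_lc.TS Pool.Agent.Work.MP_8dbde4_lc.Tree
  Pool.Agent.Work.MP_8dbde4_lc.Phy BT

namespace FD2C

variable {c : ℚ → Bool} {σ : Sig}

/-- `SameOn` is symmetric. -/
lemma so_symm {X : Type} {Y : Set X} {v w : X → Word c} (h : SameOn Y v w) : SameOn Y w v :=
  ⟨fun x hx y hy => (h.1 x hx y hy).symm, fun x hx y hy z hz => (h.2 x hx y hy z hz).symm⟩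

/-- `SameOn` is transitive. -/
lemma so_trans {X : Type} {Y : Set X} {u v w : X → Word c} (h : SameOn Y u v)
    (h' : SameOn Y v w) : SameOn Y u w :=
  ⟨fun x hx y hy => (h.1 x hx y hy).trans (h'.1 x hx y hy),
    fun x hx y hy z hz => (h.2 x hx y hy z hz).trans (h'.2 x hx y hy z hz)⟩

/-- The splits with `a` in first position, for a cherry `a, b`. -/
lemma tw1 {Y : Type} (u : Y → Word c) (hu : Function.Injective u) (a b : Y) (hab : a ≠ b)
    (ht : ∀ z, z ≠ a → z ≠ b → Cc (u z) (u a) (u b)) (x y : Y) :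
    Cc (u a) (u x) (u y) ↔ x ≠ a ∧ y ≠ a ∧
      ((x = b ∧ y = b) ∨ (x ≠ b ∧ y ≠ b ∧ Cc (u b) (u x) (u y))) := by
  have hba : u a ≠ u b := fun h => hab (hu h)
  constructor
  · intro h
    have hx : x ≠ a := by
      rintro rfl
      exact cc_irrefl h
    have hy : y ≠ a := by
      rintro rfl
      exact cc_irrefl' h
    refine ⟨hx, hy, ?_⟩
    by_cases hxb : x = b
    · left
      refine ⟨hxb, ?_⟩
      by_contra hyb
      subst hxb
      -- Cc a b y, Cc y a b
      exact cc_asymm (ht y hy hyb) (cc_symm h)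
    · by_cases hyb : y = b
      · exfalso
        subst hyb
        exact cc_asymm (ht x hx hxb) h
      · right
        refine ⟨hxb, hyb, ?_⟩
        -- Cc x a b, Cc a x y
        exact cc_mid (ht x hx hxb) h
  · rintro ⟨hx, hy, h | ⟨hxb, hyb, h⟩⟩
    · rw [h.1, h.2]
      exact cc_self hba
    · exact cc_mid (cc_symm (ht x hx hxb)) h

/-- The splits with `a` in second position, for a cherry `a, b`. -/
lemma tw2 {Y : Type} (u : Y → Word c) (hu : Function.Injective u) (a b : Y) (hab : a ≠ b)
    (ht : ∀ z, z ≠ a → z ≠ b → Cc (u z) (u a) (u b)) (z y : Y) (hz : z ≠ a) :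
    Cc (u z) (u a) (u y) ↔ (z ≠ b ∨ y = a) ∧ (y = a ∨ (y ≠ a ∧ Cc (u z) (u b) (u y))) := by
  by_cases hya : y = a
  · subst hya
    constructor
    · intro _
      exact ⟨Or.inr rfl, Or.inl rfl⟩
    · intro _
      exact cc_self (fun h => hz (hu h))
  · by_cases hzb : z = b
    · subst hzb
      constructor
      · intro h
        exfalso
        by_cases hyb : y = z
        · subst hyb
          exact cc_irrefl' h
        · exact cc_asymm (cc_symm (ht y hya hyb)) (cc_symm h)
      · rintro ⟨h1 | h1, _⟩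
        · exact absurd rfl h1
        · exact absurd h1 hya
    · constructor
      · intro h
        exact ⟨Or.inl hzb, Or.inr ⟨hya, cc_trans (cc_symm (ht z hz hzb)) h⟩⟩
      · rintro ⟨_, h1 | h1⟩
        · exact absurd h1 hya
        · exact cc_trans (ht z hz hzb) h1.2

/-- Two tuples with the cherry `a, b` and the same splits outside `a` have the same splits. -/
lemma tw_same {Y : Type} (u u' : Y → Word c) (hu : Function.Injective u)
    (hu' : Function.Injective u') (a b : Y) (hab : a ≠ b)
    (ht : ∀ z, z ≠ a → z ≠ b → Cc (u z) (u a) (u b))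
    (ht' : ∀ z, z ≠ a → z ≠ b → Cc (u' z) (u' a) (u' b))
    (hs : SameOn {x | x ≠ a} u u') : SameOn Set.univ u u' := by
  refine ⟨fun x _ y _ => ⟨fun h => by rw [hu h], fun h => by rw [hu' h]⟩, ?_⟩
  intro x _ y _ z _
  by_cases hz : z = a
  · subst hz
    rw [tw1 u hu z b hab ht, tw1 u' hu' z b hab ht']
    by_cases hx : x = z
    · simp [hx]
    · by_cases hy : y = z
      · simp [hy]
      · rw [hs.2 x hx y hy b hab.symm]
  · by_cases hx : x = a
    · subst hx
      rw [tw2 u hu x b hab ht z y hz, tw2 u' hu' x b hab ht' z y hz]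
      by_cases hy : y = x
      · simp [hy]
      · rw [hs.2 b hab.symm y hy z hz]
    · by_cases hy : y = a
      · subst hy
        have e1 : Cc (u z) (u x) (u y) ↔ Cc (u z) (u y) (u x) := ⟨cc_symm, cc_symm⟩
        have e2 : Cc (u' z) (u' x) (u' y) ↔ Cc (u' z) (u' y) (u' x) := ⟨cc_symm, cc_symm⟩
        rw [e1, e2, tw2 u hu y b hab ht z x hz, tw2 u' hu' y b hab ht' z x hz,
          hs.2 b hab.symm x hx z hz]
      · exact hs.2 x hx y hy z hz

/-- Two injective triples with the same split. -/
lemma tri {u u' : Fin 3 → Word c} (hu : Function.Injective u) (hu' : Function.Injective u')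
    (a b k : Fin 3) (hab : a ≠ b) (hk : ∀ i, i = a ∨ i = b ∨ i = k)
    (h : Cc (u k) (u a) (u b)) (h' : Cc (u' k) (u' a) (u' b)) : SameOn Set.univ u u' := by
  have hka : k ≠ a := by
    rintro rfl
    exact cc_irrefl h
  have hkb : k ≠ b := by
    rintro rfl
    exact cc_irrefl' h
  refine tw_same u u' hu hu' a b hab ?_ ?_ ?_
  · intro z hz hzb
    rcases hk z with h1 | h1 | h1
    · exact absurd h1 hz
    · exact absurd h1 hzb
    · rw [h1]; exact h
  · intro z hz hzb
    rcases hk z with h1 | h1 | h1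
    · exact absurd h1 hz
    · exact absurd h1 hzb
    · rw [h1]; exact h'
  · refine ⟨fun x _ y _ => ⟨fun h => by rw [hu h], fun h => by rw [hu' h]⟩, ?_⟩
    -- only the two points `b, k`
    have key : ∀ (t : Fin 3 → Word c), Function.Injective t → ∀ x, x ≠ a → ∀ y, y ≠ a → ∀ z,
        z ≠ a → (Cc (t z) (t x) (t y) ↔ x = y ∧ z ≠ x) := by
      intro t ht x hx y hy z hz
      constructor
      · intro h1
        have hzx : z ≠ x := by
          rintro rfl
          exact cc_irrefl h1
        have hzy : z ≠ y := by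
          rintro rfl
          exact cc_irrefl' h1
        refine ⟨?_, hzx⟩
        rcases hk x with h2 | h2 | h2
        · exact absurd h2 hx
        · rcases hk y with h3 | h3 | h3
          · exact absurd h3 hy
          · rw [h2, h3]
          · exfalso
            rcases hk z with h4 | h4 | h4
            · exact hz h4
            · exact hzx (h4.trans h2.symm)
            · exact hzy (h4.trans h3.symm)
        · rcases hk y with h3 | h3 | h3
          · exact absurd h3 hy
          · exfalso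
            rcases hk z with h4 | h4 | h4
            · exact hz h4
            · exact hzy (h4.trans h3.symm)
            · exact hzx (h4.trans h2.symm)
          · rw [h2, h3]
      · rintro ⟨rfl, h1⟩
        exact cc_self (fun h2 => h1 (ht h2))
    intro x hx y hy z hz
    rw [key u hu x hx y hy z hz, key u' hu' x hx y hy z hz]

end FD2C

open FD2C in
/-- Case `D2` in a context. -/
theorem D2C_pf (h1 : S_FAT) (h2 : S_EXM) (h3 : S_HU) : S_D2C := by
  intro c σ 𝔅 hA hE hF hD P _ v w hv hw hv2 hw1 hvp hwp hs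
  obtain ⟨v₀, w₀, hv₀, hw₀, hfat, hc, hc'⟩ := hD
  have hinl : Function.Injective (Sum.inl : Fin 3 → Fin 3 ⊕ P) := Sum.inl_injective
  have hvi : Function.Injective (fun i : Fin 3 => v (.inl i)) := fun i j h => hinl (hv h)
  have hwi : Function.Injective (fun i : Fin 3 => w (.inl i)) := fun i j h => hinl (hw h)
  have e1 : SameOn Set.univ v₀ (fun i : Fin 3 => v (.inl i)) :=
    tri hv₀ hvi 0 1 2 (by decide) (by decide) hc hv2
  have e2 : SameOn Set.univ w₀ (fun i : Fin 3 => w (.inl i)) :=
    tri hw₀ hwi 0 2 1 (by decide) (by decide) hc' hw1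
  have f1 : Fat 𝔅 {1, 2} (fun i : Fin 3 => v (.inl i)) (fun i : Fin 3 => w (.inl i)) :=
    (h1 c σ 𝔅 hA (Fin 3) {1, 2} v₀ w₀ hv₀ hw₀).2.2.2.2.1 _ _ e1 e2 hfat
  obtain ⟨w₂, hw₂, hext, f2⟩ := h2 c σ 𝔅 hA hE (Fin 3) P {1, 2} v (fun i => w (.inl i)) hv hwi f1
  have hset : {o : Fin 3 ⊕ P | ∀ x, o = .inl x → x ∈ ({1, 2} : Set (Fin 3))} =
      {x | x ≠ .inl 0} := by
    ext o
    simp only [Set.mem_ofPred_eq]
    constructor
    · rintro h rfl
      have := h 0 rfl
      simp at this
    · intro h x hx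
      have hx0 : x ≠ 0 := by
        rintro rfl
        exact h hx
      fin_cases x
      · exact absurd rfl hx0
      · simp
      · simp
  rw [hset] at f2
  have s1 : SameOn {x | x ≠ .inl 0} v w₂ := h3 c σ 𝔅 hA hF (Fin 3 ⊕ P) _ v w₂ hv hw₂ f2
  have s2 : SameOn {x | x ≠ .inl 0} w₂ w := so_trans (so_symm s1) hs
  have g1 : Cc (w₂ (.inl 1)) (w₂ (.inl 0)) (w₂ (.inl 2)) := by
    rw [hext, hext, hext]
    exact hw1
  have n1 : (Sum.inl 1 : Fin 3 ⊕ P) ≠ .inl 0 := by
    intro h
    exact absurd (hinl h) (by decide)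
  have n2 : (Sum.inl 2 : Fin 3 ⊕ P) ≠ .inl 0 := by
    intro h
    exact absurd (hinl h) (by decide)
  have s3 : SameOn Set.univ w₂ w := by
    refine tw_same w₂ w hw₂ hw (.inl 0) (.inl 2) n2.symm ?_ ?_ s2
    · intro z hz hz2
      rcases z with i | p
      · have hi : i = 1 := by
          have hi0 : i ≠ 0 := fun h => hz (by rw [h])
          have hi2 : i ≠ 2 := fun h => hz2 (by rw [h])
          fin_cases i
          · exact absurd rfl hi0
          · rfl
          · exact absurd rfl hi2
        rw [hi]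
        exact g1
      · have k1 : Cc (w₂ (.inr p)) (w₂ (.inl 1)) (w₂ (.inl 2)) :=
          (s1.2 (.inl 1) n1 (.inl 2) n2 (.inr p) hz).1 (hvp p 1 2)
        rcases cc_or k1 (w₂ (.inl 0)) with k2 | k2
        · exact cc_trans (cc_symm k2) k1
        · exact absurd k2 (cc_asymm g1)
    · intro z hz hz2
      rcases z with i | p
      · have hi : i = 1 := by
          have hi0 : i ≠ 0 := fun h => hz (by rw [h])
          have hi2 : i ≠ 2 := fun h => hz2 (by rw [h])
          fin_cases i
          · exact absurd rfl hi0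
          · rfl
          · exact absurd rfl hi2
        rw [hi]
        exact hw1
      · exact hwp p 0 2
  exact (h1 c σ 𝔅 hA (Fin 3 ⊕ P) _ v w₂ hv hw₂).2.2.2.2.1 v w
    ⟨fun _ _ _ _ => Iff.rfl, fun _ _ _ _ _ _ => Iff.rfl⟩ s3 f2

end Pool.Agent.Work.MP_8dbde4_lc.Full
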