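import Pool.Agent.Work.MP_8dbde4_lc.Full.StmtsA

/-!
Block Full of MP_8dbde4_lc, item E3: arrows between all the shapes of three points.
-/

set_option autoImplicit false
open Classical

namespace Pool.Agent.Work.MP_8dbde4_lc.Full

open Pool.Agent.Work.MP_8dbde4_lc.TS Pool.Agent.Work.MP_8dbde4_lc.Tree
  Pool.Agent.Work.MP_8dbde4_lc.Phy BT

namespace FE3

variable {c : ℚ → Bool} {σ : Sig}

/-- The point `i` splits off from the other two. -/
def Shp (v : Fin 3 → Word c) (i : Fin 3) : Prop := ∀ j k, j ≠ i → k ≠ i → Cc (v i) (v j) (v k)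

theorem shp_of {v : Fin 3 → Word c} (hv : Function.Injective v) {i j k : Fin 3} (hij : j ≠ i)
    (hik : k ≠ i) (hjk : j ≠ k) (h : Cc (v i) (v j) (v k)) : Shp v i := by
  intro a b ha hb
  by_cases hab : a = b
  · subst hab
    exact cc_self (fun h => ha (hv h).symm)
  · have h1 : (a = j ∧ b = k) ∨ (a = k ∧ b = j) := by omega
    rcases h1 with ⟨h1, h2⟩ | ⟨h1, h2⟩
    · rw [h1, h2]
      exact h
    · rw [h1, h2]
      exact cc_symm h

theorem shp_ex {v : Fin 3 → Word c} (hv : Function.Injective v) : ∃ i, Shp v i := by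
  have h01 : v 0 ≠ v 1 := fun h => absurd (hv h) (by decide)
  have h02 : v 0 ≠ v 2 := fun h => absurd (hv h) (by decide)
  rcases cc_tri h01 h02 with h | h | h
  · exact ⟨0, shp_of hv (by decide) (by decide) (by decide) h⟩
  · exact ⟨1, shp_of hv (by decide) (by decide) (by decide) h⟩
  · exact ⟨2, shp_of hv (by decide) (by decide) (by decide) h⟩

theorem shp_iff {v : Fin 3 → Word c} (hv : Function.Injective v) {i : Fin 3} (h : Shp v i)
    (z x y : Fin 3) :
    Cc (v z) (v x) (v y) ↔ (x = y ∧ z ≠ x) ∨ (x ≠ y ∧ z = i ∧ x ≠ i ∧ y ≠ i) := by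
  by_cases hxy : x = y
  · subst hxy
    rw [cc_iff_ne]
    constructor
    · intro h1
      exact Or.inl ⟨rfl, fun h2 => h1 (by rw [h2])⟩
    · rintro (h1 | h1)
      · exact fun h2 => h1.2 (hv h2)
      · exact absurd rfl h1.1
  · constructor
    · intro h1
      right
      have hzx : z ≠ x := fun h2 => cc_ne h1 (by rw [h2])
      have hzy : z ≠ y := fun h2 => cc_ne' h1 (by rw [h2])
      have hz : z = i := by
        by_contra hz
        have h2 : x = i ∨ y = i := by omega
        rcases h2 with h2 | h2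
        · rw [h2] at h1
          exact cc_asymm h1 (h z y hz (fun h3 => hxy (h2.trans h3.symm)))
        · rw [h2] at h1
          exact cc_asymm (cc_symm h1) (h z x hz (fun h3 => hxy (h3.trans h2.symm)))
      exact ⟨hxy, hz, fun h2 => hzx (hz.trans h2.symm), fun h2 => hzy (hz.trans h2.symm)⟩
    · rintro (h1 | ⟨_, h1, h2, h3⟩)
      · exact absurd h1.1 hxy
      · rw [h1]
        exact h x y h2 h3

theorem shp_same {v w : Fin 3 → Word c} (hv : Function.Injective v) (hw : Function.Injective w)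
    {i : Fin 3} (h : Shp v i) (h' : Shp w i) : SameOn Set.univ v w := by
  refine ⟨fun x _ y _ => ?_, fun x _ y _ z _ => ?_⟩
  · exact ⟨fun h1 => by rw [hv h1], fun h1 => by rw [hw h1]⟩
  · rw [shp_iff hv h, shp_iff hw h']

theorem shp_perm {v : Fin 3 → Word c} {i i' : Fin 3} (h : Shp v i) (e : Equiv.Perm (Fin 3))
    (he : e i' = i) : Shp (fun x => v (e x)) i' := by
  intro j k hj hk
  have h1 : e j ≠ i := fun h2 => hj (e.injective (h2.trans he.symm))
  have h2 : e k ≠ i := fun h2 => hk (e.injective (h2.trans he.symm))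
  have h3 := h (e j) (e k) h1 h2
  rw [← he] at h3
  exact h3

theorem perm_ex : ∀ i j j₀ : Fin 3, i ≠ j → j₀ ≠ 0 → ∃ e : Equiv.Perm (Fin 3), e i = 0 ∧ e j = j₀ := by
  decide

theorem ex_word (c : ℚ → Bool) : ∃ v : Fin 3 → Word c, Function.Injective v ∧ Shp v 0 := by
  have hfin : ∀ r : ℚ, {q | Function.update c r (!c r) q ≠ c q}.Finite := by
    intro r
    refine (Set.finite_singleton r).subset ?_
    intro q hq
    by_contra h1
    have h2 : q ≠ r := h1
    exact hq (Function.update_of_ne h2 _ _)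
  let x : Word c := ⟨c, by simp⟩
  let y : Word c := ⟨Function.update c 1 (!c 1), hfin 1⟩
  let z : Word c := ⟨Function.update c 0 (!c 0), hfin 0⟩
  have hy1 : y.1 1 = !c 1 := by
    show Function.update c 1 (!c 1) 1 = !c 1
    simp
  have hz0 : z.1 0 = !c 0 := by
    show Function.update c 0 (!c 0) 0 = !c 0
    simp
  have hy : ∀ q, q ≠ 1 → y.1 q = c q := by
    intro q hq
    show Function.update c 1 (!c 1) q = c q
    exact Function.update_of_ne hq _ _
  have hz : ∀ q, q ≠ 0 → z.1 q = c q := by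
    intro q hq
    show Function.update c 0 (!c 0) q = c q
    exact Function.update_of_ne hq _ _
  have hb : ∀ b : Bool, (!b) ≠ b := by decide
  have hxy : x ≠ y := by
    intro h
    have h1 : x.1 1 = y.1 1 := by rw [h]
    rw [hy1] at h1
    exact hb _ h1.symm
  have hzxy : Cc z x y := by
    refine ⟨0, fun q hq => hz q (ne_of_lt hq), fun q hq => ?_, (hy 0 (by norm_num)).symm, ?_⟩
    · rw [hz q (ne_of_lt hq), hy q (ne_of_lt (hq.trans (by norm_num)))]
    · rw [hz0]
      exact hb _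
  have hzx : z ≠ x := cc_ne hzxy
  have hzy : z ≠ y := cc_ne' hzxy
  have hinj : Function.Injective (![z, x, y] : Fin 3 → Word c) := by
    intro i j hij
    fin_cases i <;> fin_cases j
    · rfl
    · exact absurd hij hzx
    · exact absurd hij hzy
    · exact absurd hij.symm hzx
    · rfl
    · exact absurd hij hxy
    · exact absurd hij.symm hzy
    · exact absurd hij.symm hxy
    · rfl
  exact ⟨![z, x, y], hinj, shp_of hinj (j := 1) (k := 2) (by decide) (by decide) (by decide) hzxy⟩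

theorem ex_close (z x y : Word c) (hzx : z ≠ x) : ∃ e : Word c, Cc z x e ∧ e ≠ z ∧ e ≠ x ∧ e ≠ y := by
  have hfin : ({q | z.1 q ≠ c q} ∪ {q | x.1 q ≠ c q} ∪ {q | y.1 q ≠ c q}).Finite :=
    (z.2.union x.2).union y.2
  obtain ⟨b, hb⟩ := hfin.bddAbove
  have hb' : ∀ w : Word c, (w = z ∨ w = x ∨ w = y) → ∀ q, b < q → w.1 q = c q := by
    intro w hw q hq
    by_contra h1
    have h2 : q ∈ ({q | z.1 q ≠ c q} ∪ {q | x.1 q ≠ c q} ∪ {q | y.1 q ≠ c q}) := by
      rcases hw with hw | hw | hw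
      · rw [hw] at h1
        exact Or.inl (Or.inl h1)
      · rw [hw] at h1
        exact Or.inl (Or.inr h1)
      · rw [hw] at h1
        exact Or.inr h1
    exact absurd (hb h2) (not_le.2 hq)
  have hbl : b < b + 1 := by linarith
  have hefin : {q | Function.update x.1 (b + 1) (!c (b + 1)) q ≠ c q}.Finite := by
    refine (x.2.union (Set.finite_singleton (b + 1))).subset ?_
    intro q hq
    by_cases h1 : q = b + 1
    · exact Or.inr h1
    · left
      have h2 : Function.update x.1 (b + 1) (!c (b + 1)) q = x.1 q := Function.update_of_ne h1 _ _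
      intro h3
      exact hq (h2.trans h3)
  let e : Word c := ⟨Function.update x.1 (b + 1) (!c (b + 1)), hefin⟩
  have he1 : e.1 (b + 1) = !c (b + 1) := by
    show Function.update x.1 (b + 1) (!c (b + 1)) (b + 1) = !c (b + 1)
    simp
  have he : ∀ q, q ≠ b + 1 → e.1 q = x.1 q := by
    intro q hq
    show Function.update x.1 (b + 1) (!c (b + 1)) q = x.1 q
    exact Function.update_of_ne hq _ _
  have hne : ∀ w : Word c, (w = z ∨ w = x ∨ w = y) → e ≠ w := by
    intro w hw h1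
    have h2 : e.1 (b + 1) = w.1 (b + 1) := by rw [h1]
    rw [he1, hb' w hw _ hbl] at h2
    revert h2
    cases c (b + 1) <;> decide
  refine ⟨e, ?_, hne z (Or.inl rfl), hne x (Or.inr (Or.inl rfl)), hne y (Or.inr (Or.inr rfl))⟩
  obtain ⟨q, h1, _, _, h4⟩ := cc_self hzx
  have hqb : q ≤ b := by
    by_contra h5
    have h6 := hb' z (Or.inl rfl) q (not_le.1 h5)
    have h7 := hb' x (Or.inr (Or.inl rfl)) q (not_le.1 h5)
    exact h4 (h6.trans h7.symm)
  refine ⟨q, h1, ?_, (he q (ne_of_lt (lt_of_le_of_lt hqb hbl))).symm, h4⟩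
  intro q' hq'
  rw [he q' (ne_of_lt ((lt_of_lt_of_le hq' hqb).trans hbl))]
  exact h1 q' hq'

theorem inj3 {a b d : Word c} (h1 : a ≠ b) (h2 : a ≠ d) (h3 : b ≠ d) :
    Function.Injective (![a, b, d] : Fin 3 → Word c) := by
  intro i j hij
  fin_cases i <;> fin_cases j
  · rfl
  · exact absurd hij h1
  · exact absurd hij h2
  · exact absurd hij.symm h1
  · rfl
  · exact absurd hij h3
  · exact absurd hij.symm h2
  · exact absurd hij.symm h3
  · rfl

theorem comp3 {Y : Type} (v : Y → Word c) (a b d : Y) :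
    (fun x => v ((![a, b, d] : Fin 3 → Y) x)) = ![v a, v b, v d] := by
  funext k
  fin_cases k <;> rfl

/-- If no arrow changes the shape then the split relation is primitive positive definable. -/
theorem pp_c3 (hARR : S_ARR) (hPPB : S_PPB) (𝔅 : Str σ (Word c)) (hA : AllInv 𝔅) (hN : NEq 𝔅)
    (H : ∀ v w : Fin 3 → Word c, Function.Injective v → Function.Injective w → Shp v 0 →
      Arr 𝔅 v w → Shp w 0) : PP 𝔅 (C3 (c := c)) := by
  obtain ⟨a1, _, a3, _, _, a6⟩ := hARR c σ 𝔅 hA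
  obtain ⟨_, b2, b3, b4, _⟩ := hPPB σ (Word c) 𝔅
  obtain ⟨v₀, hv₀, hs₀⟩ := ex_word c
  have hO : ∀ u, Arr 𝔅 v₀ u ↔ Function.Injective u ∧ Shp u 0 := by
    intro u
    constructor
    · intro h
      have hu : Function.Injective u := by
        intro x y hxy
        by_contra hne
        exact a6 hN (Fin 3) v₀ u x y h (fun h1 => hne (hv₀ h1)) hxy
      exact ⟨hu, H v₀ u hv₀ hu hs₀ h⟩
    · rintro ⟨h1, h2⟩
      exact a1 (Fin 3) v₀ u (shp_same hv₀ h1 hs₀ h2)
  have hp := a3 (Fin 3) v₀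
  have hp1 := b3 (Fin 3) (Fin 4) (fun u => Arr 𝔅 v₀ u) ![0, 1, 3] hp
  have hp2 := b3 (Fin 3) (Fin 4) (fun u => Arr 𝔅 v₀ u) ![0, 2, 3] hp
  have hp3 := b2 (Fin 4) _ _ hp1 hp2
  have hp4 := b4 (Fin 4) (Fin 3) _ ![0, 1, 2] hp3
  have he : (C3 (c := c)) = (fun u : Fin 3 → Word c => ∃ v : Fin 4 → Word c,
      (Arr 𝔅 v₀ (fun x => v ((![0, 1, 3] : Fin 3 → Fin 4) x)) ∧
        Arr 𝔅 v₀ (fun x => v ((![0, 2, 3] : Fin 3 → Fin 4) x))) ∧
      ∀ y, u y = v ((![0, 1, 2] : Fin 3 → Fin 4) y)) := by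
    funext u
    apply propext
    constructor
    · intro h
      have h' : Cc (u 0) (u 1) (u 2) := h
      obtain ⟨e, h1, h2, h3, h4⟩ := ex_close (u 0) (u 1) (u 2) (cc_ne h')
      have h5 : Cc (u 0) (u 2) e := cc_trans (cc_symm h') h1
      refine ⟨![u 0, u 1, u 2, e], ⟨?_, ?_⟩, ?_⟩
      · rw [comp3]
        have h6 : Function.Injective (![u 0, u 1, e] : Fin 3 → Word c) :=
          inj3 (cc_ne h') h2.symm h3.symm
        exact (hO _).2 ⟨h6, shp_of h6 (j := 1) (k := 2) (by decide) (by decide) (by decide) h1⟩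
      · rw [comp3]
        have h6 : Function.Injective (![u 0, u 2, e] : Fin 3 → Word c) :=
          inj3 (cc_ne' h') h2.symm h4.symm
        exact (hO _).2 ⟨h6, shp_of h6 (j := 1) (k := 2) (by decide) (by decide) (by decide) h5⟩
      · intro y
        fin_cases y <;> rfl
    · rintro ⟨v, ⟨h1, h2⟩, h3⟩
      rw [comp3] at h1 h2
      have h4 := ((hO _).1 h1).2 1 2 (by decide) (by decide)
      have h5 := ((hO _).1 h2).2 1 2 (by decide) (by decide)
      have h6 : Cc (v 0) (v 1) (v 3) := h4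
      have h7 : Cc (v 0) (v 2) (v 3) := h5
      have h8 : Cc (v 0) (v 1) (v 2) := cc_trans h6 (cc_symm h7)
      have e0 : u 0 = v 0 := h3 0
      have e1 : u 1 = v 1 := h3 1
      have e2 : u 2 = v 2 := h3 2
      show Cc (u 0) (u 1) (u 2)
      rw [e0, e1, e2]
      exact h8
  rw [he]
  exact hp4

end FE3

open FE3

theorem E3_pf (h1 : S_ARR) (h2 : S_PPB) : S_E3 := by
  intro c σ 𝔅 hA hN hC v' w' hv' hw'
  obtain ⟨a1, a2, _, _, _, _⟩ := h1 c σ 𝔅 hA
  have hex : ∃ v w : Fin 3 → Word c, Function.Injective v ∧ Function.Injective w ∧ Shp v 0 ∧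
      Arr 𝔅 v w ∧ ¬ Shp w 0 := by
    by_contra hcon
    apply hC
    apply pp_c3 h1 h2 𝔅 hA hN
    intro v w hv hw hs ha
    by_contra hns
    exact hcon ⟨v, w, hv, hw, hs, ha, hns⟩
  obtain ⟨v, w, hv, hw, hs, ha, hns⟩ := hex
  obtain ⟨j₀, hj₀⟩ := shp_ex hw
  have hj₀0 : j₀ ≠ 0 := by
    intro h
    rw [h] at hj₀
    exact hns hj₀
  obtain ⟨i, hi⟩ := shp_ex hv'
  obtain ⟨j, hj⟩ := shp_ex hw'
  by_cases hij : i = j
  · subst hij
    exact a1 (Fin 3) v' w' (shp_same hv' hw' hi hj)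
  · obtain ⟨e, he1, he2⟩ := perm_ex i j j₀ hij hj₀0
    have hve : Function.Injective (fun x => v (e x)) := hv.comp e.injective
    have hwe : Function.Injective (fun x => w (e x)) := hw.comp e.injective
    have r1 : Arr 𝔅 v' (fun x => v (e x)) :=
      a1 (Fin 3) _ _ (shp_same hv' hve hi (shp_perm hs e he1))
    have r2 : Arr 𝔅 (fun x => v (e x)) (fun x => w (e x)) := a2 (Fin 3) (Fin 3) e v w ha
    have r3 : Arr 𝔅 (fun x => w (e x)) w' :=
      a1 (Fin 3) _ _ (shp_same hwe hw' (shp_perm hj₀ e he2) hj)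
    exact (r1.trans r2).trans r3

end Pool.Agent.Work.MP_8dbde4_lc.Full
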