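import Pool.Agent.Work.MP_8dbde4_lc.Full.StmtsB

/-!
# Item EFP: the condition EqH implies FP
-/

set_option autoImplicit false
open Classical

namespace Pool.Agent.Work.MP_8dbde4_lc.Full

open Pool.Agent.Work.MP_8dbde4_lc.TS Pool.Agent.Work.MP_8dbde4_lc.Tree
  Pool.Agent.Work.MP_8dbde4_lc.Phy BT

namespace FEFP

variable {c : ℚ → Bool} {σ : Sig}

/-- number of pairs of equal entries -/
noncomputable def cnt {n : ℕ} (u : Fin n → Word c) : ℕ :=
  (Finset.univ.filter fun p : Fin n × Fin n => u p.1 = u p.2).card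

theorem spl_ne {X : Type} {v : X → Word c} {i j : X} {h : X → Bool}
    (hs : Spl (insert i (insert j (∅ : Set X))) v h) : h i ≠ h j ∧ v i ≠ v j := by
  have hmem : ∀ x ∈ insert i (insert j (∅ : Set X)), x = i ∨ x = j := by
    intro x hx
    simpa using hx
  have h1 : h i ≠ h j := by
    obtain ⟨⟨x, hx, y, hy, hxy⟩, _⟩ := hs
    intro h3
    apply hxy
    rcases hmem x hx with rfl | rfl <;> rcases hmem y hy with rfl | rfl <;> simp [h3]
  refine ⟨h1, ?_⟩
  have h3 := hs.2 i (by simp) i (by simp) j (by simp) rfl (fun h4 => h1 h4.symm)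
  intro h4
  rw [h4] at h3
  exact cc_irrefl h3

end FEFP

open FEFP in
theorem EFP_pf (hK : S_KCL) (hC : S_CMB) (hF : S_FSX) : S_EFP := by
  intro hfp c σ 𝔅 hE
  have h1 : ∀ (R : σ.S) (v z : Fin (σ.ar R) → Word c), 𝔅.rel R v → CombT z →
      (∀ x y, z x = z y ↔ v x = v y) → 𝔅.rel R z := by
    intro R v z hv hz hvz
    exact hE R v v z hv hv hz (fun x y => by rw [hvz, and_self])
  obtain ⟨hcsp, _⟩ := hK c σ 𝔅 h1
  have hH : ∀ R, HornC ((kc 𝔅).rel R) := by
    intro R
    refine ⟨{C | ∀ u, (kc 𝔅).rel R u → C.Holds u}, fun v => ⟨fun hv C hC' => hC' v hv, ?_⟩⟩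
    intro hv
    -- the premise
    obtain ⟨θ, hθ⟩ : ∃ θ : Set (Fin (σ.ar R) × Fin (σ.ar R)), θ = {e | v e.1 = v e.2} := ⟨_, rfl⟩
    have hθv : ∀ e ∈ θ, v e.1 = v e.2 := by
      intro e he
      rw [hθ] at he
      exact he
    have hmem : ∀ u : Fin (σ.ar R) → Word c, (∀ e ∈ θ, u e.1 = u e.2) →
        ∀ x y, v x = v y → u x = u y := by
      intro u hu x y hxy
      refine hu (x, y) ?_
      rw [hθ]
      exact hxy
    have hex : ∃ u, (kc 𝔅).rel R u ∧ ∀ x y, v x = v y → u x = u y := by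
      by_contra hcon
      refine hv ⟨θ, none⟩ ?_ hθv
      intro u hu hue
      exact hcon ⟨u, hu, hmem u hue⟩
    have hsep : ∀ i j, v i ≠ v j → ∃ u, (kc 𝔅).rel R u ∧ (∀ x y, v x = v y → u x = u y) ∧
        u i ≠ u j := by
      intro i j hij
      by_contra hcon
      push Not at hcon
      have h2 : CHolds v (some (i, j, ∅)) := by
        refine hv ⟨θ, some (i, j, ∅)⟩ ?_ hθv
        intro u hu hue h hs
        exact absurd (hcon u hu (hmem u hue)) (spl_ne hs).2
      obtain ⟨h, hs⟩ := (hF c (Fin (σ.ar R)) (insert i (insert j (∅ : Set _))) v).1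
        ⟨i, by simp, j, by simp, hij⟩
      exact (spl_ne hs).1 (h2 h hs)
    -- a member with the least number of equalities
    have hP : ∃ k, ∃ u, ((kc 𝔅).rel R u ∧ ∀ x y, v x = v y → u x = u y) ∧ cnt u = k := by
      obtain ⟨u, hu⟩ := hex
      exact ⟨_, u, hu, rfl⟩
    obtain ⟨u, ⟨hu1, hu2⟩, hu3⟩ := Nat.find_spec hP
    have hmin : ∀ u', (kc 𝔅).rel R u' → (∀ x y, v x = v y → u' x = u' y) → cnt u ≤ cnt u' := by
      intro u' h2 h3
      rw [hu3]
      exact Nat.find_min' hP ⟨u', ⟨h2, h3⟩, rfl⟩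
    have hker : ∀ u', (kc 𝔅).rel R u' → (∀ x y, v x = v y → u' x = u' y) →
        ∀ i j, u i = u j → u' i = u' j := by
      intro u' h2 h3 i j hij
      obtain ⟨w, hw, hwu⟩ := hu1
      obtain ⟨w', hw', hwu'⟩ := h2
      obtain ⟨z, hz, hzw⟩ := hC c (Fin (σ.ar R)) (Word c × Word c) (fun x => (w x, w' x))
      have hzw' : ∀ x y, z x = z y ↔ w x = w y ∧ w' x = w' y := by
        intro x y
        rw [hzw, Prod.mk.injEq]
      have hzr : 𝔅.rel R z := hE R w w' z hw hw' hz hzw'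
      have hzk : (kc 𝔅).rel R z := ⟨z, hzr, fun _ _ => Iff.rfl⟩
      have hzv : ∀ x y, v x = v y → z x = z y := by
        intro x y hxy
        rw [hzw', hwu, hwu']
        exact ⟨hu2 x y hxy, h3 x y hxy⟩
      have h4 := hmin z hzk hzv
      have hsub : (Finset.univ.filter fun p : Fin (σ.ar R) × Fin (σ.ar R) => z p.1 = z p.2) ⊆
          Finset.univ.filter fun p : Fin (σ.ar R) × Fin (σ.ar R) => u p.1 = u p.2 := by
        intro p hp
        rw [Finset.mem_filter] at hp ⊢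
        refine ⟨hp.1, ?_⟩
        have := (hzw' p.1 p.2).mp hp.2
        exact (hwu _ _).mp this.1
      have heq := Finset.eq_of_subset_of_card_le hsub h4
      have h5 : (i, j) ∈ Finset.univ.filter
          fun p : Fin (σ.ar R) × Fin (σ.ar R) => u p.1 = u p.2 := by
        rw [Finset.mem_filter]
        exact ⟨Finset.mem_univ _, hij⟩
      rw [← heq, Finset.mem_filter] at h5
      exact (hwu' i j).mp ((hzw' i j).mp h5.2).2
    obtain ⟨w, hw, hwu⟩ := hu1
    refine ⟨w, hw, fun x y => ?_⟩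
    rw [hwu]
    constructor
    · intro h2
      by_contra h3
      obtain ⟨u', h4, h5, h6⟩ := hsep x y h3
      exact h6 (hker u' h4 h5 x y h2)
    · exact hu2 x y
  obtain ⟨φ, hφ⟩ := hfp c σ (kc 𝔅) hH
  exact ⟨φ, fun A _ _ 𝔄 v => (hφ A 𝔄 v).trans (hcsp A 𝔄).symm⟩

end Pool.Agent.Work.MP_8dbde4_lc.Full
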