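import Pool.Agent.Work.MP_8dbde4_lc.Full.StmtsB

/-!
# Block [8dbde4 FU], item EGD: the gadget for the equality patterns
-/

set_option autoImplicit false
open Classical

namespace Pool.Agent.Work.MP_8dbde4_lc.Full

open Pool.Agent.Work.MP_8dbde4_lc.TS Pool.Agent.Work.MP_8dbde4_lc.Tree
  Pool.Agent.Work.MP_8dbde4_lc.Phy BT

namespace FEGD

theorem meet_ft (x y : Bool) : meet false true x y = (x && y) := by
  unfold meet
  cases x <;> cases y <;> simp

theorem meet_tf (x y : Bool) : meet true false x y = (x || y) := by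
  unfold meet
  cases x <;> cases y <;> simp

theorem fe_min : FE.Min := by
  refine ⟨⟨true, false, by simp⟩, ?_⟩
  intro f _
  by_cases hf : f true = f false
  · right
    refine ⟨f false, ?_⟩
    intro x
    cases x
    · rfl
    · exact hf
  · left
    intro x y hxy
    cases x <;> cases y
    · rfl
    · exact absurd hxy.symm hf
    · exact absurd hxy hf
    · rfl

theorem fe_tp (hTwin : S_TWIN) : TP FE := by
  by_contra hTP
  obtain ⟨a, b, hab, _, hmeet⟩ := hTwin (sg 4) Bool FE fe_min hTP
  have hm : ∀ q q' : Fin 4 → Bool, (q 0 = q 1 ∨ q 2 = q 3) → (q' 0 = q' 1 ∨ q' 2 = q' 3) →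
      (meet a b (q 0) (q' 0) = meet a b (q 1) (q' 1) ∨
        meet a b (q 2) (q' 2) = meet a b (q 3) (q' 3)) := fun q q' h1 h2 => hmeet () q q' h1 h2
  cases a <;> cases b
  · exact hab rfl
  · have h := hm ![true, false, true, true] ![true, true, true, false] (Or.inr rfl) (Or.inl rfl)
    rw [meet_ft, meet_ft, meet_ft, meet_ft] at h
    rcases h with h | h <;> exact absurd h (by decide)
  · have h := hm ![false, true, false, false] ![false, false, false, true] (Or.inr rfl)
      (Or.inl rfl)
    rw [meet_tf, meet_tf, meet_tf, meet_tf] at h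
    rcases h with h | h <;> exact absurd h (by decide)
  · exact hab rfl

end FEGD

open FEGD

theorem EGD_pf : S_EGD := fun hGad hTwin => hGad (sg 4) Bool FE fe_min (fe_tp hTwin)

end Pool.Agent.Work.MP_8dbde4_lc.Full
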