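import Pool.Agent.Work.MP_8dbde4_lc.Full.StmtsB

/-!
The engine: see the docstring of `S_ENG`.
-/

set_option autoImplicit false
open Classical

namespace Pool.Agent.Work.MP_8dbde4_lc.Full

open Pool.Agent.Work.MP_8dbde4_lc.TS Pool.Agent.Work.MP_8dbde4_lc.Tree
  Pool.Agent.Work.MP_8dbde4_lc.Phy BT

theorem ENG_pf (hGame : S_GAME) (hPG : S_PGRP) (hDen : S_DEN) (hCOM : S_COM) (hGLS : S_GLS)
    (hBFG : S_BFG) : S_ENG := by
  intro σ B _ 𝔅 K X _ S p hp hS hsep hfr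
  obtain ⟨D, _, str, m, hm, hSm⟩ := hCOM σ B 𝔅 K X S hS hsep
  refine hGame σ (CSP 𝔅) ?_
  intro k
  obtain ⟨G, _, hGf, g₁, g₂, hG, hw⟩ := hPG p (2 * (3 * k + 5)) hp
  have hDn : Den (row g₁ g₂) (3 * k + 5) := hDen G g₁ g₂ (3 * k + 5) hw
  have hrow : ∀ v : G, (row g₁ g₂ v).card = 3 := by
    intro v
    have h1 := hDn {v} (Finset.singleton_nonempty v) (by simp)
    rw [Finset.singleton_biUnion, Finset.card_singleton] at h1
    have h2 : (row g₁ g₂ v).card ≤ 3 := Finset.card_le_three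
    omega
  obtain ⟨E, T, _, _, fr, h0, h1⟩ := hfr G g₁ g₂ hG
  obtain ⟨Z, hZ1, hZ2⟩ := hBFG σ G g₁ g₂ p E T K D X str m fr k hp hrow hDn
  refine ⟨E ⊕ T × D, E ⊕ T × D, inferInstance, inferInstance,
    Glue str m fr.kd (fr.ep 0), Glue str m fr.kd (fr.ep 1), Z, hZ1, hZ2, ?_, ?_⟩
  · exact (hGLS σ B 𝔅 E T K D X S str m fr.kd (fr.ep 0) hm hSm).2 h0
  · intro hc
    exact h1 ((hGLS σ B 𝔅 E T K D X S str m fr.kd (fr.ep 1) hm hSm).1 hc)

end Pool.Agent.Work.MP_8dbde4_lc.Full
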