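import Pool.Agent.Work.MP_8dbde4_lc.Full.StmtsB

set_option autoImplicit false
open Classical

namespace Pool.Agent.Work.MP_8dbde4_lc.Full

open Pool.Agent.Work.MP_8dbde4_lc.TS Pool.Agent.Work.MP_8dbde4_lc.Tree
  Pool.Agent.Work.MP_8dbde4_lc.Phy BT

namespace FEQD

variable {σ : Sig} {B : Type} {𝔅 : Str σ B}

theorem ppcongr {X : Type} {S S' : (X → B) → Prop} (h : PP 𝔅 S) (he : ∀ v, S v ↔ S' v) :
    PP 𝔅 S' := by
  have : S = S' := by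
    funext v
    exact propext (he v)
  rw [← this]
  exact h

theorem ppand (hB : S_PPB) {X : Type} {S S' : (X → B) → Prop} (h : PP 𝔅 S) (h' : PP 𝔅 S') :
    PP 𝔅 (fun v => S v ∧ S' v) := (hB σ B 𝔅).2.1 X S S' h h'

theorem ppne (hB : S_PPB) (hN : NEq 𝔅) {X : Type} [Finite X] (i j : X) :
    PP 𝔅 (fun v : X → B => v i ≠ v j) := by
  have := (hB σ B 𝔅).2.2.1 (Fin 2) X _ ![i, j] hN
  exact this

theorem ppu (hB : S_PPB) (hU : PP 𝔅 (U3 (B := B))) {X : Type} [Finite X] (i j k : X) :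
    PP 𝔅 (fun v : X → B => v i ≠ v j ∧ (v k = v i ∨ v k = v j)) := by
  have := (hB σ B 𝔅).2.2.1 (Fin 3) X _ ![i, j, k] hU
  exact this

end FEQD

open FEQD in
theorem EQD_pf (hB : S_PPB) : S_EQD := by
  intro σ B 𝔅 hN hU
  refine ⟨?_, ?_⟩
  · -- `K7`
    have hS := ppand hB (ppne hB hN (X := Fin 11) 4 5) (ppand hB (ppne hB hN (X := Fin 11) 4 6)
      (ppand hB (ppne hB hN (X := Fin 11) 5 6)
      (ppand hB (ppu hB hU (X := Fin 11) 4 5 0) (ppand hB (ppu hB hU (X := Fin 11) 4 5 1)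
      (ppand hB (ppu hB hU (X := Fin 11) 4 5 2) (ppand hB (ppu hB hU (X := Fin 11) 4 5 3)
      (ppand hB (ppu hB hU (X := Fin 11) 4 5 7) (ppand hB (ppu hB hU (X := Fin 11) 7 6 8)
      (ppand hB (ppne hB hN (X := Fin 11) 8 0) (ppand hB (ppne hB hN (X := Fin 11) 8 1)
      (ppand hB (ppu hB hU (X := Fin 11) 4 5 9) (ppand hB (ppu hB hU (X := Fin 11) 9 6 10)
      (ppand hB (ppne hB hN (X := Fin 11) 10 2) (ppand hB (ppne hB hN (X := Fin 11) 10 3)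
      (ppne hB hN (X := Fin 11) 8 10)))))))))))))))
    have hE := (hB σ B 𝔅).2.2.2.1 (Fin 11) (Fin 7) _ (Fin.castLE (by norm_num)) hS
    refine ppcongr hE ?_
    intro u
    constructor
    · rintro ⟨v, ⟨h45, h46, h56, ⟨-, h0⟩, ⟨-, h1⟩, ⟨-, h2⟩, ⟨-, h3⟩, ⟨-, h7⟩, ⟨-, h8⟩, h80, h81,
        ⟨-, h9⟩, ⟨-, h10⟩, h102, h103, h810⟩, hu⟩
      have e0 : u 0 = v 0 := hu 0
      have e1 : u 1 = v 1 := hu 1
      have e2 : u 2 = v 2 := hu 2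
      have e3 : u 3 = v 3 := hu 3
      have e4 : u 4 = v 4 := hu 4
      have e5 : u 5 = v 5 := hu 5
      have e6 : u 6 = v 6 := hu 6
      unfold K7
      rw [e0, e1, e2, e3, e4, e5, e6]
      refine ⟨h45, h46, h56, h0, h1, h2, h3, ?_⟩
      by_contra hc
      rw [not_or] at hc
      obtain ⟨hc1, hc2⟩ := hc
      have a1 : v 8 = v 6 := by
        rcases h8 with h8 | h8
        · exfalso
          rcases h7 with h7 | h7 <;> rcases h0 with h0 | h0 <;> rcases h1 with h1 | h1 <;>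
            simp_all
        · exact h8
      have a2 : v 10 = v 6 := by
        rcases h10 with h10 | h10
        · exfalso
          rcases h9 with h9 | h9 <;> rcases h2 with h2 | h2 <;> rcases h3 with h3 | h3 <;>
            simp_all
        · exact h10
      exact h810 (a1.trans a2.symm)
    · rintro ⟨h45, h46, h56, h0, h1, h2, h3, h⟩
      -- the other one of `u 4`, `u 5`
      have ho : ∀ x : B, (x = u 4 ∨ x = u 5) → ∃ y : B, (y = u 4 ∨ y = u 5) ∧ y ≠ x := by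
        rintro x (rfl | rfl)
        · exact ⟨u 5, Or.inr rfl, Ne.symm h45⟩
        · exact ⟨u 4, Or.inl rfl, h45⟩
      have key : ∀ w a w' a' : B, (w = u 4 ∨ w = u 5) → (w ≠ u 6) → (a = w ∨ a = u 6) → a ≠ u 0 →
          a ≠ u 1 → (w' = u 4 ∨ w' = u 5) → (w' ≠ u 6) → (a' = w' ∨ a' = u 6) → a' ≠ u 2 →
          a' ≠ u 3 → a ≠ a' →
          ∃ v : Fin 11 → B, (v 4 ≠ v 5 ∧ v 4 ≠ v 6 ∧ v 5 ≠ v 6 ∧
            (v 4 ≠ v 5 ∧ (v 0 = v 4 ∨ v 0 = v 5)) ∧ (v 4 ≠ v 5 ∧ (v 1 = v 4 ∨ v 1 = v 5)) ∧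
            (v 4 ≠ v 5 ∧ (v 2 = v 4 ∨ v 2 = v 5)) ∧ (v 4 ≠ v 5 ∧ (v 3 = v 4 ∨ v 3 = v 5)) ∧
            (v 4 ≠ v 5 ∧ (v 7 = v 4 ∨ v 7 = v 5)) ∧ (v 7 ≠ v 6 ∧ (v 8 = v 7 ∨ v 8 = v 6)) ∧
            v 8 ≠ v 0 ∧ v 8 ≠ v 1 ∧ (v 4 ≠ v 5 ∧ (v 9 = v 4 ∨ v 9 = v 5)) ∧
            (v 9 ≠ v 6 ∧ (v 10 = v 9 ∨ v 10 = v 6)) ∧ v 10 ≠ v 2 ∧ v 10 ≠ v 3 ∧ v 8 ≠ v 10) ∧
            ∀ y, u y = v (Fin.castLE (by norm_num) y) := by
        intro w a w' a' k1 k2 k3 k4 k5 k6 k7 k8 k9 k10 k11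
        refine ⟨![u 0, u 1, u 2, u 3, u 4, u 5, u 6, w, a, w', a'],
          ⟨h45, h46, h56, ⟨h45, h0⟩, ⟨h45, h1⟩, ⟨h45, h2⟩, ⟨h45, h3⟩, ⟨h45, k1⟩, ⟨k2, k3⟩, k4, k5,
            ⟨h45, k6⟩, ⟨k7, k8⟩, k9, k10, k11⟩, ?_⟩
        intro y
        fin_cases y <;> rfl
      have h6 : ∀ x : B, (x = u 4 ∨ x = u 5) → x ≠ u 6 := by
        rintro x (rfl | rfl)
        · exact h46
        · exact h56
      rcases h with h | h
      · obtain ⟨w, hw, hw0⟩ := ho _ h0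
        exact key w w (u 4) (u 6) hw (h6 w hw) (Or.inl rfl) hw0 (h ▸ hw0) (Or.inl rfl) h46
          (Or.inr rfl) (Ne.symm (h6 _ h2)) (Ne.symm (h6 _ h3)) (h6 w hw)
      · obtain ⟨w, hw, hw2⟩ := ho _ h2
        exact key (u 4) (u 6) w w (Or.inl rfl) h46 (Or.inr rfl) (Ne.symm (h6 _ h0))
          (Ne.symm (h6 _ h1)) hw (h6 w hw) (Or.inl rfl) hw2 (h ▸ hw2) (Ne.symm (h6 w hw))
  · -- `N7`
    have hS := ppand hB (ppne hB hN (X := Fin 7) 4 5)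
      (ppand hB (ppu hB hU (X := Fin 7) 4 5 0) (ppand hB (ppu hB hU (X := Fin 7) 4 5 1)
      (ppne hB hN (X := Fin 7) 0 1)))
    refine ppcongr hS ?_
    intro v
    constructor
    · rintro ⟨h1, ⟨-, h2⟩, ⟨-, h3⟩, h4⟩
      exact ⟨h1, h2, h3, h4⟩
    · rintro ⟨h1, h2, h3, h4⟩
      exact ⟨h1, ⟨h1, h2⟩, ⟨h1, h3⟩, h4⟩

end Pool.Agent.Work.MP_8dbde4_lc.Full
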