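import Pool.Agent.Work.MP_8dbde4_lc.Full.StmtsB

/-!
The case `CC` in FPC: see the docstring of `S_EQH`.
-/

set_option autoImplicit false
open Classical

namespace Pool.Agent.Work.MP_8dbde4_lc.Full

open Pool.Agent.Work.MP_8dbde4_lc.TS Pool.Agent.Work.MP_8dbde4_lc.Tree
  Pool.Agent.Work.MP_8dbde4_lc.Phy BT

namespace FEQH

/-- The word `c` changed at the place `n`. -/
def flipw (c : ℚ → Bool) (n : ℕ) : Word c :=
  ⟨fun q => if q = (n : ℚ) then !(c q) else c q, by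
    refine (Set.finite_singleton (n : ℚ)).subset ?_
    intro q hq
    by_contra hc
    apply hq
    simp only [Set.mem_singleton_iff] at hc
    simp [hc]⟩

theorem flipw_inj (c : ℚ → Bool) : Function.Injective (flipw c) := by
  intro n m h
  have h1 : (flipw c n).1 (n : ℚ) = (flipw c m).1 (n : ℚ) := by rw [h]
  by_contra hnm
  have h2 : ((n : ℚ) = (m : ℚ)) = False := by
    simp [hnm]
  simp [flipw, h2] at h1

theorem infinite_word (c : ℚ → Bool) : Infinite (Word c) := Infinite.of_injective _ (flipw_inj c)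

theorem inFPC_congr {σ : Sig} {𝒦 𝒦' : Class σ}
    (h : ∀ (A : Type) [Finite A] (𝔄 : Str σ A), 𝒦 A 𝔄 ↔ 𝒦' A 𝔄) (hF : InFPC 𝒦) : InFPC 𝒦' := by
  obtain ⟨φ, hφ⟩ := hF
  exact ⟨φ, fun A _ _ 𝔄 v ν => (hφ A 𝔄 v ν).trans (h A 𝔄)⟩

end FEQH

open FEQH in
theorem EQH_pf (hPPB : S_PPB) : S_EQH := by
  intro hCCK hKCL hEQN c σ 𝔅 hA hN hCC hF R v w z hv hw hz hk
  have hyp : ∀ (R : σ.S) (v z : Fin (σ.ar R) → Word c), 𝔅.rel R v → CombT z →
      (∀ x y, z x = z y ↔ v x = v y) → 𝔅.rel R z := by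
    intro R v z hv hz hk
    exact hCCK c σ 𝔅 hA hCC (Fin (σ.ar R)) (𝔅.rel R) ((hPPB σ (Word c) 𝔅).1 R) v z hv hz hk
  obtain ⟨h1, h2⟩ := hKCL c σ 𝔅 hyp
  have hinf : Infinite (Word c) := infinite_word c
  have hKI : ∀ R, KI ((kc 𝔅).rel R) := by
    rintro R v w hvw ⟨u, hu, hu'⟩
    exact ⟨u, hu, fun x y => (hu' x y).trans (hvw x y)⟩
  obtain ⟨u, ⟨u', hu', hku'⟩, hku⟩ := hEQN σ (Word c) (kc 𝔅) hKI (h2 hN)
    (inFPC_congr (fun A _ 𝔄 => h1 A 𝔄) hF) (Fin (σ.ar R)) ((kc 𝔅).rel R)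
    ((hPPB σ (Word c) (kc 𝔅)).1 R) v w ⟨v, hv, fun _ _ => Iff.rfl⟩ ⟨w, hw, fun _ _ => Iff.rfl⟩
  refine hyp R u' z hu' hz ?_
  intro x y
  rw [hk, hku', hku]

end Pool.Agent.Work.MP_8dbde4_lc.Full
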