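import Pool.Agent.Work.MP_8dbde4_lc.Full.StmtsB

/-! Item EQN of the block Full of MP_8dbde4_lc: equality languages in FPC are Horn (assembly). -/

set_option autoImplicit false
open Classical

namespace Pool.Agent.Work.MP_8dbde4_lc.Full

open Pool.Agent.Work.MP_8dbde4_lc.TS Pool.Agent.Work.MP_8dbde4_lc.Tree
  Pool.Agent.Work.MP_8dbde4_lc.Phy BT

theorem EQN_pf : S_EQN := by
  intro hKIP hEQP hEQU hEQD hNFE σ B _ 𝔅 hKI hN hF X _ S hS v₁ v₂ h₁ h₂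
  by_contra hcon
  obtain ⟨P, hP, hp, hq, hall⟩ := hEQP σ B 𝔅 hN X S v₁ v₂ hS h₁ h₂ hcon
  have hKP : KI P := hKIP σ B 𝔅 hKI (Fin 4) P hP
  have hU := hEQU σ B 𝔅 hN P hP hKP hp hq hall
  obtain ⟨hK, hN7⟩ := hEQD σ B 𝔅 hN hU
  obtain ⟨f, hf⟩ : ∃ f : Fin 3 → B, Function.Injective f := by
    obtain ⟨g⟩ : Nonempty (ℕ ↪ B) := ⟨Infinite.natEmbedding B⟩
    exact ⟨fun i => g i.val, fun i j h => Fin.ext (g.injective h)⟩
  have h01 : f 0 ≠ f 1 := fun h => by simpa using hf h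
  have h02 : f 0 ≠ f 2 := fun h => by simpa using hf h
  have h12 : f 1 ≠ f 2 := fun h => by simpa using hf h
  exact hNFE σ B 𝔅 (f 0) (f 1) (f 2) h01 h02 h12 hK hN7 hF

end Pool.Agent.Work.MP_8dbde4_lc.Full
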