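import Pool.Agent.Work.MP_8dbde4_lc.Full.StmtsB

set_option autoImplicit false
open Classical

namespace Pool.Agent.Work.MP_8dbde4_lc.Full

open Pool.Agent.Work.MP_8dbde4_lc.TS Pool.Agent.Work.MP_8dbde4_lc.Tree
  Pool.Agent.Work.MP_8dbde4_lc.Phy BT

namespace FEQP

theorem exists_max {A : Type} [DecidableEq A] [Finite A] (Q : Finset A → Prop) (h : Q ∅) :
    ∃ D, Q D ∧ ∀ e, e ∉ D → ¬ Q (insert e D) := by
  haveI := Fintype.ofFinite A
  obtain ⟨D, hD, hmax⟩ := Finset.exists_max_image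
    ((Finset.univ : Finset (Finset A)).filter Q) Finset.card ⟨∅, by simp [h]⟩
  refine ⟨D, (Finset.mem_filter.1 hD).2, ?_⟩
  intro e he hQ
  have h1 := hmax (insert e D) (by simp [hQ])
  rw [Finset.card_insert_of_notMem he] at h1
  omega

theorem exists_min {A : Type} [DecidableEq A] [Finite A] (Q : Finset A → Prop) (D₀ : Finset A) (h : Q D₀) :
    ∃ D, D ⊆ D₀ ∧ Q D ∧ ∀ f ∈ D, ¬ Q (D.erase f) := by
  haveI := Fintype.ofFinite A
  obtain ⟨D, hD, hmin⟩ := Finset.exists_min_image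
    ((Finset.univ : Finset (Finset A)).filter (fun D => D ⊆ D₀ ∧ Q D)) Finset.card
    ⟨D₀, by simp [h]⟩
  obtain ⟨hD1, hD2⟩ := (Finset.mem_filter.1 hD).2
  refine ⟨D, hD1, hD2, ?_⟩
  intro f hf hQ
  have h1 := hmin (D.erase f) (by
    simp only [Finset.mem_filter, Finset.mem_univ, true_and]
    exact ⟨(Finset.erase_subset _ _).trans hD1, hQ⟩)
  have h2 := Finset.card_erase_lt_of_mem hf
  omega

end FEQP

open FEQP in
theorem EQP_pf (h1 : S_PPB) : S_EQP := by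
  intro σ B 𝔅 hne X _ S v₁ v₂ hS hv₁ hv₂ hno
  obtain ⟨-, hand, hpull, hproj, heq, -, hall⟩ := h1 σ B 𝔅
  -- the pairs
  have hneq : ∀ p : X × X, PP 𝔅 (fun u : X → B => u p.1 ≠ u p.2) := by
    intro p
    have := hpull (Fin 2) X (fun v => v 0 ≠ v 1) ![p.1, p.2] hne
    simpa using this
  let S₁ : (X → B) → Prop := fun u => S u ∧ ∀ i : {p : X × X // v₁ p.1 = v₁ p.2 ∧ v₂ p.1 = v₂ p.2},
    u i.1.1 = u i.1.2
  have hS₁ : PP 𝔅 S₁ := by
    refine hand X S _ hS ?_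
    exact hall X {p : X × X // v₁ p.1 = v₁ p.2 ∧ v₂ p.1 = v₂ p.2} (fun i u => u i.1.1 = u i.1.2)
      (fun i => heq X i.1.1 i.1.2)
  let E : X × X → Prop := fun p => ¬ (v₁ p.1 = v₁ p.2 ∧ v₂ p.1 = v₂ p.2)
  let SD : Finset (X × X) → (X → B) → Prop := fun D u => S₁ u ∧ ∀ p : D, u p.1.1 ≠ u p.1.2
  have hSD : ∀ D, PP 𝔅 (SD D) := by
    intro D
    refine hand X S₁ _ hS₁ ?_
    exact hall X D (fun p u => u p.1.1 ≠ u p.1.2) (fun p => hneq p.1)
  have hS₁v₁ : S₁ v₁ := ⟨hv₁, fun i => i.2.1⟩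
  have hS₁v₂ : S₁ v₂ := ⟨hv₂, fun i => i.2.2⟩
  -- maximal set
  obtain ⟨D₀, ⟨hD₀E, u₀, hu₀⟩, hmax⟩ := exists_max
    (fun D : Finset (X × X) => (∀ p ∈ D, E p) ∧ ∃ u, SD D u)
    ⟨by simp, v₁, hS₁v₁, fun p => absurd p.2 (Finset.notMem_empty _)⟩
  -- some pair in E is not in D₀
  have hex : ∃ e, E e ∧ e ∉ D₀ := by
    by_contra hc0
    have hc : ∀ e, E e → e ∈ D₀ := by
      intro e he
      by_contra h
      exact hc0 ⟨e, he, h⟩
    apply hno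
    refine ⟨u₀, hu₀.1.1, ?_⟩
    intro x y
    constructor
    · intro hxy
      by_contra hE
      have hmem := hc (x, y) hE
      exact hu₀.2 ⟨(x, y), hmem⟩ hxy
    · intro h
      exact hu₀.1.2 ⟨(x, y), h⟩
  obtain ⟨e, heE, heD₀⟩ := hex
  have hempty : ¬ ∃ u, SD (insert e D₀) u := by
    intro hc
    refine hmax e heD₀ ⟨?_, hc⟩
    intro p hp
    rcases Finset.mem_insert.1 hp with rfl | hp
    · exact heE
    · exact hD₀E p hp
  obtain ⟨D₁, hD₁, hD₁e, hmin⟩ := exists_min (fun D => ¬ ∃ u, SD (insert e D) u) D₀ hempty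
  have hD₁ne : D₁.Nonempty := by
    rw [Finset.nonempty_iff_ne_empty]
    rintro rfl
    apply hD₁e
    by_cases h : v₁ e.1 = v₁ e.2
    · refine ⟨v₂, hS₁v₂, ?_⟩
      rintro ⟨p, hp⟩
      have hpe : p = e := by simpa using hp
      subst hpe
      exact fun h' => heE ⟨h, h'⟩
    · refine ⟨v₁, hS₁v₁, ?_⟩
      rintro ⟨p, hp⟩
      have hpe : p = e := by simpa using hp
      subst hpe
      exact h
  obtain ⟨f, hf⟩ := hD₁ne
  have hne2 : ∃ u, SD (insert e (D₁.erase f)) u := not_not.1 (hmin f hf)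
  refine ⟨fun p => ∃ u, SD (D₁.erase f) u ∧ ∀ j, p j = u (![e.1, e.2, f.1, f.2] j),
    hproj X (Fin 4) (SD (D₁.erase f)) ![e.1, e.2, f.1, f.2] (hSD _), ?_, ?_, ?_⟩
  · obtain ⟨u, hu⟩ := hne2
    refine ⟨fun j => u (![e.1, e.2, f.1, f.2] j), ⟨u, ⟨hu.1, ?_⟩, fun _ => rfl⟩, ?_⟩
    · intro p
      exact hu.2 ⟨p.1, Finset.mem_insert_of_mem p.2⟩
    · exact hu.2 ⟨e, Finset.mem_insert_self _ _⟩
  · refine ⟨fun j => u₀ (![e.1, e.2, f.1, f.2] j), ⟨u₀, ⟨hu₀.1, ?_⟩, fun _ => rfl⟩, ?_⟩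
    · intro p
      exact hu₀.2 ⟨p.1, hD₁ (Finset.mem_of_mem_erase p.2)⟩
    · exact hu₀.2 ⟨f, hD₁ hf⟩
  · rintro p ⟨u, hu, hpu⟩
    by_contra hc
    push Not at hc
    apply hD₁e
    refine ⟨u, hu.1, ?_⟩
    rintro ⟨q, hq⟩
    rcases Finset.mem_insert.1 hq with rfl | hq
    · have := hc.1
      rw [hpu 0, hpu 1] at this
      exact this
    · by_cases hqf : q = f
      · subst hqf
        have := hc.2
        rw [hpu 2, hpu 3] at this
        exact this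
      · exact hu.2 ⟨q, Finset.mem_erase.2 ⟨hqf, hq⟩⟩

end Pool.Agent.Work.MP_8dbde4_lc.Full
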