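import Pool.Agent.Work.MP_8dbde4_lc.Full.StmtsB

/-!
# Block [8dbde4 FU], item EQU: `U3` is primitive positive definable
-/

set_option autoImplicit false
open Classical

namespace Pool.Agent.Work.MP_8dbde4_lc.Full

open Pool.Agent.Work.MP_8dbde4_lc.TS Pool.Agent.Work.MP_8dbde4_lc.Tree
  Pool.Agent.Work.MP_8dbde4_lc.Phy BT

namespace FEQU

variable {B : Type}

theorem iff_symm' {a b c d : B} (h : a = b ↔ c = d) : b = a ↔ d = c :=
  ⟨fun e => (h.1 e.symm).symm, fun e => (h.2 e.symm).symm⟩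

/-- a set which depends on equalities only, four entries -/
theorem ki4 {S : (Fin 4 → B) → Prop} (hS : KI S) {v : Fin 4 → B} (hv : S v) {a b c d : B}
    (h01 : v 0 = v 1 ↔ a = b) (h02 : v 0 = v 2 ↔ a = c) (h03 : v 0 = v 3 ↔ a = d)
    (h12 : v 1 = v 2 ↔ b = c) (h13 : v 1 = v 3 ↔ b = d) (h23 : v 2 = v 3 ↔ c = d) :
    S ![a, b, c, d] := by
  refine hS v _ ?_ hv
  intro x y
  fin_cases x <;> fin_cases y
  · exact ⟨fun _ => rfl, fun _ => rfl⟩
  · exact h01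
  · exact h02
  · exact h03
  · exact iff_symm' h01
  · exact ⟨fun _ => rfl, fun _ => rfl⟩
  · exact h12
  · exact h13
  · exact iff_symm' h02
  · exact iff_symm' h12
  · exact ⟨fun _ => rfl, fun _ => rfl⟩
  · exact h23
  · exact iff_symm' h03
  · exact iff_symm' h13
  · exact iff_symm' h23
  · exact ⟨fun _ => rfl, fun _ => rfl⟩

theorem iff_nn {a b c d : B} (h : a ≠ b) (h' : c ≠ d) : a = b ↔ c = d :=
  ⟨fun e => absurd e h, fun e => absurd e h'⟩

theorem iff_ee {a b c d : B} (h : a = b) (h' : c = d) : a = b ↔ c = d :=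
  ⟨fun _ => h', fun _ => h⟩

theorem new1 [Infinite B] (a b : B) : ∃ x : B, x ≠ a ∧ x ≠ b := by
  obtain ⟨x, hx⟩ := Infinite.exists_notMem_finset ({a, b} : Finset B)
  simp only [Finset.mem_insert, Finset.mem_singleton, not_or] at hx
  exact ⟨x, hx⟩

theorem new2 [Infinite B] (a b c : B) : ∃ x : B, x ≠ a ∧ x ≠ b ∧ x ≠ c := by
  obtain ⟨x, hx⟩ := Infinite.exists_notMem_finset ({a, b, c} : Finset B)
  simp only [Finset.mem_insert, Finset.mem_singleton, not_or] at hx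
  exact ⟨x, hx⟩

theorem fwd [Infinite B] {P : (Fin 4 → B) → Prop} (hK : KI P) (hp : ∃ p, P p ∧ p 0 ≠ p 1)
    (hq : ∃ p, P p ∧ p 2 ≠ p 3) (h : ∀ p, P p → p 0 = p 1 ∨ p 2 = p 3) {o i y : B} (hoi : o ≠ i)
    (hy : y = o ∨ y = i) :
    ∃ o' i' y' : B, P ![o, y, y', i'] ∧ P ![o', y', y, i] ∧ o' ≠ i' := by
  rcases hy with rfl | rfl
  · obtain ⟨q, hPq, hq23⟩ := hq
    have hq01 : q 0 = q 1 := by
      rcases h q hPq with h1 | h1
      · exact h1
      · exact absurd h1 hq23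
    by_cases h2 : q 0 = q 2
    · have h3 : q 0 ≠ q 3 := fun e => hq23 (h2.symm.trans e)
      obtain ⟨i', hi', _⟩ := new1 y y
      refine ⟨y, i', y, ?_, ?_, hi'.symm⟩
      · exact ki4 hK hPq (iff_ee hq01 rfl) (iff_ee h2 rfl) (iff_nn h3 hi'.symm)
          (iff_ee (hq01.symm.trans h2) rfl) (iff_nn (fun e => h3 (hq01.trans e)) hi'.symm)
          (iff_nn hq23 hi'.symm)
      · exact ki4 hK hPq (iff_ee hq01 rfl) (iff_ee h2 rfl) (iff_nn h3 hoi)
          (iff_ee (hq01.symm.trans h2) rfl) (iff_nn (fun e => h3 (hq01.trans e)) hoi)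
          (iff_nn hq23 hoi)
    · by_cases h3 : q 0 = q 3
      · refine ⟨i, y, i, ?_, ?_, hoi.symm⟩
        · exact ki4 hK hPq (iff_ee hq01 rfl) (iff_nn h2 hoi) (iff_ee h3 rfl)
            (iff_nn (fun e => h2 (hq01.trans e)) hoi) (iff_ee (hq01.symm.trans h3) rfl)
            (iff_nn hq23 hoi.symm)
        · exact ki4 hK hPq (iff_ee hq01 rfl) (iff_nn h2 hoi.symm) (iff_ee h3 rfl)
            (iff_nn (fun e => h2 (hq01.trans e)) hoi.symm) (iff_ee (hq01.symm.trans h3) rfl)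
            (iff_nn hq23 hoi)
      · obtain ⟨o', ho1, ho2⟩ := new1 y i
        obtain ⟨i', hi1, hi2, hi3⟩ := new2 y i o'
        refine ⟨o', i', o', ?_, ?_, hi3.symm⟩
        · exact ki4 hK hPq (iff_ee hq01 rfl) (iff_nn h2 ho1.symm) (iff_nn h3 hi1.symm)
            (iff_nn (fun e => h2 (hq01.trans e)) ho1.symm)
            (iff_nn (fun e => h3 (hq01.trans e)) hi1.symm) (iff_nn hq23 hi3.symm)
        · exact ki4 hK hPq (iff_ee hq01 rfl) (iff_nn h2 ho1) (iff_nn h3 ho2)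
            (iff_nn (fun e => h2 (hq01.trans e)) ho1) (iff_nn (fun e => h3 (hq01.trans e)) ho2)
            (iff_nn hq23 hoi)
  · obtain ⟨p, hPp, hp01⟩ := hp
    have hp23 : p 2 = p 3 := by
      rcases h p hPp with h1 | h1
      · exact absurd h1 hp01
      · exact h1
    by_cases h2 : p 0 = p 2
    · have h12 : p 1 ≠ p 2 := fun e => hp01 (h2.trans e.symm)
      refine ⟨y, o, o, ?_, ?_, hoi.symm⟩
      · exact ki4 hK hPp (iff_nn hp01 hoi) (iff_ee h2 rfl) (iff_ee (h2.trans hp23) rfl)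
          (iff_nn h12 hoi.symm) (iff_nn (fun e => h12 (e.trans hp23.symm)) hoi.symm)
          (iff_ee hp23 rfl)
      · exact ki4 hK hPp (iff_nn hp01 hoi.symm) (iff_ee h2 rfl) (iff_ee (h2.trans hp23) rfl)
          (iff_nn h12 hoi) (iff_nn (fun e => h12 (e.trans hp23.symm)) hoi)
          (iff_ee hp23 rfl)
    · have h3 : p 0 ≠ p 3 := fun e => h2 (e.trans hp23.symm)
      by_cases h12 : p 1 = p 2
      · obtain ⟨o', ho', _⟩ := new1 y y
        refine ⟨o', y, y, ?_, ?_, ho'⟩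
        · exact ki4 hK hPp (iff_nn hp01 hoi) (iff_nn h2 hoi) (iff_nn h3 hoi) (iff_ee h12 rfl)
            (iff_ee (h12.trans hp23) rfl) (iff_ee hp23 rfl)
        · exact ki4 hK hPp (iff_nn hp01 ho') (iff_nn h2 ho') (iff_nn h3 ho') (iff_ee h12 rfl)
            (iff_ee (h12.trans hp23) rfl) (iff_ee hp23 rfl)
      · have h13 : p 1 ≠ p 3 := fun e => h12 (e.trans hp23.symm)
        obtain ⟨i', hi1, hi2⟩ := new1 o y
        obtain ⟨o', ho1, ho2, ho3⟩ := new2 o y i'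
        refine ⟨o', i', i', ?_, ?_, ho3⟩
        · exact ki4 hK hPp (iff_nn hp01 hoi) (iff_nn h2 hi1.symm) (iff_nn h3 hi1.symm)
            (iff_nn h12 hi2.symm) (iff_nn h13 hi2.symm) (iff_ee hp23 rfl)
        · exact ki4 hK hPp (iff_nn hp01 ho3) (iff_nn h2 ho2) (iff_nn h3 ho2)
            (iff_nn h12 hi2) (iff_nn h13 hi2) (iff_ee hp23 rfl)

end FEQU

open FEQU

theorem EQU_pf (hPPB : S_PPB) : S_EQU := by
  intro σ B _ 𝔅 hN P hP hK hp hq h
  obtain ⟨_, hAnd, hPull, hEx, _, _, _⟩ := hPPB σ B 𝔅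
  have h1 : PP 𝔅 (fun v : Fin 6 → B => P (fun x => v (![0, 2, 5, 4] x))) :=
    hPull (Fin 4) (Fin 6) P ![0, 2, 5, 4] hP
  have h2 : PP 𝔅 (fun v : Fin 6 → B => P (fun x => v (![3, 5, 2, 1] x))) :=
    hPull (Fin 4) (Fin 6) P ![3, 5, 2, 1] hP
  have h3 : PP 𝔅 (fun v : Fin 6 → B => v 0 ≠ v 1) :=
    hPull (Fin 2) (Fin 6) (fun v : Fin 2 → B => v 0 ≠ v 1) ![0, 1] hN
  have h4 : PP 𝔅 (fun v : Fin 6 → B => v 3 ≠ v 4) :=
    hPull (Fin 2) (Fin 6) (fun v : Fin 2 → B => v 0 ≠ v 1) ![3, 4] hN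
  have h5 := hAnd (Fin 6) _ _ (hAnd (Fin 6) _ _ h1 h2) (hAnd (Fin 6) _ _ h3 h4)
  have h6 := hEx (Fin 6) (Fin 3) _ ![0, 1, 2] h5
  have key : (U3 (B := B)) = fun u : Fin 3 → B => ∃ v : Fin 6 → B,
      ((P (fun x => v (![0, 2, 5, 4] x)) ∧ P (fun x => v (![3, 5, 2, 1] x))) ∧
        (v 0 ≠ v 1 ∧ v 3 ≠ v 4)) ∧ ∀ y, u y = v (![0, 1, 2] y) := by
    funext u
    apply propext
    constructor
    · rintro ⟨hoi, hy⟩
      obtain ⟨o', i', y', ha, hb, hc⟩ := fwd hK hp hq h hoi hy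
      refine ⟨![u 0, u 1, u 2, o', i', y'], ⟨⟨?_, ?_⟩, hoi, hc⟩, ?_⟩
      · have e : (fun x : Fin 4 => (![u 0, u 1, u 2, o', i', y'] : Fin 6 → B)
            ((![0, 2, 5, 4] : Fin 4 → Fin 6) x)) = ![u 0, u 2, y', i'] := by
          funext x
          fin_cases x <;> rfl
        rw [e]
        exact ha
      · have e : (fun x : Fin 4 => (![u 0, u 1, u 2, o', i', y'] : Fin 6 → B)
            ((![3, 5, 2, 1] : Fin 4 → Fin 6) x)) = ![o', y', u 2, u 1] := by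
          funext x
          fin_cases x <;> rfl
        rw [e]
        exact hb
      · intro y
        fin_cases y <;> rfl
    · rintro ⟨v, ⟨⟨ha, hb⟩, hoi, hc⟩, hv⟩
      have e0 : u 0 = v 0 := hv 0
      have e1 : u 1 = v 1 := hv 1
      have e2 : u 2 = v 2 := hv 2
      refine ⟨by rw [e0, e1]; exact hoi, ?_⟩
      rw [e0, e1, e2]
      have ha' : v 0 = v 2 ∨ v 5 = v 4 := h _ ha
      have hb' : v 3 = v 5 ∨ v 2 = v 1 := h _ hb
      rcases ha' with ha' | ha'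
      · exact Or.inl ha'.symm
      · rcases hb' with hb' | hb'
        · exact absurd (hb'.trans ha') hc
        · exact Or.inr hb'
  rw [key]
  exact h6

end Pool.Agent.Work.MP_8dbde4_lc.Full
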