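import Pool.Agent.Work.MP_8dbde4_lc.Full.StmtsA

/-!
Item EXN of the block Full of MP_8dbde4_lc: one step of the extension property.
-/

set_option autoImplicit false
open Classical

namespace Pool.Agent.Work.MP_8dbde4_lc.Full

open Pool.Agent.Work.MP_8dbde4_lc.TS Pool.Agent.Work.MP_8dbde4_lc.Tree
  Pool.Agent.Work.MP_8dbde4_lc.Phy BT

namespace FEXN

variable {c : ℚ → Bool} {σ : Sig}

theorem lvs_map {X Y : Type} (e : X → Y) (T : BT X) : (T.map e).lvs = T.lvs.map e := by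
  induction T with
  | lf x => rfl
  | nd l r h1 h2 => simp only [BT.map, BT.lvs, List.map_append, h1, h2]

theorem cpl_map {X Y : Type} (e : X → Y) (T : BT X) : ∀ n : ℕ, T.Cpl n → (T.map e).Cpl n := by
  induction T with
  | lf x =>
    intro n h
    cases n with
    | zero => exact trivial
    | succ n => exact h.elim
  | nd l r h1 h2 =>
    intro n h
    cases n with
    | zero => exact h.elim
    | succ n => exact ⟨h1 n h.1, h2 n h.2⟩

theorem ex_ct (d : ℕ) : ∃ (L : Type) (_ : Finite L) (T : BT L), T.Cpl d ∧ T.lvs.Nodup ∧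
    ∀ l, l ∈ T.lvs := by
  induction d with
  | zero => exact ⟨Unit, inferInstance, lf (), trivial, by simp [BT.lvs], fun l => by simp [BT.lvs]⟩
  | succ d ih =>
    obtain ⟨L, hL, T, h1, h2, h3⟩ := ih
    refine ⟨L ⊕ L, inferInstance, nd (T.map Sum.inl) (T.map Sum.inr),
      ⟨cpl_map _ _ _ h1, cpl_map _ _ _ h1⟩, ?_, ?_⟩
    · simp only [BT.lvs, lvs_map]
      rw [List.nodup_append]
      refine ⟨h2.map Sum.inl_injective, h2.map Sum.inr_injective, ?_⟩
      intro a ha b hb hab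
      obtain ⟨a', -, rfl⟩ := List.mem_map.1 ha
      obtain ⟨b', -, rfl⟩ := List.mem_map.1 hb
      cases hab
    · rintro (l | l)
      · simp only [BT.lvs, lvs_map, List.mem_append]
        exact Or.inl (List.mem_map.2 ⟨l, h3 l, rfl⟩)
      · simp only [BT.lvs, lvs_map, List.mem_append]
        exact Or.inr (List.mem_map.2 ⟨l, h3 l, rfl⟩)

theorem lvs_ne {X : Type} (T : BT X) : ∃ x, x ∈ T.lvs := by
  induction T with
  | lf x => exact ⟨x, by simp [BT.lvs]⟩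
  | nd l r h1 h2 =>
    obtain ⟨x, hx⟩ := h1
    exact ⟨x, by simp [BT.lvs, hx]⟩

theorem combL_sub {X : Type} (v : X → Word c) {l l' : List X} (h : List.Sublist l l') :
    CombL v l' → CombL v l := by
  induction h with
  | slnil => exact id
  | cons a h ih => exact fun hc => ih hc.2
  | cons_cons a h ih =>
    exact fun hc => ⟨fun y hy z hz => hc.1 y (h.subset hy) z (h.subset hz), ih hc.2⟩

theorem so_comp {X Y : Type} {S : Set X} {T : Set Y} {v w : X → Word c} (e : Y → X)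
    (h : SameOn S v w) (hs : ∀ y ∈ T, e y ∈ S) :
    SameOn T (fun y => v (e y)) (fun y => w (e y)) :=
  ⟨fun x hx y hy => h.1 _ (hs x hx) _ (hs y hy),
    fun x hx y hy z hz => h.2 _ (hs x hx) _ (hs y hy) _ (hs z hz)⟩

theorem so_eq {X : Type} {S : Set X} {v w : X → Word c} (h : ∀ x ∈ S, v x = w x) :
    SameOn S v w :=
  ⟨fun x hx y hy => by rw [h x hx, h y hy],
    fun x hx y hy z hz => by rw [h x hx, h y hy, h z hz]⟩

/-- a family of blocks which do not split relative to each other -/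
theorem bl_of_reps {O Y : Type} (π : Y → O) (r : O → Y) (hr : ∀ o, π (r o) = o)
    (w : Y → Word c) (hA : ∀ y y' z, π y = π y' → π z ≠ π y → Cc (w z) (w y) (w y')) :
    Bl π (fun o => w (r o)) w := by
  have step1 : ∀ z a b a', π a = π a' → π z ≠ π a → Cc (w z) (w a) (w b) →
      Cc (w z) (w a') (w b) := fun z a b a' h1 h2 h =>
    cc_trans (hA a' a z h1.symm (by rw [← h1]; exact h2)) h
  have step2 : ∀ z z' a b, π z = π z' → π a ≠ π z → Cc (w z) (w a) (w b) →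
      Cc (w z') (w a) (w b) := by
    intro z z' a b h1 h2 h
    rcases cc_or h (w z') with h3 | h3
    · exact absurd h3 (cc_asymm (hA z z' a h1 h2))
    · exact h3
  intro y y' y'' h1 h2
  have e : ∀ o, π (r o) = o := hr
  constructor
  · intro h
    have a1 := step1 y'' y y' (r (π y)) (e _).symm h1 h
    have a2 := step1 y'' y' (r (π y)) (r (π y')) (e _).symm h2 (cc_symm a1)
    exact step2 y'' (r (π y'')) _ _ (e _).symm (by rw [e]; exact h1.symm) (cc_symm a2)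
  · intro h
    have a0 := step2 (r (π y'')) y'' _ _ (e _) (by rw [e, e]; exact h1.symm) h
    have a1 := step1 y'' (r (π y)) _ y (e _) (by rw [e]; exact h1) a0
    have a2 := step1 y'' (r (π y')) _ y' (e _) (by rw [e]; exact h2) (cc_symm a1)
    exact cc_symm a2

/-- the final step: restriction to the leaves of the trees -/
theorem core (hARR : S_ARR) (hSHF : S_SHF) (𝔅 : Str σ (Word c)) (hB : AllInv 𝔅)
    {O Y : Type} [Finite Y] (n : ℕ) (F : Set O) (π : Y → O) (v' w' : O → Word c)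
    (v'' w₁ : Y → Word c) (hv'' : Function.Injective v'') (hw₁ : Function.Injective w₁)
    (hBl : Bl π v' v'') (hArr : Arr 𝔅 v'' w₁) (K : O → BT Y)
    (hK : ∀ o, (∀ y ∈ (K o).lvs, π y = o) ∧ Sh v'' (K o) ∧ Sh w₁ (K o) ∧ (o ∈ F → (K o).Cpl n))
    (hblk : ∀ y y' z, y ∈ (K (π y)).lvs → y' ∈ (K (π y')).lvs → z ∈ (K (π z)).lvs →
      π y = π y' → π z ≠ π y → Cc (w₁ z) (w₁ y) (w₁ y'))
    (r : O → Y) (hr : ∀ o, r o ∈ (K o).lvs) (hw' : SameOn Set.univ (fun o => w₁ (r o)) w') :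
    NF 𝔅 n F v' w' := by
  have hπr : ∀ o, π (r o) = o := fun o => (hK o).1 _ (hr o)
  by_cases hO : Nonempty O
  · obtain ⟨o₀⟩ := hO
    let Y₂ : Type := {y : Y // y ∈ (K (π y)).lvs}
    have hr2 : ∀ o, r o ∈ (K (π (r o))).lvs := fun o => by rw [hπr]; exact hr o
    let g : Y → Y₂ := fun y => if h : y ∈ (K (π y)).lvs then ⟨y, h⟩ else ⟨r o₀, hr2 o₀⟩
    have hg : ∀ o, ∀ y ∈ (K o).lvs, (g y).1 = y := by
      intro o y hy
      have h1 : y ∈ (K (π y)).lvs := by rw [(hK o).1 y hy]; exact hy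
      simp only [g, dif_pos h1]
    refine ⟨Y₂, inferInstance, fun y => π y.1, fun o => (K o).map g, fun y => v'' y.1,
      fun y => w₁ y.1, fun y y' h => Subtype.ext (hv'' h), fun y y' h => Subtype.ext (hw₁ h),
      fun y y' y'' h1 h2 => hBl y.1 y'.1 y''.1 h1 h2, ?_, ?_, ?_⟩
    · have hb := bl_of_reps (fun y : Y₂ => π y.1) (fun o => ⟨r o, hr2 o⟩) hπr
        (fun y => w₁ y.1) (fun y y' z h1 h2 => hblk y.1 y'.1 z.1 y.2 y'.2 z.2 h1 h2)
      intro y y' y'' h1 h2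
      rw [hb y y' y'' h1 h2]
      exact hw'.2 _ trivial _ trivial _ trivial
    · exact (hARR c σ 𝔅 hB).2.1 Y Y₂ (fun y => y.1) v'' w₁ hArr
    · intro o
      refine ⟨?_, ?_, ?_, fun ho => cpl_map _ _ _ ((hK o).2.2.2 ho)⟩
      · intro y hy
        rw [lvs_map] at hy
        obtain ⟨x, hx, rfl⟩ := List.mem_map.1 hy
        show π (g x).1 = o
        rw [hg o x hx]
        exact (hK o).1 x hx
      · rw [(hSHF c Y (K o)).2.2.2.1]
        exact (hSHF c Y (K o)).2.2.1 v'' _ (hK o).2.1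
          (so_eq fun x hx => by rw [hg o x hx])
      · rw [(hSHF c Y (K o)).2.2.2.1]
        exact (hSHF c Y (K o)).2.2.1 w₁ _ (hK o).2.2.1
          (so_eq fun x hx => by rw [hg o x hx])
  · haveI : IsEmpty O := not_nonempty_iff.1 hO
    haveI : IsEmpty Y := ⟨fun y => isEmptyElim (π y)⟩
    exact ⟨Y, inferInstance, π, K, v'', w₁, hv'', hw₁, hBl, fun y => isEmptyElim (π y), hArr,
      fun o => isEmptyElim o⟩

/-- the blocks over the points -/
abbrev Y0 (X L : Type) (F : Set X) (l₀ : L) : Type := {y : X × L // y.1 ∈ F ∨ y.2 = l₀}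

/-- the projection -/
def pr {X L L' : Type} {F : Set X} {l₀ : L} : Y0 X L F l₀ ⊕ L' → Option X
  | .inl y => some y.1.1
  | .inr _ => none

/-- the block of a point -/
noncomputable def em {X L L' : Type} (F : Set X) (l₀ : L) (x : X) (l : L) : Y0 X L F l₀ ⊕ L' :=
  if h : x ∈ F ∨ l = l₀ then .inl ⟨(x, l), h⟩ else .inl ⟨(x, l₀), Or.inr rfl⟩

theorem pr_em {X L L' : Type} (F : Set X) (l₀ : L) (x : X) (l : L) :
    pr (em F l₀ x l : Y0 X L F l₀ ⊕ L') = some x := by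
  unfold em
  split_ifs <;> rfl

/-- the tree of a point -/
noncomputable def tr {X L L' : Type} (F : Set X) (l₀ : L) (T : BT L) (x : X) :
    BT (Y0 X L F l₀ ⊕ L') :=
  if x ∈ F then T.map (em F l₀ x) else lf (.inl ⟨(x, l₀), Or.inr rfl⟩)

theorem pr_tr {X L L' : Type} (F : Set X) (l₀ : L) (T : BT L) (x : X) :
    ∀ y ∈ (tr F l₀ T x : BT (Y0 X L F l₀ ⊕ L')).lvs, pr y = some x := by
  intro y hy
  unfold tr at hy
  split_ifs at hy with h
  · rw [lvs_map] at hy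
    obtain ⟨l, -, rfl⟩ := List.mem_map.1 hy
    exact pr_em F l₀ x l
  · simp only [BT.lvs, List.mem_singleton] at hy
    subst hy
    rfl

theorem sh_tr (hSHF : S_SHF) {X L L' : Type} (F : Set X) (l₀ : L) (T : BT L) (t : L → Word c)
    (ht : Sh t T) (x : X) (u : Y0 X L F l₀ ⊕ L' → Word c)
    (hu : SameOn {y | pr y = some x} (fun y => Sum.elim (fun y => t y.1.2) (fun _ => t l₀) y) u) :
    Sh u (tr F l₀ T x) := by
  unfold tr
  split_ifs with h
  · rw [(hSHF c L T).2.2.2.1]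
    refine (hSHF c L T).2.2.1 t _ ht ?_
    have h1 := so_comp (T := {l | l ∈ T.lvs}) (em F l₀ x) hu (fun l _ => pr_em F l₀ x l)
    have h2 : (fun l => (fun y => Sum.elim (fun y : Y0 X L F l₀ => t y.1.2)
        (fun _ : L' => t l₀) y) (em F l₀ x l)) = t := by
      funext l
      have h3 : x ∈ F ∨ l = l₀ := Or.inl h
      simp only [em, dif_pos h3, Sum.elim_inl]
    rw [h2] at h1
    exact h1
  · trivial

end FEXN

open FEXN

/-- Item EXN. -/
theorem EXN_pf (hARR : S_ARR) (hBLW : S_BLW) (hBLF : S_BLF) (hSHF : S_SHF) (hSHX : S_SHX)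
    (hSUB : S_SUB) (hCAN : S_CAN) (hTHN : S_THN) (hNLN : S_NLN) (hAMA : S_AMA) : S_EXN := by
  intro c σ 𝔅 hB hNE hLIN X _ F v w hv hw hF v' hv' hvv n
  obtain ⟨hA1, hA2, -, hA4, -, hA6⟩ := hARR c σ 𝔅 hB
  obtain ⟨n₀, hn₀⟩ := hNLN c σ 𝔅 hB hLIN
  obtain ⟨N₁, hN₁⟩ := hTHN X n
  obtain ⟨N, hN⟩ := hCAN (max n₀ N₁)
  obtain ⟨L₁, hL₁, T₁, hT1, hT1n, hT1a⟩ := ex_ct (n + 1)
  obtain ⟨L₂, hL₂, T₂, hT2, hT2n, hT2a⟩ := ex_ct N
  obtain ⟨t₁, ht₁⟩ := (hSHX c L₁).1 T₁ hT1n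
  obtain ⟨t₂, ht₂⟩ := (hSHX c L₂).1 T₂ hT2n
  obtain ⟨l₀, hl₀⟩ := lvs_ne T₁
  have ht₁i : Function.Injective t₁ := fun l l' h =>
    ((hSHF c L₁ T₁).1 t₁ ht₁).2 (hT1a l) (hT1a l') h
  have ht₂i : Function.Injective t₂ := fun l l' h =>
    ((hSHF c L₂ T₂).1 t₂ ht₂).2 (hT2a l) (hT2a l') h
  let π₁ : Y0 X L₁ F l₀ ⊕ L₂ → Option X := pr
  let u : Y0 X L₁ F l₀ ⊕ L₂ → Word c := Sum.elim (fun y => t₁ y.1.2) t₂
  obtain ⟨v'', hv''i, hv''B, hv''S⟩ := hBLW c (Option X) (Y0 X L₁ F l₀ ⊕ L₂) π₁ v' u hv' (by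
    rintro (y | y) (y' | y') h1 h2
    · have e1 : y.1.1 = y'.1.1 := Option.some.inj h1
      have e2 : y.1.2 = y'.1.2 := ht₁i h2
      exact congrArg Sum.inl (Subtype.ext (Prod.ext e1 e2))
    · cases h1
    · cases h1
    · exact congrArg Sum.inr (ht₂i h2))
  let π₀ : Y0 X L₁ F l₀ → X := fun y => y.1.1
  obtain ⟨w₀, hw₀i, hw₀B, hw₀S⟩ := hBLW c X (Y0 X L₁ F l₀) π₀ w (fun y => t₁ y.1.2) hw (by
    intro y y' h1 h2
    exact Subtype.ext (Prod.ext h1 (ht₁i h2)))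
  -- the arrow on the blocks of the points of `X`
  have hArr0 : Arr 𝔅 (fun y : Y0 X L₁ F l₀ => v'' (.inl y)) w₀ := by
    refine hF (Y0 X L₁ F l₀) π₀ (fun y => v'' (.inl y)) w₀ ?_ ?_ hw₀i ?_ hw₀B ?_
    · intro y y' h1 h2
      have e1 : y.1.2 = l₀ := y.2.resolve_left h2
      have e2 : y'.1.2 = l₀ := y'.2.resolve_left (by
        have h3 : y'.1.1 = y.1.1 := h1.symm
        rw [h3]
        exact h2)
      exact Subtype.ext (Prod.ext h1 (e1.trans e2.symm))
    · intro y y' h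
      exact Sum.inl_injective (hv''i h)
    · intro y y' y'' h1 h2
      have h3 := hv''B (.inl y) (.inl y') (.inl y'')
        (fun h => h1 (Option.some.inj h)) (fun h => h2 (Option.some.inj h))
      rw [h3]
      show Cc (v' (some (π₀ y''))) (v' (some (π₀ y))) (v' (some (π₀ y'))) ↔ _
      rw [hvv, hvv, hvv]
    · intro x
      have h1 := so_comp (T := {y : Y0 X L₁ F l₀ | π₀ y = x}) Sum.inl (hv''S (some x))
        (fun y hy => congrArg some hy)
      have h2 := hw₀S x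
      exact ⟨fun a ha b hb => (h1.1 a ha b hb).symm.trans (h2.1 a ha b hb),
        fun a ha b hb d hd => (h1.2 a ha b hb d hd).symm.trans (h2.2 a ha b hb d hd)⟩
  obtain ⟨w₁, hw₁0, hArr1⟩ := hA4 (Y0 X L₁ F l₀) (Y0 X L₁ F l₀ ⊕ L₂) Sum.inl v'' w₀ hArr0
  have hw₁i : Function.Injective w₁ := by
    intro y y' h
    by_contra hne
    exact hA6 hNE _ v'' w₁ y y' hArr1 (fun h' => hne (hv''i h')) h
  -- the tree of the new point
  have hv''T2 : Sh v'' (T₂.map (Sum.inr : L₂ → Y0 X L₁ F l₀ ⊕ L₂)) := by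
    rw [(hSHF c L₂ T₂).2.2.2.1]
    refine (hSHF c L₂ T₂).2.2.1 t₂ _ ht₂ ?_
    exact so_comp (T := {l | l ∈ T₂.lvs}) Sum.inr (hv''S none) (fun l _ => rfl)
  obtain ⟨z, hz1, hz2, hz3⟩ := hN c (Y0 X L₁ F l₀ ⊕ L₂)
    (T₂.map (Sum.inr : L₂ → Y0 X L₁ F l₀ ⊕ L₂)) w₁ (cpl_map _ _ _ hT2)
    (by rw [lvs_map]; exact hT2n.map Sum.inr_injective) hw₁i.injOn
  have hSub := hSUB (Y0 X L₁ F l₀ ⊕ L₂)
  have hzw : Sh w₁ z := by
    rcases hz3 with h | h | h
    · exact h
    · exfalso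
      obtain ⟨z₀, hz₀1, hz₀2⟩ := hSub.2.2.1 z n₀ _ hz2 (le_max_left _ _)
      have h1 := (hSHF c _ _).2.2.2.2.2.1 z₀ v'' (hSub.2.1 _ _ _ hz₀1 hz1) hv''T2
      exact (hn₀ _ z₀ v'' w₁ hz₀2 h1 hArr1).1
        (combL_sub w₁ ((hSHF c _ _).2.2.2.2.2.2 z₀ hz₀1) h)
    · exfalso
      obtain ⟨z₀, hz₀1, hz₀2⟩ := hSub.2.2.1 z n₀ _ hz2 (le_max_left _ _)
      have h1 := (hSHF c _ _).2.2.2.2.2.1 z₀ v'' (hSub.2.1 _ _ _ hz₀1 hz1) hv''T2
      exact (hn₀ _ z₀ v'' w₁ hz₀2 h1 hArr1).2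
        (combL_sub w₁ ((hSHF c _ _).2.2.2.2.2.2 z₀ hz₀1).reverse h)
  obtain ⟨z₁, hz₁1, hz₁2⟩ := hSub.2.2.1 z N₁ _ hz2 (le_max_right _ _)
  have hz₁w : Sh w₁ z₁ := (hSHF c _ _).2.2.2.2.2.1 z₁ w₁ hz₁1 hzw
  have hz₁T : Sub z₁ (T₂.map (Sum.inr : L₂ → Y0 X L₁ F l₀ ⊕ L₂)) := hSub.2.1 _ _ _ hz₁1 hz1
  have hprT : ∀ y ∈ (T₂.map (Sum.inr : L₂ → Y0 X L₁ F l₀ ⊕ L₂)).lvs, π₁ y = none := by
    intro y hy
    rw [lvs_map] at hy
    obtain ⟨l, -, rfl⟩ := List.mem_map.1 hy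
    rfl
  -- the trees of the old points
  let K : X → BT (Y0 X L₁ F l₀ ⊕ L₂) := fun x => tr F l₀ T₁ x
  have hKv : ∀ x, Sh v'' (K x) := by
    intro x
    refine sh_tr hSHF F l₀ T₁ t₁ ht₁ x v'' ?_
    have h1 := hv''S (some x)
    have h2 : SameOn {y | pr y = some x} (fun y => Sum.elim (fun y : Y0 X L₁ F l₀ => t₁ y.1.2)
        (fun _ : L₂ => t₁ l₀) y) u := so_eq (by
      rintro (y | y) hy
      · rfl
      · cases hy)
    exact ⟨fun a ha b hb => (h2.1 a ha b hb).trans (h1.1 a ha b hb),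
      fun a ha b hb d hd => (h2.2 a ha b hb d hd).trans (h1.2 a ha b hb d hd)⟩
  have hKw : ∀ x, Sh w₁ (K x) := by
    intro x
    refine sh_tr hSHF F l₀ T₁ t₁ ht₁ x w₁ ?_
    have h1 := hw₀S x
    constructor
    · rintro (a | a) ha (b | b) hb
      · have := h1.1 a (Option.some.inj ha) b (Option.some.inj hb)
        rw [← hw₁0, ← hw₁0] at this
        exact this
      · cases hb
      · cases ha
      · cases ha
    · rintro (a | a) ha (b | b) hb (d | d) hd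
      · have := h1.2 a (Option.some.inj ha) b (Option.some.inj hb) d (Option.some.inj hd)
        rw [← hw₁0, ← hw₁0, ← hw₁0] at this
        exact this
      · cases hd
      · cases hb
      · cases hb
      · cases ha
      · cases ha
      · cases ha
      · cases ha
  obtain ⟨K', H', hK'1, hH'1, hK'2, -, hH'2, hKH, hHK⟩ := hN₁ c (Y0 X L₁ F l₀ ⊕ L₂) w₁ F K z₁
    (by
      intro x hx
      show (tr F l₀ T₁ x).Cpl (n + 1)
      unfold tr
      rw [if_pos hx]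
      exact cpl_map _ _ _ hT1) hKw hz₁2 hz₁w (by
      intro x a ha b hb h
      have h1 : a = b := hw₁i h
      have h2 : pr a = some x := pr_tr F l₀ T₁ x a ha
      have h3 : π₁ b = none := hprT b (((hSHF c _ _).2.2.2.2.2.2 z₁ hz₁T).subset hb)
      rw [h1] at h2
      exact absurd (h2.symm.trans h3) (by simp))
  have hH'T : Sub H' (T₂.map (Sum.inr : L₂ → Y0 X L₁ F l₀ ⊕ L₂)) := hSub.2.1 _ _ _ hH'1 hz₁T
  have hH'π : ∀ y ∈ H'.lvs, π₁ y = none := fun y hy =>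
    hprT y (((hSHF c _ _).2.2.2.2.2.2 H' hH'T).subset hy)
  have hK'π : ∀ x, ∀ y ∈ (K' x).lvs, π₁ y = some x := fun x y hy =>
    pr_tr F l₀ T₁ x y (((hSHF c _ _).2.2.2.2.2.2 (K' x) (hK'1 x)).subset hy)
  choose a ha using fun x => lvs_ne (K' x)
  obtain ⟨b₀, hb₀⟩ := lvs_ne H'
  let KK : Option X → BT (Y0 X L₁ F l₀ ⊕ L₂) := fun o => o.elim H' K'
  let r : Option X → Y0 X L₁ F l₀ ⊕ L₂ := fun o => o.elim b₀ a
  have hr : ∀ o, r o ∈ (KK o).lvs := by
    rintro (_ | x)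
    · exact hb₀
    · exact ha x
  -- the section
  have hsec : ∀ x, ∃ s : Y0 X L₁ F l₀, a x = .inl s ∧ π₀ s = x := by
    intro x
    have h1 := hK'π x (a x) (ha x)
    rcases hax : a x with s | s
    · rw [hax] at h1
      exact ⟨s, rfl, Option.some.inj h1⟩
    · rw [hax] at h1
      cases h1
  choose s hs1 hs2 using hsec
  have hsw : SameOn Set.univ w (fun x => w₁ (r (some x))) := by
    have h1 := (hBLF c X (Y0 X L₁ F l₀) π₀ w w₀ hw hw₀i hw₀B).2.2.2 s hs2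
    have h2 : (fun x => w₁ (r (some x))) = fun x => w₀ (s x) := by
      funext x
      show w₁ (a x) = w₀ (s x)
      rw [hs1, hw₁0]
    rw [h2]
    exact h1
  obtain ⟨w', hw'1, hw'2⟩ := hAMA c (Option X) X (fun o => w₁ (r o)) w some hsw
  have hrπ : ∀ o, π₁ (r o) = o := by
    rintro (_ | x)
    · exact hH'π _ hb₀
    · exact hK'π x _ (ha x)
  refine ⟨w', ?_, hw'2, ?_⟩
  · intro o o' h
    have h1 := (hw'1.1 o trivial o' trivial).2 h
    have h2 := hw₁i h1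
    rw [← hrπ o, h2, hrπ]
  · refine core hARR hSHF 𝔅 hB n _ π₁ v' w' v'' w₁ hv''i hw₁i hv''B hArr1 KK ?_ ?_ r hr hw'1
    · rintro (_ | x)
      · exact ⟨hH'π, (hSHF c _ _).2.2.2.2.2.1 H' v'' hH'T hv''T2,
          (hSHF c _ _).2.2.2.2.2.1 H' w₁ hH'1 hz₁w, fun _ => hH'2⟩
      · exact ⟨hK'π x, (hSHF c _ _).2.2.2.2.2.1 (K' x) v'' (hK'1 x) (hKv x),
          (hSHF c _ _).2.2.2.2.2.1 (K' x) w₁ (hK'1 x) (hKw x), fun h => hK'2 x (h x rfl)⟩
    · intro y y' zz hy hy' hzz h1 h2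
      rcases hy0 : π₁ y with _ | x
      · -- `y`, `y'` in the block of the new point
        rw [hy0] at hy
        rw [← h1, hy0] at hy'
        rcases hz0 : π₁ zz with _ | x'
        · exact absurd (hz0.trans hy0.symm) h2
        · rw [hz0] at hzz
          exact hHK x' zz hzz y hy y' hy'
      · rw [hy0] at hy
        rw [← h1, hy0] at hy'
        rcases hz0 : π₁ zz with _ | x'
        · rw [hz0] at hzz
          exact hKH x y hy y' hy' zz hzz
        · -- all in old blocks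
          have hxx : x' ≠ x := fun h => h2 (by rw [hy0, hz0, h])
          rcases y with y | y
          swap
          · cases hy0
          rcases y' with y' | y'
          swap
          · have h3 : π₁ (Sum.inr y' : Y0 X L₁ F l₀ ⊕ L₂) = some x := h1.symm.trans hy0
            cases h3
          rcases zz with zz | zz
          swap
          · cases hz0
          have e1 : π₀ y = x := Option.some.inj hy0
          have e2 : π₀ y' = x := Option.some.inj (h1.symm.trans hy0)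
          have e3 : π₀ zz = x' := Option.some.inj hz0
          rw [hw₁0, hw₁0, hw₁0]
          rw [hw₀B y y' zz (by rw [e3, e1]; exact hxx) (by rw [e3, e2]; exact hxx), e1, e2, e3]
          exact cc_self (fun h => hxx (hw h))

end Pool.Agent.Work.MP_8dbde4_lc.Full
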