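import Pool.Agent.Work.MP_8dbde4_lc.Full.StmtsA

/-!
The extension property: the statement `S_EXT2` of Full/StmtsA.lean.
-/

set_option autoImplicit false
open Classical

namespace Pool.Agent.Work.MP_8dbde4_lc.Full

open Pool.Agent.Work.MP_8dbde4_lc.TS Pool.Agent.Work.MP_8dbde4_lc.Tree
  Pool.Agent.Work.MP_8dbde4_lc.Phy BT

namespace FEXT2

variable {c : ℚ → Bool} {σ : Sig}

/-- Smaller depths. -/
theorem nf_mono (hSUB : S_SUB) (hSHF : S_SHF) (𝔅 : Str σ (Word c)) {X : Type} {n m : ℕ}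
    (hnm : n ≤ m) (F : Set X) (v w : X → Word c) (h : NF 𝔅 m F v w) : NF 𝔅 n F v w := by
  obtain ⟨Y, hY, π, K, v', w', hv', hw', hbv, hbw, harr, hK⟩ := h
  have hz : ∀ x, ∃ z : BT Y, Sub z (K x) ∧ (x ∈ F → z.Cpl n) := by
    intro x
    by_cases hx : x ∈ F
    · obtain ⟨z, hz1, hz2⟩ := (hSUB Y).2.2.1 (K x) n m ((hK x).2.2.2 hx) hnm
      exact ⟨z, hz1, fun _ => hz2⟩
    · exact ⟨K x, (hSUB Y).1 (K x), fun h => absurd h hx⟩
  choose K' hK'1 hK'2 using hz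
  refine ⟨Y, hY, π, K', v', w', hv', hw', hbv, hbw, harr, fun x => ?_⟩
  refine ⟨?_, ?_, ?_, hK'2 x⟩
  · intro y hy
    exact (hK x).1 y (((hSHF c Y (K x)).2.2.2.2.2.2 (K' x) (hK'1 x)).subset hy)
  · exact (hSHF c Y (K x)).2.2.2.2.2.1 (K' x) v' (hK'1 x) (hK x).2.1
  · exact (hSHF c Y (K x)).2.2.2.2.2.1 (K' x) w' (hK'1 x) (hK x).2.2.1

/-- The property depends on the splits only. -/
theorem nf_same (𝔅 : Str σ (Word c)) {X : Type} {n : ℕ} (F : Set X) (v w w₂ : X → Word c)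
    (hs : ∀ x y z, Cc (w z) (w x) (w y) ↔ Cc (w₂ z) (w₂ x) (w₂ y)) (h : NF 𝔅 n F v w) :
    NF 𝔅 n F v w₂ := by
  obtain ⟨Y, hY, π, K, v', w', hv', hw', hbv, hbw, harr, hK⟩ := h
  refine ⟨Y, hY, π, K, v', w', hv', hw', hbv, ?_, harr, hK⟩
  intro y y' y'' h1 h2
  exact (hbw y y' y'' h1 h2).trans (hs _ _ _)

end FEXT2

open FEXT2

theorem EXT2_pf (hEXN : S_EXN) (hNFF : S_NFF) (hSUB : S_SUB) (hSHF : S_SHF) : S_EXT2 := by
  intro c σ 𝔅 hinv hneq hlin X hX F v w hv hw hfat v' hv' hv'e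
  have hex := hEXN c σ 𝔅 hinv hneq hlin X F v w hv hw hfat v' hv' hv'e
  choose W hW1 hW2 hW3 using hex
  let cls : ℕ → Set (Option X × Option X × Option X) :=
    fun n => {p | Cc (W n p.2.2) (W n p.1) (W n p.2.1)}
  obtain ⟨S, hS⟩ := Finite.exists_infinite_fiber cls
  have hSinf : (cls ⁻¹' {S}).Infinite := Set.infinite_coe_iff.1 hS
  obtain ⟨m₀, hm₀⟩ := hSinf.nonempty
  have hm₀' : cls m₀ = S := hm₀
  refine ⟨W m₀, hW1 m₀, hW2 m₀, ?_⟩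
  apply hNFF c σ 𝔅 hinv (Option X) _ v' (W m₀) hv' (hW1 m₀)
  intro n
  obtain ⟨m, hm, hnm⟩ := hSinf.exists_gt n
  have hm' : cls m = S := hm
  have h1 := nf_mono hSUB hSHF 𝔅 hnm.le _ v' (W m) (hW3 m)
  refine nf_same 𝔅 _ v' (W m) (W m₀) ?_ h1
  intro x y z
  have h2 : cls m = cls m₀ := hm'.trans hm₀'.symm
  have h3 : (x, y, z) ∈ cls m ↔ (x, y, z) ∈ cls m₀ := by rw [h2]
  exact h3

end Pool.Agent.Work.MP_8dbde4_lc.Full
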