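import Pool.Agent.Work.MP_8dbde4_lc.Full.StmtsB

/-!
Rerooting at the node next to the root: the statement `S_F3T` of Full/StmtsB.lean.
-/

set_option autoImplicit false
open Classical

namespace Pool.Agent.Work.MP_8dbde4_lc.Full

open Pool.Agent.Work.MP_8dbde4_lc.TS Pool.Agent.Work.MP_8dbde4_lc.Tree
  Pool.Agent.Work.MP_8dbde4_lc.Phy BT

namespace FF3T

variable {c : ℚ → Bool} {σ : Sig}

theorem ex_leaf {X : Type} : ∀ T : BT X, ∃ x, x ∈ T.lvs
  | lf x => ⟨x, by simp [lvs]⟩
  | nd l r => by
      obtain ⟨x, hx⟩ := ex_leaf l
      exact ⟨x, by simp [lvs, hx]⟩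

/-- The block of a point. -/
noncomputable def blk3 {X : Type} (A B : BT X) (x : X) : Fin 3 :=
  if x ∈ A.lvs then 0 else if x ∈ B.lvs then 1 else 2

theorem blk_zero {X : Type} {A B : BT X} {x : X} (h : blk3 A B x = 0) : x ∈ A.lvs := by
  unfold blk3 at h
  split_ifs at h with h1 h2
  · exact h1
  · exact absurd h (by decide)
  · exact absurd h (by decide)

theorem blk_one {X : Type} {A B : BT X} {x : X} (h : blk3 A B x = 1) : x ∈ B.lvs := by
  unfold blk3 at h
  split_ifs at h with h1 h2
  · exact absurd h (by decide)
  · exact h2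
  · exact absurd h (by decide)

theorem blk_two {X : Type} {A B C : BT X} {x : X} (hx : x ∈ A.lvs ∨ x ∈ B.lvs ∨ x ∈ C.lvs)
    (h : blk3 A B x = 2) : x ∈ C.lvs := by
  unfold blk3 at h
  split_ifs at h with h1 h2
  · exact absurd h (by decide)
  · exact absurd h (by decide)
  · rcases hx with hx | hx | hx
    · exact absurd hx h1
    · exact absurd hx h2
    · exact hx

theorem fin3_cases (i : Fin 3) : i = 0 ∨ i = 1 ∨ i = 2 := by
  fin_cases i <;> simp

/-- The truth values for the shape `(0 1) 2`. -/
def tauL (i j k : Fin 3) : Prop := i = 2 ∨ j = k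

/-- The truth values for the shape `0 (1 2)`. -/
def tauR (i j k : Fin 3) : Prop := i = 0 ∨ j = k

end FF3T

open FF3T

theorem F3T_pf (hSHF : S_SHF) : S_F3T := by
  intro c σ 𝔅 hinv hF3 X hX A B C v w hall hv hw
  have hnd : (nd (nd A B) C).lvs.Nodup := ((hSHF c X (nd (nd A B) C)).1 v hv).1
  have hvi : Function.Injective v := fun x y h =>
    ((hSHF c X (nd (nd A B) C)).1 v hv).2 (hall x) (hall y) h
  have hall' : ∀ x, x ∈ (nd A (nd B C)).lvs := by
    intro x
    have h := hall x
    simp only [lvs, List.mem_append] at h ⊢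
    tauto
  have hwi : Function.Injective w := fun x y h =>
    ((hSHF c X (nd A (nd B C))).1 w hw).2 (hall' x) (hall' y) h
  have hmem : ∀ x, x ∈ A.lvs ∨ x ∈ B.lvs ∨ x ∈ C.lvs := by
    intro x
    have h := hall x
    simp only [lvs, List.mem_append] at h
    tauto
  have hAB : ∀ x, x ∈ A.lvs → x ∉ B.lvs := by
    intro x h1 h2
    simp only [lvs] at hnd
    have h3 := (List.nodup_append.1 hnd).1
    exact (List.nodup_append.1 h3).2.2 x h1 x h2 rfl
  have hAC : ∀ x, x ∈ A.lvs → x ∉ C.lvs := by
    intro x h1 h2
    simp only [lvs] at hnd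
    exact (List.nodup_append.1 hnd).2.2 x (List.mem_append_left _ h1) x h2 rfl
  have hBC : ∀ x, x ∈ B.lvs → x ∉ C.lvs := by
    intro x h1 h2
    simp only [lvs] at hnd
    exact (List.nodup_append.1 hnd).2.2 x (List.mem_append_right _ h1) x h2 rfl
  obtain ⟨⟨hvA, hvB, hvAB1, hvAB2⟩, hvC, hvC1, hvC2⟩ := hv
  obtain ⟨hwA, ⟨hwB, hwC, hwBC1, hwBC2⟩, hwA1, hwA2⟩ := hw
  simp only [lvs, List.mem_append] at hvC1 hvC2 hwA1 hwA2
  set π : X → Fin 3 := blk3 A B with hπ
  have p0 : ∀ x, π x = 0 → x ∈ A.lvs := fun x h => blk_zero h
  have p1 : ∀ x, π x = 1 → x ∈ B.lvs := fun x h => blk_one h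
  have p2 : ∀ x, π x = 2 → x ∈ C.lvs := fun x h => blk_two (hmem x) h
  have q0 : ∀ x, x ∈ A.lvs → π x = 0 := by
    intro x h
    show blk3 A B x = 0
    unfold blk3
    rw [if_pos h]
  have q1 : ∀ x, x ∈ B.lvs → π x = 1 := by
    intro x h
    have h' : x ∉ A.lvs := fun h' => hAB x h' h
    show blk3 A B x = 1
    unfold blk3
    rw [if_neg h', if_pos h]
  have q2 : ∀ x, x ∈ C.lvs → π x = 2 := by
    intro x h
    have h' : x ∉ A.lvs := fun h' => hAC x h' h
    have h'' : x ∉ B.lvs := fun h' => hBC x h' h
    show blk3 A B x = 2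
    unfold blk3
    rw [if_neg h', if_neg h'']
  have keyv : ∀ y y' y'', π y'' ≠ π y → π y'' ≠ π y' →
      (Cc (v y'') (v y) (v y') ↔ tauL (π y'') (π y) (π y')) := by
    intro y y' y'' h1 h2
    unfold tauL
    rcases fin3_cases (π y'') with e | e | e
    · have m'' := p0 _ e
      rcases fin3_cases (π y) with f | f | f
      · exact absurd (e.trans f.symm) h1
      · have m := p1 _ f
        rcases fin3_cases (π y') with g | g | g
        · exact absurd (e.trans g.symm) h2
        · have m' := p1 _ g
          refine ⟨fun _ => Or.inr (f.trans g.symm), fun _ => hvAB2 _ m'' _ m _ m'⟩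
        · have m' := p2 _ g
          refine ⟨fun h => ?_, fun h => ?_⟩
          · exact absurd (cc_symm h) (cc_asymm (hvC1 _ (Or.inl m'') _ (Or.inr m) _ m'))
          · rw [e, f, g] at h
            rcases h with h | h
            · exact absurd h (by decide)
            · exact absurd h (by decide)
      · have m := p2 _ f
        rcases fin3_cases (π y') with g | g | g
        · exact absurd (e.trans g.symm) h2
        · have m' := p1 _ g
          refine ⟨fun h => ?_, fun h => ?_⟩
          · exact absurd h (cc_asymm (hvC1 _ (Or.inl m'') _ (Or.inr m') _ m))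
          · rw [e, f, g] at h
            rcases h with h | h
            · exact absurd h (by decide)
            · exact absurd h (by decide)
        · have m' := p2 _ g
          refine ⟨fun _ => Or.inr (f.trans g.symm), fun _ => hvC2 _ (Or.inl m'') _ m _ m'⟩
    · have m'' := p1 _ e
      rcases fin3_cases (π y) with f | f | f
      · have m := p0 _ f
        rcases fin3_cases (π y') with g | g | g
        · have m' := p0 _ g
          refine ⟨fun _ => Or.inr (f.trans g.symm), fun _ => hvAB1 _ m _ m' _ m''⟩
        · exact absurd (e.trans g.symm) h2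
        · have m' := p2 _ g
          refine ⟨fun h => ?_, fun h => ?_⟩
          · exact absurd (cc_symm h) (cc_asymm (hvC1 _ (Or.inr m'') _ (Or.inl m) _ m'))
          · rw [e, f, g] at h
            rcases h with h | h
            · exact absurd h (by decide)
            · exact absurd h (by decide)
      · exact absurd (e.trans f.symm) h1
      · have m := p2 _ f
        rcases fin3_cases (π y') with g | g | g
        · have m' := p0 _ g
          refine ⟨fun h => ?_, fun h => ?_⟩
          · exact absurd h (cc_asymm (hvC1 _ (Or.inr m'') _ (Or.inl m') _ m))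
          · rw [e, f, g] at h
            rcases h with h | h
            · exact absurd h (by decide)
            · exact absurd h (by decide)
        · exact absurd (e.trans g.symm) h2
        · have m' := p2 _ g
          refine ⟨fun _ => Or.inr (f.trans g.symm), fun _ => hvC2 _ (Or.inr m'') _ m _ m'⟩
    · have m'' := p2 _ e
      have hy : ∀ z, π y'' ≠ π z → z ∈ A.lvs ∨ z ∈ B.lvs := by
        intro z hz
        rcases fin3_cases (π z) with f | f | f
        · exact Or.inl (p0 _ f)
        · exact Or.inr (p1 _ f)
        · exact absurd (e.trans f.symm) hz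
      exact ⟨fun _ => Or.inl e, fun _ => hvC1 _ (hy _ h1) _ (hy _ h2) _ m''⟩
  have keyw : ∀ y y' y'', π y'' ≠ π y → π y'' ≠ π y' →
      (Cc (w y'') (w y) (w y') ↔ tauR (π y'') (π y) (π y')) := by
    intro y y' y'' h1 h2
    unfold tauR
    rcases fin3_cases (π y'') with e | e | e
    · have m'' := p0 _ e
      have hy : ∀ z, π y'' ≠ π z → z ∈ B.lvs ∨ z ∈ C.lvs := by
        intro z hz
        rcases fin3_cases (π z) with f | f | f
        · exact absurd (e.trans f.symm) hz
        · exact Or.inl (p1 _ f)
        · exact Or.inr (p2 _ f)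
      exact ⟨fun _ => Or.inl e, fun _ => hwA2 _ m'' _ (hy _ h1) _ (hy _ h2)⟩
    · have m'' := p1 _ e
      rcases fin3_cases (π y) with f | f | f
      · have m := p0 _ f
        rcases fin3_cases (π y') with g | g | g
        · have m' := p0 _ g
          refine ⟨fun _ => Or.inr (f.trans g.symm), fun _ => hwA1 _ m _ m' _ (Or.inl m'')⟩
        · exact absurd (e.trans g.symm) h2
        · have m' := p2 _ g
          refine ⟨fun h => ?_, fun h => ?_⟩
          · exact absurd h (cc_asymm (hwA2 _ m _ (Or.inl m'') _ (Or.inr m')))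
          · rw [e, f, g] at h
            rcases h with h | h
            · exact absurd h (by decide)
            · exact absurd h (by decide)
      · exact absurd (e.trans f.symm) h1
      · have m := p2 _ f
        rcases fin3_cases (π y') with g | g | g
        · have m' := p0 _ g
          refine ⟨fun h => ?_, fun h => ?_⟩
          · exact absurd (cc_symm h) (cc_asymm (hwA2 _ m' _ (Or.inl m'') _ (Or.inr m)))
          · rw [e, f, g] at h
            rcases h with h | h
            · exact absurd h (by decide)
            · exact absurd h (by decide)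
        · exact absurd (e.trans g.symm) h2
        · have m' := p2 _ g
          refine ⟨fun _ => Or.inr (f.trans g.symm), fun _ => hwBC2 _ m'' _ m _ m'⟩
    · have m'' := p2 _ e
      rcases fin3_cases (π y) with f | f | f
      · have m := p0 _ f
        rcases fin3_cases (π y') with g | g | g
        · have m' := p0 _ g
          refine ⟨fun _ => Or.inr (f.trans g.symm), fun _ => hwA1 _ m _ m' _ (Or.inr m'')⟩
        · have m' := p1 _ g
          refine ⟨fun h => ?_, fun h => ?_⟩
          · exact absurd h (cc_asymm (hwA2 _ m _ (Or.inr m'') _ (Or.inl m')))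
          · rw [e, f, g] at h
            rcases h with h | h
            · exact absurd h (by decide)
            · exact absurd h (by decide)
        · exact absurd (e.trans g.symm) h2
      · have m := p1 _ f
        rcases fin3_cases (π y') with g | g | g
        · have m' := p0 _ g
          refine ⟨fun h => ?_, fun h => ?_⟩
          · exact absurd (cc_symm h) (cc_asymm (hwA2 _ m' _ (Or.inr m'') _ (Or.inl m)))
          · rw [e, f, g] at h
            rcases h with h | h
            · exact absurd h (by decide)
            · exact absurd h (by decide)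
        · have m' := p1 _ g
          refine ⟨fun _ => Or.inr (f.trans g.symm), fun _ => hwBC1 _ m _ m' _ m''⟩
        · exact absurd (e.trans g.symm) h2
      · exact absurd (e.trans f.symm) h1
  obtain ⟨a, ha⟩ := ex_leaf A
  obtain ⟨b, hb⟩ := ex_leaf B
  obtain ⟨d, hd⟩ := ex_leaf C
  let s : Fin 3 → X := fun i => if i = 0 then a else if i = 1 then b else d
  have hs : ∀ i, π (s i) = i := by
    intro i
    rcases fin3_cases i with e | e | e
    · subst e
      exact q0 _ ha
    · subst e
      exact q1 _ hb
    · subst e
      exact q2 _ hd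
  have hsi : Function.Injective s := by
    intro i j h
    rw [← hs i, ← hs j, h]
  have hfat := hF3 (fun i => v (s i)) (fun i => w (s i)) (hvi.comp hsi) (hwi.comp hsi)
  refine hfat X π v w ?_ hvi hwi ?_ ?_ ?_
  · intro y y' _ h
    exact absurd (Set.mem_univ _) h
  · intro y y' y'' h1 h2
    rw [keyv y y' y'' h1 h2]
    have h3 := keyv (s (π y)) (s (π y')) (s (π y'')) (by rw [hs, hs]; exact h1)
      (by rw [hs, hs]; exact h2)
    rw [hs, hs, hs] at h3
    exact h3.symm
  · intro y y' y'' h1 h2
    rw [keyw y y' y'' h1 h2]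
    have h3 := keyw (s (π y)) (s (π y')) (s (π y'')) (by rw [hs, hs]; exact h1)
      (by rw [hs, hs]; exact h2)
    rw [hs, hs, hs] at h3
    exact h3.symm
  · intro i
    have gen : ∀ T : BT X, Sh v T → Sh w T → (∀ y, π y = i → y ∈ T.lvs) →
        SameOn {y | π y = i} v w := by
      intro T h1 h2 h3
      obtain ⟨s1, s2⟩ := (hSHF c X T).2.1 v w h1 h2
      exact ⟨fun x hx y hy => s1 x (h3 x hx) y (h3 y hy),
        fun x hx y hy z hz => s2 x (h3 x hx) y (h3 y hy) z (h3 z hz)⟩
    rcases fin3_cases i with e | e | e
    · subst e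
      exact gen A hvA hwA p0
    · subst e
      exact gen B hvB hwB p1
    · subst e
      exact gen C hvC hwC p2

end Pool.Agent.Work.MP_8dbde4_lc.Full
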