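import Pool.Agent.Work.MP_8dbde4_lc.Full.I_BLF

set_option autoImplicit false
open Classical

namespace Pool.Agent.Work.MP_8dbde4_lc.Full

open Pool.Agent.Work.MP_8dbde4_lc.TS Pool.Agent.Work.MP_8dbde4_lc.Tree
  Pool.Agent.Work.MP_8dbde4_lc.Phy BT

namespace FFAT

variable {c : ℚ → Bool} {X Y : Type}

/-- Blocks of composed blow-ups. -/
theorem blocks {Z : Type} {π : Y → X} {ρ : Z → Y} {v' w' : Y → Word c} {v'' w'' : Z → Word c}
    (hv' : Function.Injective v') (hw' : Function.Injective w') (hv'' : Function.Injective v'')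
    (hw'' : Function.Injective w'') (hb : Bl ρ v' v'') (hb' : Bl ρ w' w'')
    (h : ∀ x, SameOn {y | π y = x} v' w') (h' : ∀ y, SameOn {z | ρ z = y} v'' w'') (x : X) :
    SameOn {z | π (ρ z) = x} v'' w'' := by
  refine ⟨?_, ?_⟩
  · intro a _ b _
    exact ⟨fun h => by rw [hv'' h], fun h => by rw [hw'' h]⟩
  · intro a ha b hb₁ d hd
    by_cases h1 : ρ d = ρ a
    · by_cases h2 : ρ d = ρ b
      · exact (h' (ρ d)).2 a h1.symm b h2.symm d rfl
      · exact ⟨fun h => absurd h (FBLF.bl_not hv' hb h1 h2),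
          fun h => absurd h (FBLF.bl_not hw' hb' h1 h2)⟩
    · by_cases h2 : ρ d = ρ b
      · exact ⟨fun h => absurd h (FBLF.bl_not' hv' hb h2 h1),
          fun h => absurd h (FBLF.bl_not' hw' hb' h2 h1)⟩
      · rw [hb a b d h1 h2, hb' a b d h1 h2]
        exact (h x).2 (ρ a) ha (ρ b) hb₁ (ρ d) hd

end FFAT

theorem FAT_pf (hARR : S_ARR) (hBLW : S_BLW) (hBLF : S_BLF) : S_FAT := by
  intro c σ 𝔅 hA X _ F v w hv hw
  obtain ⟨A1, A2, -, -, -, -⟩ := hARR c σ 𝔅 hA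
  refine ⟨?_, ?_, ?_, ?_, ?_, ?_, ?_⟩
  · intro h
    refine h X id v w (fun _ _ h _ => h) hv hw (fun _ _ _ _ _ => Iff.rfl)
      (fun _ _ _ _ _ => Iff.rfl) (fun x => ⟨?_, ?_⟩)
    · intro a ha b hb
      have e : a = b := Eq.trans ha (Eq.symm hb)
      rw [e]
      exact ⟨fun _ => rfl, fun _ => rfl⟩
    · intro a ha b hb d hd
      have e : d = a := Eq.trans hd (Eq.symm ha)
      rw [e]
      exact ⟨fun h => absurd h cc_irrefl, fun h => absurd h cc_irrefl⟩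
  · intro h Y _ π v' w' h1 h2 h3 h4 h5 _
    have hπ : Function.Injective π := fun y y' e => h1 y y' e (Set.notMem_empty _)
    have e1 := (hBLF c X Y π v v' hv h2 h4).1 hπ
    have e2 := (hBLF c X Y π w w' hw h3 h5).1 hπ
    exact ((A1 Y _ _ e1.symm).trans (A2 X Y π v w h)).trans (A1 Y _ _ e2)
  · intro u hu h h' Y _ π v' w' h1 h2 h3 h4 h5 h6
    obtain ⟨u', g1, g2, g3⟩ := hBLW c X Y π u v' hu (fun y y' _ e => h2 e)
    exact (h Y π v' u' h1 h2 g1 h4 g2 g3).trans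
      (h' Y π u' w' h1 g1 h3 g2 h5 (fun x => (g3 x).symm.trans (h6 x)))
  · intro F' hF h Y _ π v' w' h1 h2 h3 h4 h5 h6
    exact h Y π v' w' (fun y y' e he => h1 y y' e (fun h => he (hF h))) h2 h3 h4 h5 h6
  · intro v₁ w₁ e1 e2 h Y _ π v' w' h1 h2 h3 h4 h5 h6
    refine h Y π v' w' h1 h2 h3 ?_ ?_ h6
    · intro y y' y'' g g'
      rw [h4 y y' y'' g g']
      exact (e1.2 _ (Set.mem_univ _) _ (Set.mem_univ _) _ (Set.mem_univ _)).symm
    · intro y y' y'' g g'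
      rw [h5 y y' y'' g g']
      exact (e2.2 _ (Set.mem_univ _) _ (Set.mem_univ _) _ (Set.mem_univ _)).symm
  · intro X₀ i hi h Y _ π v' w' h1 h2 h3 h4 h5 h6
    refine h Y (fun y => i (π y)) v' w' (fun y y' e he => h1 y y' (hi e) he) h2 h3
      (fun y y' y'' g g' => h4 y y' y'' (fun e => g (congrArg i e)) (fun e => g' (congrArg i e)))
      (fun y y' y'' g g' => h5 y y' y'' (fun e => g (congrArg i e)) (fun e => g' (congrArg i e)))
      (fun x => ⟨?_, ?_⟩)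
    · intro a _ b _
      exact ⟨fun h => by rw [h2 h], fun h => by rw [h3 h]⟩
    · intro a ha b hb d hd
      exact (h6 (π a)).2 a rfl b (hi (Eq.trans hb (Eq.symm ha))) d (hi (Eq.trans hd (Eq.symm ha)))
  · intro Y _ π v' w' F' h1 h2 h3 h4 h5 h6 h7 h Z _ ρ v'' w'' g1 g2 g3 g4 g5 g6
    refine h Z (fun z => π (ρ z)) v'' w'' ?_ g2 g3 ((hBLF c X Y π v v' hv h3 h5).2.1 Z ρ v'' g4)
      ((hBLF c X Y π w w' hw h4 h6).2.1 Z ρ w'' g5) (FFAT.blocks h3 h4 g2 g3 g4 g5 h7 g6)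
    intro z z' e he
    have e1 : ρ z = ρ z' := h1 _ _ e he
    exact g1 z z' e1 (fun hF => he (h2 _ hF))

end Pool.Agent.Work.MP_8dbde4_lc.Full
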