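import Pool.Agent.Work.MP_8dbde4_lc.Full.StmtsB
import Pool.Agent.Work.MP_8dbde4_lc.Phy.I_BFP

/-!
The frame for equality languages: see the docstring of `S_FRE`.
-/

set_option autoImplicit false
open Classical

namespace Pool.Agent.Work.MP_8dbde4_lc.Full

open Pool.Agent.Work.MP_8dbde4_lc.TS Pool.Agent.Work.MP_8dbde4_lc.Tree
  Pool.Agent.Work.MP_8dbde4_lc.Phy BT

namespace FFRE

open Pool.Agent.Work.MP_8dbde4_lc.Phy.XBFP

variable {G : Type} [Group G] {p : ℕ} {I T : Type} {n : ℕ} {D DC : Type}

/-- The action on the constraints. -/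
def aTT (g : G) (y : G → ZMod p) :
    (G × ZMod p × ZMod p × T) ⊕ (TI G p T 4 × Bool) →
      (G × ZMod p × ZMod p × T) ⊕ (TI G p T 4 × Bool)
  | .inl (v, α, β, t) => .inl (v, α + y v, β + y (v * g), t)
  | .inr (τ, e) => .inr (tact g y τ, e)

/-- The base of a constraint. -/
def bTT : (G × ZMod p × ZMod p × T) ⊕ (TI G p T 4 × Bool) → G
  | .inl (v, _, _, _) => v
  | .inr (τ, _) => tv τ

/-- The action on the elements. -/
def aEE (g : G) (y : G → ZMod p) :
    Option (EE G p I T 4 (Fin 4) Unit) → Option (EE G p I T 4 (Fin 4) Unit)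
  | none => none
  | some x => some (act g y x)

/-- The base of an element. -/
def bEE : Option (EE G p I T 4 (Fin 4) Unit) → G ⊕ G
  | none => Sum.inl 1
  | some x => base x

theorem act_main (g : G) {y : G → ZMod p} (hy : y 1 = 0) (s : ZMod p) :
    act g y (EE.main 1 s : EE G p I T n D DC) = EE.main 1 s := by simp [act, hy]

theorem act_zero (g : G) (x : EE G p I T n D DC) : act g (fun _ => (0 : ZMod p)) x = x := by
  cases x with
  | main v s => simp [act]
  | site v α β t => simp [act]
  | fr v α β t d => simp [act]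
  | tf τ d => cases τ <;> simp [act, tact]

theorem epE_act {Δ : Gad Bool p I} {tt : T → Fin 4 → I → Bool} {g h : G} {b b' : ZMod p}
    {y : G → ZMod p} (hy : y 1 = 0)
    (τ : (G × ZMod p × ZMod p × T) ⊕ (TI G p T 4 × Bool))
    (hrow : y (bTT τ) + y (bTT τ * g) - y (bTT τ * h) = b' - b) (x : Fin 7) :
    aEE g y (epE Δ tt g h b τ x) = epE Δ tt g h b' (aTT g y τ) x := by
  rcases τ with ⟨v, α, β, t⟩ | ⟨τ, e⟩
  · fin_cases x
    · rfl
    · rfl
    · rfl
    · rfl
    · exact congrArg some (act_main g hy 0)
    · exact congrArg some (act_main g hy 1)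
    · rfl
  · fin_cases x
    · cases e
      · exact congrArg some (lo_act g y Δ id τ)
      · exact congrArg some (hi_act hy τ hrow)
    · rfl
    · rfl
    · rfl
    · exact congrArg some (act_main g hy 0)
    · exact congrArg some (act_main g hy 1)
    · rfl

theorem epE_ex {Δ : Gad Bool p I} {tt : T → Fin 4 → I → Bool} {g h : G} (b b' : ZMod p)
    {y : G → ZMod p} (hy : y 1 = 0)
    (τ : (G × ZMod p × ZMod p × T) ⊕ (TI G p T 4 × Bool)) :
    ∃ τ' : (G × ZMod p × ZMod p × T) ⊕ (TI G p T 4 × Bool), τ'.isLeft = τ.isLeft ∧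
      ∀ x, bEE (epE Δ tt g h b τ x) ≠ Sum.inr (bTT τ) →
        aEE g y (epE Δ tt g h b τ x) = epE Δ tt g h b' τ' x := by
  rcases τ with ⟨v, α, β, t⟩ | ⟨τ, e⟩
  · refine ⟨.inl (v, α + y v, β + y (v * g), t), rfl, ?_⟩
    intro x _
    fin_cases x
    · rfl
    · rfl
    · rfl
    · rfl
    · exact congrArg some (act_main g hy 0)
    · exact congrArg some (act_main g hy 1)
    · rfl
  · cases e
    · refine ⟨.inr (tact g y τ, false), rfl, ?_⟩
      intro x _
      fin_cases x
      · exact congrArg some (lo_act g y Δ id τ)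
      · rfl
      · rfl
      · rfl
      · exact congrArg some (act_main g hy 0)
      · exact congrArg some (act_main g hy 1)
      · rfl
    · obtain ⟨τ', hτ'⟩ := hi_ex (D := Fin 4) (DC := Unit) (tt := tt) (g := g) (h := h) (b := b)
        (b' := b') hy τ
      refine ⟨.inr (τ', true), rfl, ?_⟩
      intro x hx
      fin_cases x
      · exact congrArg some hτ'
      · exact absurd rfl hx
      · rfl
      · rfl
      · exact congrArg some (act_main g hy 0)
      · exact congrArg some (act_main g hy 1)
      · rfl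

end FFRE

open FFRE in
open Pool.Agent.Work.MP_8dbde4_lc.Phy.XBFP in
theorem FRE_pf : S_FRE := by
  intro G _ g h p I T Δ tt
  refine ⟨{
    bE := bEE
    bT := bTT
    aE := aEE g
    aT := aTT g
    kd := fun τ => τ.isLeft
    ep := epE Δ tt g h
    e0 := none
    be0 := rfl
    aE_zero := ?_
    aE_base := ?_
    aE_congr := ?_
    aE_neg := ?_
    aT_base := ?_
    aT_congr := ?_
    aT_neg := ?_
    kd_act := ?_
    ep_act := ?_
    ep_ex := ?_ }, rfl, rfl⟩
  · intro x
    cases x with
    | none => rfl
    | some x => exact congrArg some (act_zero g x)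
  · intro y x
    cases x with
    | none => rfl
    | some x => exact base_act g y x
  · intro y y' x hy
    cases x with
    | none => rfl
    | some x =>
      refine congrArg some (act_congr g h y y' x ?_)
      intro u hu
      apply hy u
      change u ∈ tbb g h (base x)
      revert hu
      cases base x with
      | inl v => exact id
      | inr v => exact id
  · intro y x
    cases x with
    | none => rfl
    | some x => exact congrArg some (act_neg g y x)
  · intro y τ
    rcases τ with ⟨v, α, β, t⟩ | ⟨τ, e⟩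
    · rfl
    · exact tv_act g y τ
  · intro y y' τ hy
    rcases τ with ⟨v, α, β, t⟩ | ⟨τ, e⟩
    · have h1 : y v = y' v := hy v (by simp [bTT, row])
      have h2 : y (v * g) = y' (v * g) := hy (v * g) (by simp [bTT, row])
      simp only [aTT, h1, h2]
    · have h1 : y (tv τ) = y' (tv τ) := hy (tv τ) (by simp [bTT, row])
      have h2 : y (tv τ * g) = y' (tv τ * g) := hy (tv τ * g) (by simp [bTT, row])
      simp only [aTT, tact_congr g y y' τ h1 h2]
  · intro y τ
    rcases τ with ⟨v, α, β, t⟩ | ⟨τ, e⟩
    · simp [aTT]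
    · simp only [aTT, tact_neg]
  · intro y τ
    rcases τ with ⟨v, α, β, t⟩ | ⟨τ, e⟩
    · rfl
    · rfl
  · intro b b' y τ hy hrow x
    exact epE_act hy τ hrow x
  · intro b b' y τ hy
    exact epE_ex b b' hy τ

end Pool.Agent.Work.MP_8dbde4_lc.Full
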