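import Pool.Agent.Work.MP_8dbde4_lc.Full.StmtsB
import Pool.Agent.Work.MP_8dbde4_lc.Phy.I_BFP

/-!
The frame for quartets: see the docstring of `S_FRQ`.
-/

set_option autoImplicit false
open Classical

namespace Pool.Agent.Work.MP_8dbde4_lc.Full

open Pool.Agent.Work.MP_8dbde4_lc.TS Pool.Agent.Work.MP_8dbde4_lc.Tree
  Pool.Agent.Work.MP_8dbde4_lc.Phy BT

namespace FFRQ

open Pool.Agent.Work.MP_8dbde4_lc.Phy.XBFP

variable {G : Type} [Group G] {p : ℕ} {I T : Type}

/-- The bases of the elements. -/
def bE {DC : Type} : Option (EE G p I T 4 (Fin 4) DC) → G ⊕ G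
  | none => Sum.inl 1
  | some x => base x

/-- The action on the elements. -/
def aE {DC : Type} (g : G) (y : G → ZMod p) :
    Option (EE G p I T 4 (Fin 4) DC) → Option (EE G p I T 4 (Fin 4) DC)
  | none => none
  | some x => some (act g y x)

/-- The bases of the constraints. -/
def bT : (G × ZMod p × ZMod p × T) ⊕ TI G p T 4 → G
  | .inl (v, _, _, _) => v
  | .inr τ => tv τ

/-- The action on the constraints. -/
def aT (g : G) (y : G → ZMod p) :
    (G × ZMod p × ZMod p × T) ⊕ TI G p T 4 → (G × ZMod p × ZMod p × T) ⊕ TI G p T 4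
  | .inl (v, α, β, t) => .inl (v, α + y v, β + y (v * g), t)
  | .inr τ => .inr (tact g y τ)

theorem tact_zero (g : G) (τ : TI G p T 4) : tact g (fun _ => 0) τ = τ := by
  cases τ <;> simp [tact]

theorem act_zero {DC : Type} (g : G) (x : EE G p I T 4 (Fin 4) DC) :
    act g (fun _ => 0) x = x := by
  cases x with
  | tf τ d => simp only [act, tact_zero]
  | _ => simp [act]

theorem aE_zero {DC : Type} (g : G) (x : Option (EE G p I T 4 (Fin 4) DC)) :
    aE g (fun _ => 0) x = x := by
  cases x with
  | none => rfl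
  | some x => simp only [aE, act_zero]

theorem aE_base {DC : Type} (g : G) (y : G → ZMod p) (x : Option (EE G p I T 4 (Fin 4) DC)) :
    bE (aE g y x) = bE x := by
  cases x with
  | none => rfl
  | some x => exact base_act g y x

theorem aE_congr {DC : Type} (g h : G) (y y' : G → ZMod p)
    (x : Option (EE G p I T 4 (Fin 4) DC))
    (hy : ∀ u ∈ tbb g h (bE x), y u = y' u) : aE g y x = aE g y' x := by
  cases x with
  | none => rfl
  | some x =>
    have h1 : act g y x = act g y' x := by
      apply act_congr g h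
      intro u hu
      apply hy
      simp only [bE]
      cases hb : base x with
      | inl v => rw [hb] at hu; exact hu
      | inr v => rw [hb] at hu; exact hu
    simp only [aE, h1]

theorem aE_neg {DC : Type} (g : G) (y : G → ZMod p) (x : Option (EE G p I T 4 (Fin 4) DC)) :
    aE g (fun u => - y u) (aE g y x) = x := by
  cases x with
  | none => rfl
  | some x => simp only [aE, act_neg]

end FFRQ

open FFRQ Pool.Agent.Work.MP_8dbde4_lc.Phy.XBFP in
theorem FRQ_pf : S_FRQ := by
  intro G _ g h p I T Δ tt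
  refine ⟨{ bE := FFRQ.bE, bT := FFRQ.bT, aE := FFRQ.aE g, aT := FFRQ.aT g,
            kd := fun τ => τ.isLeft, ep := epQ Δ tt g h, e0 := none, be0 := rfl,
            aE_zero := FFRQ.aE_zero g, aE_base := FFRQ.aE_base g,
            aE_congr := FFRQ.aE_congr g h, aE_neg := FFRQ.aE_neg g,
            aT_base := ?_, aT_congr := ?_, aT_neg := ?_, kd_act := ?_, ep_act := ?_,
            ep_ex := ?_ }, rfl, rfl⟩
  · intro y τ
    rcases τ with ⟨v, α, β, t⟩ | τ
    · rfl
    · exact tv_act g y τ
  · intro y y' τ hy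
    rcases τ with ⟨v, α, β, t⟩ | τ
    · have h1 : y v = y' v := hy v (by simp [FFRQ.bT, row])
      have h2 : y (v * g) = y' (v * g) := hy (v * g) (by simp [FFRQ.bT, row])
      simp only [FFRQ.aT, h1, h2]
    · have h1 := hy (tv τ) (by simp [FFRQ.bT, row])
      have h2 := hy (tv τ * g) (by simp [FFRQ.bT, row])
      simp only [FFRQ.aT, tact_congr g y y' τ h1 h2]
  · intro y τ
    rcases τ with ⟨v, α, β, t⟩ | τ
    · simp [FFRQ.aT]
    · simp only [FFRQ.aT, tact_neg]
  · intro y τ
    rcases τ with ⟨v, α, β, t⟩ | τ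
    · rfl
    · rfl
  · intro b b' y τ hy hrow x
    rcases τ with ⟨v, α, β, t⟩ | τ
    · rfl
    · have hr : y (tv τ) + y (tv τ * g) - y (tv τ * h) = b' - b := hrow
      have e1 := hi_act (D := Fin 4) (DC := Empty) (I := I) (tt := tt) (g := g) (h := h) (b := b)
        (b' := b') hy τ hr
      have e2 := lo_act (DC := Empty) g y Δ (id : Fin 4 → Fin 4) τ
      fin_cases x
      · rfl
      · show some (act g y (anc (hi tt g h b τ))) = some (anc (hi tt g h b' (tact g y τ)))
        rw [anc_act g hy, e1]
      · show some (act g y (lo Δ id τ)) = some (lo Δ id (tact g y τ))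
        rw [e2]
      · show some (act g y (hi tt g h b τ)) = some (hi tt g h b' (tact g y τ))
        rw [e1]
  · intro b b' y τ hy
    rcases τ with ⟨v, α, β, t⟩ | τ
    · exact ⟨.inl (v, α + y v, β + y (v * g), t), rfl, fun x _ => rfl⟩
    · obtain ⟨τ', hτ'⟩ := hi_ex (I := I) (D := Fin 4) (DC := Empty) (tt := tt) (g := g) (h := h)
        (b := b) (b' := b') hy τ
      refine ⟨.inr τ', rfl, ?_⟩
      intro x hx
      fin_cases x
      · rfl
      · show some (act g y (anc (hi tt g h b τ))) = some (anc (hi tt g h b' τ'))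
        rw [anc_act g hy, hτ']
      · exact absurd (base_lo Δ id τ) hx
      · show some (act g y (hi tt g h b τ)) = some (hi tt g h b' τ')
        rw [hτ']

end Pool.Agent.Work.MP_8dbde4_lc.Full
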