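import Pool.Agent.Work.MP_8dbde4_lc.Full.StmtsB

set_option autoImplicit false
open Classical

namespace Pool.Agent.Work.MP_8dbde4_lc.Full

open Pool.Agent.Work.MP_8dbde4_lc.TS Pool.Agent.Work.MP_8dbde4_lc.Tree
  Pool.Agent.Work.MP_8dbde4_lc.Phy BT

namespace FGLS

lemma psE_m {E T D X : Type} {m : X → D} (hm : Function.Injective m) (ep : X → E) (τ : T) (x : X) :
    psE m ep τ (m x) = Sum.inl (ep x) := by
  have h : ∃ x', m x' = m x := ⟨x, rfl⟩
  unfold psE
  rw [dif_pos h]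
  rw [hm h.choose_spec]

lemma psE_not {E T D X : Type} {m : X → D} (ep : X → E) (τ : T) {d : D} (h : ¬ ∃ x, m x = d) :
    psE m ep τ d = (Sum.inr (τ, d) : E ⊕ T × D) := by
  unfold psE
  rw [dif_neg h]

end FGLS

open FGLS

theorem GLS_pf : S_GLS := by
  intro σ B 𝔅 E T K D X S str m kd ep hm hS
  constructor
  · rintro ⟨h, hh⟩
    refine ⟨fun e => h (Sum.inl e), fun τ => ?_⟩
    rw [hS]
    refine ⟨fun d => h (psE (m (kd τ)) (ep τ) τ d), ?_, ?_⟩
    · intro R d hd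
      exact hh R (fun j => psE (m (kd τ)) (ep τ) τ (d j)) ⟨τ, d, hd, rfl⟩
    · intro x
      show h (Sum.inl (ep τ x)) = h (psE (m (kd τ)) (ep τ) τ (m (kd τ) x))
      rw [psE_m (hm (kd τ)) (ep τ) τ x]
  · rintro ⟨f, hf⟩
    have h1 : ∀ τ, ∃ g : D → B, Hom (str (kd τ)) 𝔅 g ∧ ∀ x, f (ep τ x) = g (m (kd τ) x) :=
      fun τ => (hS _ _).1 (hf τ)
    choose g hg1 hg2 using h1
    have key : ∀ τ d, Sum.elim f (fun p : T × D => g p.1 p.2) (psE (m (kd τ)) (ep τ) τ d) = g τ d := by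
      intro τ d
      by_cases h : ∃ x, m (kd τ) x = d
      · obtain ⟨x, rfl⟩ := h
        rw [psE_m (hm (kd τ)) (ep τ) τ x]
        exact hg2 τ x
      · rw [psE_not (ep τ) τ h]
        rfl
    refine ⟨Sum.elim f (fun p : T × D => g p.1 p.2), ?_⟩
    rintro R t ⟨τ, d, hd, rfl⟩
    have h2 := hg1 τ R d hd
    have h3 : (fun j => Sum.elim f (fun p : T × D => g p.1 p.2)
        (psE (m (kd τ)) (ep τ) τ (d j))) = fun j => g τ (d j) := by
      funext j
      exact key τ (d j)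
    show 𝔅.rel R (fun j => Sum.elim f (fun p : T × D => g p.1 p.2)
        (psE (m (kd τ)) (ep τ) τ (d j)))
    rw [h3]
    exact h2

end Pool.Agent.Work.MP_8dbde4_lc.Full
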