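import Pool.Agent.Work.MP_8dbde4_lc.Full.StmtsB

/-!
Item HU: fat points keep their shape if `F3` fails.
-/

set_option autoImplicit false
open Classical

namespace Pool.Agent.Work.MP_8dbde4_lc.Full

open Pool.Agent.Work.MP_8dbde4_lc.TS Pool.Agent.Work.MP_8dbde4_lc.Tree
  Pool.Agent.Work.MP_8dbde4_lc.Phy BT

namespace FHU

variable {c : ℚ → Bool} {σ : Sig}

/-- The point `k` splits off from the others. -/
def Shp (u : Fin 3 → Word c) (k : Fin 3) : Prop := ∀ a b, a ≠ k → b ≠ k → Cc (u k) (u a) (u b)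

theorem shp_of (u : Fin 3 → Word c) (hu : Function.Injective u) (k a b : Fin 3)
    (hka : k ≠ a) (hkb : k ≠ b) (hab : a ≠ b) (h : Cc (u k) (u a) (u b)) : Shp u k := by
  have hall : ∀ x : Fin 3, x ≠ k → x = a ∨ x = b := by
    revert hka hkb hab
    clear h
    revert k a b
    decide
  intro x y hx hy
  rcases hall x hx with rfl | rfl <;> rcases hall y hy with rfl | rfl
  · exact cc_self fun h' => hka (hu h')
  · exact h
  · exact cc_symm h
  · exact cc_self fun h' => hkb (hu h')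

theorem shp_ex (u : Fin 3 → Word c) (hu : Function.Injective u) : ∃ k, Shp u k := by
  have h01 : u 0 ≠ u 1 := fun h => absurd (hu h) (by decide)
  have h02 : u 0 ≠ u 2 := fun h => absurd (hu h) (by decide)
  rcases cc_tri h01 h02 with h | h | h
  · exact ⟨0, shp_of u hu 0 1 2 (by decide) (by decide) (by decide) h⟩
  · exact ⟨1, shp_of u hu 1 0 2 (by decide) (by decide) (by decide) h⟩
  · exact ⟨2, shp_of u hu 2 0 1 (by decide) (by decide) (by decide) h⟩

theorem cc_shp (u : Fin 3 → Word c) (hu : Function.Injective u) (k : Fin 3) (hk : Shp u k)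
    (x y z : Fin 3) : Cc (u z) (u x) (u y) ↔ (z ≠ x ∧ z ≠ y ∧ (z = k ∨ x = y)) := by
  constructor
  · intro h
    have hzx : z ≠ x := fun h' => cc_ne h (by rw [h'])
    have hzy : z ≠ y := fun h' => cc_ne' h (by rw [h'])
    refine ⟨hzx, hzy, ?_⟩
    by_contra hc
    simp only [not_or] at hc
    obtain ⟨hzk, hxy⟩ := hc
    have hk' : k = x ∨ k = y := by
      revert hzx hzy hzk hxy
      clear h hk
      revert x y z k
      decide
    rcases hk' with rfl | rfl
    · exact cc_asymm h (hk z y hzx (Ne.symm hxy))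
    · exact cc_asymm (cc_symm h) (hk z x hzy hxy)
  · rintro ⟨hzx, hzy, rfl | rfl⟩
    · exact hk x y (Ne.symm hzx) (Ne.symm hzy)
    · exact cc_self fun h' => hzx (hu h')

theorem same (u u' : Fin 3 → Word c) (hu : Function.Injective u) (hu' : Function.Injective u')
    (k : Fin 3) (hk : Shp u k) (hk' : Shp u' k) : SameOn Set.univ u u' := by
  refine ⟨fun x _ y _ => ?_, fun x _ y _ z _ => ?_⟩
  · rw [hu.eq_iff, hu'.eq_iff]
  · rw [cc_shp u hu k hk, cc_shp u' hu' k hk']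

theorem shp_perm (u : Fin 3 → Word c) (τ : Equiv.Perm (Fin 3)) (k : Fin 3) (h : Shp u (τ k)) :
    Shp (fun x => u (τ x)) k := by
  intro a b ha hb
  exact h (τ a) (τ b) (fun h' => ha (τ.injective h')) (fun h' => hb (τ.injective h'))

theorem two_tr : ∀ i j a b : Fin 3, i ≠ j → a ≠ b → ∃ τ : Equiv.Perm (Fin 3), τ i = a ∧ τ j = b := by
  decide

/-- All the fat arrows from the shape `i` to the shape `j`. -/
def GG (𝔅 : Str σ (Word c)) (i j : Fin 3) : Prop := ∀ v w : Fin 3 → Word c,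
  Function.Injective v → Function.Injective w → Shp v i → Shp w j → Fat 𝔅 Set.univ v w

theorem gg_of (hF : S_FAT) (𝔅 : Str σ (Word c)) (hA : AllInv 𝔅) (i j : Fin 3)
    (v₁ w₁ : Fin 3 → Word c) (hv : Function.Injective v₁) (hw : Function.Injective w₁)
    (hi : Shp v₁ i) (hj : Shp w₁ j) (h : Fat 𝔅 Set.univ v₁ w₁) : GG 𝔅 i j := by
  intro v w hvi hwi hvs hws
  exact (hF c σ 𝔅 hA (Fin 3) Set.univ v₁ w₁ hv hw).2.2.2.2.1 v w
    (same v₁ v hv hvi i hi hvs) (same w₁ w hw hwi j hj hws) h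

theorem gg_perm (hF : S_FAT) (𝔅 : Str σ (Word c)) (hA : AllInv 𝔅) (i j : Fin 3)
    (τ : Equiv.Perm (Fin 3)) (h : GG 𝔅 i j) : GG 𝔅 (τ i) (τ j) := by
  intro v w hvi hwi hvs hws
  have h1 : Function.Injective (fun x => v (τ x)) := fun a b hab => τ.injective (hvi hab)
  have h2 : Function.Injective (fun x => w (τ x)) := fun a b hab => τ.injective (hwi hab)
  have h3 := h (fun x => v (τ x)) (fun x => w (τ x)) h1 h2 (shp_perm v τ i hvs)
    (shp_perm w τ j hws)
  have h4 := (hF c σ 𝔅 hA (Fin 3) Set.univ (fun x => v (τ x)) (fun x => w (τ x)) h1 h2).2.2.2.2.2.1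
    (Fin 3) (fun x => τ.symm x) τ.symm.injective h3
  have h5 : {x : Fin 3 | τ.symm x ∈ (Set.univ : Set (Fin 3))} = Set.univ := by
    ext x; simp
  rw [h5] at h4
  simpa using h4

end FHU

open FHU in
theorem HU_pf (hF : S_FAT) : S_HU := by
  intro c σ 𝔅 hA hF3 X _ F v w hv hw hfat
  by_contra hne
  apply hF3
  -- a triple with different shapes
  have hex : ∃ x ∈ F, ∃ y ∈ F, ∃ z ∈ F, ¬ (Cc (v z) (v x) (v y) ↔ Cc (w z) (w x) (w y)) := by
    by_contra hc
    apply hne
    refine ⟨fun x _ y _ => by rw [hv.eq_iff, hw.eq_iff], fun x hx y hy z hz => ?_⟩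
    by_contra hc'
    exact hc ⟨x, hx, y, hy, z, hz, hc'⟩
  obtain ⟨x, hx, y, hy, z, hz, hd⟩ := hex
  have hzx : z ≠ x := by
    rintro rfl
    exact hd ⟨fun h => absurd h cc_irrefl, fun h => absurd h cc_irrefl⟩
  have hzy : z ≠ y := by
    rintro rfl
    exact hd ⟨fun h => absurd h cc_irrefl', fun h => absurd h cc_irrefl'⟩
  have hxy : x ≠ y := by
    rintro rfl
    exact hd ⟨fun _ => cc_self fun h => hzx (hw h), fun _ => cc_self fun h => hzx (hv h)⟩
  let ι : Fin 3 → X := ![z, x, y]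
  have hι : Function.Injective ι := by
    intro a b hab
    fin_cases a <;> fin_cases b <;>
      simp_all [ι, hzx, hzy, hxy, hzx.symm, hzy.symm, hxy.symm]
  have hιF : {j : Fin 3 | ι j ∈ F} = Set.univ := by
    ext j
    fin_cases j <;> simp [ι, hx, hy, hz]
  have hv1 : Function.Injective (fun j => v (ι j)) := hv.comp hι
  have hw1 : Function.Injective (fun j => w (ι j)) := hw.comp hι
  have hf1 := (hF c σ 𝔅 hA X F v w hv hw).2.2.2.2.2.1 (Fin 3) ι hι hfat
  rw [hιF] at hf1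
  obtain ⟨i, hi⟩ := shp_ex _ hv1
  obtain ⟨j, hj⟩ := shp_ex _ hw1
  have hij : i ≠ j := by
    rintro rfl
    have h := (same _ _ hv1 hw1 i hi hj).2 1 (Set.mem_univ _) 2 (Set.mem_univ _) 0
      (Set.mem_univ _)
    exact hd h
  have hG : GG 𝔅 i j := gg_of hF 𝔅 hA i j _ _ hv1 hw1 hi hj hf1
  have hGG : ∀ a b : Fin 3, a ≠ b → GG 𝔅 a b := by
    intro a b hab
    obtain ⟨τ, rfl, rfl⟩ := two_tr i j a b hij hab
    exact gg_perm hF 𝔅 hA i j τ hG
  intro v' w' hv' hw'
  obtain ⟨a, ha⟩ := shp_ex v' hv'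
  obtain ⟨b, hb⟩ := shp_ex w' hw'
  by_cases hab : a = b
  · subst hab
    obtain ⟨d, hd'⟩ : ∃ d : Fin 3, d ≠ a :=
      (by decide : ∀ a : Fin 3, ∃ d : Fin 3, d ≠ a) a
    obtain ⟨τ, hτ, -⟩ : ∃ τ : Equiv.Perm (Fin 3), τ d = i ∧ τ a = (if i = 0 then 1 else 0) := by
      apply two_tr _ _ _ _ hd'
      split_ifs with h
      · rw [h]; decide
      · exact h
    let u : Fin 3 → Word c := fun x => v (ι (τ x))
    have hu : Function.Injective u := fun p q hpq => τ.injective (hv1 hpq)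
    have hus : Shp u d := shp_perm (fun j => v (ι j)) τ d (by rw [hτ]; exact hi)
    exact (hF c σ 𝔅 hA (Fin 3) Set.univ v' w' hv' hw').2.2.1 u hu
      (hGG a d hd'.symm v' u hv' hu ha hus) (hGG d a hd' u w' hu hw' hus hb)
  · exact hGG a b hab v' w' hv' hw' ha hb

end Pool.Agent.Work.MP_8dbde4_lc.Full
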