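import Pool.Agent.Work.MP_8dbde4_lc.Full.StmtsA

set_option autoImplicit false
open Classical

namespace Pool.Agent.Work.MP_8dbde4_lc.Full

open Pool.Agent.Work.MP_8dbde4_lc.TS Pool.Agent.Work.MP_8dbde4_lc.Tree
  Pool.Agent.Work.MP_8dbde4_lc.Phy BT

/-- Primitive positive definable sets are invariant. -/
theorem IN2_pf (h1 : S_AMA) : S_IN2 := by
  intro c σ 𝔅 hP X _ S hS v w hvw hv
  obtain ⟨D, hD, 𝔇, m, hm⟩ := hS
  have : Finite D := hD
  obtain ⟨f, hf, hfv⟩ := (hm v).1 hv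
  have hve : v = fun k => f (m k) := funext hfv
  obtain ⟨g, hg1, hg2⟩ := h1 c D X f w m (by
    rw [← hve]
    exact hvw.symm)
  refine (hm w).2 ⟨g, ?_, fun x => (hg2 x).symm⟩
  intro R t ht
  refine hP R (fun j => f (t j)) (fun j => g (t j)) ⟨?_, ?_⟩ (hf R t ht)
  · intro x _ y _
    exact hg1.1 (t x) (Set.mem_univ _) (t y) (Set.mem_univ _)
  · intro x _ y _ z _
    exact hg1.2 (t x) (Set.mem_univ _) (t y) (Set.mem_univ _) (t z) (Set.mem_univ _)

end Pool.Agent.Work.MP_8dbde4_lc.Full
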