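import Pool.Agent.Work.MP_8dbde4_lc.Full.StmtsB

set_option autoImplicit false
open Classical

namespace Pool.Agent.Work.MP_8dbde4_lc.Full

open Pool.Agent.Work.MP_8dbde4_lc.TS Pool.Agent.Work.MP_8dbde4_lc.Tree
  Pool.Agent.Work.MP_8dbde4_lc.Phy BT

namespace FKCL

theorem combT_comp {c : ℚ → Bool} {X Y : Type} {z : X → Word c} (h : CombT z) (t : Y → X) :
    CombT fun y => z (t y) := by
  obtain ⟨r, h1, h2⟩ := h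
  exact ⟨fun y => r (t y), fun x y => h1 _ _, fun x y y' h3 h4 => h2 _ _ _ h3 h4⟩

theorem hom_up {σ : Sig} {A B : Type} {𝔄 : Str σ A} {𝔅 : Str σ B} {f : A → B}
    (h : Hom 𝔄 𝔅 f) : Hom 𝔄 (kc 𝔅) f := fun R t ht =>
  ⟨fun j => f (t j), h R t ht, fun _ _ => Iff.rfl⟩

theorem hom_down (hCMB : S_CMB) {c : ℚ → Bool} {σ : Sig} {𝔅 : Str σ (Word c)}
    (h : ∀ (R : σ.S) (v z : Fin (σ.ar R) → Word c), 𝔅.rel R v → CombT z →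
      (∀ x y, z x = z y ↔ v x = v y) → 𝔅.rel R z)
    {A : Type} [Finite A] {𝔄 : Str σ A} {f : A → Word c} (hf : Hom 𝔄 (kc 𝔅) f) :
    ∃ z : A → Word c, Hom 𝔄 𝔅 z ∧ ∀ x y, z x = z y ↔ f x = f y := by
  obtain ⟨z, hz, he⟩ := hCMB c A (Word c) f
  refine ⟨z, fun R t ht => ?_, he⟩
  obtain ⟨u, hu, hue⟩ := hf R t ht
  refine h R u (fun j => z (t j)) hu (combT_comp hz t) fun x y => ?_
  rw [he, hue]

end FKCL

theorem KCL_pf (hCMB : S_CMB) : S_KCL := by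
  intro c σ 𝔅 h
  refine ⟨fun A _ 𝔄 => ⟨?_, ?_⟩, ?_⟩
  · rintro ⟨f, hf⟩
    exact ⟨f, FKCL.hom_up hf⟩
  · rintro ⟨f, hf⟩
    obtain ⟨z, hz, -⟩ := FKCL.hom_down hCMB h (𝔄 := 𝔄) (f := f) hf
    exact ⟨z, hz⟩
  · rintro ⟨D, hD, 𝔇, m, hm⟩
    refine ⟨D, hD, 𝔇, m, fun v => ⟨?_, ?_⟩⟩
    · intro hv
      obtain ⟨f, hf, hfm⟩ := (hm v).mp hv
      exact ⟨f, FKCL.hom_up hf, hfm⟩
    · rintro ⟨f, hf, hfm⟩
      obtain ⟨z, hz, hze⟩ := FKCL.hom_down hCMB h (𝔄 := 𝔇) (f := f) hf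
      have h1 : z (m 0) ≠ z (m 1) := (hm fun x => z (m x)).mpr ⟨z, hz, fun _ => rfl⟩
      intro h2
      apply h1
      rw [hze, ← hfm, ← hfm]
      exact h2

end Pool.Agent.Work.MP_8dbde4_lc.Full
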