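import Pool.Agent.Work.MP_8dbde4_lc.Full.StmtsB

/-!
# Item KIP: primitive positive definable sets of equality languages
-/

set_option autoImplicit false
open Classical

namespace Pool.Agent.Work.MP_8dbde4_lc.Full

open Pool.Agent.Work.MP_8dbde4_lc.TS Pool.Agent.Work.MP_8dbde4_lc.Tree
  Pool.Agent.Work.MP_8dbde4_lc.Phy BT

namespace FKIP

/-- Extension of a map with the same equalities. -/
theorem ext {D X B : Type} [Finite D] [Finite X] [Infinite B] (f : D → B) (m : X → D) (w : X → B)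
    (h : ∀ x y, f (m x) = f (m y) ↔ w x = w y) :
    ∃ g : D → B, (∀ d d', f d = f d' ↔ g d = g d') ∧ ∀ x, w x = g (m x) := by
  have hinf : ((Set.range w)ᶜ : Set B).Infinite := (Set.finite_range w).infinite_compl
  haveI : Infinite ((Set.range w)ᶜ : Set B) := hinf.to_subtype
  let e : ℕ ↪ ((Set.range w)ᶜ : Set B) := Infinite.natEmbedding _
  haveI : Finite (Set.range f) := Set.finite_range f
  obtain ⟨n, ⟨q⟩⟩ := Finite.exists_equiv_fin (Set.range f)
  let i : D → ℕ := fun d => (q ⟨f d, d, rfl⟩).val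
  have hi : ∀ d d', i d = i d' ↔ f d = f d' := by
    intro d d'
    constructor
    · intro hd
      have h1 : q ⟨f d, d, rfl⟩ = q ⟨f d', d', rfl⟩ := Fin.ext hd
      have h2 := q.injective h1
      exact congrArg Subtype.val h2
    · intro hd
      have h2 : (⟨f d, d, rfl⟩ : Set.range f) = ⟨f d', d', rfl⟩ := Subtype.ext hd
      show (q ⟨f d, d, rfl⟩).val = (q ⟨f d', d', rfl⟩).val
      rw [h2]
  let g : D → B := fun d =>
    if hx : ∃ x, f (m x) = f d then w hx.choose else (e (i d)).1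
  have hg1 : ∀ d x, f (m x) = f d → g d = w x := by
    intro d x hx
    have hex : ∃ x, f (m x) = f d := ⟨x, hx⟩
    have h1 : g d = w hex.choose := dif_pos hex
    rw [h1]
    exact (h _ _).1 (hex.choose_spec.trans hx.symm)
  have hg2 : ∀ d, (¬ ∃ x, f (m x) = f d) → g d = (e (i d)).1 := fun d hx => dif_neg hx
  refine ⟨g, ?_, fun x => (hg1 (m x) x rfl).symm⟩
  intro d d'
  by_cases hd : ∃ x, f (m x) = f d
  · obtain ⟨x, hx⟩ := hd
    by_cases hd' : ∃ x, f (m x) = f d'
    · obtain ⟨x', hx'⟩ := hd'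
      rw [hg1 d x hx, hg1 d' x' hx', ← hx, ← hx']
      exact h x x'
    · constructor
      · intro hh
        exact absurd ⟨x, hx.trans hh⟩ hd'
      · intro hh
        exfalso
        rw [hg1 d x hx, hg2 d' hd'] at hh
        exact (e (i d')).2 ⟨x, hh⟩
  · by_cases hd' : ∃ x, f (m x) = f d'
    · obtain ⟨x', hx'⟩ := hd'
      constructor
      · intro hh
        exact absurd ⟨x', hx'.trans hh.symm⟩ hd
      · intro hh
        exfalso
        rw [hg1 d' x' hx', hg2 d hd] at hh
        exact (e (i d)).2 ⟨x', hh.symm⟩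
    · rw [hg2 d hd, hg2 d' hd', ← hi d d']
      constructor
      · intro hh
        rw [hh]
      · intro hh
        exact e.injective (Subtype.ext hh)

end FKIP

theorem KIP_pf : S_KIP := by
  intro σ B _ 𝔅 hK X _ S hS
  obtain ⟨D, hD, 𝔇, m, hm⟩ := hS
  haveI : Finite D := hD
  intro v w hvw hv
  obtain ⟨f, hf, hfm⟩ := (hm v).1 hv
  obtain ⟨g, hg, hgm⟩ := FKIP.ext f m w (fun x y => by rw [← hfm x, ← hfm y]; exact hvw x y)
  refine (hm w).2 ⟨g, ?_, hgm⟩
  intro R t ht
  exact hK R (fun j => f (t j)) (fun j => g (t j)) (fun j j' => hg (t j) (t j')) (hf R t ht)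

end Pool.Agent.Work.MP_8dbde4_lc.Full
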