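import Pool.Agent.Work.MP_8dbde4_lc.Full.StmtsB

set_option autoImplicit false
open Classical

namespace Pool.Agent.Work.MP_8dbde4_lc.Full

open Pool.Agent.Work.MP_8dbde4_lc.TS Pool.Agent.Work.MP_8dbde4_lc.Tree
  Pool.Agent.Work.MP_8dbde4_lc.Phy BT

namespace FLNC

variable {c : ℚ → Bool} {σ : Sig}

theorem combT_lvs {X : Type} (x : X) (ℓ : List X) : (combT x ℓ).lvs = x :: ℓ := by
  induction ℓ generalizing x with
  | nil => rfl
  | cons y ℓ ih =>
    show (lf x).lvs ++ (combT y ℓ).lvs = _
    rw [ih]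
    rfl

/-- Adding a leaf on the left which splits off. -/
theorem sep_cons {X : Type} {v : X → Word c} {x : X} {ℓ : List X}
    (h : ∀ y ∈ ℓ, ∀ z ∈ ℓ, Cc (v x) (v y) (v z)) : Sep v [x] ℓ := by
  refine ⟨?_, ?_⟩
  · intro a ha b hb z hz
    rw [List.mem_singleton] at ha hb
    subst ha
    subst hb
    exact cc_self (Ne.symm (cc_ne (h z hz z hz)))
  · intro a ha y hy z hz
    rw [List.mem_singleton] at ha
    subst ha
    exact h y hy z hz

theorem sep_snoc {X : Type} {v : X → Word c} {x : X} {ℓ : List X}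
    (h : ∀ y ∈ ℓ, ∀ z ∈ ℓ, Cc (v x) (v y) (v z)) : Sep v ℓ [x] := by
  refine ⟨?_, ?_⟩
  · intro a ha b hb z hz
    rw [List.mem_singleton] at hz
    subst hz
    exact h a ha b hb
  · intro a ha y hy z hz
    rw [List.mem_singleton] at hy hz
    subst hy
    subst hz
    exact cc_self (Ne.symm (cc_ne (h a ha a ha)))

theorem combL_combT {X : Type} (v : X → Word c) (x : X) (ℓ : List X) :
    CombL v (x :: ℓ) ↔ Sh v (combT x ℓ) := by
  induction ℓ generalizing x with
  | nil =>
    constructor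
    · intro _
      trivial
    · intro _
      refine ⟨?_, trivial⟩
      intro y hy
      exact absurd hy List.not_mem_nil
  | cons y ℓ ih =>
    constructor
    · intro h
      refine ⟨trivial, (ih y).1 h.2, ?_⟩
      rw [combT_lvs]
      exact sep_cons h.1
    · intro h
      obtain ⟨_, h2, h3⟩ := h
      rw [combT_lvs] at h3
      refine ⟨?_, (ih y).2 h2⟩
      intro a ha b hb
      exact h3.2 x (List.mem_singleton.2 rfl) a ha b hb

/-- The tree of the comb along `pre ++ x :: P.lvs` with `x` on the right. -/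
def mv {X : Type} : List X → X → BT X → BT X
  | [], x, P => nd P (lf x)
  | p :: pre, x, P => nd (lf p) (mv pre x P)

theorem mv_lvs {X : Type} (pre : List X) (x : X) (P : BT X) :
    (mv pre x P).lvs = pre ++ P.lvs ++ [x] := by
  induction pre with
  | nil => rfl
  | cons p pre ih =>
    show (lf p).lvs ++ (mv pre x P).lvs = _
    rw [ih]
    rfl

theorem mv_sh {X : Type} (v : X → Word c) (pre : List X) (x y : X) (post : List X)
    (h : CombL v (pre ++ x :: y :: post)) : Sh v (mv pre x (combT y post)) := by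
  induction pre with
  | nil =>
    refine ⟨(combL_combT v y post).1 h.2, trivial, ?_⟩
    rw [combT_lvs]
    exact sep_snoc h.1
  | cons p pre ih =>
    refine ⟨trivial, ih h.2, ?_⟩
    apply sep_cons
    intro a ha b hb
    have hsub : ∀ a, a ∈ (mv pre x (combT y post)).lvs → a ∈ pre ++ x :: y :: post := by
      intro a ha
      rw [mv_lvs, combT_lvs] at ha
      simp only [List.mem_append, List.mem_cons, List.not_mem_nil, or_false] at ha ⊢
      tauto
    exact h.1 a (hsub a ha) b (hsub b hb)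

/-- Arrows between the combs along two lists. -/
def CA (𝔅 : Str σ (Word c)) {X : Type} (ℓ ℓ' : List X) : Prop :=
  ∀ z z' : X → Word c, CombL z ℓ → CombL z' ℓ' → Arr 𝔅 z z'

theorem CA_self {𝔅 : Str σ (Word c)} (hL : LIN 𝔅) {X : Type} [Finite X] (ℓ : List X)
    (hall : ∀ x, x ∈ ℓ) : CA 𝔅 ℓ ℓ := by
  intro z z' hz hz'
  cases ℓ with
  | nil =>
    have : z = z' := by
      funext x
      exact absurd (hall x) List.not_mem_nil
    subst this
    exact Arr.refl 𝔅 z
  | cons x ℓ =>
    refine hL X (combT x ℓ) z z' ?_ ((combL_combT z x ℓ).1 hz) ?_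
    · rw [combT_lvs]
      exact hall
    · rw [combT_lvs]
      exact hz'

theorem CA_step {𝔅 : Str σ (Word c)} (hL : LIN 𝔅) {X : Type} [Finite X] (pre post : List X)
    (x : X) (hall : ∀ y, y ∈ pre ++ x :: post) : CA 𝔅 (pre ++ x :: post) (pre ++ post ++ [x]) := by
  cases post with
  | nil =>
    rw [List.append_nil]
    exact CA_self hL _ hall
  | cons y post =>
    intro z z' hz hz'
    refine hL X (mv pre x (combT y post)) z z' ?_ (mv_sh z pre x y post hz) ?_
    · intro w
      rw [mv_lvs, combT_lvs]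
      have := hall w
      simp only [List.mem_append, List.mem_cons, List.not_mem_nil, or_false] at this ⊢
      tauto
    · rw [mv_lvs, combT_lvs]
      exact hz'

theorem comb_ex (h3 : S_SHX) (c : ℚ → Bool) {X : Type} [Finite X] (ℓ : List X) (hn : ℓ.Nodup) :
    ∃ z : X → Word c, CombL z ℓ := by
  cases ℓ with
  | nil => exact ⟨fun _ => ⟨c, by simp⟩, trivial⟩
  | cons x ℓ =>
    obtain ⟨z, hz⟩ := (h3 c X).1 (combT x ℓ) (by rw [combT_lvs]; exact hn)
    exact ⟨z, (combL_combT z x ℓ).2 hz⟩

theorem CA_all (h3 : S_SHX) {𝔅 : Str σ (Word c)} (hL : LIN 𝔅) {X : Type} [Finite X] (r : List X) :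
    ∀ q m : List X, (q ++ r).Nodup → (∀ x, x ∈ q ++ r) → (m ++ q).Nodup → (∀ x, x ∈ m ++ q) →
      CA 𝔅 (m ++ q) (q ++ r) := by
  induction r with
  | nil =>
    intro q m _ h2 h3' h4
    rw [List.append_nil] at h2 ⊢
    have hm : m = [] := by
      rw [List.eq_nil_iff_forall_not_mem]
      intro x hx
      exact (List.disjoint_of_nodup_append h3') hx (h2 x)
    subst hm
    exact CA_self hL q h2
  | cons t r ih =>
    intro q m h1 h2 h3' h4
    have htq : t ∉ q := by
      intro ht
      exact (List.disjoint_of_nodup_append h1) ht (List.mem_cons_self)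
    have htm : t ∈ m := by
      rcases List.mem_append.1 (h4 t) with h | h
      · exact h
      · exact absurd h htq
    obtain ⟨m1, m2, rfl⟩ := List.append_of_mem htm
    have e1 : (m1 ++ t :: m2) ++ q = m1 ++ t :: (m2 ++ q) := by simp
    have e2 : m1 ++ (m2 ++ q) ++ [t] = (m1 ++ m2) ++ (q ++ [t]) := by simp
    have e3 : q ++ t :: r = (q ++ [t]) ++ r := by simp
    have hperm : ((m1 ++ t :: m2) ++ q).Perm ((m1 ++ m2) ++ (q ++ [t])) := by
      rw [e1, ← e2]
      refine List.perm_middle.trans ?_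
      exact (List.perm_append_singleton t (m1 ++ (m2 ++ q))).symm
    have hst : CA 𝔅 ((m1 ++ t :: m2) ++ q) ((m1 ++ m2) ++ (q ++ [t])) := by
      rw [e1, ← e2]
      apply CA_step hL m1 (m2 ++ q) t
      intro y
      rw [← e1]
      exact h4 y
    have hnd : ((m1 ++ m2) ++ (q ++ [t])).Nodup := hperm.nodup_iff.1 h3'
    have hal : ∀ x, x ∈ (m1 ++ m2) ++ (q ++ [t]) := fun x => hperm.mem_iff.1 (h4 x)
    have hr := ih (q ++ [t]) (m1 ++ m2) (by rw [← e3]; exact h1) (by rw [← e3]; exact h2) hnd hal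
    obtain ⟨u, hu⟩ := comb_ex h3 c _ hnd
    intro z z' hz hz'
    rw [e3] at hz'
    exact Arr.trans (hst z u hz hu) (hr u z' hu hz')

end FLNC

open FLNC in
theorem LNC_pf (h2 : S_SHF) (h3 : S_SHX) : S_LNC := by
  intro c σ 𝔅 _ hL X _ v z ℓ hv hall hnd hz
  by_cases hX : Nonempty X
  · obtain ⟨T, hT1, hT2⟩ := (h3 c X).2 v Set.univ Set.univ_nonempty (hv.injOn)
    have hall' : ∀ x, x ∈ T.lvs := fun x => (hT1 x).2 (Set.mem_univ x)
    have hnd' : T.lvs.Nodup := ((h2 c X T).1 v hT2).1
    obtain ⟨u, hu⟩ := comb_ex h3 c T.lvs hnd'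
    have ha := hL X T v u hall' hT2 hu
    have hb := CA_all h3 hL ℓ [] T.lvs hnd hall (by rw [List.append_nil]; exact hnd')
      (by rw [List.append_nil]; exact hall')
    rw [List.append_nil, List.nil_append] at hb
    exact Arr.trans ha (hb u z hu hz)
  · have : v = z := by
      funext x
      exact absurd ⟨x⟩ hX
    subst this
    exact Arr.refl 𝔅 v

end Pool.Agent.Work.MP_8dbde4_lc.Full
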