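import Pool.Agent.Work.MP_8dbde4_lc.Full.StmtsA

/-!
# Item LPH: pigeonhole for leaves
-/

set_option autoImplicit false
open Classical

namespace Pool.Agent.Work.MP_8dbde4_lc.Full

open Pool.Agent.Work.MP_8dbde4_lc.TS Pool.Agent.Work.MP_8dbde4_lc.Tree
  Pool.Agent.Work.MP_8dbde4_lc.Phy BT

namespace FLPH

theorem exists_leaf {Λ : Type} : ∀ y : BT Λ, ∃ x, Sub (lf x) y
  | .lf x => ⟨x, Sub.rfl x⟩
  | .nd l r => by
      obtain ⟨x, hs⟩ := exists_leaf l
      exact ⟨x, Sub.left r hs⟩

theorem zero_case {Λ κ : Type} (χ : Λ → κ) (n : κ → ℕ) (hz : ∀ k, n k = 0) (y : BT Λ) :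
    ∃ (k : κ) (z : BT Λ), Sub z y ∧ z.Cpl (n k) ∧ ∀ x ∈ z.lvs, χ x = k := by
  obtain ⟨x, hs⟩ := exists_leaf y
  refine ⟨χ x, lf x, hs, ?_, ?_⟩
  · rw [hz]
    simp only [BT.Cpl]
  · intro x' hx'
    simp only [BT.lvs, List.mem_singleton] at hx'
    rw [hx']

theorem main {Λ κ : Type} [Fintype κ] (χ : Λ → κ) : ∀ (h : ℕ) (n : κ → ℕ) (y : BT Λ),
    y.Cpl h → ∑ k, n k ≤ h →
      ∃ (k : κ) (z : BT Λ), Sub z y ∧ z.Cpl (n k) ∧ ∀ x ∈ z.lvs, χ x = k := by
  intro h
  induction h with
  | zero =>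
    intro n y _ hs
    apply zero_case
    intro k
    have h1 : ∑ k, n k = 0 := Nat.le_zero.1 hs
    exact (Finset.sum_eq_zero_iff.1 h1) k (Finset.mem_univ k)
  | succ h ih =>
    intro n y hy hs
    by_cases hz : ∀ k, n k = 0
    · exact zero_case χ n hz y
    · obtain ⟨k₀, hk₀⟩ := not_forall.1 hz
      cases y with
      | lf x => exact absurd hy (by simp [BT.Cpl])
      | nd l r =>
        simp only [BT.Cpl] at hy
        have hn : ∀ k, n k = (n k - if k = k₀ then 1 else 0) + if k = k₀ then 1 else 0 := by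
          intro k
          by_cases hk : k = k₀
          · subst hk
            simp only [if_true]
            omega
          · simp [hk]
        have hsum : ∑ k, (n k - if k = k₀ then 1 else 0) ≤ h := by
          have h1 : ∑ k, n k = ∑ k, (n k - if k = k₀ then 1 else 0) + 1 := by
            calc ∑ k, n k = ∑ k, ((n k - if k = k₀ then 1 else 0) + if k = k₀ then 1 else 0) :=
                  Finset.sum_congr rfl (fun k _ => hn k)
              _ = ∑ k, (n k - if k = k₀ then 1 else 0) + 1 := by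
                  rw [Finset.sum_add_distrib]
                  simp
          omega
        obtain ⟨k₁, z₁, hs₁, hc₁, hx₁⟩ := ih _ l hy.1 hsum
        obtain ⟨k₂, z₂, hs₂, hc₂, hx₂⟩ := ih _ r hy.2 hsum
        by_cases h1 : k₁ = k₀
        · by_cases h2 : k₂ = k₀
          · subst h1
            subst h2
            simp only [if_true] at hc₁ hc₂
            refine ⟨k₂, nd z₁ z₂, Sub.both hs₁ hs₂, ?_, ?_⟩
            · obtain ⟨j, hj⟩ := Nat.exists_eq_succ_of_ne_zero hk₀
              rw [hj] at hc₁ hc₂ ⊢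
              simp only [Nat.succ_sub_one, BT.Cpl] at hc₁ hc₂ ⊢
              exact ⟨hc₁, hc₂⟩
            · intro x hx
              simp only [BT.lvs, List.mem_append] at hx
              rcases hx with hx | hx
              · exact hx₁ x hx
              · exact hx₂ x hx
          · refine ⟨k₂, z₂, Sub.right l hs₂, ?_, hx₂⟩
            simpa [h2] using hc₂
        · refine ⟨k₁, z₁, Sub.left r hs₁, ?_, hx₁⟩
          simpa [h1] using hc₁

end FLPH

theorem LPH_pf : S_LPH := by
  intro Λ κ _ χ h n y hy hs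
  exact FLPH.main χ h n y hy hs

end Pool.Agent.Work.MP_8dbde4_lc.Full
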