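import Pool.Agent.Work.MP_8dbde4_lc.Full.StmtsB

/-!
Item LTC: moving points to the top gives all combs.
-/

set_option autoImplicit false
open Classical

namespace Pool.Agent.Work.MP_8dbde4_lc.Full

open Pool.Agent.Work.MP_8dbde4_lc.TS Pool.Agent.Work.MP_8dbde4_lc.Tree
  Pool.Agent.Work.MP_8dbde4_lc.Phy BT

namespace FLTC

variable {c : ℚ → Bool}

/-- a word above all the words of a finite family -/
theorem top_ex {X : Type} [Finite X] (v : X → Word c) :
    ∃ t : Word c, ∀ x y, Cc t (v x) (v y) := by
  have hfin : (⋃ x, {q | (v x).1 q ≠ c q}).Finite := Set.finite_iUnion fun x => (v x).2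
  obtain ⟨q₀, hq₀⟩ : ∃ q₀ : ℚ, ∀ q ∈ (⋃ x, {q | (v x).1 q ≠ c q}), q₀ < q := by
    obtain ⟨b, hb⟩ := hfin.bddBelow
    exact ⟨b - 1, fun q hq => lt_of_lt_of_le (by linarith) (hb hq)⟩
  have hv : ∀ x, ∀ q ≤ q₀, (v x).1 q = c q := by
    intro x q hq
    by_contra hc
    have := hq₀ q (Set.mem_iUnion.2 ⟨x, hc⟩)
    exact absurd this (not_lt.2 hq)
  refine ⟨⟨fun q => if q = q₀ then !(c q) else c q, ?_⟩, ?_⟩
  · refine (Set.finite_singleton q₀).subset ?_
    intro q hq
    by_contra hc
    apply hq
    have : q ≠ q₀ := hc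
    simp [this]
  · intro x y
    refine ⟨q₀, ?_, ?_, ?_, ?_⟩
    · intro q' hq'
      show (if q' = q₀ then !(c q') else c q') = (v x).1 q'
      rw [if_neg (ne_of_lt hq'), hv x q' hq'.le]
    · intro q' hq'
      show (if q' = q₀ then !(c q') else c q') = (v y).1 q'
      rw [if_neg (ne_of_lt hq'), hv y q' hq'.le]
    · rw [hv x q₀ le_rfl, hv y q₀ le_rfl]
    · show (if q₀ = q₀ then !(c q₀) else c q₀) ≠ (v x).1 q₀
      rw [if_pos rfl, hv x q₀ le_rfl]
      simp

/-- combs along the same list have the same splits -/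
theorem comb_same {X : Type} (v w : X → Word c) :
    ∀ ℓ : List X, CombL v ℓ → CombL w ℓ → SameOn {x | x ∈ ℓ} v w := by
  intro ℓ
  induction ℓ with
  | nil =>
    intro _ _
    exact ⟨fun x hx => absurd hx (by simp), fun x hx => absurd hx (by simp)⟩
  | cons a ℓ ih =>
    intro hv hw
    obtain ⟨hv1, hv2⟩ := hv
    obtain ⟨hw1, hw2⟩ := hw
    have IH := ih hv2 hw2
    refine ⟨?_, ?_⟩
    · intro x hx y hy
      by_cases hxa : x ∈ ℓ
      · by_cases hya : y ∈ ℓ
        · exact IH.1 x hxa y hya
        · have : y = a := (List.mem_cons.1 hy).resolve_right hya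
          subst this
          exact ⟨fun h => absurd h.symm (cc_ne (hv1 x hxa x hxa)),
            fun h => absurd h.symm (cc_ne (hw1 x hxa x hxa))⟩
      · have : x = a := (List.mem_cons.1 hx).resolve_right hxa
        subst this
        by_cases hya : y ∈ ℓ
        · exact ⟨fun h => absurd h (cc_ne (hv1 y hya y hya)),
            fun h => absurd h (cc_ne (hw1 y hya y hya))⟩
        · have : y = x := (List.mem_cons.1 hy).resolve_right hya
          subst this
          exact ⟨fun _ => rfl, fun _ => rfl⟩
    · intro x hx y hy z hz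
      by_cases hza : z ∈ ℓ
      · by_cases hxa : x ∈ ℓ
        · by_cases hya : y ∈ ℓ
          · exact IH.2 x hxa y hya z hza
          · have : y = a := (List.mem_cons.1 hy).resolve_right hya
            subst this
            exact ⟨fun h => absurd (hv1 z hza x hxa) (fun h' => cc_asymm (cc_symm h) h'),
              fun h => absurd (hw1 z hza x hxa) (fun h' => cc_asymm (cc_symm h) h')⟩
        · have : x = a := (List.mem_cons.1 hx).resolve_right hxa
          subst this
          by_cases hya : y ∈ ℓ
          · exact ⟨fun h => absurd (hv1 z hza y hya) (fun h' => cc_asymm h h'),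
              fun h => absurd (hw1 z hza y hya) (fun h' => cc_asymm h h')⟩
          · have : y = x := (List.mem_cons.1 hy).resolve_right hya
            subst this
            rw [cc_iff_ne, cc_iff_ne]
            exact ⟨fun _ h => cc_ne (hw1 z hza z hza) h.symm, fun _ h => cc_ne (hv1 z hza z hza) h.symm⟩
      · have : z = a := (List.mem_cons.1 hz).resolve_right hza
        subst this
        by_cases hxa : x ∈ ℓ
        · by_cases hya : y ∈ ℓ
          · exact ⟨fun _ => hw1 x hxa y hya, fun _ => hv1 x hxa y hya⟩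
          · have : y = z := (List.mem_cons.1 hy).resolve_right hya
            subst this
            exact ⟨fun h => absurd h cc_irrefl', fun h => absurd h cc_irrefl'⟩
        · have : x = z := (List.mem_cons.1 hx).resolve_right hxa
          subst this
          exact ⟨fun h => absurd h cc_irrefl, fun h => absurd h cc_irrefl⟩

variable {σ : Sig}

/-- one point is moved to the top -/
theorem step (hA : S_ARR) (𝔅 : Str σ (Word c)) (hI : AllInv 𝔅) (hLT : LT 𝔅) {X : Type} [Finite X]
    (x : X) (u u' : X → Word c) (hu : Function.Injective u) (h1 : ∀ y, y ≠ x → u' y = u y)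
    (h2 : ∀ y z, y ≠ x → z ≠ x → Cc (u' x) (u' y) (u' z)) :
    Function.Injective u' ∧ Arr 𝔅 u u' := by
  have hu' : Function.Injective u' := by
    intro y z hyz
    by_cases hy : y = x
    · by_cases hz : z = x
      · rw [hy, hz]
      · subst hy
        exact absurd hyz (cc_ne (h2 z z hz hz))
    · by_cases hz : z = x
      · subst hz
        exact absurd hyz.symm (cc_ne (h2 y y hy hy))
      · rw [h1 y hy, h1 z hz] at hyz
        exact hu hyz
  refine ⟨hu', ?_⟩
  obtain ⟨-, A2, -⟩ := hA c σ 𝔅 hI
  -- `Option {y // y ≠ x}`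
  let f : Option {y : X // y ≠ x} → X := fun o => o.elim x Subtype.val
  let g : X → Option {y : X // y ≠ x} := fun y => if h : y = x then none else some ⟨y, h⟩
  have hfg : ∀ y, f (g y) = y := by
    intro y
    by_cases h : y = x
    · simp [f, g, h]
    · simp [f, g, h]
  have hf : Function.Injective f := by
    rintro (_ | ⟨y, hy⟩) (_ | ⟨z, hz⟩) h
    · rfl
    · exact absurd h.symm hz
    · exact absurd h hy
    · simp only [f, Option.elim] at h
      subst h
      rfl
  have key : Arr 𝔅 (fun o => u (f o)) (fun o => u' (f o)) := by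
    refine hLT {y : X // y ≠ x} (fun o => u (f o)) (fun o => u' (f o)) (fun a b h => hf (hu h))
      (fun a b h => hf (hu' h)) ?_ ?_
    · have e : ∀ o ∈ {o : Option {y : X // y ≠ x} | o ≠ none}, u' (f o) = u (f o) := by
        rintro (_ | ⟨y, hy⟩) ho
        · exact absurd rfl ho
        · exact h1 y hy
      refine ⟨?_, ?_⟩
      · intro a ha b hb
        show u (f a) = u (f b) ↔ u' (f a) = u' (f b)
        rw [e a ha, e b hb]
      · intro a ha b hb d hd
        show Cc (u (f d)) (u (f a)) (u (f b)) ↔ Cc (u' (f d)) (u' (f a)) (u' (f b))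
        rw [e a ha, e b hb, e d hd]
    · rintro ⟨y, hy⟩ ⟨z, hz⟩
      exact h2 y z hy hz
  have := A2 _ X g _ _ key
  simpa only [hfg] using this

theorem run (hA : S_ARR) (𝔅 : Str σ (Word c)) (hI : AllInv 𝔅) (hLT : LT 𝔅) {X : Type} [Finite X]
    (v : X → Word c) (hv : Function.Injective v) :
    ∀ (post : List X), post.Nodup → ∃ u : X → Word c, Function.Injective u ∧ Arr 𝔅 v u ∧
      CombL u post ∧ ∀ x ∈ post, ∀ y z, y ∉ post → z ∉ post → Cc (u x) (u y) (u z) := by
  intro post
  induction post with
  | nil => exact fun _ => ⟨v, hv, Arr.refl 𝔅 v, trivial, fun x hx => absurd hx (by simp)⟩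
  | cons x post ih =>
    intro hnd
    obtain ⟨hx, hnd'⟩ := List.nodup_cons.1 hnd
    obtain ⟨u, hu, harr, hc, hab⟩ := ih hnd'
    obtain ⟨t, ht⟩ := top_ex u
    have h1 : ∀ y, y ≠ x → Function.update u x t y = u y := fun y hy => Function.update_of_ne hy _ _
    have h2 : Function.update u x t x = t := Function.update_self _ _ _
    have htop : ∀ y z, y ≠ x → z ≠ x →
        Cc (Function.update u x t x) (Function.update u x t y) (Function.update u x t z) := by
      intro y z hy hz
      rw [h2, h1 y hy, h1 z hz]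
      exact ht y z
    obtain ⟨hi, ha⟩ := step hA 𝔅 hI hLT x u (Function.update u x t) hu h1 htop
    have hne : ∀ y ∈ post, y ≠ x := fun y hy h => hx (h ▸ hy)
    have hcomb : ∀ ℓ : List X, (∀ y ∈ ℓ, y ≠ x) → CombL u ℓ → CombL (Function.update u x t) ℓ := by
      intro ℓ
      induction ℓ with
      | nil => exact fun _ _ => trivial
      | cons a ℓ ih' =>
        intro h3 h4
        refine ⟨?_, ih' (fun y hy => h3 y (List.mem_cons_of_mem _ hy)) h4.2⟩
        intro y hy z hz
        rw [h1 y (h3 y (List.mem_cons_of_mem _ hy)), h1 z (h3 z (List.mem_cons_of_mem _ hz)),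
          h1 a (h3 a List.mem_cons_self)]
        exact h4.1 y hy z hz
    refine ⟨_, hi, harr.trans ha, ⟨?_, hcomb post hne hc⟩, ?_⟩
    · intro y hy z hz
      exact htop y z (hne y hy) (hne z hz)
    · intro a ha' y z hy hz
      have hy1 : y ≠ x := fun h => hy (h ▸ List.mem_cons_self)
      have hz1 : z ≠ x := fun h => hz (h ▸ List.mem_cons_self)
      rcases List.mem_cons.1 ha' with rfl | ha'
      · exact htop y z hy1 hz1
      · rw [h1 y hy1, h1 z hz1, h1 a (hne a ha')]
        exact hab a ha' y z (fun h => hy (List.mem_cons_of_mem _ h))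
          (fun h => hz (List.mem_cons_of_mem _ h))

end FLTC

open FLTC in
theorem LTC_pf (hA : S_ARR) : S_LTC := by
  intro c σ 𝔅 hI hLT X _ v z ℓ hv hall hnd hz
  obtain ⟨u, -, harr, hc, -⟩ := run hA 𝔅 hI hLT v hv ℓ hnd
  obtain ⟨A1, -⟩ := hA c σ 𝔅 hI
  refine harr.trans (A1 X u z ?_)
  have := comb_same u z ℓ hc hz
  have e : {x | x ∈ ℓ} = Set.univ := Set.eq_univ_of_forall hall
  rwa [e] at this

end Pool.Agent.Work.MP_8dbde4_lc.Full
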