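import Pool.Agent.Work.MP_8dbde4_lc.Full.StmtsB

/-!
Item LTI of the block Full: the displacement `D1` allows to move points to the top.
-/

set_option autoImplicit false
open Classical

namespace Pool.Agent.Work.MP_8dbde4_lc.Full

open Pool.Agent.Work.MP_8dbde4_lc.TS Pool.Agent.Work.MP_8dbde4_lc.Tree
  Pool.Agent.Work.MP_8dbde4_lc.Phy BT

namespace FLTI

variable {c : ℚ → Bool} {σ : Sig}

theorem so_refl {X : Type} (Y : Set X) (v : X → Word c) : SameOn Y v v :=
  ⟨fun _ _ _ _ => Iff.rfl, fun _ _ _ _ _ _ => Iff.rfl⟩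

theorem so_symm {X : Type} {Y : Set X} {v w : X → Word c} (h : SameOn Y v w) : SameOn Y w v :=
  ⟨fun x hx y hy => (h.1 x hx y hy).symm, fun x hx y hy z hz => (h.2 x hx y hy z hz).symm⟩

theorem so_trans {X : Type} {Y : Set X} {u v w : X → Word c} (h : SameOn Y u v)
    (h' : SameOn Y v w) : SameOn Y u w :=
  ⟨fun x hx y hy => (h.1 x hx y hy).trans (h'.1 x hx y hy),
    fun x hx y hy z hz => (h.2 x hx y hy z hz).trans (h'.2 x hx y hy z hz)⟩

theorem so_mono {X : Type} {Y Y' : Set X} {v w : X → Word c} (h : SameOn Y v w)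
    (hY : Y' ⊆ Y) : SameOn Y' v w :=
  ⟨fun x hx y hy => h.1 x (hY hx) y (hY hy),
    fun x hx y hy z hz => h.2 x (hY hx) y (hY hy) z (hY hz)⟩

/-- The false ones among the permutations. -/
theorem ccF {z x y : Word c} (h : Cc z x y) :
    ¬ Cc x z y ∧ ¬ Cc x y z ∧ ¬ Cc y z x ∧ ¬ Cc y x z :=
  ⟨cc_asymm h, fun k => cc_asymm h (cc_symm k), cc_asymm (cc_symm h),
    fun k => cc_asymm (cc_symm h) (cc_symm k)⟩

theorem fat_refl (hFAT : S_FAT) (hBLF : S_BLF) (𝔅 : Str σ (Word c)) (hI : AllInv 𝔅)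
    {X : Type} [Finite X] (F : Set X) (v : X → Word c) (hv : Function.Injective v) :
    Fat 𝔅 F v v := by
  intro Y _ π v' w' h1 hv' hw' hb hb' hs
  have hso : SameOn Set.univ v' w' := (hBLF c X Y π v v' hv hv' hb).2.2.1 w' hw' hb' hs
  obtain ⟨_, q2, _, _, q5, _⟩ := hFAT c σ 𝔅 hI Y ∅ v' v' hv' hv'
  have h2 : Fat 𝔅 ∅ v' v' := q2 (Arr.refl 𝔅 v')
  have h3 : Fat 𝔅 ∅ v' w' := q5 v' w' (so_refl _ _) hso h2
  exact (hFAT c σ 𝔅 hI Y ∅ v' w' hv' hw').1 h3

/-- Contraction of a set which is not split by the others. -/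
theorem bl_contract {A B : Type} (g : A → Word c) (N : Set A) (n₁ : A) (hn₁ : n₁ ∈ N)
    (ρ : A → B) (s : B → A) (hN : ∀ y ∈ N, s (ρ y) = n₁) (hO : ∀ y, y ∉ N → s (ρ y) = y)
    (hK : ∀ y, y ∉ N → ∀ n ∈ N, ∀ n' ∈ N, Cc (g y) (g n) (g n'))
    (hρ : ∀ y ∈ N, ∀ y' ∈ N, ρ y = ρ y') :
    Bl ρ (fun b => g (s b)) g := by
  intro y y' y'' h1 h2
  show Cc (g y'') (g y) (g y') ↔ Cc (g (s (ρ y''))) (g (s (ρ y))) (g (s (ρ y')))
  by_cases hy'' : y'' ∈ N
  · have hy : y ∉ N := fun h => h1 (hρ _ hy'' _ h)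
    have hy' : y' ∉ N := fun h => h2 (hρ _ hy'' _ h)
    rw [hN _ hy'', hO _ hy, hO _ hy']
    constructor
    · intro h
      rcases cc_or h (g n₁) with h3 | h3
      · exact absurd h3 (cc_asymm (hK y hy y'' hy'' n₁ hn₁))
      · exact h3
    · intro h
      rcases cc_or h (g y'') with h3 | h3
      · exact absurd h3 (cc_asymm (hK y hy n₁ hn₁ y'' hy''))
      · exact h3
  · rw [hO _ hy'']
    by_cases hy : y ∈ N
    · rw [hN _ hy]
      by_cases hy' : y' ∈ N
      · rw [hN _ hy']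
        exact ⟨fun _ => hK _ hy'' _ hn₁ _ hn₁, fun _ => hK _ hy'' _ hy _ hy'⟩
      · rw [hO _ hy']
        exact ⟨fun h => cc_trans (hK _ hy'' _ hn₁ _ hy) h,
          fun h => cc_trans (hK _ hy'' _ hy _ hn₁) h⟩
    · rw [hO _ hy]
      by_cases hy' : y' ∈ N
      · rw [hN _ hy']
        exact ⟨fun h => cc_trans h (hK _ hy'' _ hy' _ hn₁),
          fun h => cc_trans h (hK _ hy'' _ hn₁ _ hy')⟩
      · rw [hO _ hy']

/-- Blow-ups of a triple. -/
theorem bl3 {A : Type} (g : A → Word c) (π : A → Fin 3)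
    (v₀ : Fin 3 → Word c) (hv₀ : Function.Injective v₀) (h0 : Cc (v₀ 2) (v₀ 0) (v₀ 1))
    (hsame : ∀ y y' y'', π y = π y' → π y'' ≠ π y → Cc (g y'') (g y) (g y'))
    (hdiff : ∀ y y' y'', π y = 0 → π y' = 1 → π y'' = 2 → Cc (g y'') (g y) (g y')) :
    Bl π v₀ g := by
  intro y y' y'' h1 h2
  by_cases h : π y = π y'
  · refine iff_of_true (hsame y y' y'' h h1) ?_
    rw [← h]
    exact cc_self (fun k => h1 (hv₀ k))
  · have h3 : ∀ i : Fin 3, i = 0 ∨ i = 1 ∨ i = 2 := by decide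
    rcases h3 (π y) with a | a | a <;> rcases h3 (π y') with b | b | b <;>
      rcases h3 (π y'') with d | d | d
    · exact absurd (a.trans b.symm) h
    · exact absurd (a.trans b.symm) h
    · exact absurd (a.trans b.symm) h
    · exact absurd (d.trans a.symm) h1
    · exact absurd (d.trans b.symm) h2
    · rw [a, b, d]
      exact iff_of_true (hdiff y y' y'' a b d) h0
    · exact absurd (d.trans a.symm) h1
    · rw [a, b, d]
      exact iff_of_false (ccF (hdiff y y'' y' a d b)).2.2.2 (ccF h0).2.2.2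
    · exact absurd (d.trans b.symm) h2
    · exact absurd (d.trans b.symm) h2
    · exact absurd (d.trans a.symm) h1
    · rw [a, b, d]
      exact iff_of_true (cc_symm (hdiff y' y y'' b a d)) (cc_symm h0)
    · exact absurd (a.trans b.symm) h
    · exact absurd (a.trans b.symm) h
    · exact absurd (a.trans b.symm) h
    · rw [a, b, d]
      exact iff_of_false (ccF (hdiff y'' y y' d a b)).2.1 (ccF h0).2.1
    · exact absurd (d.trans a.symm) h1
    · exact absurd (d.trans b.symm) h2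
    · exact absurd (d.trans b.symm) h2
    · rw [a, b, d]
      exact iff_of_false (ccF (hdiff y' y'' y b d a)).2.2.1 (ccF h0).2.2.1
    · exact absurd (d.trans a.symm) h1
    · rw [a, b, d]
      exact iff_of_false (ccF (hdiff y'' y' y d b a)).1 (ccF h0).1
    · exact absurd (d.trans b.symm) h2
    · exact absurd (d.trans a.symm) h1
    · exact absurd (a.trans b.symm) h
    · exact absurd (a.trans b.symm) h
    · exact absurd (a.trans b.symm) h

theorem same_of_top {X : Type} {v w : Option X → Word c} (hv : Function.Injective v)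
    (hw : Function.Injective w) (hs : SameOn {o | o ≠ none} v w)
    (h1 : ∀ x y : X, Cc (v none) (v (some x)) (v (some y)))
    (h2 : ∀ x y : X, Cc (w none) (w (some x)) (w (some y))) : SameOn Set.univ v w := by
  refine ⟨fun x _ y _ => hv.eq_iff.trans hw.eq_iff.symm, fun x _ y _ z _ => ?_⟩
  cases z with
  | none =>
    cases x with
    | none => exact iff_of_false cc_irrefl cc_irrefl
    | some x =>
      cases y with
      | none => exact iff_of_false cc_irrefl' cc_irrefl'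
      | some y => exact iff_of_true (h1 x y) (h2 x y)
  | some z =>
    cases x with
    | none =>
      cases y with
      | none =>
        exact iff_of_true (cc_self (fun h => by simpa using hv h))
          (cc_self (fun h => by simpa using hw h))
      | some y => exact iff_of_false (cc_asymm (h1 z y)) (cc_asymm (h2 z y))
    | some x =>
      cases y with
      | none =>
        exact iff_of_false (fun h => cc_asymm (h1 z x) (cc_symm h))
          (fun h => cc_asymm (h2 z x) (cc_symm h))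
      | some y =>
        exact hs.2 (some x) (Option.some_ne_none x) (some y) (Option.some_ne_none y)
          (some z) (Option.some_ne_none z)

theorem exists_max {X : Type} [Finite X] (P : X → X → Prop) (hirr : ∀ x, ¬ P x x)
    (htr : ∀ x y z, P x y → P y z → P x z) (S : Set X) (hS : S.Nonempty) :
    ∃ m ∈ S, ∀ y ∈ S, ¬ P m y := by
  obtain ⟨m, hm, hmax⟩ := Set.exists_max_image S (fun x => {y | P y x}.ncard) S.toFinite hS
  refine ⟨m, hm, fun y hy hP => ?_⟩
  have h1 := hmax y hy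
  have h2 : {z | P z m}.ncard < {z | P z y}.ncard := by
    apply Set.ncard_lt_ncard _ (Set.toFinite _)
    refine ⟨fun z hz => htr z m y hz hP, fun hsub => ?_⟩
    exact hirr m (hsub (show m ∈ {z | P z y} from hP))
  exact absurd h1 (not_le.2 h2)

theorem claim (hFAT : S_FAT) (hEXM : S_EXM) (hHU : S_HU) (hBLW : S_BLW) (hBLF : S_BLF)
    (𝔅 : Str σ (Word c)) (hI : AllInv 𝔅) (hE : Ext 𝔅) (hF3 : ¬ F3 𝔅) (hD : D1 𝔅) :
    ∀ n : ℕ, ∀ (X : Type) [Finite X], Nat.card X = n → ∀ v w : Option X → Word c,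
      Function.Injective v → Function.Injective w → SameOn {o | o ≠ none} v w →
      (∀ x y : X, Cc (w none) (w (some x)) (w (some y))) → Fat 𝔅 {o | o ≠ none} v w := by
  intro n
  induction n using Nat.strong_induction_on with
  | _ n ih =>
  intro X _ hn v w hv hw hs htop
  by_cases hvt : ∀ x y : X, Cc (v none) (v (some x)) (v (some y))
  · have hso : SameOn Set.univ v w := same_of_top hv hw hs hvt htop
    obtain ⟨_, _, _, _, q5, _⟩ := hFAT c σ 𝔅 hI (Option X) {o | o ≠ none} v v hv hv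
    exact q5 v w (so_refl _ _) hso (fat_refl hFAT hBLF 𝔅 hI _ v hv)
  -- the order of the points with respect to `v none`
  obtain ⟨P, hPdef⟩ : ∃ P : X → X → Prop, ∀ x y, P x y ↔ Cc (v (some x)) (v none) (v (some y)) :=
    ⟨fun x y => Cc (v (some x)) (v none) (v (some y)), fun _ _ => Iff.rfl⟩
  have hirr : ∀ x, ¬ P x x := fun x h => cc_irrefl' ((hPdef x x).1 h)
  have htr : ∀ x y z, P x y → P y z → P x z := by
    intro x y z h1 h2
    rw [hPdef] at h1 h2 ⊢
    rcases cc_or h2 (v (some x)) with h3 | h3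
    · exact absurd h3 (ccF h1).2.2.2.elim
    · exact h3
  have hneg : ∀ x y z, P x z → P x y ∨ P y z := by
    intro x y z h
    rw [hPdef] at h
    rw [hPdef, hPdef]
    exact cc_or h (v (some y))
  have hne : ∀ x : X, v none ≠ v (some x) := fun x h => by simpa using hv h
  have hnP : ∀ x y, ¬ P x y → ¬ P y x → Cc (v none) (v (some x)) (v (some y)) := by
    intro x y h1 h2
    rw [hPdef] at h1 h2
    rcases cc_tri (hne x) (hne y) with h | h | h
    · exact h
    · exact absurd h h1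
    · exact absurd h h2
  obtain ⟨N1, hN1⟩ : ∃ N1 : Set X, ∀ x, x ∈ N1 ↔ ∀ y, ¬ P x y := ⟨{x | ∀ y, ¬ P x y}, fun _ => Iff.rfl⟩
  obtain ⟨N2, hN2⟩ : ∃ N2 : Set X, ∀ x, x ∈ N2 ↔ x ∉ N1 ∧ ∀ y, y ∉ N1 → ¬ P x y :=
    ⟨{x | x ∉ N1 ∧ ∀ y, y ∉ N1 → ¬ P x y}, fun _ => Iff.rfl⟩
  obtain ⟨x0, y0, hxy0⟩ : ∃ x0 y0 : X, ¬ Cc (v none) (v (some x0)) (v (some y0)) := by
    push Not at hvt
    exact hvt
  obtain ⟨n1, -, hn1⟩ := exists_max P hirr htr Set.univ ⟨x0, trivial⟩
  have hn1N : n1 ∈ N1 := (hN1 n1).2 (fun y => hn1 y trivial)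
  have hN1c : {x | x ∉ N1}.Nonempty := by
    by_contra hc
    rw [Set.not_nonempty_iff_eq_empty] at hc
    have hall : ∀ x, x ∈ N1 := by
      intro x
      by_contra hx
      have : x ∈ {x | x ∉ N1} := hx
      rw [hc] at this
      exact this
    exact hxy0 (hnP x0 y0 ((hN1 x0).1 (hall x0) y0) ((hN1 y0).1 (hall y0) x0))
  obtain ⟨n2, hn2a, hn2b⟩ := exists_max P hirr htr {x | x ∉ N1} hN1c
  have hn2N : n2 ∈ N2 := (hN2 n2).2 ⟨hn2a, fun y hy => hn2b y hy⟩
  -- facts
  have hP21 : ∀ x ∈ N2, ∀ y ∈ N1, P x y := by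
    intro x hx y hy
    have h1 := ((hN2 x).1 hx).1
    rw [hN1] at h1
    push Not at h1
    obtain ⟨z, hz⟩ := h1
    rcases hneg x y z hz with h | h
    · exact h
    · exact absurd h ((hN1 y).1 hy z)
  have hPout : ∀ x, x ∉ N1 → x ∉ N2 → ∀ y, y ∈ N1 ∨ y ∈ N2 → P x y := by
    intro x h1 h2
    have hx2 : ∀ y ∈ N2, P x y := by
      intro y hy
      have h3 : ∃ z, z ∉ N1 ∧ P x z := by
        by_contra hc
        push Not at hc
        exact h2 ((hN2 x).2 ⟨h1, hc⟩)
      obtain ⟨z, hz, hxz⟩ := h3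
      rcases hneg x y z hxz with h | h
      · exact h
      · exact absurd h (((hN2 y).1 hy).2 z hz)
    rintro y (hy | hy)
    · exact htr x n2 y (hx2 n2 hn2N) (hP21 n2 hn2N y hy)
    · exact hx2 y hy
  have hF3' : ∀ x ∈ N1, ∀ y ∈ N1, Cc (v none) (v (some x)) (v (some y)) := fun x hx y hy =>
    hnP x y ((hN1 x).1 hx y) ((hN1 y).1 hy x)
  have hF5 : ∀ x ∈ N2, ∀ y ∈ N2, Cc (v none) (v (some x)) (v (some y)) := fun x hx y hy =>
    hnP x y (((hN2 x).1 hx).2 y ((hN2 y).1 hy).1) (((hN2 y).1 hy).2 x ((hN2 x).1 hx).1)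
  have hF1 : ∀ x ∈ N2, ∀ y ∈ N1, Cc (v (some x)) (v none) (v (some y)) := fun x hx y hy =>
    (hPdef x y).1 (hP21 x hx y hy)
  have hF2 : ∀ x ∈ N2, ∀ y ∈ N1, ∀ y' ∈ N1, Cc (v (some x)) (v (some y)) (v (some y')) :=
    fun x hx y hy y' hy' => cc_trans (cc_symm (hF1 x hx y hy)) (hF1 x hx y' hy')
  have hF4 : ∀ x ∈ N1, ∀ y ∈ N2, ∀ y' ∈ N2, Cc (v (some x)) (v (some y)) (v (some y')) := by
    intro x hx y hy y' hy'
    rcases cc_or (hF5 y hy y' hy') (v (some x)) with h | h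
    · exact absurd h (cc_asymm (hF1 y hy x hx))
    · exact h
  have hF6 : ∀ x, x ∉ N1 → x ∉ N2 → ∀ y, y ∈ N1 ∨ y ∈ N2 → ∀ y', y' ∈ N1 ∨ y' ∈ N2 →
      Cc (v (some x)) (v (some y)) (v (some y')) := by
    intro x h1 h2 y hy y' hy'
    exact cc_trans (cc_symm ((hPdef x y).1 (hPout x h1 h2 y hy)))
      ((hPdef x y').1 (hPout x h1 h2 y' hy'))
  have hdisj : ∀ x ∈ N2, x ∉ N1 := fun x hx => ((hN2 x).1 hx).1
  -- the blow-up of the triple
  obtain ⟨v₀, w₀, hv₀, hw₀, hfat₀, hsp₀, hsw₀⟩ := hD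
  let good : Option X → Prop := fun o => ∀ x, o = some x → x ∈ N1 ∨ x ∈ N2
  let Z : Type := {o : Option X // good o}
  let π : Z → Fin 3 := fun z =>
    match z.1 with
    | none => 0
    | some x => if x ∈ N1 then 1 else 2
  let vZ : Z → Word c := fun z => v z.1
  have hvZ : Function.Injective vZ := fun a b h => Subtype.ext (hv h)
  have hcases : ∀ z : Z, (z.1 = none ∧ π z = 0) ∨ (∃ x ∈ N1, z.1 = some x ∧ π z = 1) ∨
      (∃ x ∈ N2, z.1 = some x ∧ π z = 2) := by
    rintro ⟨o, ho⟩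
    cases o with
    | none => exact Or.inl ⟨rfl, rfl⟩
    | some x =>
      right
      by_cases hx : x ∈ N1
      · left
        refine ⟨x, hx, rfl, ?_⟩
        show (if x ∈ N1 then (1 : Fin 3) else 2) = 1
        rw [if_pos hx]
      · right
        refine ⟨x, (ho x rfl).resolve_left hx, rfl, ?_⟩
        show (if x ∈ N1 then (1 : Fin 3) else 2) = 2
        rw [if_neg hx]
  have h01 : (0 : Fin 3) ≠ 1 := by decide
  have h02 : (0 : Fin 3) ≠ 2 := by decide
  have h12 : (1 : Fin 3) ≠ 2 := by decide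
  have hblv : Bl π v₀ vZ := by
    apply bl3 vZ π v₀ hv₀ hsp₀
    · intro y y' y'' h1 h2
      by_cases hyy : y = y'
      · subst hyy
        exact cc_self (fun k => h2 (by rw [hvZ k]))
      show Cc (v y''.1) (v y.1) (v y'.1)
      rcases hcases y with ⟨ha, hb⟩ | ⟨x, hx, ha, hb⟩ | ⟨x, hx, ha, hb⟩ <;>
        rcases hcases y' with ⟨ha', hb'⟩ | ⟨x', hx', ha', hb'⟩ | ⟨x', hx', ha', hb'⟩ <;>
        rcases hcases y'' with ⟨ha'', hb''⟩ | ⟨x'', hx'', ha'', hb''⟩ | ⟨x'', hx'', ha'', hb''⟩ <;>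
        rw [hb, hb'] at h1 <;> rw [hb'', hb] at h2 <;>
        first
          | exact absurd rfl h2
          | exact absurd h1 (by decide)
          | exact absurd (Subtype.ext (ha.trans ha'.symm)) hyy
          | (rw [ha, ha', ha'']
             first
               | exact hF3' _ hx _ hx'
               | exact hF5 _ hx _ hx'
               | exact hF2 _ hx'' _ hx _ hx'
               | exact hF4 _ hx'' _ hx _ hx')
    · intro y y' y'' h1 h2 h3
      show Cc (v y''.1) (v y.1) (v y'.1)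
      rcases hcases y with ⟨ha, hb⟩ | ⟨x, hx, ha, hb⟩ | ⟨x, hx, ha, hb⟩ <;>
        rcases hcases y' with ⟨ha', hb'⟩ | ⟨x', hx', ha', hb'⟩ | ⟨x', hx', ha', hb'⟩ <;>
        rcases hcases y'' with ⟨ha'', hb''⟩ | ⟨x'', hx'', ha'', hb''⟩ | ⟨x'', hx'', ha'', hb''⟩ <;>
        rw [hb] at h1 <;> rw [hb'] at h2 <;> rw [hb''] at h3 <;>
        first
          | exact absurd h1 (by decide)
          | exact absurd h2 (by decide)
          | exact absurd h3 (by decide)
          | (rw [ha, ha', ha'']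
             exact hF1 _ hx'' _ hx')
  obtain ⟨w₁, hw₁, hblw, hsw⟩ := hBLW c (Fin 3) Z π w₀ vZ hw₀ (fun y y' _ h => hvZ h)
  have hfat₁ : Fat 𝔅 {z : Z | z.1 ≠ none} vZ w₁ := by
    obtain ⟨_, _, _, _, _, _, q7⟩ := hFAT c σ 𝔅 hI (Fin 3) {1, 2} v₀ w₀ hv₀ hw₀
    refine q7 Z π vZ w₁ {z : Z | z.1 ≠ none} ?_ ?_ hvZ hw₁ hblv hblw hsw hfat₀
    · intro y y' h1 h2
      have hy : y.1 = none := by
        rcases hcases y with ⟨ha, hb⟩ | ⟨x, hx, ha, hb⟩ | ⟨x, hx, ha, hb⟩
        · exact ha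
        · exact absurd (by rw [hb]; simp) h2
        · exact absurd (by rw [hb]; simp) h2
      have hy' : y'.1 = none := by
        rw [h1] at h2
        rcases hcases y' with ⟨ha, hb⟩ | ⟨x, hx, ha, hb⟩ | ⟨x, hx, ha, hb⟩
        · exact ha
        · exact absurd (by rw [hb]; simp) h2
        · exact absurd (by rw [hb]; simp) h2
      exact Subtype.ext (hy.trans hy'.symm)
    · intro y hy
      rcases hcases y with ⟨ha, hb⟩ | ⟨x, hx, ha, hb⟩ | ⟨x, hx, ha, hb⟩
      · exact absurd ha hy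
      · rw [hb]; simp
      · rw [hb]; simp
  have htop₁ : ∀ z0 z z' : Z, z0.1 = none → z.1 ≠ none → z'.1 ≠ none →
      Cc (w₁ z0) (w₁ z) (w₁ z') := by
    intro z0 z z' h0 h1 h2
    have hz0 : π z0 = 0 := by
      rcases hcases z0 with ⟨ha, hb⟩ | ⟨x, hx, ha, hb⟩ | ⟨x, hx, ha, hb⟩
      · exact hb
      · rw [h0] at ha; cases ha
      · rw [h0] at ha; cases ha
    have hz : π z = 1 ∨ π z = 2 := by
      rcases hcases z with ⟨ha, hb⟩ | ⟨x, hx, ha, hb⟩ | ⟨x, hx, ha, hb⟩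
      · exact absurd ha h1
      · exact Or.inl hb
      · exact Or.inr hb
    have hz' : π z' = 1 ∨ π z' = 2 := by
      rcases hcases z' with ⟨ha, hb⟩ | ⟨x, hx, ha, hb⟩ | ⟨x, hx, ha, hb⟩
      · exact absurd ha h2
      · exact Or.inl hb
      · exact Or.inr hb
    have hzn : π z0 ≠ π z := by
      rw [hz0]; rcases hz with h | h <;> rw [h] <;> decide
    have hzn' : π z0 ≠ π z' := by
      rw [hz0]; rcases hz' with h | h <;> rw [h] <;> decide
    refine (hblw z z' z0 hzn hzn').2 ?_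
    rw [hz0]
    rcases hz with h | h <;> rcases hz' with h' | h' <;> rw [h, h']
    · exact cc_self (fun k => h01 (hw₀ k))
    · exact hsw₀
    · exact cc_symm hsw₀
    · exact cc_self (fun k => h02 (hw₀ k))
  -- extension to all the points
  obtain ⟨e, he1, he2⟩ : ∃ e : Z ⊕ {o : Option X // ¬ good o} ≃ Option X,
      (∀ z, e (.inl z) = z.1) ∧ (∀ z, e (.inr z) = z.1) :=
    ⟨Equiv.sumCompl good, fun _ => rfl, fun _ => rfl⟩
  obtain ⟨w', hw', hww', hfat'⟩ := hEXM c σ 𝔅 hI hE Z {o : Option X // ¬ good o}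
    {z : Z | z.1 ≠ none} (fun z => v (e z)) w₁ (fun a b h => e.injective (hv h)) hw₁
    (by
      have : (fun x => v (e (.inl x))) = vZ := by
        funext z
        rw [he1]
      rw [this]
      exact hfat₁)
  obtain ⟨w₂, hw₂def⟩ : ∃ w₂ : Option X → Word c, ∀ o, w₂ o = w' (e.symm o) := ⟨_, fun _ => rfl⟩
  have hw₂ : Function.Injective w₂ := by
    intro a b h
    rw [hw₂def, hw₂def] at h
    exact e.symm.injective (hw' h)
  have hw₂Z : ∀ z : Z, w₂ z.1 = w₁ z := by
    intro z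
    rw [hw₂def, ← he1 z, e.symm_apply_apply, hww']
  have hfat₂ : Fat 𝔅 {o | o ≠ none} v w₂ := by
    obtain ⟨_, _, _, _, _, q6, _⟩ := hFAT c σ 𝔅 hI (Z ⊕ {o : Option X // ¬ good o})
      {o | ∀ x, o = .inl x → x ∈ {z : Z | z.1 ≠ none}} (fun z => v (e z)) w'
      (fun a b h => e.injective (hv h)) hw'
    have h1 := q6 (Option X) e.symm e.symm.injective hfat'
    have h2 : (fun x => v (e (e.symm x))) = v := by
      funext x
      rw [e.apply_symm_apply]
    have h3 : (fun x => w' (e.symm x)) = w₂ := by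
      funext x
      rw [hw₂def]
    rw [h2, h3] at h1
    obtain ⟨_, _, _, q4, _⟩ := hFAT c σ 𝔅 hI (Option X)
      {x | e.symm x ∈ {o | ∀ x, o = .inl x → x ∈ {z : Z | z.1 ≠ none}}} v w₂ hv hw₂
    refine q4 {o | o ≠ none} ?_ h1
    intro o ho z hz
    show z.1 ≠ none
    have : e (e.symm o) = z.1 := by rw [hz, he1]
    rw [e.apply_symm_apply] at this
    rw [← this]
    exact ho
  have hso₂ : SameOn {o | o ≠ none} v w₂ :=
    hHU c σ 𝔅 hI hF3 (Option X) {o | o ≠ none} v w₂ hv hw₂ hfat₂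
  -- contraction
  let X' : Type := {x : X // (x ∉ N1 ∧ x ∉ N2) ∨ x = n1}
  let ρ₀ : X → X' := fun x => if h : x ∉ N1 ∧ x ∉ N2 then ⟨x, Or.inl h⟩ else ⟨n1, Or.inr rfl⟩
  let ρ : Option X → Option X' := Option.map ρ₀
  let s : Option X' → Option X := Option.map Subtype.val
  let N : Set (Option X) := {o | ∃ x, o = some x ∧ (x ∈ N1 ∨ x ∈ N2)}
  have hsinj : Function.Injective s := Option.map_injective Subtype.val_injective
  have hρN : ∀ x, x ∈ N1 ∨ x ∈ N2 → ρ₀ x = ⟨n1, Or.inr rfl⟩ := by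
    intro x hx
    show (if h : x ∉ N1 ∧ x ∉ N2 then (⟨x, Or.inl h⟩ : X') else ⟨n1, Or.inr rfl⟩) = _
    rw [dif_neg (by tauto)]
  have hρO : ∀ x, x ∉ N1 → x ∉ N2 → (ρ₀ x).1 = x := by
    intro x h1 h2
    show (if h : x ∉ N1 ∧ x ∉ N2 then (⟨x, Or.inl h⟩ : X') else ⟨n1, Or.inr rfl⟩).1 = _
    rw [dif_pos ⟨h1, h2⟩]
  have hNs : ∀ y ∈ N, s (ρ y) = some n1 := by
    rintro y ⟨x, rfl, hx⟩
    show some (ρ₀ x).1 = some n1
    rw [hρN x hx]
  have hOs : ∀ y, y ∉ N → s (ρ y) = y := by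
    intro y hy
    cases y with
    | none => rfl
    | some x =>
      show some (ρ₀ x).1 = some x
      rw [hρO x (fun h => hy ⟨x, rfl, Or.inl h⟩) (fun h => hy ⟨x, rfl, Or.inr h⟩)]
  have hρρ : ∀ y ∈ N, ∀ y' ∈ N, ρ y = ρ y' := by
    rintro y ⟨x, rfl, hx⟩ y' ⟨x', rfl, hx'⟩
    show some (ρ₀ x) = some (ρ₀ x')
    rw [hρN x hx, hρN x' hx']
  have hn1N' : some n1 ∈ N := ⟨n1, rfl, Or.inl hn1N⟩
  have hKgen : ∀ g : Option X → Word c, SameOn {o | o ≠ none} v g →
      (∀ x y, x ∈ N1 ∨ x ∈ N2 → y ∈ N1 ∨ y ∈ N2 → Cc (g none) (g (some x)) (g (some y))) →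
      ∀ y, y ∉ N → ∀ n ∈ N, ∀ n' ∈ N, Cc (g y) (g n) (g n') := by
    rintro g hg hgt y hy n ⟨x, rfl, hx⟩ n' ⟨x', rfl, hx'⟩
    cases y with
    | none => exact hgt x x' hx hx'
    | some y =>
      exact (hg.2 (some x) (Option.some_ne_none x) (some x') (Option.some_ne_none x') (some y)
        (Option.some_ne_none y)).1
        (hF6 y (fun h => hy ⟨y, rfl, Or.inl h⟩) (fun h => hy ⟨y, rfl, Or.inr h⟩) x hx x' hx')
  have hK2 := hKgen w₂ hso₂ (by
    intro x y hx hy
    have ha := hw₂Z ⟨none, fun x h => by cases h⟩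
    have hb := hw₂Z ⟨some x, fun x' h => by cases h; exact hx⟩
    have hd := hw₂Z ⟨some y, fun x' h => by cases h; exact hy⟩
    have h4 := htop₁ ⟨none, fun x h => by cases h⟩ ⟨some x, fun x' h => by cases h; exact hx⟩
      ⟨some y, fun x' h => by cases h; exact hy⟩ rfl (Option.some_ne_none x)
      (Option.some_ne_none y)
    rw [← ha, ← hb, ← hd] at h4
    exact h4)
  have hKw := hKgen w hs (fun x y _ _ => htop x y)
  have hbl2 : Bl ρ (fun b => w₂ (s b)) w₂ :=
    bl_contract w₂ N (some n1) hn1N' ρ s hNs hOs hK2 hρρ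
  have hblw' : Bl ρ (fun b => w (s b)) w :=
    bl_contract w N (some n1) hn1N' ρ s hNs hOs hKw hρρ
  have hso2w : SameOn {o | o ≠ none} w₂ w := so_trans (so_symm hso₂) hs
  have hsne : ∀ b : Option X', b ≠ none → s b ≠ none := by
    intro b hb
    cases b with
    | none => exact absurd rfl hb
    | some x => exact Option.some_ne_none _
  have hcard : Nat.card X' < n := by
    rw [← hn]
    apply Finite.card_subtype_lt (x := n2)
    rintro (⟨_, h⟩ | h)
    · exact h hn2N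
    · exact hdisj n2 hn2N (h ▸ hn1N)
  have hih : Fat 𝔅 {o | o ≠ none} (fun b => w₂ (s b)) (fun b => w (s b)) := by
    refine ih (Nat.card X') hcard X' rfl _ _ (fun a b h => hsinj (hw₂ h))
      (fun a b h => hsinj (hw h)) ?_ ?_
    · exact ⟨fun x hx y hy => hso2w.1 _ (hsne x hx) _ (hsne y hy),
        fun x hx y hy z hz => hso2w.2 _ (hsne x hx) _ (hsne y hy) _ (hsne z hz)⟩
    · intro x y
      exact htop x.1 y.1
  have hρnone : ∀ y, ρ y = none → y = none := by
    intro y hy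
    cases y with
    | none => rfl
    | some x => exact absurd hy (Option.some_ne_none _)
  have hfat₃ : Fat 𝔅 {o | o ≠ none} w₂ w := by
    obtain ⟨_, _, _, _, _, _, q7⟩ := hFAT c σ 𝔅 hI (Option X') {o | o ≠ none}
      (fun b => w₂ (s b)) (fun b => w (s b)) (fun a b h => hsinj (hw₂ h))
      (fun a b h => hsinj (hw h))
    refine q7 (Option X) ρ w₂ w {o | o ≠ none} ?_ ?_ hw₂ hw hbl2 hblw' ?_ hih
    · intro y y' h1 h2
      have h3 : ρ y = none := by
        by_contra h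
        exact h2 h
      rw [hρnone y h3, hρnone y' (h1 ▸ h3)]
    · intro y hy h
      exact hy (hρnone y h)
    · intro x
      cases x with
      | none =>
        refine ⟨fun y hy y' hy' => ?_, fun y hy y' hy' y'' hy'' => ?_⟩
        · rw [hρnone y hy, hρnone y' hy']
          simp
        · rw [hρnone y hy, hρnone y' hy', hρnone y'' hy'']
          exact iff_of_false cc_irrefl cc_irrefl
      | some x =>
        apply so_mono hso2w
        intro y hy h
        have hy' : ρ y = some x := hy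
        rw [show y = none from h] at hy'
        cases hy'
  exact (hFAT c σ 𝔅 hI (Option X) {o | o ≠ none} v w hv hw).2.2.1 w₂ hw₂ hfat₂ hfat₃

end FLTI

theorem LTI_pf (hFAT : S_FAT) (hEXM : S_EXM) (hHU : S_HU) (hBLW : S_BLW) (hBLF : S_BLF) :
    S_LTI := by
  intro c σ 𝔅 hI hE hF3 hD X _ v w hv hw hs htop
  have h := FLTI.claim hFAT hEXM hHU hBLW hBLF 𝔅 hI hE hF3 hD (Nat.card X) X rfl v w hv hw hs htop
  exact (hFAT c σ 𝔅 hI (Option X) {o | o ≠ none} v w hv hw).1 h

end Pool.Agent.Work.MP_8dbde4_lc.Full
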