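import Pool.Agent.Work.MP_8dbde4_lc.Full.StmtsA

/-!
Block Full of MP_8dbde4_lc, item NEC.
-/

set_option autoImplicit false
open Classical

namespace Pool.Agent.Work.MP_8dbde4_lc.Full

open Pool.Agent.Work.MP_8dbde4_lc.TS Pool.Agent.Work.MP_8dbde4_lc.Tree
  Pool.Agent.Work.MP_8dbde4_lc.Phy BT

namespace FNEC

variable {c : ℚ → Bool} {σ : Sig}

theorem cc2 (v : Fin 2 → Word c) (z x y : Fin 2) :
    Cc (v z) (v x) (v y) ↔ v z ≠ v x ∧ v x = v y := by
  by_cases hxy : v x = v y
  · rw [← hxy]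
    exact ⟨fun h => ⟨cc_ne h, rfl⟩, fun h => cc_self h.1⟩
  · have hne : x ≠ y := fun h => hxy (by rw [h])
    have hz : z = x ∨ z = y := by omega
    constructor
    · intro h
      rcases hz with hz | hz
      · rw [hz] at h
        exact absurd h cc_irrefl
      · rw [hz] at h
        exact absurd h cc_irrefl'
    · intro h
      exact absurd h.2 hxy

theorem same2 (v w : Fin 2 → Word c) (h : v 0 = v 1 ↔ w 0 = w 1) : SameOn Set.univ v w := by
  have h1 : ∀ x y : Fin 2, v x = v y ↔ w x = w y := by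
    intro x y
    by_cases hxy : x = y
    · rw [hxy]
      exact ⟨fun _ => rfl, fun _ => rfl⟩
    · have h2 : (x = 0 ∧ y = 1) ∨ (x = 1 ∧ y = 0) := by omega
      rcases h2 with ⟨h3, h4⟩ | ⟨h3, h4⟩
      · rw [h3, h4]
        exact h
      · rw [h3, h4]
        exact ⟨fun h5 => (h.1 h5.symm).symm, fun h5 => (h.2 h5.symm).symm⟩
  refine ⟨fun x _ y _ => h1 x y, fun x _ y _ z _ => ?_⟩
  rw [cc2, cc2, ne_eq, ne_eq, h1, h1]

theorem arr2 (hARR : S_ARR) {𝔅 : Str σ (Word c)} (hA : AllInv 𝔅) (hN : ¬ NEq 𝔅)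
    {a b : Word c} (hab : a ≠ b) (d : Word c) : Arr 𝔅 ![a, b] ![d, d] := by
  obtain ⟨h1, _, h3, _⟩ := hARR c σ 𝔅 hA
  by_cases hex : ∃ u : Fin 2 → Word c, Arr 𝔅 ![a, b] u ∧ u 0 = u 1
  · obtain ⟨u, hu, hu'⟩ := hex
    refine hu.trans (h1 (Fin 2) u ![d, d] (same2 u ![d, d] ?_))
    exact ⟨fun _ => rfl, fun _ => hu'⟩
  · exfalso
    apply hN
    have h4 := h3 (Fin 2) ![a, b]
    have h5 : (fun u : Fin 2 → Word c => Arr 𝔅 ![a, b] u) = fun v => v 0 ≠ v 1 := by
      funext u
      apply propext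
      constructor
      · intro h6 h7
        exact hex ⟨u, h6, h7⟩
      · intro h6
        apply h1 (Fin 2) ![a, b] u (same2 ![a, b] u ?_)
        exact ⟨fun h7 => absurd h7 hab, fun h7 => absurd h7 h6⟩
    rw [h5] at h4
    exact h4

theorem step (hARR : S_ARR) {𝔅 : Str σ (Word c)} (hA : AllInv 𝔅) (hN : ¬ NEq 𝔅)
    {n : ℕ} (S : (Fin n → Word c) → Prop) (hS : PP 𝔅 S) :
    ∀ (m : ℕ) (v : Fin n → Word c), S v →
      (Finset.univ.filter fun p : Fin n × Fin n => v p.1 ≠ v p.2).card ≤ m →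
      ∃ a, S (fun _ => a) := by
  obtain ⟨_, _, _, h4, h5, _⟩ := hARR c σ 𝔅 hA
  intro m
  induction m with
  | zero =>
    intro v hv hm
    have hc : ∀ x y, v x = v y := by
      intro x y
      by_contra hxy
      have : (x, y) ∈ Finset.univ.filter fun p : Fin n × Fin n => v p.1 ≠ v p.2 := by
        rw [Finset.mem_filter]
        exact ⟨Finset.mem_univ _, hxy⟩
      rw [Finset.card_eq_zero.mp (Nat.le_zero.mp hm)] at this
      exact absurd this (Finset.notMem_empty _)
    by_cases hn : Nonempty (Fin n)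
    · obtain ⟨x⟩ := hn
      refine ⟨v x, ?_⟩
      have e : (fun _ => v x) = v := by
        funext y
        exact hc x y
      rw [e]
      exact hv
    · refine ⟨⟨c, by simp⟩, ?_⟩
      have e : (fun _ => (⟨c, by simp⟩ : Word c)) = v := by
        funext y
        exact absurd ⟨y⟩ hn
      rw [e]
      exact hv
  | succ m ih =>
    intro v hv hm
    by_cases hc : ∀ x y, v x = v y
    · apply ih v hv
      have e : (Finset.univ.filter fun p : Fin n × Fin n => v p.1 ≠ v p.2) = ∅ := by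
        rw [Finset.filter_eq_empty_iff]
        intro p _ h
        exact h (hc _ _)
      rw [e]
      simp
    · push Not at hc
      obtain ⟨x, y, hxy⟩ := hc
      have ha := arr2 hARR hA hN hxy (v x)
      have e : (fun k => v ((![x, y] : Fin 2 → Fin n) k)) = ![v x, v y] := by
        funext k
        fin_cases k <;> rfl
      obtain ⟨w, hw1, hw2⟩ := h4 (Fin 2) (Fin n) ![x, y] v ![v x, v x] (by rw [e]; exact ha)
      have hwx : w x = w y := by
        have h6 := hw1 0
        have h7 := hw1 1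
        exact h6.trans h7.symm
      apply ih w (hw2 S hS hv)
      have hlt : (Finset.univ.filter fun p : Fin n × Fin n => w p.1 ≠ w p.2).card <
          (Finset.univ.filter fun p : Fin n × Fin n => v p.1 ≠ v p.2).card := by
        apply Finset.card_lt_card
        rw [Finset.ssubset_iff_of_subset]
        · refine ⟨(x, y), ?_, ?_⟩
          · rw [Finset.mem_filter]
            exact ⟨Finset.mem_univ _, hxy⟩
          · rw [Finset.mem_filter]
            intro h
            exact h.2 hwx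
        · intro p hp
          rw [Finset.mem_filter] at hp ⊢
          refine ⟨hp.1, fun h => hp.2 ?_⟩
          exact h5 (Fin n) v w p.1 p.2 hw2 h
      omega

end FNEC

theorem NEC_pf (hARR : S_ARR) (hPPB : S_PPB) : S_NEC := by
  intro c σ 𝔅 hA hN R hR
  obtain ⟨v, hv⟩ := hR
  exact FNEC.step hARR hA hN _ ((hPPB σ (Word c) 𝔅).1 R) _ v hv le_rfl

end Pool.Agent.Work.MP_8dbde4_lc.Full
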