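import Pool.Agent.Work.MP_8dbde4_lc.Full.StmtsB
import Pool.Agent.Work.MP_8dbde4_lc.Phy.I_KPF

/-!
Item NFE of the block Full of MP_8dbde4_lc: templates in which `K7` and `N7` are PP are not in FPC
(S_NFE).
-/

set_option autoImplicit false
open Classical

namespace Pool.Agent.Work.MP_8dbde4_lc.Full

open Pool.Agent.Work.MP_8dbde4_lc.TS Pool.Agent.Work.MP_8dbde4_lc.Tree
  Pool.Agent.Work.MP_8dbde4_lc.Phy BT

namespace FNFE

/-- The two kinds of constraints. -/
def SE {B : Type} (k : Bool) (v : Fin 7 → B) : Prop := if k = true then K7 v else N7 v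

/-- Three different elements. -/
def W3 {B : Type} (a a' a'' : B) (i : Fin 3) : B := ![a, a', a''] i

theorem W3_inj {B : Type} {a a' a'' : B} (h1 : a ≠ a') (h2 : a ≠ a'') (h3 : a' ≠ a'') :
    Function.Injective (W3 a a' a'') := by
  intro i j hij
  fin_cases i <;> fin_cases j <;> simp [W3] at hij ⊢ <;> first
    | exact absurd hij h1
    | exact absurd hij h2
    | exact absurd hij h3
    | exact absurd hij.symm h1
    | exact absurd hij.symm h2
    | exact absurd hij.symm h3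

theorem K7_map {A B : Type} {W : A → B} (hW : Function.Injective W) {v : Fin 7 → A} (h : K7 v) :
    K7 (fun x => W (v x)) := by
  obtain ⟨h1, h2, h3, h4, h5, h6, h7, h8⟩ := h
  refine ⟨hW.ne h1, hW.ne h2, hW.ne h3, ?_, ?_, ?_, ?_, ?_⟩
  · exact h4.imp (congrArg W) (congrArg W)
  · exact h5.imp (congrArg W) (congrArg W)
  · exact h6.imp (congrArg W) (congrArg W)
  · exact h7.imp (congrArg W) (congrArg W)
  · exact h8.imp (congrArg W) (congrArg W)

theorem N7_map {A B : Type} {W : A → B} (hW : Function.Injective W) {v : Fin 7 → A} (h : N7 v) :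
    N7 (fun x => W (v x)) := by
  obtain ⟨h1, h2, h3, h4⟩ := h
  exact ⟨hW.ne h1, h2.imp (congrArg W) (congrArg W), h3.imp (congrArg W) (congrArg W), hW.ne h4⟩

/-- Members of `K7`. -/
def cs : Fin 5 → Fin 7 → Fin 3 := ![![1, 1, 1, 1, 0, 1, 2], ![0, 0, 0, 0, 0, 1, 2],
  ![0, 1, 0, 0, 0, 1, 2], ![0, 0, 0, 1, 0, 1, 2], ![0, 0, 1, 1, 0, 1, 2]]

/-- Members of `N7`. -/
def ds : Fin 3 → Fin 7 → Fin 3 := ![![0, 1, 2, 2, 0, 1, 2], ![1, 0, 2, 2, 0, 1, 2],
  ![0, 1, 2, 0, 0, 1, 1]]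

theorem cs_mem (i : Fin 5) : K7 (cs i) := by
  fin_cases i <;> simp [K7, cs]

theorem ds_mem (i : Fin 3) : N7 (ds i) := by
  fin_cases i <;> simp [N7, ds]

theorem cs_sep : ∀ x x' : Fin 7, x ≠ x' → ∃ i : Fin 5, cs i x ≠ cs i x' := by
  decide

theorem ds_sep : ∀ x x' : Fin 7, x ≠ x' → ∃ i : Fin 3, ds i x ≠ ds i x' := by
  decide

theorem SE_sep {B : Type} {a a' a'' : B} (h1 : a ≠ a') (h2 : a ≠ a'') (h3 : a' ≠ a'') (k : Bool)
    (x x' : Fin 7) (hx : x ≠ x') : ∃ v : Fin 7 → B, SE k v ∧ v x ≠ v x' := by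
  have hW := W3_inj h1 h2 h3
  cases k
  · obtain ⟨i, hi⟩ := ds_sep x x' hx
    refine ⟨fun y => W3 a a' a'' (ds i y), ?_, hW.ne hi⟩
    unfold SE
    rw [if_neg (by decide)]
    exact N7_map hW (ds_mem i)
  · obtain ⟨i, hi⟩ := cs_sep x x' hx
    refine ⟨fun y => W3 a a' a'' (cs i y), ?_, hW.ne hi⟩
    unfold SE
    rw [if_pos rfl]
    exact K7_map hW (cs_mem i)

section
variable {G : Type} [Group G] {p : ℕ} {I : Type}

/-- The local solution without the elements `tf`. -/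
def ph0 (Δ : Gad Bool p I) (f : ZMod p → ZMod p → (I → Bool) → Bool) :
    EE G p I (CE I) 4 (Fin 4) Unit → Bool
  | .main _ s => Δ.io s
  | .site _ α β t => f α β t
  | .fr _ α β t j => f α β (t.1 j)
  | .tf _ _ => false

/-- The local solution. -/
def ph (Δ : Gad Bool p I) (f : ZMod p → ZMod p → (I → Bool) → Bool) :
    EE G p I (CE I) 4 (Fin 4) Unit → Bool
  | .main _ s => Δ.io s
  | .site _ α β t => f α β t
  | .fr _ α β t j => f α β (t.1 j)
  | .tf τ _ => !(ph0 Δ f (lo Δ id τ))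

omit [Group G] in
theorem ph_lo (Δ : Gad Bool p I) (f : ZMod p → ZMod p → (I → Bool) → Bool)
    (τ : TI G p (CE I) 4) : ph Δ f (lo Δ id τ) = ph0 Δ f (lo Δ id τ) := by
  cases τ <;> rfl

theorem ph_hi (Δ : Gad Bool p I) (f : ZMod p → ZMod p → (I → Bool) → Bool)
    (hf : ∀ α β s, f α β (Δ.u s) = Δ.io s ∧ f α β (Δ.x s) = Δ.io (s + α) ∧
      f α β (Δ.y s) = Δ.io (s + β) ∧ f α β (Δ.z s) = Δ.io (s + α + β)) (g h : G)
    (τ : TI G p (CE I) 4) :
    ph Δ f (hi (D := Fin 4) (DC := Unit) (fun t : CE I => t.1) g h 0 τ) =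
      ph0 Δ f (lo Δ id τ) := by
  cases τ with
  | f v α β t j => rfl
  | u v α β s => exact (hf α β s).1.symm
  | x v α β s => exact (hf α β s).2.1.symm
  | y v α β s => exact (hf α β s).2.2.1.symm
  | z v α β s =>
    show Δ.io (s + α + β - 0) = f α β (Δ.z s)
    rw [sub_zero]
    exact (hf α β s).2.2.2.symm

end

/-- Solvable for `b = 0`. -/
theorem sol {B : Type} {a a' a'' : B} (h1 : a ≠ a') (h2 : a ≠ a'') (h3 : a' ≠ a'')
    (G : Type) [Group G] (g h : G) (p : ℕ) (I : Type) (Δ : Gad Bool p I) (hΔ : Δ.OK FE) :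
    ∃ f : Option (EE G p I (CE I) 4 (Fin 4) Unit) → B,
      ∀ τ, SE (Sum.isLeft τ) (fun x => f (epE Δ (fun t : CE I => t.1) g h 0 τ x)) := by
  choose F hpol hF using hΔ.sol
  set W : Bool → B := fun β => if β = Δ.io 0 then a else a' with hWdef
  have hW0 : W (Δ.io 0) = a := if_pos rfl
  have hW1 : W (Δ.io 1) = a' := if_neg (fun e => hΔ.inj e.symm)
  have hWc : ∀ β, W β = a ∨ W β = a' := by
    intro β
    by_cases hβ : β = Δ.io 0
    · exact Or.inl (if_pos hβ)
    · exact Or.inr (if_neg hβ)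
  have hWn : ∀ β, W β ≠ W (!β) := by
    intro β
    by_cases hβ : β = Δ.io 0
    · have e1 : W β = a := if_pos hβ
      have e2 : W (!β) = a' := if_neg (by
        rw [hβ]
        cases Δ.io 0 <;> simp)
      rw [e1, e2]
      exact h1
    · have e1 : W β = a' := if_neg hβ
      have e2 : W (!β) = a := if_pos (by
        revert hβ
        cases Δ.io 0 <;> cases β <;> simp)
      rw [e1, e2]
      exact h1.symm
  refine ⟨fun o => o.elim a'' (fun x => W (ph Δ F x)), ?_⟩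
  rintro (⟨v, α, β, t⟩ | ⟨τ, e⟩)
  · show SE true _
    unfold SE
    rw [if_pos rfl]
    have hp := hpol α β () t.1 t.2
    have hp' : F α β (t.1 0) = F α β (t.1 1) ∨ F α β (t.1 2) = F α β (t.1 3) := hp
    have e4 : W (ph Δ F (EE.main (1 : G) (0 : ZMod p) : EE G p I (CE I) 4 (Fin 4) Unit)) = a :=
      hW0
    have e5 : W (ph Δ F (EE.main (1 : G) (1 : ZMod p) : EE G p I (CE I) 4 (Fin 4) Unit)) = a' :=
      hW1
    refine ⟨?_, ?_, ?_, ?_, ?_, ?_, ?_, ?_⟩
    · show W (ph Δ F (EE.main (1 : G) (0 : ZMod p) : EE G p I (CE I) 4 (Fin 4) Unit)) ≠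
        W (ph Δ F (EE.main (1 : G) (1 : ZMod p) : EE G p I (CE I) 4 (Fin 4) Unit))
      rw [e4, e5]
      exact h1
    · show W (ph Δ F (EE.main (1 : G) (0 : ZMod p) : EE G p I (CE I) 4 (Fin 4) Unit)) ≠ a''
      rw [e4]
      exact h2
    · show W (ph Δ F (EE.main (1 : G) (1 : ZMod p) : EE G p I (CE I) 4 (Fin 4) Unit)) ≠ a''
      rw [e5]
      exact h3
    · show W (F α β (t.1 0)) = W (Δ.io 0) ∨ W (F α β (t.1 0)) = W (Δ.io 1)
      rw [hW0, hW1]
      exact hWc _
    · show W (F α β (t.1 1)) = W (Δ.io 0) ∨ W (F α β (t.1 1)) = W (Δ.io 1)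
      rw [hW0, hW1]
      exact hWc _
    · show W (F α β (t.1 2)) = W (Δ.io 0) ∨ W (F α β (t.1 2)) = W (Δ.io 1)
      rw [hW0, hW1]
      exact hWc _
    · show W (F α β (t.1 3)) = W (Δ.io 0) ∨ W (F α β (t.1 3)) = W (Δ.io 1)
      rw [hW0, hW1]
      exact hWc _
    · show W (F α β (t.1 0)) = W (F α β (t.1 1)) ∨ W (F α β (t.1 2)) = W (F α β (t.1 3))
      exact hp'.imp (congrArg W) (congrArg W)
  · show SE false _
    unfold SE
    rw [if_neg (by decide)]
    have hlo : ph Δ F (lo Δ id τ : EE G p I (CE I) 4 (Fin 4) Unit) = ph0 Δ F (lo Δ id τ) :=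
      ph_lo Δ F τ
    have hhi := ph_hi Δ F hF g h τ
    have h0 : ∀ e : Bool, ph Δ F (if e then hi (D := Fin 4) (DC := Unit)
        (fun t : CE I => t.1) g h 0 τ else lo Δ id τ) = ph0 Δ F (lo Δ id τ : EE G p I (CE I) 4
          (Fin 4) Unit) := by
      intro e
      cases e
      · exact hlo
      · exact hhi
    have h0' : (Option.elim (epE Δ (fun t : CE I => t.1) g h 0 (Sum.inr (τ, e)) 0) a''
        (fun x => W (ph Δ F x))) = W (ph0 Δ F (lo Δ id τ : EE G p I (CE I) 4 (Fin 4) Unit)) := by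
      cases e
      · exact congrArg W hlo
      · exact congrArg W hhi
    refine ⟨?_, ?_, ?_, ?_⟩
    · show W (Δ.io 0) ≠ W (Δ.io 1)
      rw [hW0, hW1]
      exact h1
    · show (Option.elim (epE Δ (fun t : CE I => t.1) g h 0 (Sum.inr (τ, e)) 0) a''
        (fun x => W (ph Δ F x))) = W (Δ.io 0) ∨ _ = W (Δ.io 1)
      rw [hW0, hW1]
      rcases hWc (ph0 Δ F (lo Δ id τ : EE G p I (CE I) 4 (Fin 4) Unit)) with h | h
      · exact Or.inl (h0'.trans h)
      · exact Or.inr (h0'.trans h)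
    · show W (!(ph0 Δ F (lo Δ id τ))) = W (Δ.io 0) ∨ W (!(ph0 Δ F (lo Δ id τ))) = W (Δ.io 1)
      rw [hW0, hW1]
      exact hWc _
    · show (Option.elim (epE Δ (fun t : CE I => t.1) g h 0 (Sum.inr (τ, e)) 0) a''
        (fun x => W (ph Δ F x))) ≠ W (!(ph0 Δ F (lo Δ id τ)))
      rw [h0']
      exact hWn _

/-- Not solvable for `b = 1`. -/
theorem uns {B : Type} (G : Type) [Group G] [Finite G] (g h : G) (p : ℕ) (hG : IsPGroup p G)
    (I : Type) (Δ : Gad Bool p I) (hΔ : Δ.OK FE) :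
    ¬ ∃ f : Option (EE G p I (CE I) 4 (Fin 4) Unit) → B,
      ∀ τ, SE (Sum.isLeft τ) (fun x => f (epE Δ (fun t : CE I => t.1) g h 1 τ x)) := by
  rintro ⟨f, hf⟩
  set o : B := f (some (.main 1 0)) with ho
  set i : B := f (some (.main 1 1)) with hi'
  have hN : ∀ (τ : TI G p (CE I) 4) (e : Bool),
      N7 (fun x => f (epE Δ (fun t : CE I => t.1) g h 1 (Sum.inr (τ, e)) x)) := by
    intro τ e
    have h1 := hf (Sum.inr (τ, e))
    unfold SE at h1
    rw [if_neg (by simp)] at h1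
    exact h1
  have hlo : ∀ τ : TI G p (CE I) 4, (f (some (lo Δ id τ)) = o ∨ f (some (lo Δ id τ)) = i) ∧
      f (some (lo Δ id τ)) = f (some (Phy.hi (fun t : CE I => t.1) g h 1 τ)) := by
    intro τ
    obtain ⟨h1, h2, h3, h4⟩ := hN τ false
    obtain ⟨k1, k2, k3, k4⟩ := hN τ true
    have a1 : o ≠ i := h1
    have a2 : f (some (lo Δ id τ)) = o ∨ f (some (lo Δ id τ)) = i := h2
    have a3 : f (some (.tf τ ())) = o ∨ f (some (.tf τ ())) = i := h3
    have a4 : f (some (lo Δ id τ)) ≠ f (some (.tf τ ())) := h4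
    have b2 : f (some (Phy.hi (fun t : CE I => t.1) g h 1 τ)) = o ∨
        f (some (Phy.hi (fun t : CE I => t.1) g h 1 τ)) = i := k2
    have b4 : f (some (Phy.hi (fun t : CE I => t.1) g h 1 τ)) ≠ f (some (.tf τ ())) := k4
    refine ⟨a2, ?_⟩
    rcases a3 with a3 | a3
    · rw [a3] at a4 b4
      rcases a2 with a2 | a2
      · exact absurd a2 a4
      · rcases b2 with b2 | b2
        · exact absurd b2 b4
        · rw [a2, b2]
    · rw [a3] at a4 b4
      rcases a2 with a2 | a2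
      · rcases b2 with b2 | b2
        · rw [a2, b2]
        · exact absurd b2 b4
      · exact absurd a2 a4
  have hoi : o ≠ i := by
    obtain ⟨h1, _⟩ := hN (.u 1 0 0 0) false
    exact h1
  set φ : EE G p I (CE I) 4 (Fin 4) Unit → Bool := fun x => decide (f (some x) = i) with hφ
  have hties : ∀ τ : TI G p (CE I) 4, φ (lo Δ id τ) = φ (Phy.hi (fun t : CE I => t.1) g h 1 τ) := by
    intro τ
    show decide (f (some (lo Δ id τ)) = i) = decide (f (some (Phy.hi _ g h 1 τ)) = i)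
    rw [(hlo τ).2]
  have hpol : ∀ v α β, FE.Pol (fun t : I → Bool => φ (.site v α β t)) := by
    intro v α β R t ht
    have ht' : ∀ k, FE.P () (fun j => t j k) := ht
    have h1 := hf (Sum.inl (v, α, β, ⟨t, ht'⟩))
    unfold SE at h1
    rw [if_pos (by simp)] at h1
    obtain ⟨_, _, _, _, _, _, _, h8⟩ := h1
    have e : ∀ j : Fin 4, φ (.fr v α β ⟨t, ht'⟩ j) = φ (.site v α β (t j)) := by
      intro j
      exact hties (.f v α β ⟨t, ht'⟩ j)
    have h8' : f (some (.fr v α β ⟨t, ht'⟩ 0)) = f (some (.fr v α β ⟨t, ht'⟩ 1)) ∨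
        f (some (.fr v α β ⟨t, ht'⟩ 2)) = f (some (.fr v α β ⟨t, ht'⟩ 3)) := h8
    have h9 : φ (.fr v α β ⟨t, ht'⟩ 0) = φ (.fr v α β ⟨t, ht'⟩ 1) ∨
        φ (.fr v α β ⟨t, ht'⟩ 2) = φ (.fr v α β ⟨t, ht'⟩ 3) := by
      rcases h8' with h8' | h8'
      · left
        show decide (_ = i) = decide (_ = i)
        rw [h8']
      · right
        show decide (_ = i) = decide (_ = i)
        rw [h8']
    rw [e 0, e 1, e 2, e 3] at h9
    exact h9
  obtain ⟨c, hc, _⟩ := hΔ.uns G g h hG (fun v s => φ (.main v s))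
    (fun v α β t => φ (.site v α β t)) hpol (by
      intro v α β s
      exact ⟨hties (.u v α β s), hties (.x v α β s), hties (.y v α β s), hties (.z v α β s)⟩)
  have h0 : φ (.main 1 0) = c := hc 1 0
  have h1 : φ (.main 1 1) = c := hc 1 1
  have h0' : φ (.main 1 0) = false := decide_eq_false hoi
  have h1' : φ (.main 1 1) = true := decide_eq_true rfl
  rw [h0'] at h0
  rw [h1', ← h0] at h1
  exact absurd h1 (by decide)

end FNFE

open FNFE in
theorem NFE_pf : S_NFE := by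
  intro hENG hEGD hGAD hTWIN hFRE σ B 𝔅 a a' a'' h1 h2 h3 hK hN
  obtain ⟨p, I, Δ, hp, hI, hΔ⟩ := hEGD hGAD hTWIN
  have : NeZero p := ⟨hp.ne_zero⟩
  have : Nonempty B := ⟨a⟩
  refine hENG σ B 𝔅 Bool (Fin 7) SE p hp ?_ (fun k x x' hx => SE_sep h1 h2 h3 k x x' hx) ?_
  · intro k
    cases k
    · have e : (SE false : (Fin 7 → B) → Prop) = N7 := by
        funext v
        unfold SE
        rw [if_neg (by decide)]
      rw [e]
      exact hN
    · have e : (SE true : (Fin 7 → B) → Prop) = K7 := by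
        funext v
        unfold SE
        rw [if_pos rfl]
      rw [e]
      exact hK
  · intro G _ _ g h hG
    obtain ⟨fr, hkd, hep⟩ := hFRE G g h p I (CE I) Δ (fun t => t.1)
    have : Finite (CE I) := by
      unfold CE
      infer_instance
    have : Finite (EE G p I (CE I) 4 (Fin 4) Unit) := XKPF.finiteEE G p I (CE I) 4 (Fin 4) Unit
    have : Finite (TI G p (CE I) 4) := XKPF.finiteTI G p (CE I) 4
    refine ⟨Option (EE G p I (CE I) 4 (Fin 4) Unit),
      (G × ZMod p × ZMod p × CE I) ⊕ (TI G p (CE I) 4 × Bool), inferInstance, inferInstance,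
      fr, ?_, ?_⟩
    · rw [hkd, hep]
      exact sol h1 h2 h3 G g h p I Δ hΔ
    · rw [hkd, hep]
      exact uns G g h p hG I Δ hΔ

end Pool.Agent.Work.MP_8dbde4_lc.Full
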