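import Pool.Agent.Work.MP_8dbde4_lc.Full.StmtsA

/-!
# Item NFF: arrows between blow-ups with complete trees suffice
-/

set_option autoImplicit false
open Classical

namespace Pool.Agent.Work.MP_8dbde4_lc.Full

open Pool.Agent.Work.MP_8dbde4_lc.TS Pool.Agent.Work.MP_8dbde4_lc.Tree
  Pool.Agent.Work.MP_8dbde4_lc.Phy BT

namespace FNFF

theorem lvs_ne {X : Type} (T : BT X) : ∃ a, a ∈ T.lvs := by
  induction T with
  | lf x => exact ⟨x, by simp [BT.lvs]⟩
  | nd l r ihl _ =>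
    obtain ⟨a, ha⟩ := ihl
    exact ⟨a, by simp [BT.lvs, ha]⟩

theorem mem_map {X Y : Type} (e : X → Y) (T : BT X) (x : X) (h : x ∈ T.lvs) :
    e x ∈ (T.map e).lvs := by
  induction T with
  | lf y =>
    simp only [BT.lvs, List.mem_singleton] at h
    subst h
    simp [BT.lvs, BT.map]
  | nd l r ihl ihr =>
    simp only [BT.lvs, List.mem_append] at h
    simp only [BT.lvs, BT.map, List.mem_append]
    rcases h with h | h
    · exact Or.inl (ihl h)
    · exact Or.inr (ihr h)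

variable {c : ℚ → Bool} {X Y₀ : Type}

theorem sameOn_single {Y : Set Y₀} (h : ∀ y ∈ Y, ∀ y' ∈ Y, y = y') (v w : Y₀ → Word c) :
    SameOn Y v w := by
  refine ⟨?_, ?_⟩
  · intro x hx y hy
    rw [h x hx y hy]
    simp
  · intro x hx y hy z hz
    rw [h z hz x hx]
    exact ⟨fun h => absurd h cc_irrefl, fun h => absurd h cc_irrefl⟩

/-- The embedding of one block. -/
theorem block (hSHF : S_SHF) (hSHX : S_SHX) (hSUB : S_SUB) [Finite Y₀] (F : Set X) (π₀ : Y₀ → X)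
    (v₀ w₀ : Y₀ → Word c) (hF : ∀ y y', π₀ y = π₀ y' → π₀ y ∉ F → y = y')
    (hv₀ : Function.Injective v₀) (hs : ∀ x, SameOn {y | π₀ y = x} v₀ w₀) (x : X) :
    ∃ n₀ : ℕ, ∀ n, n₀ ≤ n → ∀ (Y : Type) (K : BT Y) (v' w' : Y → Word c), Sh v' K → Sh w' K →
      (x ∈ F → K.Cpl n) → ∃ e : Y₀ → Y, (∀ y, π₀ y = x → e y ∈ K.lvs) ∧
        (∀ y y', π₀ y = x → π₀ y' = x → e y = e y' → y = y') ∧
        SameOn {y | π₀ y = x} v₀ (fun y => v' (e y)) ∧
        SameOn {y | π₀ y = x} w₀ (fun y => w' (e y)) := by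
  by_cases hxF : x ∈ F
  · by_cases hx : ∃ y, π₀ y = x
    · obtain ⟨T, hT1, hT2⟩ := (hSHX c Y₀).2 v₀ {y | π₀ y = x} hx hv₀.injOn
      have hset : {y | y ∈ T.lvs} = {y | π₀ y = x} := by
        ext y
        exact hT1 y
      have hT3 : Sh w₀ T := by
        obtain ⟨-, -, h3, -⟩ := hSHF c Y₀ T
        refine h3 v₀ w₀ hT2 ?_
        rw [hset]
        exact hs x
      have hnd : T.lvs.Nodup := ((hSHF c Y₀ T).1 v₀ hT2).1
      obtain ⟨-, -, -, -, -, hemb⟩ := hSUB Y₀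
      obtain ⟨n₀, hn₀⟩ := hemb T hnd
      refine ⟨n₀, fun n hn Y K v' w' hK1 hK2 hK3 => ?_⟩
      obtain ⟨e, he⟩ := hn₀ n hn Y K (hK3 hxF)
      obtain ⟨-, -, -, -, -, hsub, hlist⟩ := hSHF c Y K
      have h1 : Sh v' (T.map e) := hsub _ v' he hK1
      have h2 : Sh w' (T.map e) := hsub _ w' he hK2
      obtain ⟨hinj, hsame, -, hmap, -, -, -⟩ := hSHF c Y₀ T
      have h3 : Sh (fun y => v' (e y)) T := (hmap Y e v').1 h1
      have h4 : Sh (fun y => w' (e y)) T := (hmap Y e w').1 h2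
      refine ⟨e, ?_, ?_, ?_, ?_⟩
      · intro y hy
        exact (hlist _ he).subset (mem_map e T y ((hT1 y).2 hy))
      · intro y y' hy hy' h
        exact (hinj _ h3).2 ((hT1 y).2 hy) ((hT1 y').2 hy') (by simp only [h])
      · rw [← hset]
        exact hsame _ _ hT2 h3
      · rw [← hset]
        exact hsame _ _ hT3 h4
    · refine ⟨0, fun n _ Y K v' w' _ _ _ => ?_⟩
      obtain ⟨a, ha⟩ := lvs_ne K
      refine ⟨fun _ => a, fun y hy => absurd ⟨y, hy⟩ hx, fun y y' hy => absurd ⟨y, hy⟩ hx, ?_, ?_⟩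
      · exact sameOn_single (fun y hy => absurd ⟨y, hy⟩ hx) _ _
      · exact sameOn_single (fun y hy => absurd ⟨y, hy⟩ hx) _ _
  · have h1 : ∀ y y', π₀ y = x → π₀ y' = x → y = y' := by
      intro y y' hy hy'
      exact hF y y' (hy.trans hy'.symm) (by rw [hy]; exact hxF)
    refine ⟨0, fun n _ Y K v' w' _ _ _ => ?_⟩
    obtain ⟨a, ha⟩ := lvs_ne K
    exact ⟨fun _ => a, fun y hy => ha, fun y y' hy hy' _ => h1 y y' hy hy',
      sameOn_single (fun y hy y' hy' => h1 y y' hy hy') _ _,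
      sameOn_single (fun y hy y' hy' => h1 y y' hy hy') _ _⟩

end FNFF

open FNFF in
theorem NFF_pf (hARR : S_ARR) (hBLF : S_BLF) (hSHF : S_SHF) (hSHX : S_SHX) (hSUB : S_SUB) :
    S_NFF := by
  intro c σ 𝔅 hI X _ F v w hv hw hNF Y₀ _ π₀ v₀ w₀ hF hv₀ hw₀ hbv hbw hs
  obtain ⟨hA1, hA2, -, -, -, -⟩ := hARR c σ 𝔅 hI
  choose n₀ hn₀ using block hSHF hSHX hSUB F π₀ v₀ w₀ hF hv₀ hs
  obtain ⟨n, hn⟩ := (Set.finite_range n₀).bddAbove
  have hn' : ∀ x, n₀ x ≤ n := fun x => hn ⟨x, rfl⟩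
  obtain ⟨Y, hY, π, K, v', w', hv', hw', hBv, hBw, hArr, hK⟩ := hNF n
  have he := fun x => hn₀ x n (hn' x) Y (K x) v' w' (hK x).2.1 (hK x).2.2.1 (hK x).2.2.2
  choose e he1 he2 he3 he4 using he
  -- the map on all points
  have hπ : ∀ y, π (e (π₀ y) y) = π₀ y := fun y => (hK (π₀ y)).1 _ (he1 (π₀ y) y rfl)
  have hinj : ∀ y y', e (π₀ y) y = e (π₀ y') y' → y = y' := by
    intro y y' h
    have h1 : π₀ y = π₀ y' := by
      rw [← hπ y, ← hπ y', h]
    apply he2 (π₀ y) y y' rfl h1.symm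
    rw [h, h1]
  have key : ∀ (u : X → Word c) (u₀ : Y₀ → Word c) (u' : Y → Word c), Function.Injective u →
      Function.Injective u₀ → Function.Injective u' → Bl π₀ u u₀ → Bl π u u' →
      (∀ x, SameOn {y | π₀ y = x} u₀ (fun y => u' (e x y))) →
      SameOn Set.univ u₀ (fun y => u' (e (π₀ y) y)) := by
    intro u u₀ u' hu hu₀ hu' hb hb' hsx
    refine (hBLF c X Y₀ π₀ u u₀ hu hu₀ hb).2.2.1 _ ?_ ?_ ?_
    · intro y y' h
      exact hinj y y' (hu' h)
    · intro y y' y'' h1 h2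
      have := hb' (e (π₀ y) y) (e (π₀ y') y') (e (π₀ y'') y'')
      rw [hπ y, hπ y', hπ y''] at this
      exact this h1 h2
    · intro x
      obtain ⟨h1, h2⟩ := hsx x
      refine ⟨?_, ?_⟩
      · intro y hy y' hy'
        have h3 := h1 y hy y' hy'
        have e1 : π₀ y = x := hy
        have e2 : π₀ y' = x := hy'
        simp only [e1, e2]
        exact h3
      · intro y hy y' hy' y'' hy''
        have h3 := h2 y hy y' hy' y'' hy''
        have e1 : π₀ y = x := hy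
        have e2 : π₀ y' = x := hy'
        have e3 : π₀ y'' = x := hy''
        simp only [e1, e2, e3]
        exact h3
  have k1 := key v v₀ v' hv hv₀ hv' hbv hBv he3
  have k2 := key w w₀ w' hw hw₀ hw' hbw hBw he4
  exact (hA1 Y₀ _ _ k1).trans ((hA2 Y Y₀ (fun y => e (π₀ y) y) v' w' hArr).trans
    (hA1 Y₀ _ _ k2.symm))

end Pool.Agent.Work.MP_8dbde4_lc.Full
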