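import Pool.Agent.Work.MP_8dbde4_lc.Full.StmtsB
import Pool.Agent.Work.MP_8dbde4_lc.Phy.I_KPF
import Pool.Agent.Work.MP_8dbde4_lc.Phy.I_SA0
import Pool.Agent.Work.MP_8dbde4_lc.Phy.I_PPB

/-!
Item NFQ of the block Full of MP_8dbde4_lc: quartet problems are not in FPC.
-/

set_option autoImplicit false
open Classical

namespace Pool.Agent.Work.MP_8dbde4_lc.Full

open Pool.Agent.Work.MP_8dbde4_lc.TS Pool.Agent.Work.MP_8dbde4_lc.Tree
  Pool.Agent.Work.MP_8dbde4_lc.Phy BT

namespace FNFQ

variable {c : ℚ → Bool}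

/-- a word above all the members of a finite family -/
theorem exists_top {X : Type} [Finite X] (u : X → Word c) :
    ∃ e : Word c, ∀ x y, Cc e (u x) (u y) := by
  have hfin : (⋃ x, {q | (u x).1 q ≠ c q}).Finite := Set.finite_iUnion fun x => (u x).2
  obtain ⟨B, hB⟩ := hfin.bddBelow
  have hlow : ∀ q ≤ B - 1, ∀ x, (u x).1 q = c q := by
    intro q hq x
    by_contra hne
    have h1 := hB (Set.mem_iUnion.2 ⟨x, hne⟩)
    linarith
  refine ⟨⟨Function.update c (B - 1) (!(c (B - 1))), ?_⟩, fun x y => ⟨B - 1, ?_, ?_, ?_, ?_⟩⟩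
  · refine (Set.finite_singleton (B - 1)).subset ?_
    intro q hq
    by_contra h
    apply hq
    exact Function.update_of_ne h _ _
  · intro q hq
    rw [hlow q hq.le x]
    exact Function.update_of_ne hq.ne _ _
  · intro q hq
    rw [hlow q hq.le y]
    exact Function.update_of_ne hq.ne _ _
  · rw [hlow _ le_rfl x, hlow _ le_rfl y]
  · rw [hlow _ le_rfl x]
    show Function.update c (B - 1) (!(c (B - 1))) (B - 1) ≠ c (B - 1)
    rw [Function.update_self]
    cases c (B - 1) <;> simp

theorem inv_Q4 : Inv (Q4 (c := c)) := by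
  intro v w h hv
  have h1 : ∀ x y, v x = v y ↔ w x = w y := fun x y => h.1 x trivial y trivial
  have h2 : ∀ x y z, Cc (v z) (v x) (v y) ↔ Cc (w z) (w x) (w y) := fun x y z =>
    h.2 x trivial y trivial z trivial
  obtain ⟨ha, hb, hc⟩ := hv
  refine ⟨fun he => ha ((h1 _ _).2 he), fun he => hb ((h1 _ _).2 he), ?_⟩
  rcases hc with hc | hc
  · exact Or.inl ⟨(h2 _ _ _).1 hc.1, (h2 _ _ _).1 hc.2⟩
  · exact Or.inr ⟨(h2 _ _ _).1 hc.1, (h2 _ _ _).1 hc.2⟩

/-- an injective member of `Q4` -/
noncomputable def vq (c : ℚ → Bool) : Fin 4 → Word c :=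
  ![XSA0.w2 c false false, XSA0.w2 c false true, XSA0.w2 c true false, XSA0.w2 c true true]

theorem w2_inj {a b a' b' : Bool} (h : XSA0.w2 c a b = XSA0.w2 c a' b') : a = a' ∧ b = b' := by
  have h1 := XSA0.w2_nice (c := c) a b
  have h2 := XSA0.w2_nice (c := c) a' b'
  rw [h] at h1
  exact ⟨h1.2.1.symm.trans h2.2.1, h1.2.2.symm.trans h2.2.2⟩

theorem vq_inj : ∀ x x' : Fin 4, x ≠ x' → vq c x ≠ vq c x' := by
  intro x x' hne he
  apply hne
  fin_cases x <;> fin_cases x' <;> first | rfl | (have := w2_inj he; simp at this)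

theorem vq_mem : Q4 (vq c) := by
  refine ⟨vq_inj 0 1 (by decide), vq_inj 2 3 (by decide), Or.inl ⟨?_, ?_⟩⟩
  · exact XSA0.split0 (XSA0.w2_nice true false) (XSA0.w2_nice false false)
      (XSA0.w2_nice false true) (by decide)
  · exact XSA0.split0 (XSA0.w2_nice true true) (XSA0.w2_nice false false)
      (XSA0.w2_nice false true) (by decide)

/-- the entries of a member of `QQ` differ from the first one -/
theorem qq_ne {v : Fin 4 → Word c} (h : QQ v) : v 1 ≠ v 0 ∧ v 2 ≠ v 0 ∧ v 3 ≠ v 0 := by
  rcases h with ⟨h1, h2, _, h4⟩ | ⟨h1, _, h3 | h3⟩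
  · exact ⟨fun h => h1 h.symm, h2, h4 ▸ h2⟩
  · exact ⟨fun h => h1 h.symm, cc_ne h3.1, cc_ne h3.2⟩
  · exact ⟨fun h => h1 h.symm, fun h => cc_ne h3.1 h.symm, fun h => cc_ne' h3.1 h.symm⟩

end FNFQ

open FNFQ in
theorem NFQ_pf : S_NFQ := by
  intro hENG hQGD hGAD hTWIN hSA0 hUN1 hFRQ hQQP hQQT c σ 𝔅 _ hQ4 hRR
  obtain ⟨p, I, Δ, hp, hI, hΔ⟩ := hQGD hGAD hTWIN c
  have : Nonempty (Word c) := ⟨vq c 0⟩
  have hpz : NeZero p := ⟨hp.ne_zero⟩
  refine hENG σ (Word c) 𝔅 Bool (Fin 4)
    (fun k => if k then Q4 (c := c) else QQ (c := c)) p hp ?_ ?_ ?_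
  · intro k
    cases k
    · exact hQQP c σ 𝔅 hQ4
    · exact hQ4
  · intro k x x' hne
    refine ⟨vq c, ?_, vq_inj x x' hne⟩
    cases k
    · exact Or.inr vq_mem
    · exact vq_mem
  intro G _ _ g h hG
  have hT : Finite (CT (Q4 (c := c)) I) := by
    unfold CT
    infer_instance
  have hTI : Finite (TI G p (CT (Q4 (c := c)) I) 4) := XKPF.finiteTI G p _ 4
  have hE : Finite (EE G p I (CT (Q4 (c := c)) I) 4 (Fin 4) Empty) :=
    XKPF.finiteEE G p I _ 4 (Fin 4) Empty
  obtain ⟨fr, hkd, hep⟩ := hFRQ G g h p I (CT (Q4 (c := c)) I) Δ (fun t => t.1)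
  refine ⟨Option (EE G p I (CT (Q4 (c := c)) I) 4 (Fin 4) Empty),
    (G × ZMod p × ZMod p × CT (Q4 (c := c)) I) ⊕ TI G p (CT (Q4 (c := c)) I) 4, inferInstance,
    inferInstance, fr, ?_, ?_⟩
  · -- solvable for `b = 0`
    obtain ⟨M, A, Fr, hs⟩ := hSA0 c 4 Q4 inv_Q4 ⟨_, vq_mem⟩ G g h p I Δ hΔ
    let val : EE G p I (CT (Q4 (c := c)) I) 4 (Fin 4) Empty → Word c := fun x => match x with
      | .main v s => M v s
      | .site v α β t => A v α β t
      | .fr v α β t j => Fr v α β t j
      | .tf _ d => d.elim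
    obtain ⟨e, he⟩ := exists_top val
    refine ⟨fun o => o.elim e val, ?_⟩
    rw [hkd, hep]
    rintro (⟨v, α, β, t⟩ | τ)
    · exact hs.cop v α β t
    · have hanc : ∀ v s, val (anc (.main v s)) = av M v s := by
        intro v s
        unfold anc av
        by_cases hvs : v = 1 ∧ s = 0
        · rw [if_pos (by rw [hvs.1, hvs.2]), if_pos hvs]
        · rw [if_neg (by
            intro h
            injection h with h1 h2
            exact hvs ⟨h1, h2⟩), if_neg hvs]
      have hsite : ∀ v α β t, val (anc (.site v α β t)) = M 1 0 := by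
        intro v α β t
        unfold anc
        rw [if_neg (by intro h; cases h)]
      have hkey : Cc (val (anc (hi (fun t : CT (Q4 (c := c)) I => t.1) g h 0 τ)))
          (val (lo Δ id τ)) (val (hi (fun t : CT (Q4 (c := c)) I => t.1) g h 0 τ)) := by
        cases τ with
        | f v α β t j =>
          show Cc (val (anc (.site v α β (t.1 j)))) (Fr v α β t j) (A v α β (t.1 j))
          rw [hsite]
          exact hs.f v α β t j
        | u v α β s =>
          show Cc (val (anc (.main 1 s))) (A v α β (Δ.u s)) (M 1 s)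
          rw [hanc]
          exact hs.u v α β s
        | x v α β s =>
          show Cc (val (anc (.main v (s + α)))) (A v α β (Δ.x s)) (M v (s + α))
          rw [hanc]
          exact hs.x v α β s
        | y v α β s =>
          show Cc (val (anc (.main (v * g) (s + β)))) (A v α β (Δ.y s)) (M (v * g) (s + β))
          rw [hanc]
          exact hs.y v α β s
        | z v α β s =>
          show Cc (val (anc (.main (v * h) (s + α + β - 0)))) (A v α β (Δ.z s))
            (M (v * h) (s + α + β - 0))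
          rw [hanc]
          exact hs.z v α β s
      have h1 := (hQQT c e (val (anc (hi (fun t : CT (Q4 (c := c)) I => t.1) g h 0 τ)))
        (val (lo Δ id τ)) (val (hi (fun t : CT (Q4 (c := c)) I => t.1) g h 0 τ)) (by
          intro a ha b hb
          simp only [Set.mem_insert_iff, Set.mem_singleton_iff] at ha hb
          rcases ha with rfl | rfl | rfl <;> rcases hb with rfl | rfl | rfl <;> exact he _ _)).2
        hkey
      exact h1
  · -- not solvable for `b = 1`
    rintro ⟨f, hf⟩
    rw [hkd, hep] at hf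
    have hcop : ∀ v α β t, Q4 (c := c) (fun j : Fin 4 => f (some (.fr v α β t j))) :=
      fun v α β t => hf (Sum.inl (v, α, β, t))
    have htie : ∀ τ, QQ (c := c) (fun j : Fin 4 => f ((![none,
        some (anc (hi (fun t : CT (Q4 (c := c)) I => t.1) g h 1 τ)), some (lo Δ id τ),
        some (hi (fun t : CT (Q4 (c := c)) I => t.1) g h 1 τ)] :
          Fin 4 → Option (EE G p I (CT (Q4 (c := c)) I) 4 (Fin 4) Empty)) j)) :=
      fun τ => hf (Sum.inr τ)
    -- all the elements differ from `none`
    have hne : ∀ x, f (some x) ≠ f none := by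
      intro x
      cases x with
      | main v s =>
        have h1 := (qq_ne (htie (.x v 0 0 s))).2.2
        have h2 : (hi (fun t : CT (Q4 (c := c)) I => t.1) g h 1 (.x v 0 0 s) :
            EE G p I (CT (Q4 (c := c)) I) 4 (Fin 4) Empty) = .main v s := by
          show EE.main v (s + 0) = .main v s
          rw [add_zero]
        intro h3
        apply h1
        show f (some (hi (fun t : CT (Q4 (c := c)) I => t.1) g h 1 (.x v 0 0 s))) = f none
        rw [h2]
        exact h3
      | site v α β t =>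
        exact (qq_ne (htie (.f v α β ⟨fun _ => t, fun i => Or.inl fun _ _ => rfl⟩ 0))).2.2
      | fr v α β t j =>
        exact (qq_ne (htie (.f v α β t j))).2.1
      | tf _ d => exact d.elim
    -- the range of the solution
    obtain ⟨w, _, harr, htop⟩ := hRR (Set.range f) (fun x => x.1) ⟨f none, none, rfl⟩
      Subtype.val_injective
    let F : Option (EE G p I (CT (Q4 (c := c)) I) 4 (Fin 4) Empty) → Set.range f :=
      fun o => ⟨f o, o, rfl⟩
    have hFne : ∀ x, F (some x) ≠ ⟨f none, none, rfl⟩ := fun x hx => hne x (congrArg Subtype.val hx)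
    have htop' : ∀ x y, Cc (w (F none)) (w (F (some x))) (w (F (some y))) := fun x y =>
      htop _ _ (hFne x) (hFne y)
    have hcop' : ∀ v α β t, Q4 (c := c) (fun j : Fin 4 => w (F (some (.fr v α β t j)))) := by
      intro v α β t
      exact harr _ ((PPB_pf σ (Word c) 𝔅).2.2.1 (Fin 4) (Set.range f) Q4
        (fun j => F (some (.fr v α β t j))) hQ4) (hcop v α β t)
    have htie' : ∀ τ, QQ (c := c) (fun j : Fin 4 => w (F ((![none,
        some (anc (hi (fun t : CT (Q4 (c := c)) I => t.1) g h 1 τ)), some (lo Δ id τ),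
        some (hi (fun t : CT (Q4 (c := c)) I => t.1) g h 1 τ)] :
          Fin 4 → Option (EE G p I (CT (Q4 (c := c)) I) 4 (Fin 4) Empty)) j))) := by
      intro τ
      exact harr _ ((PPB_pf σ (Word c) 𝔅).2.2.1 (Fin 4) (Set.range f) QQ
        (fun j => F ((![none,
        some (anc (hi (fun t : CT (Q4 (c := c)) I => t.1) g h 1 τ)), some (lo Δ id τ),
        some (hi (fun t : CT (Q4 (c := c)) I => t.1) g h 1 τ)] :
          Fin 4 → Option (EE G p I (CT (Q4 (c := c)) I) 4 (Fin 4) Empty)) j))
        (hQQP c σ 𝔅 hQ4)) (htie τ)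
    have hC : ∀ τ, Cc (w (F (some (anc (hi (fun t : CT (Q4 (c := c)) I => t.1) g h 1 τ)))))
        (w (F (some (lo Δ id τ)))) (w (F (some (hi (fun t : CT (Q4 (c := c)) I => t.1) g h 1 τ)))) := by
      intro τ
      refine (hQQT c (w (F none)) _ _ _ ?_).1 (htie' τ)
      intro a ha b hb
      simp only [Set.mem_insert_iff, Set.mem_singleton_iff] at ha hb
      rcases ha with rfl | rfl | rfl <;> rcases hb with rfl | rfl | rfl <;> exact htop' _ _
    let val : EE G p I (CT (Q4 (c := c)) I) 4 (Fin 4) Empty → Word c := fun x => w (F (some x))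
    have hanc : ∀ v s, val (anc (.main v s)) = av (fun v s => val (.main v s)) v s := by
      intro v s
      unfold anc av
      by_cases hvs : v = 1 ∧ s = 0
      · rw [if_pos (by rw [hvs.1, hvs.2]), if_pos hvs]
      · rw [if_neg (by
          intro h
          injection h with h1 h2
          exact hvs ⟨h1, h2⟩), if_neg hvs]
    have hsite : ∀ v α β t, val (anc (.site v α β t)) = val (.main 1 0) := by
      intro v α β t
      unfold anc
      rw [if_neg (by intro h; cases h)]
    refine hUN1 c 4 Q4 G g h p I Δ hp hG hΔ ⟨fun v s => val (.main v s),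
      fun v α β t => val (.site v α β t), fun v α β t j => val (.fr v α β t j), ?_⟩
    refine ⟨hcop', ?_, ?_, ?_, ?_, ?_⟩
    · intro v α β t j
      rw [← hsite v α β (t.1 j)]
      exact hC (.f v α β t j)
    · intro v α β s
      rw [← hanc]
      exact hC (.u v α β s)
    · intro v α β s
      rw [← hanc]
      exact hC (.x v α β s)
    · intro v α β s
      rw [← hanc]
      exact hC (.y v α β s)
    · intro v α β s
      rw [← hanc]
      exact hC (.z v α β s)

end Pool.Agent.Work.MP_8dbde4_lc.Full
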