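import Pool.Agent.Work.MP_8dbde4_lc.Full.StmtsA
import Pool.Agent.Work.MP_8dbde4_lc.Full.I_CAN
import Pool.Agent.Work.MP_8dbde4_lc.Full.I_LTC

/-!
Item NLN: if `LIN` fails then no arrow maps large complete trees to combs.
-/

set_option autoImplicit false
open Classical

namespace Pool.Agent.Work.MP_8dbde4_lc.Full

open Pool.Agent.Work.MP_8dbde4_lc.TS Pool.Agent.Work.MP_8dbde4_lc.Tree
  Pool.Agent.Work.MP_8dbde4_lc.Phy BT

namespace FNLN

theorem lvs_map {X Y : Type} (e : X → Y) (t : BT X) : (t.map e).lvs = t.lvs.map e := by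
  induction t with
  | lf x => rfl
  | nd l r ihl ihr =>
    show (l.map e).lvs ++ (r.map e).lvs = (l.lvs ++ r.lvs).map e
    rw [ihl, ihr, List.map_append]

theorem combL_map {c : ℚ → Bool} {X Y : Type} (e : X → Y) (w : Y → Word c) :
    ∀ ℓ : List X, CombL w (ℓ.map e) → CombL (fun x => w (e x)) ℓ := by
  intro ℓ
  induction ℓ with
  | nil => exact fun _ => trivial
  | cons a ℓ ih =>
    intro h
    refine ⟨?_, ih h.2⟩
    intro y hy z hz
    exact h.1 (e y) (List.mem_map_of_mem hy) (e z) (List.mem_map_of_mem hz)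

theorem univ_of {c : ℚ → Bool} {X : Type} (ℓ : List X) (hℓ : ∀ x, x ∈ ℓ) (v w : X → Word c)
    (h : SameOn {x | x ∈ ℓ} v w) : SameOn Set.univ v w :=
  ⟨fun x _ y _ => h.1 x (hℓ x) y (hℓ y), fun x _ y _ z _ => h.2 x (hℓ x) y (hℓ y) z (hℓ z)⟩

end FNLN

theorem NLN_pf (hARR : S_ARR) (hSHF : S_SHF) (hSUB : S_SUB) : S_NLN := by
  intro c σ 𝔅 hI hL
  unfold LIN at hL
  push Not at hL
  obtain ⟨X, hX, T, v₀, z₀, hT, hv₀, hz₀, hna⟩ := hL
  obtain ⟨A1, A2, -, -, -, -⟩ := hARR c σ 𝔅 hI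
  have hndT : T.lvs.Nodup := ((hSHF c X T).1 v₀ hv₀).1
  have hmir := (hSHF c X T).2.2.2.2.1
  have hndM : T.mir.lvs.Nodup := by
    rw [(hmir v₀).2]
    exact List.nodup_reverse.2 hndT
  obtain ⟨-, -, -, -, -, S6⟩ := hSUB X
  obtain ⟨n₁, hn₁⟩ := S6 T hndT
  obtain ⟨n₂, hn₂⟩ := S6 T.mir hndM
  have key : ∀ (Λ : Type) [Finite Λ] (v w : Λ → Word c) (e : X → Λ), Arr 𝔅 v w →
      Sh (fun x => v (e x)) T → CombL w (T.lvs.map e) → False := by
    intro Λ _ v w e ha hs hc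
    apply hna
    have h1 : SameOn Set.univ v₀ (fun x => v (e x)) :=
      FNLN.univ_of T.lvs hT _ _ ((hSHF c X T).2.1 _ _ hv₀ hs)
    have h2 : SameOn Set.univ (fun x => w (e x)) z₀ :=
      FNLN.univ_of T.lvs hT _ _ (FLTC.comb_same _ _ T.lvs (FNLN.combL_map e w _ hc) hz₀)
    exact ((A1 X _ _ h1).trans (A2 Λ X e v w ha)).trans (A1 X _ _ h2)
  refine ⟨max n₁ n₂, ?_⟩
  intro Λ hΛ y v w hy hs ha
  have Y3 := (hSHF c Λ y).2.2.2.2.2.1
  have Y4 := (hSHF c Λ y).2.2.2.2.2.2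
  constructor
  · intro hc
    obtain ⟨e, he⟩ := hn₁ (max n₁ n₂) (le_max_left _ _) Λ y hy
    apply key Λ v w e ha
    · exact ((hSHF c X T).2.2.2.1 Λ e v).1 (Y3 _ v he hs)
    · have hsub := Y4 _ he
      rw [FNLN.lvs_map] at hsub
      exact FCAN.combL_sublist w hsub hc
  · intro hc
    obtain ⟨e, he⟩ := hn₂ (max n₁ n₂) (le_max_right _ _) Λ y hy
    apply key Λ v w e ha
    · have h1 : Sh (fun x => v (e x)) T.mir :=
        ((hSHF c X T.mir).2.2.2.1 Λ e v).1 (Y3 _ v he hs)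
      exact (hmir _).1.1 h1
    · have hsub := Y4 _ he
      rw [FNLN.lvs_map, (hmir v₀).2, List.map_reverse] at hsub
      have hsub2 := List.Sublist.reverse hsub
      rw [List.reverse_reverse] at hsub2
      exact FCAN.combL_sublist w hsub2 hc

end Pool.Agent.Work.MP_8dbde4_lc.Full
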