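import Pool.Agent.Work.MP_8dbde4_lc.Full.StmtsB

/-!
Block Full of MP_8dbde4_lc, item QFA: facts on quartets of words.
-/

set_option autoImplicit false
open Classical

namespace Pool.Agent.Work.MP_8dbde4_lc.Full

open Pool.Agent.Work.MP_8dbde4_lc.TS Pool.Agent.Work.MP_8dbde4_lc.Tree
  Pool.Agent.Work.MP_8dbde4_lc.Phy BT

namespace FQFA

variable {c : ℚ → Bool}

theorem one (x y z t : Word c) : (Qr x y z t → Qr y x z t) ∧ (Qr x y z t → Qr z t x y) ∧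
    (Qr x y z t → x ≠ y ∧ x ≠ z ∧ x ≠ t ∧ y ≠ z ∧ y ≠ t ∧ z ≠ t) := by
  refine ⟨?_, ?_, ?_⟩
  · rintro ⟨h1, h2, h⟩
    refine ⟨h1.symm, h2, ?_⟩
    rcases h with h | h
    · exact Or.inl ⟨cc_symm h.1, cc_symm h.2⟩
    · exact Or.inr ⟨h.2, h.1⟩
  · rintro ⟨h1, h2, h⟩
    exact ⟨h2, h1, h.symm⟩
  · rintro ⟨h1, h2, h⟩
    rcases h with h | h
    · exact ⟨h1, (cc_ne h.1).symm, (cc_ne h.2).symm, (cc_ne' h.1).symm, (cc_ne' h.2).symm, h2⟩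
    · exact ⟨h1, cc_ne h.1, cc_ne' h.1, cc_ne h.2, cc_ne' h.2, h2⟩

/-- four words, one of them splits off from the three others -/
theorem ex1 {x y z t : Word c} (hxy : x ≠ y) (hxt : x ≠ t) (hyt : y ≠ t) (hzx : x ≠ z)
    (hzy : y ≠ z) (hzt : z ≠ t)
    (h : Cc z x y) (h' : Cc z x t) : Qr x y z t ∨ Qr x z y t ∨ Qr x t y z := by
  have h3 : Cc z y t := cc_trans (cc_symm h) h'
  rcases cc_tri hxy hxt with h4 | h4 | h4
  · exact Or.inr (Or.inl ⟨hzx, hyt, Or.inr ⟨h4, h3⟩⟩)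
  · exact Or.inr (Or.inr ⟨hxt, hzy, Or.inl ⟨h4, h'⟩⟩)
  · exact Or.inl ⟨hxy, hzt, Or.inl ⟨h, h4⟩⟩

theorem ex {x y z t : Word c} (hxy : x ≠ y) (hxz : x ≠ z) (hxt : x ≠ t) (hyz : y ≠ z)
    (hyt : y ≠ t) (hzt : z ≠ t) : Qr x y z t ∨ Qr x z y t ∨ Qr x t y z := by
  have s1 : ∀ a b e d : Word c, Qr a b e d → Qr b a e d := fun a b e d => (one a b e d).1
  have s2 : ∀ a b e d : Word c, Qr a b e d → Qr e d a b := fun a b e d => (one a b e d).2.1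
  rcases cc_tri hxy hxz with h | h | h
  · -- `x` splits off from `y, z`
    rcases cc_or h t with h' | h'
    · rcases ex1 (x := y) (y := z) (z := x) (t := t) hyz hyt hzt hxy.symm hxz.symm hxt h h'
        with k | k | k
      · exact Or.inr (Or.inr (s2 _ _ _ _ k))
      · exact Or.inl (s1 _ _ _ _ k)
      · exact Or.inr (Or.inl (s1 _ _ _ _ (s2 _ _ _ _ k)))
    · exact Or.inr (Or.inr ⟨hxt, hyz, Or.inr ⟨h, h'⟩⟩)
  · -- `y` splits off from `x, z`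
    rcases cc_or h t with h' | h'
    · rcases ex1 (x := x) (y := z) (z := y) (t := t) hxz hxt hzt hxy hyz.symm hyt h h'
        with k | k | k
      · exact Or.inr (Or.inl k)
      · exact Or.inl k
      · exact Or.inr (Or.inr (s2 _ _ _ _ (s1 _ _ _ _ (s2 _ _ _ _ k))))
    · exact Or.inr (Or.inl ⟨hxz, hyt, Or.inl ⟨h, h'⟩⟩)
  · rcases cc_or h t with h' | h'
    · exact ex1 hxy hxt hyt hxz hyz hzt h h'
    · exact Or.inl ⟨hxy, hzt, Or.inl ⟨h, h'⟩⟩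

theorem un {x y z t : Word c} : ¬ (Qr x y z t ∧ Qr x z y t) := by
  rintro ⟨⟨-, -, h1 | h1⟩, -, -, h2 | h2⟩
  · exact cc_asymm (cc_symm h1.1) (cc_symm h2.1)
  · exact cc_asymm h1.2 (cc_symm h2.1)
  · exact cc_asymm (cc_symm h1.1) h2.2
  · exact cc_asymm h1.2 h2.2

/-- a further point is on one of the two sides -/
theorem tr {a b x y : Word c} (f : Word c) (h : Qr a b x y) (ha : a ≠ f) (hb : b ≠ f)
    (hx : x ≠ f) (hy : y ≠ f) :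
    (Qr a b x f ∧ Qr a b y f) ∨ (Qr a f x y ∧ Qr b f x y) := by
  obtain ⟨h1, h2, h | h⟩ := h
  · by_cases hc : Cc f a b
    · exact Or.inl ⟨⟨h1, hx, Or.inl ⟨h.1, hc⟩⟩, ⟨h1, hy, Or.inl ⟨h.2, hc⟩⟩⟩
    · have k1 : Cc x a f := (cc_or h.1 f).resolve_right hc
      have k2 : Cc y a f := (cc_or h.2 f).resolve_right hc
      exact Or.inr ⟨⟨ha, h2, Or.inl ⟨k1, k2⟩⟩, ⟨hb, h2, Or.inl ⟨cc_trans (cc_symm h.1) k1,
        cc_trans (cc_symm h.2) k2⟩⟩⟩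
  · by_cases hc : Cc f x y
    · exact Or.inr ⟨⟨ha, h2, Or.inr ⟨h.1, hc⟩⟩, ⟨hb, h2, Or.inr ⟨h.2, hc⟩⟩⟩
    · have k1 : Cc a x f := (cc_or h.1 f).resolve_right hc
      have k2 : Cc b x f := (cc_or h.2 f).resolve_right hc
      exact Or.inl ⟨⟨h1, hx, Or.inr ⟨k1, k2⟩⟩, ⟨h1, hy, Or.inr ⟨cc_trans (cc_symm h.1) k1,
        cc_trans (cc_symm h.2) k2⟩⟩⟩

theorem s1 {a b e d : Word c} : Qr a b e d → Qr b a e d := (one a b e d).1

theorem s2 {a b e d : Word c} : Qr a b e d → Qr e d a b := (one a b e d).2.1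

theorem s3 {a b e d : Word c} (h : Qr a b e d) : Qr a b d e := s2 (s1 (s2 h))

theorem three {a f b₁ b₂ b₃ : Word c} (haf : a ≠ f) (h : Qr a b₁ b₂ b₃)
    (hn : ¬ Qr f b₁ b₂ b₃) (h1 : f ≠ b₁) (h2 : f ≠ b₂) (h3 : f ≠ b₃) :
    ¬ Qr a f b₁ b₂ ∧ ¬ Qr a f b₁ b₃ ∧ ¬ Qr a f b₂ b₃ := by
  rcases tr f h haf h1.symm h2.symm h3.symm with k | k
  · refine ⟨fun q => un ⟨s3 k.1, q⟩, fun q => un ⟨s3 k.2, q⟩, fun q => ?_⟩
    obtain ⟨-, -, -, d1, d2, d3⟩ := (one a b₁ b₂ b₃).2.2 h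
    have d0 : a ≠ b₁ := h.1
    rcases tr b₁ q d0 h1 d1.symm d2.symm with l | l
    · exact un ⟨s3 l.1, s3 k.1⟩
    · exact hn l.2
  · exact absurd (s1 k.2) hn

end FQFA

theorem QFA_pf : S_QFA := by
  intro c
  refine ⟨FQFA.one, fun x y z t h1 h2 h3 h4 h5 h6 => ⟨FQFA.ex h1 h2 h3 h4 h5 h6, FQFA.un⟩,
    fun a f b₁ b₂ b₃ h1 h2 h3 h4 h5 h6 => FQFA.three h1 h2 h3 h4 h5 h6⟩

end Pool.Agent.Work.MP_8dbde4_lc.Full
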