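import Pool.Agent.Work.MP_8dbde4_lc.Full.StmtsB

/-!
# Item [8dbde4 FU QFT]: rerooting on four points
-/

set_option autoImplicit false
open Classical

namespace Pool.Agent.Work.MP_8dbde4_lc.Full

open Pool.Agent.Work.MP_8dbde4_lc.TS Pool.Agent.Work.MP_8dbde4_lc.Tree
  Pool.Agent.Work.MP_8dbde4_lc.Phy BT

namespace FQFT

variable {c : ℚ → Bool} {σ : Sig}

/-- Identifying two neighbours. -/
theorem blk {Y : Type} (v : Y → Word c) (s : Y → Y) (a b : Y)
    (hs : ∀ y, y ≠ b → s y = y) (hsb : s b = a)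
    (hv : ∀ y, y ≠ a → y ≠ b → Cc (v y) (v a) (v b)) (y y' y'' : Y)
    (h1 : s y'' ≠ s y) (h2 : s y'' ≠ s y') :
    (Cc (v y'') (v y) (v y') ↔ Cc (v (s y'')) (v (s y)) (v (s y'))) := by
  have hsa : s a = a := by
    by_cases h : a = b
    · rw [h, hsb, h]
    · exact hs a h
  have key : ∀ z, s z ≠ a → z ≠ a ∧ z ≠ b := by
    intro z hz
    refine ⟨?_, ?_⟩
    · rintro rfl; exact hz hsa
    · rintro rfl; exact hz hsb
  by_cases hb : y'' = b
  · subst hb
    rw [hsb] at h1 h2 ⊢
    obtain ⟨h3, h4⟩ := key y (Ne.symm h1)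
    obtain ⟨h5, h6⟩ := key y' (Ne.symm h2)
    rw [hs y h4, hs y' h6]
    have h7 := hv y h3 h4
    exact ⟨fun h => cc_mid (cc_symm h7) h, fun h => cc_mid h7 h⟩
  · rw [hs y'' hb] at h1 h2 ⊢
    by_cases ha : y'' = a
    · subst ha
      obtain ⟨h3, h4⟩ := key y (Ne.symm h1)
      obtain ⟨h5, h6⟩ := key y' (Ne.symm h2)
      rw [hs y h4, hs y' h6]
    · have h7 := hv y'' ha hb
      by_cases hy : y = b
      · subst hy
        by_cases hy' : y' = y
        · subst hy'
          rw [hsb]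
          exact ⟨fun _ => cc_self (cc_ne h7), fun _ => cc_self (cc_ne' h7)⟩
        · rw [hsb, hs y' hy']
          exact ⟨fun h => cc_trans h7 h, fun h => cc_trans (cc_symm h7) h⟩
      · rw [hs y hy]
        by_cases hy' : y' = b
        · subst hy'
          rw [hsb]
          exact ⟨fun h => cc_symm (cc_trans h7 (cc_symm h)),
            fun h => cc_symm (cc_trans (cc_symm h7) (cc_symm h))⟩
        · rw [hs y' hy']

/-- Fat arrows between tuples with the same block of two points. -/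
theorem fatblk (hFAT : S_FAT) (𝔅 : Str σ (Word c)) (hI : AllInv 𝔅) (h3 : F3 𝔅)
    (π : Fin 4 → Fin 3) (s : Fin 3 → Fin 4) (a b : Fin 4) (hps : ∀ i, π (s i) = i)
    (hs : ∀ y, y ≠ b → s (π y) = y) (hsb : s (π b) = a)
    (v w : Fin 4 → Word c) (hv : Function.Injective v) (hw : Function.Injective w)
    (hvb : ∀ y, y ≠ a → y ≠ b → Cc (v y) (v a) (v b))
    (hwb : ∀ y, y ≠ a → y ≠ b → Cc (w y) (w a) (w b)) : Fat 𝔅 Set.univ v w := by
  have hsi : Function.Injective s := Function.LeftInverse.injective hps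
  have hvs : Function.Injective (fun i => v (s i)) := hv.comp hsi
  have hws : Function.Injective (fun i => w (s i)) := hw.comp hsi
  have hfat := h3 (fun i => v (s i)) (fun i => w (s i)) hvs hws
  obtain ⟨-, -, -, -, -, -, h7⟩ := hFAT c σ 𝔅 hI (Fin 3) Set.univ _ _ hvs hws
  refine h7 (Fin 4) π v w Set.univ (fun _ _ _ h => absurd (Set.mem_univ _) h)
    (fun _ _ => Set.mem_univ _) hv hw ?_ ?_ ?_ hfat
  · intro y y' y'' h1 h2
    exact blk v (fun y => s (π y)) a b hs hsb hvb y y' y'' (fun h => h1 (hsi h))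
      (fun h => h2 (hsi h))
  · intro y y' y'' h1 h2
    exact blk w (fun y => s (π y)) a b hs hsb hwb y y' y'' (fun h => h1 (hsi h))
      (fun h => h2 (hsi h))
  · intro i
    -- two different points of one fibre are `a` and `b`
    have hab : ∀ y z : Fin 4, π y = i → π z = i → y ≠ z → (y = a ∧ z = b) ∨ (y = b ∧ z = a) := by
      intro y z hy hz hyz
      have h1 : s (π y) = s (π z) := by rw [hy, hz]
      by_cases hyb : y = b
      · right
        refine ⟨hyb, ?_⟩
        have hzb : z ≠ b := fun h => hyz (hyb.trans h.symm)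
        rw [hs z hzb, hyb, hsb] at h1
        exact h1.symm
      · left
        rw [hs y hyb] at h1
        by_cases hzb : z = b
        · rw [hzb, hsb] at h1
          exact ⟨h1, hzb⟩
        · rw [hs z hzb] at h1
          exact absurd h1 hyz
    refine ⟨?_, ?_⟩
    · intro x _ y _
      exact ⟨fun h => by rw [hv h], fun h => by rw [hw h]⟩
    · intro x hx y hy z hz
      by_cases h1 : z = x
      · subst h1
        exact ⟨fun h => absurd h cc_irrefl, fun h => absurd h cc_irrefl⟩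
      · by_cases h2 : z = y
        · subst h2
          exact ⟨fun h => absurd h cc_irrefl', fun h => absurd h cc_irrefl'⟩
        · have h3 : x = y := by
            rcases hab z x hz hx h1 with ⟨h4, h5⟩ | ⟨h4, h5⟩ <;>
              rcases hab z y hz hy h2 with ⟨h6, h8⟩ | ⟨h6, h8⟩
            · rw [h5, h8]
            · rw [h4] at h6
              rw [h5, h8, h6]
            · rw [h4] at h6
              rw [h5, h8, h6]
            · rw [h5, h8]
          subst h3
          exact ⟨fun _ => cc_self (fun h => h1 (hw h)), fun _ => cc_self (fun h => h1 (hv h))⟩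

/-- The default word, changed at the places `0` (if `a`) and `1` (if `b`). -/
noncomputable def wd (c : ℚ → Bool) (a b : Bool) : Word c :=
  ⟨fun q => if q = 0 then (c q ^^ a) else if q = 1 then (c q ^^ b) else c q, by
    refine ((Set.finite_singleton (0 : ℚ)).union (Set.finite_singleton (1 : ℚ))).subset ?_
    intro q hq
    by_contra h
    simp only [Set.mem_union, Set.mem_singleton_iff, not_or] at h
    apply hq
    simp only [if_neg h.1, if_neg h.2]⟩

theorem wd0 (c : ℚ → Bool) (a b : Bool) : (wd c a b).1 0 = (c 0 ^^ a) := by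
  simp [wd]

theorem wd1 (c : ℚ → Bool) (a b : Bool) : (wd c a b).1 1 = (c 1 ^^ b) := by
  simp [wd]

theorem agr0 (c : ℚ → Bool) (a b a' b' : Bool) : Agr (wd c a b) (wd c a' b') 0 := by
  intro q hq
  have h0 : q ≠ 0 := ne_of_lt hq
  have h1 : q ≠ 1 := ne_of_lt (hq.trans zero_lt_one)
  simp [wd, h0, h1]

theorem cc0 (c : ℚ → Bool) (a b b₁ b₂ : Bool) : Cc (wd c (!a) b) (wd c a b₁) (wd c a b₂) := by
  refine ⟨0, agr0 c _ _ _ _, agr0 c _ _ _ _, ?_, ?_⟩
  · rw [wd0, wd0]
  · rw [wd0, wd0]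
    cases c 0 <;> cases a <;> simp

/-- A tuple with both blocks. -/
theorem mid (c : ℚ → Bool) : ∃ m : Fin 4 → Word c, Function.Injective m ∧
    Cc (m 2) (m 0) (m 1) ∧ Cc (m 3) (m 0) (m 1) ∧ Cc (m 0) (m 2) (m 3) ∧ Cc (m 1) (m 2) (m 3) := by
  have h01 : wd c false false ≠ wd c false true := by
    intro h
    have h1 := congrArg (fun w : Word c => w.1 1) h
    simp only [wd1] at h1
    cases h2 : c 1 <;> simp [h2] at h1
  have h23 : wd c true false ≠ wd c true true := by
    intro h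
    have h1 := congrArg (fun w : Word c => w.1 1) h
    simp only [wd1] at h1
    cases h2 : c 1 <;> simp [h2] at h1
  have hc2 : Cc (wd c true false) (wd c false false) (wd c false true) := cc0 c false _ _ _
  have hc3 : Cc (wd c true true) (wd c false false) (wd c false true) := cc0 c false _ _ _
  have hc0 : Cc (wd c false false) (wd c true false) (wd c true true) := cc0 c true _ _ _
  have hc1 : Cc (wd c false true) (wd c true false) (wd c true true) := cc0 c true _ _ _
  refine ⟨![wd c false false, wd c false true, wd c true false, wd c true true], ?_, hc2, hc3,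
    hc0, hc1⟩
  intro i j hij
  fin_cases i <;> fin_cases j <;>
    first
    | rfl
    | (exfalso; exact h01 hij)
    | (exfalso; exact h01 hij.symm)
    | (exfalso; exact h23 hij)
    | (exfalso; exact h23 hij.symm)
    | (exfalso; exact cc_ne hc2 hij)
    | (exfalso; exact cc_ne hc2 hij.symm)
    | (exfalso; exact cc_ne' hc2 hij)
    | (exfalso; exact cc_ne' hc2 hij.symm)
    | (exfalso; exact cc_ne hc3 hij)
    | (exfalso; exact cc_ne hc3 hij.symm)
    | (exfalso; exact cc_ne' hc3 hij)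
    | (exfalso; exact cc_ne' hc3 hij.symm)

/-- The block `{0, 1}`. -/
def B1 (v : Fin 4 → Word c) : Prop := Cc (v 2) (v 0) (v 1) ∧ Cc (v 3) (v 0) (v 1)

/-- The block `{2, 3}`. -/
def B2 (v : Fin 4 → Word c) : Prop := Cc (v 0) (v 2) (v 3) ∧ Cc (v 1) (v 2) (v 3)

theorem fat1 (hFAT : S_FAT) (𝔅 : Str σ (Word c)) (hI : AllInv 𝔅) (h3 : F3 𝔅)
    (v w : Fin 4 → Word c) (hv : Function.Injective v) (hw : Function.Injective w)
    (hvb : B1 v) (hwb : B1 w) : Fat 𝔅 Set.univ v w := by
  have h : ∀ u : Fin 4 → Word c, B1 u → ∀ y : Fin 4, y ≠ 0 → y ≠ 1 → Cc (u y) (u 0) (u 1) := by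
    intro u hu y h0 h1
    fin_cases y
    · exact absurd rfl h0
    · exact absurd rfl h1
    · exact hu.1
    · exact hu.2
  refine fatblk hFAT 𝔅 hI h3 ![0, 0, 1, 2] ![0, 2, 3] 0 1 ?_ ?_ rfl v w hv hw (h v hvb) (h w hwb)
  · intro i
    fin_cases i <;> rfl
  · intro y hy
    fin_cases y
    · rfl
    · exact absurd rfl hy
    · rfl
    · rfl

theorem fat2 (hFAT : S_FAT) (𝔅 : Str σ (Word c)) (hI : AllInv 𝔅) (h3 : F3 𝔅)
    (v w : Fin 4 → Word c) (hv : Function.Injective v) (hw : Function.Injective w)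
    (hvb : B2 v) (hwb : B2 w) : Fat 𝔅 Set.univ v w := by
  have h : ∀ u : Fin 4 → Word c, B2 u → ∀ y : Fin 4, y ≠ 2 → y ≠ 3 → Cc (u y) (u 2) (u 3) := by
    intro u hu y h0 h1
    fin_cases y
    · exact hu.1
    · exact hu.2
    · exact absurd rfl h0
    · exact absurd rfl h1
  refine fatblk hFAT 𝔅 hI h3 ![0, 1, 2, 2] ![0, 1, 2] 2 3 ?_ ?_ rfl v w hv hw (h v hvb) (h w hwb)
  · intro i
    fin_cases i <;> rfl
  · intro y hy
    fin_cases y
    · rfl
    · rfl
    · rfl
    · exact absurd rfl hy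

end FQFT

open FQFT in
theorem QFT_pf (hFAT : S_FAT) : S_QFT := by
  intro c σ 𝔅 hI h3 v w hv hw hqv hqw
  obtain ⟨m, hm, h1, h2, h4, h5⟩ := mid c
  have hm1 : B1 m := ⟨h1, h2⟩
  have hm2 : B2 m := ⟨h4, h5⟩
  obtain ⟨-, -, hvm⟩ := hqv
  obtain ⟨-, -, hwm⟩ := hqw
  have hV : Fat 𝔅 Set.univ v m := by
    rcases hvm with h | h
    · exact fat1 hFAT 𝔅 hI h3 v m hv hm h hm1
    · exact fat2 hFAT 𝔅 hI h3 v m hv hm h hm2
  have hW : Fat 𝔅 Set.univ m w := by
    rcases hwm with h | h
    · exact fat1 hFAT 𝔅 hI h3 m w hm hw hm1 h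
    · exact fat2 hFAT 𝔅 hI h3 m w hm hw hm2 h
  exact (hFAT c σ 𝔅 hI (Fin 4) Set.univ v w hv hw).2.2.1 m hm hV hW

end Pool.Agent.Work.MP_8dbde4_lc.Full
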