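import Pool.Agent.Work.MP_8dbde4_lc.Full.StmtsB
import Pool.Agent.Work.MP_8dbde4_lc.Phy.I_KPF

/-! Item QGD of the block Full of MP_8dbde4_lc: the gadget for quartet patterns. -/

set_option autoImplicit false
open Classical

namespace Pool.Agent.Work.MP_8dbde4_lc.Full

open Pool.Agent.Work.MP_8dbde4_lc.TS Pool.Agent.Work.MP_8dbde4_lc.Tree
  Pool.Agent.Work.MP_8dbde4_lc.Phy BT

namespace FQGD

/-- The letter at the place `q` is changed. -/
noncomputable def fl (c : ℚ → Bool) (q : ℚ) : Word c :=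
  ⟨fun r => if r = q then !c r else c r, by
    refine (Set.finite_singleton q).subset ?_
    intro r hr
    by_contra hc
    have hne : r ≠ q := hc
    apply hr
    simp [hne]⟩

theorem fl_self (c : ℚ → Bool) (q : ℚ) : (fl c q).1 q = !c q := by
  simp [fl]

theorem fl_ne (c : ℚ → Bool) {q r : ℚ} (h : r ≠ q) : (fl c q).1 r = c r := by
  simp [fl, h]

theorem cc_fl (c : ℚ → Bool) {a b d : ℚ} (hb : a < b) (hd : a < d) :
    Cc (fl c a) (fl c b) (fl c d) := by
  refine ⟨a, ?_, ?_, ?_, ?_⟩
  · intro q hq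
    rw [fl_ne c (ne_of_lt hq), fl_ne c (ne_of_lt (hq.trans hb))]
  · intro q hq
    rw [fl_ne c (ne_of_lt hq), fl_ne c (ne_of_lt (hq.trans hd))]
  · rw [fl_ne c (ne_of_lt hb), fl_ne c (ne_of_lt hd)]
  · rw [fl_self, fl_ne c (ne_of_lt hb)]
    cases c a <;> simp

theorem fl_inj (c : ℚ → Bool) {a b : ℚ} (h : a ≠ b) : fl c a ≠ fl c b := by
  rcases lt_or_gt_of_ne h with h1 | h1
  · exact cc_ne (cc_fl c h1 h1)
  · exact (cc_ne (cc_fl c h1 h1)).symm

theorem spl_top (c : ℚ → Bool) (r : Fin 4 → ℚ) (t : Fin 4) (ht : ∀ i, i ≠ t → r t < r i)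
    (h : Fin 4 → Bool) (hh : ∀ i, h i = true ↔ i ≠ t) :
    Spl Set.univ (fun i => fl c (r i)) h := by
  constructor
  · obtain ⟨s, hs⟩ : ∃ s : Fin 4, s ≠ t := exists_ne t
    refine ⟨t, Set.mem_univ _, s, Set.mem_univ _, ?_⟩
    have h1 : h s = true := (hh s).2 hs
    have h2 : ¬ h t = true := fun h3 => (hh t).1 h3 rfl
    rw [h1]
    exact h2
  · intro x _ y _ z _ hxy hz
    show Cc (fl c (r z)) (fl c (r x)) (fl c (r y))
    by_cases hzt : z = t
    · subst hzt
      have hzf : ¬ h z = true := fun h3 => (hh z).1 h3 rfl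
      have hx : x ≠ z := by
        rintro rfl
        exact hz rfl
      have hy : y ≠ z := by
        rintro rfl
        exact hz hxy.symm
      exact cc_fl c (ht x hx) (ht y hy)
    · have hz1 : h z = true := (hh z).2 hzt
      have hx1 : ¬ h x = true := fun h3 => hz (hz1.trans h3.symm)
      have hx : x = t := by
        by_contra hc
        exact hx1 ((hh x).2 hc)
      have hy : y = t := by
        by_contra hc
        exact hx1 (hxy.trans ((hh y).2 hc))
      subst hx
      subst hy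
      exact cc_self (fl_inj c (ne_of_gt (ht z hzt)))

theorem pat1 (c : ℚ → Bool) : (pf (Q4 (c := c))).P () ![false, true, true, true] := by
  right
  have h01 : (0 : ℚ) < 1 := by norm_num
  have h02 : (0 : ℚ) < 2 := by norm_num
  have h03 : (0 : ℚ) < 3 := by norm_num
  have h12 : (1 : ℚ) < 2 := by norm_num
  have h13 : (1 : ℚ) < 3 := by norm_num
  have h23 : (2 : ℚ) < 3 := by norm_num
  refine ⟨fun i => fl c ((![0, 1, 2, 3] : Fin 4 → ℚ) i), ?_, ?_⟩
  · exact ⟨fl_inj c (ne_of_lt h01), fl_inj c (ne_of_lt h23),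
      Or.inr ⟨cc_fl c h02 h03, cc_fl c h12 h13⟩⟩
  · refine spl_top c _ 0 ?_ _ ?_
    · intro i hi
      fin_cases i
      · exact absurd rfl hi
      · exact h01
      · exact h02
      · exact h03
    · intro i
      fin_cases i <;> simp

theorem pat2 (c : ℚ → Bool) : (pf (Q4 (c := c))).P () ![true, true, false, true] := by
  right
  have h01 : (0 : ℚ) < 1 := by norm_num
  have h02 : (0 : ℚ) < 2 := by norm_num
  have h03 : (0 : ℚ) < 3 := by norm_num
  have h12 : (1 : ℚ) < 2 := by norm_num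
  have h13 : (1 : ℚ) < 3 := by norm_num
  have h23 : (2 : ℚ) < 3 := by norm_num
  refine ⟨fun i => fl c ((![2, 3, 0, 1] : Fin 4 → ℚ) i), ?_, ?_⟩
  · exact ⟨fl_inj c (ne_of_lt h23), fl_inj c (ne_of_lt h01),
      Or.inl ⟨cc_fl c h02 h03, cc_fl c h12 h13⟩⟩
  · refine spl_top c _ 2 ?_ _ ?_
    · intro i hi
      fin_cases i
      · exact h02
      · exact h03
      · exact absurd rfl hi
      · exact h01
    · intro i
      fin_cases i <;> simp

theorem npat (hQ : S_QFA) (c : ℚ → Bool) :
    ¬ (pf (Q4 (c := c))).P () ![false, true, false, true] := by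
  rintro (h1 | ⟨v, hv, hs⟩)
  · have h2 : (false : Bool) = true := h1 (0 : Fin 4) (1 : Fin 4)
    exact Bool.noConfusion h2
  · obtain ⟨hF1, hF2, -⟩ := hQ c
    have hv' : Qr (v 0) (v 1) (v 2) (v 3) := hv
    obtain ⟨-, -, hd⟩ := hF1 (v 0) (v 1) (v 2) (v 3)
    obtain ⟨h01, h02, h03, h12, h13, h23⟩ := hd hv'
    obtain ⟨-, hno⟩ := hF2 (v 0) (v 1) (v 2) (v 3) h01 h02 h03 h12 h13 h23
    apply hno
    refine ⟨hv', h02, h13, Or.inl ⟨?_, ?_⟩⟩
    · exact hs.2 (0 : Fin 4) (Set.mem_univ _) (2 : Fin 4) (Set.mem_univ _) (1 : Fin 4) (Set.mem_univ _) rfl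
        (fun h => Bool.noConfusion (show true = false from h))
    · exact hs.2 (0 : Fin 4) (Set.mem_univ _) (2 : Fin 4) (Set.mem_univ _) (3 : Fin 4) (Set.mem_univ _) rfl
        (fun h => Bool.noConfusion (show true = false from h))

end FQGD

open FQGD in
theorem QGD_pf (hQ : S_QFA) : S_QGD := by
  intro hGad hTwin c
  have hand : ¬ (pf (Q4 (c := c))).P ()
      (fun x => (![false, true, true, true] : Fin 4 → Bool) x &&
        (![true, true, false, true] : Fin 4 → Bool) x) := by
    intro h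
    apply npat hQ c
    refine Eq.mp (congrArg (fun q : Fin 4 → Bool => (pf (Q4 (c := c))).P () q) ?_) h
    funext i
    fin_cases i <;> rfl
  have hMin : (pf (Q4 (c := c))).Min := by
    refine ⟨⟨true, false, by simp⟩, ?_⟩
    intro f _
    by_cases hf : f true = f false
    · right
      refine ⟨f false, ?_⟩
      intro x
      cases x
      · rfl
      · exact hf
    · left
      intro x y hxy
      cases x <;> cases y
      · rfl
      · exact absurd hxy.symm hf
      · exact absurd hxy hf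
      · rfl
  have hTP : TP (pf (Q4 (c := c))) := by
    by_contra hTP
    obtain ⟨a, b, hab, _, hmeet⟩ := hTwin (sg 4) Bool (pf (Q4 (c := c))) hMin hTP
    have hcl : ∀ q q' : Fin 4 → Bool, (pf (Q4 (c := c))).P () q → (pf (Q4 (c := c))).P () q' →
        (pf (Q4 (c := c))).P () (fun j => meet a b (q j) (q' j)) :=
      fun q q' h1 h2 => hmeet () q q' h1 h2
    cases a <;> cases b
    · exact hab rfl
    · apply hand
      have h1 := hcl _ _ (pat1 c) (pat2 c)
      refine Eq.mp (congrArg (fun q : Fin 4 → Bool => (pf (Q4 (c := c))).P () q) ?_) h1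
      funext j
      exact XKPF.meet_ft _ _
    · apply hand
      have h1 := XKPF.pf_not (hcl _ _ (XKPF.pf_not (pat1 c)) (XKPF.pf_not (pat2 c)))
      refine Eq.mp (congrArg (fun q : Fin 4 → Bool => (pf (Q4 (c := c))).P () q) ?_) h1
      funext j
      show (!(meet true false _ _)) = _
      rw [XKPF.meet_tf]
      generalize (![false, true, true, true] : Fin 4 → Bool) j = x
      generalize (![true, true, false, true] : Fin 4 → Bool) j = y
      cases x <;> cases y <;> rfl
    · exact hab rfl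
  exact hGad (sg 4) Bool (pf (Q4 (c := c))) hMin hTP

end Pool.Agent.Work.MP_8dbde4_lc.Full
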