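import Pool.Agent.Work.MP_8dbde4_lc.Full.StmtsB

set_option autoImplicit false
open Classical

namespace Pool.Agent.Work.MP_8dbde4_lc.Full

open Pool.Agent.Work.MP_8dbde4_lc.TS Pool.Agent.Work.MP_8dbde4_lc.Tree
  Pool.Agent.Work.MP_8dbde4_lc.Phy BT

namespace FQPP

/-- The word `c` changed at the place `q`. -/
noncomputable def W (c : ℚ → Bool) (q : ℚ) : Word c :=
  ⟨fun p => if p = q then !(c p) else c p, by
    refine (Set.finite_singleton q).subset ?_
    intro p hp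
    by_contra hc
    have h1 : p ≠ q := fun h => hc (by simp [h])
    simp only [Set.mem_setOf_eq, if_neg h1] at hp
    exact hp rfl⟩

theorem W_self (c : ℚ → Bool) (q : ℚ) : (W c q).1 q = !(c q) := by
  simp [W]

theorem W_ne (c : ℚ → Bool) {p q : ℚ} (h : p ≠ q) : (W c q).1 p = c p := by
  simp [W, h]

theorem cc_W (c : ℚ → Bool) {a b d : ℚ} (h1 : a < b) (h2 : a < d) :
    Cc (W c a) (W c b) (W c d) := by
  refine ⟨a, ?_, ?_, ?_, ?_⟩
  · intro q hq
    rw [W_ne c (ne_of_lt hq), W_ne c (ne_of_lt (hq.trans h1))]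
  · intro q hq
    rw [W_ne c (ne_of_lt hq), W_ne c (ne_of_lt (hq.trans h2))]
  · rw [W_ne c (ne_of_lt h1), W_ne c (ne_of_lt h2)]
  · rw [W_self, W_ne c (ne_of_lt h1)]
    cases c a <;> simp

theorem inj {c : ℚ → Bool} (h : S_QFA) (v : Fin 4 → Word c) (hv : Q4 v) :
    Function.Injective v := by
  obtain ⟨h1, h2, h3, h4, h5, h6⟩ := ((h c).1 (v 0) (v 1) (v 2) (v 3)).2.2 hv
  intro i j hij
  fin_cases i <;> fin_cases j <;> first | rfl | (exfalso; simp_all)

end FQPP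

open FQPP

theorem QPP_pf (hARR : S_ARR) (hQFT : S_QFT) (hFAT : S_FAT) (hQFA : S_QFA) : S_QPP := by
  intro c σ 𝔅 hI hF hQ
  set v₀ : Fin 4 → Word c := fun i => W c (i.val : ℚ) with hv₀
  have h0 : Q4 v₀ := by
    have e0 : v₀ 0 = W c 0 := by simp [hv₀]
    have e1 : v₀ 1 = W c 1 := by simp [hv₀]
    have e2 : v₀ 2 = W c 2 := by simp [hv₀]
    have e3 : v₀ 3 = W c 3 := by simp [hv₀]
    unfold Q4 Qr
    rw [e0, e1, e2, e3]
    have a1 : Cc (W c 0) (W c 1) (W c 1) := cc_W c (by norm_num) (by norm_num)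
    have a2 : Cc (W c 2) (W c 3) (W c 3) := cc_W c (by norm_num) (by norm_num)
    exact ⟨cc_ne a1, cc_ne a2, Or.inr ⟨cc_W c (by norm_num) (by norm_num),
      cc_W c (by norm_num) (by norm_num)⟩⟩
  have hinj := inj hQFA v₀ h0
  have hPP := (hARR c σ 𝔅 hI).2.2.1 (Fin 4) v₀
  have heq : (fun u : Fin 4 → Word c => Arr 𝔅 v₀ u) = Q4 := by
    funext u
    apply propext
    constructor
    · intro hu
      exact hQ v₀ u hinj hu h0
    · intro hu
      have hui := inj hQFA u hu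
      have hfat := hQFT c σ 𝔅 hI hF v₀ u hinj hui h0 hu
      exact (hFAT c σ 𝔅 hI (Fin 4) Set.univ v₀ u hinj hui).1 hfat
  rw [heq] at hPP
  exact hPP

end Pool.Agent.Work.MP_8dbde4_lc.Full
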