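import Pool.Agent.Work.MP_8dbde4_lc.Full.StmtsB

set_option autoImplicit false
open Classical

namespace Pool.Agent.Work.MP_8dbde4_lc.Full

open Pool.Agent.Work.MP_8dbde4_lc.TS Pool.Agent.Work.MP_8dbde4_lc.Tree
  Pool.Agent.Work.MP_8dbde4_lc.Phy BT

namespace FQQP

variable {c : ℚ → Bool}

/-- A word very close to `x`. -/
theorem close (x : Word c) (Q : ℚ) : ∃ e : Word c, e ≠ x ∧ (∀ q < Q, e.1 q = x.1 q) := by
  refine ⟨⟨fun p => if p = Q then !(x.1 p) else x.1 p, ?_⟩, ?_, ?_⟩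
  · refine (x.2.union (Set.finite_singleton Q)).subset ?_
    intro p hp
    by_cases h1 : p = Q
    · right; exact h1
    · left
      simp only [Set.mem_ofPred_eq, if_neg h1] at hp
      exact hp
  · intro h
    have h1 : (if Q = Q then !(x.1 Q) else x.1 Q) = x.1 Q := congrArg (fun w : Word c => w.1 Q) h
    rw [if_pos rfl] at h1
    cases hx : x.1 Q <;> rw [hx] at h1 <;> exact absurd h1 (by decide)
  · intro q hq
    simp only [if_neg (ne_of_lt hq)]

theorem close3 (x a b d : Word c) : ∃ e : Word c, e ≠ x ∧ (a ≠ x → Cc a x e) ∧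
    (b ≠ x → Cc b x e) ∧ (d ≠ x → Cc d x e) := by
  have h : ∀ z : Word c, ∃ q : ℚ, z ≠ x → (∀ q' < q, z.1 q' = x.1 q') ∧ z.1 q ≠ x.1 q := by
    intro z
    by_cases hz : z = x
    · exact ⟨0, fun h => absurd hz h⟩
    · obtain ⟨q, h1, _, _, h4⟩ := cc_self hz
      exact ⟨q, fun _ => ⟨h1, h4⟩⟩
  obtain ⟨q, hq⟩ := h a
  obtain ⟨r, hr⟩ := h b
  obtain ⟨s, hs⟩ := h d
  obtain ⟨e, he, hQ⟩ := close x (max (max q r) s + 1)
  have key : ∀ (z : Word c) (t : ℚ), t ≤ max (max q r) s →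
      (z ≠ x → (∀ q' < t, z.1 q' = x.1 q') ∧ z.1 t ≠ x.1 t) → z ≠ x → Cc z x e := by
    intro z t ht hh hz
    obtain ⟨h1, h2⟩ := hh hz
    have hlt : t < max (max q r) s + 1 := lt_of_le_of_lt ht (lt_add_one _)
    exact ⟨t, h1, fun p hp => (h1 p hp).trans (hQ p (hp.trans hlt)).symm, (hQ t hlt).symm, h2⟩
  exact ⟨e, he, key a q ((le_max_left _ _).trans (le_max_left _ _)) hq,
    key b r ((le_max_right _ _).trans (le_max_left _ _)) hr, key d s (le_max_right _ _) hs⟩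

/-- The two definitions. -/
theorem core (hQ : S_QFA) (a b x y : Word c) :
    ((a ≠ b ∧ x ≠ a ∧ x ≠ b ∧ x = y) ∨ Qr a b x y) ↔
      ∃ e, Qr a b x e ∧ Qr a b y e := by
  constructor
  · rintro (⟨hab, hxa, hxb, rfl⟩ | h)
    · obtain ⟨e, he, h1, h2, _⟩ := close3 x a b a
      have h : Qr a b x e := ⟨hab, he.symm, Or.inr ⟨h1 hxa.symm, h2 hxb.symm⟩⟩
      exact ⟨e, h, h⟩
    · obtain ⟨hab, hax, hay, hbx, hby, hxy⟩ := ((hQ c).1 a b x y).2.2 h
      obtain ⟨e, he, h1, h2, h3⟩ := close3 x a b y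
      have a1 := h1 hax
      have a2 := h2 hbx
      have a3 := h3 hxy.symm
      refine ⟨e, ⟨hab, he.symm, Or.inr ⟨a1, a2⟩⟩, hab, cc_ne' a3, ?_⟩
      rcases h.2.2 with ⟨h4, h5⟩ | ⟨h4, h5⟩
      · left
        refine ⟨h5, ?_⟩
        rcases cc_or h4 e with h6 | h6
        · exact absurd h6 (cc_asymm a1)
        · exact h6
      · right
        exact ⟨cc_trans (cc_symm h4) a1, cc_trans (cc_symm h5) a2⟩
  · rintro ⟨e, h, h'⟩
    obtain ⟨hab, hax, hae, hbx, hbe, hxe⟩ := ((hQ c).1 a b x e).2.2 h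
    by_cases hxy : x = y
    · exact Or.inl ⟨hab, hax.symm, hbx.symm, hxy⟩
    · right
      refine ⟨hab, hxy, ?_⟩
      rcases h.2.2 with ⟨h1, h2⟩ | ⟨h1, h2⟩
      · rcases h'.2.2 with ⟨h3, h4⟩ | ⟨h3, h4⟩
        · exact Or.inl ⟨h1, h3⟩
        · left
          refine ⟨h1, ?_⟩
          rcases cc_or h2 y with h5 | h5
          · exact absurd (cc_symm h3) (cc_asymm h5)
          · exact h5
      · rcases h'.2.2 with ⟨h3, h4⟩ | ⟨h3, h4⟩
        · left
          refine ⟨?_, h3⟩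
          rcases cc_or h4 x with h5 | h5
          · exact absurd (cc_symm h1) (cc_asymm h5)
          · exact h5
        · right
          exact ⟨cc_trans h1 (cc_symm h3), cc_trans h2 (cc_symm h4)⟩

end FQQP

open FQQP

theorem QQP_pf (hPPB : S_PPB) (hQFA : S_QFA) : S_QQP := by
  intro c σ 𝔅 h
  obtain ⟨_, hand, hsub, hex, _, _, _⟩ := hPPB σ (Word c) 𝔅
  have h1 := hsub (Fin 4) (Fin 5) (Q4 (c := c)) ![0, 1, 2, 4] h
  have h2 := hsub (Fin 4) (Fin 5) (Q4 (c := c)) ![0, 1, 3, 4] h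
  have h3 := hand (Fin 5) _ _ h1 h2
  have h4 := hex (Fin 5) (Fin 4) _ Fin.castSucc h3
  have hEq : (QQ (c := c)) = (fun u : Fin 4 → Word c => ∃ v : Fin 5 → Word c,
      (Q4 (fun x => v (![0, 1, 2, 4] x)) ∧ Q4 (fun x => v (![0, 1, 3, 4] x))) ∧
        ∀ y, u y = v (Fin.castSucc y)) := by
    funext u
    apply propext
    have hc := core hQFA (u 0) (u 1) (u 2) (u 3)
    constructor
    · intro hu
      obtain ⟨e, he, he'⟩ := hc.1 hu
      refine ⟨Fin.snoc u e, ⟨?_, ?_⟩, ?_⟩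
      · exact he
      · exact he'
      · intro y
        rw [Fin.snoc_castSucc]
    · rintro ⟨v, ⟨h5, h6⟩, h7⟩
      apply hc.2
      refine ⟨v 4, ?_, ?_⟩
      · have e0 := h7 0
        have e1 := h7 1
        have e2 := h7 2
        rw [e0, e1, e2]
        exact h5
      · have e0 := h7 0
        have e1 := h7 1
        have e3 := h7 3
        rw [e0, e1, e3]
        exact h6
  rw [hEq]
  exact h4

end Pool.Agent.Work.MP_8dbde4_lc.Full
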