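import Pool.Agent.Work.MP_8dbde4_lc.Full.StmtsB

/-!
# Item QQT: quartets with a point on the top are splits
-/

set_option autoImplicit false
open Classical

namespace Pool.Agent.Work.MP_8dbde4_lc.Full

open Pool.Agent.Work.MP_8dbde4_lc.TS Pool.Agent.Work.MP_8dbde4_lc.Tree
  Pool.Agent.Work.MP_8dbde4_lc.Phy BT

theorem QQT_pf : S_QQT := by
  intro c s z x y h
  have hz : z ∈ ({z, x, y} : Set (Word c)) := by simp
  have hx : x ∈ ({z, x, y} : Set (Word c)) := by simp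
  have hy : y ∈ ({z, x, y} : Set (Word c)) := by simp
  have hsz : s ≠ z := cc_ne (h z hz z hz)
  have hsx : s ≠ x := cc_ne (h x hx x hx)
  have e : QQ ![s, z, x, y] ↔ ((s ≠ z ∧ x ≠ s ∧ x ≠ z ∧ x = y) ∨
      (s ≠ z ∧ x ≠ y ∧ ((Cc x s z ∧ Cc y s z) ∨ (Cc s x y ∧ Cc z x y)))) := Iff.rfl
  rw [e]
  constructor
  · rintro (⟨_, _, h3, h4⟩ | ⟨_, _, (⟨h3, _⟩ | ⟨_, h4⟩)⟩)
    · rw [← h4]
      exact cc_self (Ne.symm h3)
    · exact absurd (h x hx z hz) (cc_asymm h3)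
    · exact h4
  · intro hc
    by_cases hxy : x = y
    · exact Or.inl ⟨hsz, Ne.symm hsx, Ne.symm (cc_ne hc), hxy⟩
    · exact Or.inr ⟨hsz, hxy, Or.inr ⟨h x hx y hy, hc⟩⟩

end Pool.Agent.Work.MP_8dbde4_lc.Full
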