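import Pool.Agent.Work.MP_8dbde4_lc.Full.StmtsA

set_option autoImplicit false
open Classical

namespace Pool.Agent.Work.MP_8dbde4_lc.Full

open Pool.Agent.Work.MP_8dbde4_lc.TS Pool.Agent.Work.MP_8dbde4_lc.Tree
  Pool.Agent.Work.MP_8dbde4_lc.Phy BT

namespace FRAM

/-- the shape -/
def shp {Λ : Type} (t : BT Λ) : BT Unit := t.map (fun _ => ())

theorem sub_lvs {Λ : Type} {t z : BT Λ} (h : Sub t z) : ∀ x ∈ t.lvs, x ∈ z.lvs := by
  induction h with
  | rfl x => exact fun y hy => hy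
  | left r _ ih => intro x hx; simp only [BT.lvs, List.mem_append]; exact Or.inl (ih x hx)
  | right l _ ih => intro x hx; simp only [BT.lvs, List.mem_append]; exact Or.inr (ih x hx)
  | both _ _ ih1 ih2 =>
    intro x hx
    simp only [BT.lvs, List.mem_append] at hx ⊢
    rcases hx with hx | hx
    · exact Or.inl (ih1 x hx)
    · exact Or.inr (ih2 x hx)

/-- bound for the number of subtrees -/
def sb : ℕ → ℕ
  | 0 => 1
  | n + 1 => 2 * sb n + sb n * sb n

theorem sub_fin {Λ : Type} : ∀ (N : ℕ) (y : BT Λ), y.Cpl N →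
    ∃ S : Finset (BT Λ), S.card ≤ sb N ∧ ∀ t, Sub t y → t ∈ S := by
  intro N
  induction N with
  | zero =>
    intro y hy
    cases y with
    | lf x =>
      refine ⟨{lf x}, by simp [sb], ?_⟩
      intro t ht
      cases ht
      simp
    | nd l r => simp [BT.Cpl] at hy
  | succ N ih =>
    intro y hy
    cases y with
    | lf x => simp [BT.Cpl] at hy
    | nd l r =>
      simp only [BT.Cpl] at hy
      obtain ⟨Sl, hl1, hl2⟩ := ih l hy.1
      obtain ⟨Sr, hr1, hr2⟩ := ih r hy.2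
      refine ⟨(Sl ∪ Sr) ∪ (Sl ×ˢ Sr).image (fun p => nd p.1 p.2), ?_, ?_⟩
      · refine (Finset.card_union_le _ _).trans ?_
        have h1 := Finset.card_union_le Sl Sr
        have h2 : ((Sl ×ˢ Sr).image (fun p => nd p.1 p.2)).card ≤ Sl.card * Sr.card := by
          refine Finset.card_image_le.trans ?_
          rw [Finset.card_product]
        have h3 : Sl.card * Sr.card ≤ sb N * sb N := Nat.mul_le_mul hl1 hr1
        simp only [sb]
        omega
      · intro t ht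
        cases ht with
        | left _ h => simp [hl2 t h]
        | right _ h => simp [hr2 t h]
        | @both t u _ _ h1 h2 =>
          simp only [Finset.mem_union, Finset.mem_image, Finset.mem_product]
          right
          exact ⟨(t, u), ⟨hl2 t h1, hr2 u h2⟩, rfl⟩

/-- The Ramsey statement for the shape `P`, with arbitrary finite sets of colours. -/
def RT (P : BT Unit) : Prop := ∀ (r n : ℕ), ∃ N : ℕ, ∀ (Λ : Type) (y : BT Λ), y.Cpl N →
  ∀ (κ : Type) [Fintype κ], Fintype.card κ = r → ∀ χ : BT Λ → κ, ∃ z, Sub z y ∧ z.Cpl n ∧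
    ∃ k, ∀ t, Sub t z → shp t = P → χ t = k

theorem base (h1 : S_LPH) : RT (lf ()) := by
  intro r n
  refine ⟨r * n, ?_⟩
  intro Λ y hy κ _ hκ χ
  obtain ⟨k, z, hz1, hz2, hz3⟩ := h1 Λ κ (fun x => χ (lf x)) (r * n) (fun _ => n) y hy
    (by simp [hκ])
  refine ⟨z, hz1, hz2, k, ?_⟩
  intro t ht hs
  cases t with
  | lf x => exact hz3 x (sub_lvs ht x (by simp [BT.lvs]))
  | nd a b => simp [shp, BT.map] at hs

theorem step1 (h2 : S_SUB) {P₁ P₂ : BT Unit} (H1 : RT P₁) (H2 : RT P₂) (r M : ℕ) :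
    ∃ M' : ℕ, ∀ (Λ : Type) (a b : BT Λ), a.Cpl M' → b.Cpl M' →
      ∀ (κ : Type) [Fintype κ], Fintype.card κ = r → ∀ χ : BT Λ → BT Λ → κ,
        ∃ a' b', Sub a' a ∧ Sub b' b ∧ a'.Cpl M ∧ b'.Cpl M ∧
          ∃ k, ∀ t u, Sub t a' → Sub u b' → shp t = P₁ → shp u = P₂ → χ t u = k := by
  obtain ⟨N₂, hN₂⟩ := H2 r M
  obtain ⟨N₁, hN₁⟩ := H1 (r ^ sb N₂) M
  refine ⟨max N₁ N₂, ?_⟩
  intro Λ a b ha hb κ _ hκ χ
  obtain ⟨_, htr, hcp, _⟩ := h2 Λ
  obtain ⟨a₁, ha₁, ha₁'⟩ := hcp a N₁ _ ha (le_max_left _ _)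
  obtain ⟨b₁, hb₁, hb₁'⟩ := hcp b N₂ _ hb (le_max_right _ _)
  obtain ⟨S, hS1, hS2⟩ := sub_fin N₂ b₁ hb₁'
  -- an injection of `S` into `Fin (sb N₂)`
  have hemb : ∃ ι : S → Fin (sb N₂), Function.Injective ι := by
    have : Fintype.card S ≤ Fintype.card (Fin (sb N₂)) := by simpa using hS1
    obtain ⟨f⟩ := Function.Embedding.nonempty_of_card_le this
    exact ⟨f, f.injective⟩
  obtain ⟨ι, hι⟩ := hemb
  have hcard : Fintype.card (Fin (sb N₂) → κ) = r ^ sb N₂ := by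
    rw [Fintype.card_fun, hκ, Fintype.card_fin]
  obtain ⟨a', ha', haC, f, hf⟩ := hN₁ Λ a₁ ha₁' (Fin (sb N₂) → κ) hcard
    (fun t i => if h : ∃ s : S, ι s = i then χ t h.choose.1 else χ t b)
  have key : ∀ t u, Sub t a' → Sub u b₁ → shp t = P₁ → ∀ t', Sub t' a' → shp t' = P₁ →
      χ t u = χ t' u := by
    intro t u ht hu hst t' ht' hst'
    have huS : u ∈ S := hS2 u hu
    have e1 := congrFun (hf t ht hst) (ι ⟨u, huS⟩)
    have e2 := congrFun (hf t' ht' hst') (ι ⟨u, huS⟩)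
    have hex : ∃ s : S, ι s = ι ⟨u, huS⟩ := ⟨⟨u, huS⟩, rfl⟩
    have hch : hex.choose = ⟨u, huS⟩ := hι hex.choose_spec
    simp only [dif_pos hex, hch] at e1 e2
    rw [e1, e2]
  by_cases hex : ∃ t, Sub t a' ∧ shp t = P₁
  · obtain ⟨t₀, ht₀, hst₀⟩ := hex
    obtain ⟨b', hb', hbC, k, hk⟩ := hN₂ Λ b₁ hb₁' κ hκ (χ t₀)
    refine ⟨a', b', htr _ _ _ ha' ha₁, htr _ _ _ hb' hb₁, haC, hbC, k, ?_⟩
    intro t u ht hu hst hsu
    rw [key t u ht (htr _ _ _ hu hb') hst t₀ ht₀ hst₀]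
    exact hk u hu hsu
  · obtain ⟨b', hb', hbC, k, hk⟩ := hN₂ Λ b₁ hb₁' κ hκ (χ a)
    refine ⟨a', b', htr _ _ _ ha' ha₁, htr _ _ _ hb' hb₁, haC, hbC, k, ?_⟩
    intro t u ht hu hst hsu
    exact absurd ⟨t, ht, hst⟩ hex

/-- Every node has one colour. -/
def HC {Λ κ : Type} (P₁ P₂ : BT Unit) (χ : BT Λ → κ) : BT Λ → Prop
  | lf _ => True
  | nd l r => HC P₁ P₂ χ l ∧ HC P₁ P₂ χ r ∧
      ∃ k, ∀ t u, Sub t l → Sub u r → shp t = P₁ → shp u = P₂ → χ (nd t u) = k

theorem step2 (h2 : S_SUB) {P₁ P₂ : BT Unit} (H1 : RT P₁) (H2 : RT P₂) (r h : ℕ) :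
    ∃ N : ℕ, ∀ (Λ : Type) (y : BT Λ), y.Cpl N →
      ∀ (κ : Type) [Fintype κ], Fintype.card κ = r → ∀ χ : BT Λ → κ,
        ∃ z, Sub z y ∧ z.Cpl h ∧ HC P₁ P₂ χ z := by
  induction h with
  | zero =>
    refine ⟨0, ?_⟩
    intro Λ y hy κ _ hκ χ
    cases y with
    | lf x => exact ⟨lf x, Sub.rfl x, hy, trivial⟩
    | nd a b => simp [BT.Cpl] at hy
  | succ h ih =>
    obtain ⟨N, hN⟩ := ih
    obtain ⟨M', hM'⟩ := step1 h2 H1 H2 r N
    refine ⟨M' + 1, ?_⟩
    intro Λ y hy κ _ hκ χ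
    cases y with
    | lf x => simp [BT.Cpl] at hy
    | nd a b =>
      simp only [BT.Cpl] at hy
      obtain ⟨_, htr, _, _⟩ := h2 Λ
      obtain ⟨a', b', ha', hb', haC, hbC, k, hk⟩ := hM' Λ a b hy.1 hy.2 κ hκ
        (fun t u => χ (nd t u))
      obtain ⟨a'', ha'', haC', haH⟩ := hN Λ a' haC κ hκ χ
      obtain ⟨b'', hb'', hbC', hbH⟩ := hN Λ b' hbC κ hκ χ
      refine ⟨nd a'' b'', Sub.both (htr _ _ _ ha'' ha') (htr _ _ _ hb'' hb'), ?_, ?_⟩
      · simp only [BT.Cpl]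
        exact ⟨haC', hbC'⟩
      · refine ⟨haH, hbH, k, ?_⟩
        intro t u ht hu hst hsu
        exact hk t u (htr _ _ _ ht ha'') (htr _ _ _ hu hb'') hst hsu

theorem step3 (h2 : S_SUB) {P₁ P₂ : BT Unit} {Λ κ : Type} [Fintype κ] [Nonempty κ]
    (χ : BT Λ → κ) : ∀ (h : ℕ) (n : κ → ℕ) (z : BT Λ), z.Cpl h → HC P₁ P₂ χ z →
      ∑ k, n k ≤ h → ∃ (k : κ) (z' : BT Λ), Sub z' z ∧ z'.Cpl (n k) ∧
        ∀ t, Sub t z' → shp t = nd P₁ P₂ → χ t = k := by
  obtain ⟨hrf, htr, hcp, _⟩ := h2 Λ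
  intro h
  induction h with
  | zero =>
    intro n z hz hH hn
    obtain ⟨k⟩ := (inferInstance : Nonempty κ)
    have hk : n k = 0 := by
      have : n k ≤ ∑ k, n k := Finset.single_le_sum (fun _ _ => Nat.zero_le _) (Finset.mem_univ k)
      omega
    refine ⟨k, z, hrf z, by rw [hk]; exact hz, ?_⟩
    intro t ht hs
    cases z with
    | lf x =>
      cases ht
      simp [shp, BT.map] at hs
    | nd a b => simp [BT.Cpl] at hz
  | succ h ih =>
    intro n z hz hH hn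
    by_cases h0 : ∃ k, n k = 0
    · obtain ⟨k, hk⟩ := h0
      obtain ⟨z', hz', hzC⟩ := hcp z 0 _ hz (Nat.zero_le _)
      refine ⟨k, z', hz', by rw [hk]; exact hzC, ?_⟩
      intro t ht hs
      cases z' with
      | lf x =>
        cases ht
        simp [shp, BT.map] at hs
      | nd a b => simp [BT.Cpl] at hzC
    · push Not at h0
      cases z with
      | lf x => simp [BT.Cpl] at hz
      | nd a b =>
        simp only [BT.Cpl] at hz
        obtain ⟨hHa, hHb, k₀, hk₀⟩ := hH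
        have hpos : 0 < n k₀ := Nat.pos_of_ne_zero (h0 k₀)
        have hsum : ∑ k, Function.update n k₀ (n k₀ - 1) k ≤ h := by
          have e1 : ∑ k, n k = n k₀ + ∑ k ∈ Finset.univ.erase k₀, n k :=
            (Finset.add_sum_erase _ _ (Finset.mem_univ k₀)).symm
          have e2 : ∑ k, Function.update n k₀ (n k₀ - 1) k =
              Function.update n k₀ (n k₀ - 1) k₀ +
                ∑ k ∈ Finset.univ.erase k₀, Function.update n k₀ (n k₀ - 1) k :=
            (Finset.add_sum_erase _ _ (Finset.mem_univ k₀)).symm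
          have e3 : ∑ k ∈ Finset.univ.erase k₀, Function.update n k₀ (n k₀ - 1) k =
              ∑ k ∈ Finset.univ.erase k₀, n k := by
            apply Finset.sum_congr rfl
            intro k hk
            rw [Function.update_of_ne (Finset.ne_of_mem_erase hk)]
          rw [e2, e3, Function.update_self]
          omega
        obtain ⟨k₁, a', ha', haC, hak⟩ := ih (Function.update n k₀ (n k₀ - 1)) a hz.1 hHa hsum
        obtain ⟨k₂, b', hb', hbC, hbk⟩ := ih (Function.update n k₀ (n k₀ - 1)) b hz.2 hHb hsum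
        by_cases c1 : k₁ = k₀
        · by_cases c2 : k₂ = k₀
          · subst c1
            subst c2
            rw [Function.update_self] at haC hbC
            refine ⟨k₂, nd a' b', Sub.both ha' hb', ?_, ?_⟩
            · obtain ⟨m, hm⟩ : ∃ m, n k₂ = m + 1 := ⟨n k₂ - 1, by omega⟩
              rw [hm] at haC hbC ⊢
              simp only [BT.Cpl]
              exact ⟨haC, hbC⟩
            · intro t ht hs
              cases ht with
              | left _ h => exact hak t h hs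
              | right _ h => exact hbk t h hs
              | @both t u _ _ g1 g2 =>
                have hs' : shp t = P₁ ∧ shp u = P₂ := by
                  simpa [shp, BT.map] using hs
                exact hk₀ t u (htr _ _ _ g1 ha') (htr _ _ _ g2 hb') hs'.1 hs'.2
          · rw [Function.update_of_ne c2] at hbC
            exact ⟨k₂, b', Sub.right a hb', hbC, hbk⟩
        · rw [Function.update_of_ne c1] at haC
          exact ⟨k₁, a', Sub.left b ha', haC, hak⟩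

theorem rt (h1 : S_LPH) (h2 : S_SUB) : ∀ P : BT Unit, RT P := by
  intro P
  induction P with
  | lf x => exact base h1
  | nd P₁ P₂ H1 H2 =>
    intro r n
    obtain ⟨N, hN⟩ := step2 h2 H1 H2 r (r * n)
    refine ⟨N, ?_⟩
    intro Λ y hy κ _ hκ χ
    obtain ⟨_, htr, _, _⟩ := h2 Λ
    obtain ⟨z, hz, hzC, hH⟩ := hN Λ y hy κ hκ χ
    have : Nonempty κ := ⟨χ y⟩
    obtain ⟨k, z', hz', hzC', hk⟩ := step3 h2 χ (r * n) (fun _ => n) z hzC hH (by simp [hκ])
    exact ⟨z', htr _ _ _ hz' hz, hzC', k, hk⟩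

end FRAM

theorem RAM_pf (h1 : S_LPH) (h2 : S_SUB) : S_RAM := by
  intro P r n
  obtain ⟨N, hN⟩ := FRAM.rt h1 h2 P r n
  exact ⟨N, fun Λ y hy χ => hN Λ y hy (Fin r) (by simp) χ⟩

end Pool.Agent.Work.MP_8dbde4_lc.Full
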