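import Pool.Agent.Work.MP_8dbde4_lc.Full.StmtsB

set_option autoImplicit false
open Classical

namespace Pool.Agent.Work.MP_8dbde4_lc.Full

open Pool.Agent.Work.MP_8dbde4_lc.TS Pool.Agent.Work.MP_8dbde4_lc.Tree
  Pool.Agent.Work.MP_8dbde4_lc.Phy BT

namespace FRRT

variable {c : ℚ → Bool} {σ : Sig}

theorem sep_symm {X : Type} {v : X → Word c} {A B : List X} (h : Sep v A B) : Sep v B A := by
  refine ⟨?_, ?_⟩
  · intro x hx y hy z hz
    exact h.2 z hz x hx y hy
  · intro x hx y hy z hz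
    exact h.1 y hy z hz x hx

theorem sep_mono {X : Type} {v : X → Word c} {A A' B B' : List X} (h : Sep v A B)
    (hA : ∀ x ∈ A', x ∈ A) (hB : ∀ x ∈ B', x ∈ B) : Sep v A' B' := by
  refine ⟨?_, ?_⟩
  · intro x hx y hy z hz
    exact h.1 x (hA x hx) y (hA y hy) z (hB z hz)
  · intro x hx y hy z hz
    exact h.2 x (hA x hx) y (hB y hy) z (hB z hz)

theorem sh_swap {X : Type} {v : X → Word c} {l r : BT X} (h : Sh v (nd l r)) :
    Sh v (nd r l) := ⟨h.2.1, h.1, sep_symm h.2.2⟩

theorem sh_swap2 {X : Type} {v : X → Word c} {l r B : BT X} (h : Sh v (nd (nd l r) B)) :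
    Sh v (nd (nd r l) B) := by
  refine ⟨sh_swap h.1, h.2.1, sep_mono h.2.2 ?_ (fun x hx => hx)⟩
  intro x hx
  have hx' : x ∈ r.lvs ++ l.lvs := hx
  have : x ∈ l.lvs ++ r.lvs := by
    rw [List.mem_append] at hx' ⊢
    exact hx'.symm
  exact this

theorem size_pos {X : Type} (t : BT X) : 0 < t.size := by
  induction t with
  | lf x => exact Nat.one_pos
  | nd l r hl _ => exact Nat.lt_of_lt_of_le hl (Nat.le_add_right _ _)

theorem main (hF : S_F3T) (hSF : S_SHF) (hSX : S_SHX) (𝔅 : Str σ (Word c)) (hA : AllInv 𝔅)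
    (hF3 : F3 𝔅) (X : Type) [Finite X] (s : X) : ∀ (n : ℕ) (P B : BT X) (v : X → Word c),
    P.size ≤ n → s ∈ P.lvs → (∀ x, x ∈ (nd P B).lvs) → Sh v (nd P B) →
    ∃ (w : X → Word c) (B' : BT X), Arr 𝔅 v w ∧ (∀ x, x ∈ (nd (lf s) B').lvs) ∧
      Sh w (nd (lf s) B') := by
  intro n
  induction n with
  | zero =>
    intro P B v hP
    exact absurd hP (by have := size_pos P; omega)
  | succ n ih =>
    intro P B v hP hs hall hv
    cases P with
    | lf a =>
      have hsa : s = a := by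
        have : s ∈ [a] := hs
        simpa using this
      subst hsa
      exact ⟨v, B, Arr.refl 𝔅 v, hall, hv⟩
    | nd A₁ A₂ =>
      have key : ∀ A₁ A₂ : BT X, (nd A₁ A₂).size ≤ n + 1 → s ∈ A₁.lvs →
          (∀ x, x ∈ (nd (nd A₁ A₂) B).lvs) → Sh v (nd (nd A₁ A₂) B) →
          ∃ (w : X → Word c) (B' : BT X), Arr 𝔅 v w ∧ (∀ x, x ∈ (nd (lf s) B').lvs) ∧
            Sh w (nd (lf s) B') := by
        intro A₁ A₂ hsz hs1 hall1 hv1
        have hnd := ((hSF c X (nd (nd A₁ A₂) B)).1 v hv1).1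
        have hl : (nd A₁ (nd A₂ B)).lvs = (nd (nd A₁ A₂) B).lvs := by
          change A₁.lvs ++ (A₂.lvs ++ B.lvs) = (A₁.lvs ++ A₂.lvs) ++ B.lvs
          rw [List.append_assoc]
        have hnd' : (nd A₁ (nd A₂ B)).lvs.Nodup := by
          rw [hl]
          exact hnd
        obtain ⟨u, hu⟩ := (hSX c X).1 (nd A₁ (nd A₂ B)) hnd'
        have hvu : Arr 𝔅 v u := hF c σ 𝔅 hA hF3 X A₁ A₂ B v u hall1 hv1 hu
        have hsz' : A₁.size ≤ n := by
          have h1 : A₁.size + A₂.size ≤ n + 1 := hsz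
          have := size_pos A₂
          omega
        have hall' : ∀ x, x ∈ (nd A₁ (nd A₂ B)).lvs := by
          intro x
          rw [hl]
          exact hall1 x
        obtain ⟨w, B', h1, h2, h3⟩ := ih A₁ (nd A₂ B) u hsz' hs1 hall' hu
        exact ⟨w, B', hvu.trans h1, h2, h3⟩
      have hs' : s ∈ A₁.lvs ++ A₂.lvs := hs
      rcases List.mem_append.1 hs' with h | h
      · exact key A₁ A₂ hP h hall hv
      · refine key A₂ A₁ ?_ h ?_ (sh_swap2 hv)
        · have h1 : A₁.size + A₂.size ≤ n + 1 := hP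
          change A₂.size + A₁.size ≤ n + 1
          omega
        · intro x
          have hx : x ∈ (A₁.lvs ++ A₂.lvs) ++ B.lvs := hall x
          change x ∈ (A₂.lvs ++ A₁.lvs) ++ B.lvs
          rw [List.mem_append, List.mem_append] at hx ⊢
          rcases hx with (hx | hx) | hx
          · exact Or.inl (Or.inr hx)
          · exact Or.inl (Or.inl hx)
          · exact Or.inr hx

end FRRT

theorem RRT_pf (hF : S_F3T) (hSF : S_SHF) (hSX : S_SHX) : S_RRT := by
  intro c σ 𝔅 hA hF3 X _ v s hv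
  obtain ⟨T, hT, hTv⟩ := (hSX c X).2 v Set.univ ⟨s, trivial⟩ (hv.injOn)
  have hfin : ∀ (w : X → Word c) (B' : BT X), Arr 𝔅 v w → (∀ x, x ∈ (nd (lf s) B').lvs) →
      Sh w (nd (lf s) B') → ∃ w : X → Word c, Function.Injective w ∧ Arr 𝔅 v w ∧
        ∀ x y, x ≠ s → y ≠ s → Cc (w s) (w x) (w y) := by
    intro w B' h1 h2 h3
    refine ⟨w, ?_, h1, ?_⟩
    · intro x y hxy
      exact ((hSF c X (nd (lf s) B')).1 w h3).2 (h2 x) (h2 y) hxy
    · intro x y hx hy
      have hmem : ∀ z, z ≠ s → z ∈ B'.lvs := by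
        intro z hz
        have : z ∈ [s] ++ B'.lvs := h2 z
        rcases List.mem_append.1 this with h | h
        · exact absurd (by simpa using h) hz
        · exact h
      exact h3.2.2.2 s (by simp [lvs]) x (hmem x hx) y (hmem y hy)
  cases T with
  | lf a =>
    have hall : ∀ x, x = a := by
      intro x
      have : x ∈ [a] := (hT x).2 trivial
      simpa using this
    refine ⟨v, hv, Arr.refl 𝔅 v, ?_⟩
    intro x y hx _
    exact absurd ((hall x).trans (hall s).symm) hx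
  | nd l r =>
    have hs : s ∈ l.lvs ++ r.lvs := (hT s).2 trivial
    rcases List.mem_append.1 hs with h | h
    · obtain ⟨w, B', h1, h2, h3⟩ := FRRT.main hF hSF hSX 𝔅 hA hF3 X s l.size l r v le_rfl h
        (fun x => (hT x).2 trivial) hTv
      exact hfin w B' h1 h2 h3
    · have hall : ∀ x, x ∈ (nd r l).lvs := by
        intro x
        have hx : x ∈ l.lvs ++ r.lvs := (hT x).2 trivial
        change x ∈ r.lvs ++ l.lvs
        rw [List.mem_append] at hx ⊢
        exact hx.symm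
      obtain ⟨w, B', h1, h2, h3⟩ := FRRT.main hF hSF hSX 𝔅 hA hF3 X s r.size r l v le_rfl h
        hall (FRRT.sh_swap hTv)
      exact hfin w B' h1 h2 h3

end Pool.Agent.Work.MP_8dbde4_lc.Full
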