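import Pool.Agent.Work.MP_8dbde4_lc.Full.StmtsB

set_option autoImplicit false
open Classical

/-!
# Rewriting to combs
-/

namespace Pool.Agent.Work.MP_8dbde4_lc.Full

open Pool.Agent.Work.MP_8dbde4_lc.TS Pool.Agent.Work.MP_8dbde4_lc.Tree
  Pool.Agent.Work.MP_8dbde4_lc.Phy BT

namespace FRWC

variable {X : Type}

theorem congR {r r' : BT X} (l : BT X) (h : Rw r r') : Rw (nd l r) (nd l r') :=
  (Rw.swap l r).trans ((Rw.congr l h).trans (Rw.swap r' l))

theorem perm {t u : BT X} (h : Rw t u) : List.Perm t.lvs u.lvs := by
  induction h with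
  | refl t => exact List.Perm.refl _
  | trans _ _ h1 h2 => exact h1.trans h2
  | swap l r => exact List.perm_append_comm
  | jump x Y Z =>
    show List.Perm (([x] ++ Y.lvs) ++ Z.lvs) (([x] ++ Z.lvs) ++ Y.lvs)
    rw [List.append_assoc, List.append_assoc]
    exact List.Perm.append_left _ List.perm_append_comm
  | congr r _ h => exact h.append_right _

theorem lvs_combT : ∀ (x : X) (ℓ : List X), (combT x ℓ).lvs = x :: ℓ
  | x, [] => rfl
  | x, y :: ℓ => by
    show [x] ++ (combT y ℓ).lvs = x :: y :: ℓ
    rw [lvs_combT y ℓ]
    rfl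

theorem lvs_pos (T : BT X) : 0 < T.lvs.length := by
  induction T with
  | lf x => exact Nat.one_pos
  | nd l r hl hr =>
    show 0 < (l.lvs ++ r.lvs).length
    rw [List.length_append]
    omega

theorem lvs_cons (T : BT X) : ∃ z ℓ, T.lvs = z :: ℓ := by
  cases h : T.lvs with
  | nil =>
    have := lvs_pos T
    rw [h] at this
    exact absurd this (lt_irrefl _)
  | cons z ℓ => exact ⟨z, ℓ, rfl⟩

/-- Step 1. -/
theorem step1 (n : ℕ)
    (IH : ∀ (T : BT X) (x : X) (ℓ : List X), T.lvs.length < n → List.Perm T.lvs (x :: ℓ) →
      Rw T (combT x ℓ)) :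
    ∀ (k : ℕ) (T₁ T₂ : BT X), T₁.lvs.length = k → T₁.lvs.length + T₂.lvs.length = n →
      ∃ (z : X) (T' : BT X), Rw (nd T₁ T₂) (nd (lf z) T') := by
  intro k
  induction k using Nat.strong_induction_on with
  | _ k ih =>
    intro T₁ T₂ hk hn
    cases T₁ with
    | lf z => exact ⟨z, T₂, Rw.refl _⟩
    | nd a b =>
      have ha := lvs_pos a
      have hb := lvs_pos b
      have h2 := lvs_pos T₂
      have hab : (nd a b).lvs.length = a.lvs.length + b.lvs.length := List.length_append
      obtain ⟨z, ℓ₁, hz⟩ := lvs_cons (nd a b)
      have hR := IH (nd a b) z ℓ₁ (by omega) (by rw [hz])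
      cases ℓ₁ with
      | nil =>
        rw [hz] at hab
        simp only [List.length_cons, List.length_nil] at hab
        omega
      | cons y ℓ₂ =>
        have hC : (combT y ℓ₂).lvs.length + 1 = k := by
          rw [lvs_combT, ← hk, hz]
          simp
        have e1 : Rw (nd (nd a b) T₂) (nd (nd (lf z) (combT y ℓ₂)) T₂) := Rw.congr T₂ hR
        have e2 := Rw.jump z (combT y ℓ₂) T₂
        have e3 := Rw.swap (nd (lf z) T₂) (combT y ℓ₂)
        have hl : (nd (lf z) T₂).lvs.length = 1 + T₂.lvs.length := List.length_append
        obtain ⟨z', T', h'⟩ := ih (combT y ℓ₂).lvs.length (by omega) (combT y ℓ₂) (nd (lf z) T₂) rfl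
          (by omega)
        exact ⟨z', T', (e1.trans (e2.trans e3)).trans h'⟩

theorem main : ∀ (n : ℕ) (T : BT X) (x : X) (ℓ : List X), T.lvs.length = n →
    List.Perm T.lvs (x :: ℓ) → Rw T (combT x ℓ) := by
  intro n
  induction n using Nat.strong_induction_on with
  | _ n IH =>
    intro T x ℓ hn hp
    cases T with
    | lf x₀ =>
      have h1 : x :: ℓ = [x₀] := List.perm_singleton.1 hp.symm
      rw [List.cons.injEq] at h1
      obtain ⟨rfl, rfl⟩ := h1
      exact Rw.refl _
    | nd T₁ T₂ =>
      have IH' : ∀ (T : BT X) (x : X) (ℓ : List X), T.lvs.length < n →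
          List.Perm T.lvs (x :: ℓ) → Rw T (combT x ℓ) :=
        fun T x ℓ hT h => IH T.lvs.length hT T x ℓ rfl h
      have hlen : (nd T₁ T₂).lvs.length = T₁.lvs.length + T₂.lvs.length := List.length_append
      obtain ⟨z, T', hR⟩ := step1 n IH' T₁.lvs.length T₁ T₂ rfl (by omega)
      have hp1 : List.Perm (nd (lf z) T').lvs (x :: ℓ) := (perm hR).symm.trans hp
      have hp2 : List.Perm (z :: T'.lvs) (x :: ℓ) := hp1
      have hl' : T'.lvs.length + 1 = n := by
        have h := (perm hR).length_eq
        have h' : (nd (lf z) T').lvs.length = 1 + T'.lvs.length := List.length_append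
        omega
      refine hR.trans ?_
      have hℓ : ℓ.length + 1 = n := by
        have h := hp2.length_eq
        simp only [List.length_cons] at h
        omega
      have hT'pos := lvs_pos T'
      cases ℓ with
      | nil =>
        simp only [List.length_nil] at hℓ
        omega
      | cons y ℓ' =>
        by_cases hzx : z = x
        · subst hzx
          have hp3 : List.Perm T'.lvs (y :: ℓ') := List.Perm.cons_inv hp2
          exact congR (lf z) (IH' T' y ℓ' (by omega) hp3)
        · have hmem : x ∈ T'.lvs := by
            have h : x ∈ z :: T'.lvs := hp2.symm.subset List.mem_cons_self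
            rcases List.mem_cons.1 h with h | h
            · exact absurd h.symm hzx
            · exact h
          obtain ⟨m, hm⟩ : ∃ m, List.Perm T'.lvs (x :: m) :=
            ⟨T'.lvs.erase x, List.perm_cons_erase hmem⟩
          have hT' : Rw T' (combT x m) := IH' T' x m (by omega) hm
          have e0 := congR (lf z) hT'
          have hq : List.Perm (z :: m) (y :: ℓ') := by
            have h1 : List.Perm (z :: T'.lvs) (z :: x :: m) := hm.cons z
            have h2 : List.Perm (z :: x :: m) (x :: z :: m) := List.Perm.swap x z m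
            exact List.Perm.cons_inv ((h2.symm.trans h1.symm).trans hp2)
          cases m with
          | nil =>
            have h1 : y :: ℓ' = [z] := List.perm_singleton.1 hq.symm
            rw [List.cons.injEq] at h1
            obtain ⟨rfl, rfl⟩ := h1
            exact e0.trans (Rw.swap (lf y) (lf x))
          | cons w m' =>
            have f1 : Rw (nd (lf z) (nd (lf x) (combT w m'))) (nd (nd (lf x) (combT w m')) (lf z)) :=
              Rw.swap _ _
            have f2 : Rw (nd (nd (lf x) (combT w m')) (lf z)) (nd (nd (lf x) (lf z)) (combT w m')) :=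
              Rw.jump _ _ _
            have f3 : Rw (nd (nd (lf x) (lf z)) (combT w m')) (nd (nd (lf z) (lf x)) (combT w m')) :=
              Rw.congr _ (Rw.swap _ _)
            have f4 : Rw (nd (nd (lf z) (lf x)) (combT w m')) (nd (nd (lf z) (combT w m')) (lf x)) :=
              Rw.jump _ _ _
            have f5 : Rw (nd (nd (lf z) (combT w m')) (lf x)) (nd (lf x) (nd (lf z) (combT w m'))) :=
              Rw.swap _ _
            have hC : List.Perm (nd (lf z) (combT w m')).lvs (y :: ℓ') := by
              show List.Perm ([z] ++ (combT w m').lvs) (y :: ℓ')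
              rw [lvs_combT]
              exact hq
            have hCl : (nd (lf z) (combT w m')).lvs.length < n := by
              rw [hC.length_eq]
              simp only [List.length_cons] at hℓ ⊢
              omega
            have g := congR (lf x) (IH' (nd (lf z) (combT w m')) y ℓ' hCl hC)
            exact e0.trans (f1.trans (f2.trans (f3.trans (f4.trans (f5.trans g)))))

end FRWC

theorem RWC_pf : S_RWC := fun _ T x ℓ h => FRWC.main T.lvs.length T x ℓ rfl h

end Pool.Agent.Work.MP_8dbde4_lc.Full
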