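import Pool.Agent.Work.MP_8dbde4_lc.Full.StmtsA

/-!
Shapes exist (S_SHX).
-/

set_option autoImplicit false
open Classical

namespace Pool.Agent.Work.MP_8dbde4_lc.Full

open Pool.Agent.Work.MP_8dbde4_lc.TS Pool.Agent.Work.MP_8dbde4_lc.Tree
  Pool.Agent.Work.MP_8dbde4_lc.Phy BT

namespace FSHX

variable {c : ℚ → Bool} {X : Type}

theorem mono' {Y Z : Set X} {v w : X → Word c} (h : SameOn Y v w) (hZ : ∀ x ∈ Z, x ∈ Y) :
    SameOn Z v w :=
  ⟨fun x hx y hy => h.1 x (hZ x hx) y (hZ y hy),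
    fun x hx y hy z hz => h.2 x (hZ x hx) y (hZ y hy) z (hZ z hz)⟩

theorem part1 (hJ : S_JOI) (hS : S_SHF) [Finite X] (c : ℚ → Bool) :
    ∀ T : BT X, T.lvs.Nodup → ∃ v : X → Word c, Sh v T := by
  intro T
  induction T with
  | lf x =>
    intro _
    exact ⟨fun _ => ⟨c, by simp⟩, trivial⟩
  | nd l r ihl ihr =>
    intro hn
    have hn' : (l.lvs ++ r.lvs).Nodup := hn
    rw [List.nodup_append] at hn'
    obtain ⟨hn1, hn2, hn3⟩ := hn'
    obtain ⟨v0, h0⟩ := ihl hn1
    obtain ⟨v1, h1⟩ := ihr hn2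
    obtain ⟨u, hu, hu0, hu1⟩ := hJ c X v0 v1 (fun x => decide (x ∈ r.lvs))
    have hl : ∀ x ∈ l.lvs, decide (x ∈ r.lvs) = false := by
      intro x hx
      rw [decide_eq_false_iff_not]
      intro hxr
      exact hn3 x hx x hxr rfl
    have hr : ∀ x ∈ r.lvs, decide (x ∈ r.lvs) = true := by
      intro x hx
      rw [decide_eq_true_eq]
      exact hx
    refine ⟨u, (hS c X l).2.2.1 v0 u h0 (mono' hu0 hl), (hS c X r).2.2.1 v1 u h1 (mono' hu1 hr),
      ?_, ?_⟩
    · intro x hx y hy z hz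
      refine hu x y z ?_ ?_
      · simp only [hl x hx, hl y hy]
      · simp only [hl x hx, hr z hz]
        decide
    · intro x hx y hy z hz
      refine hu y z x ?_ ?_
      · simp only [hr y hy, hr z hz]
      · simp only [hl x hx, hr y hy]
        decide

theorem part2 (hF : S_FSX) [Finite X] (v : X → Word c) : ∀ (n : ℕ) (Y : Set X), Y.ncard = n →
    Y.Nonempty → Set.InjOn v Y → ∃ T : BT X, (∀ x, x ∈ T.lvs ↔ x ∈ Y) ∧ Sh v T := by
  intro n
  induction n using Nat.strong_induction_on with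
  | _ n ih =>
    intro Y hYn hne hinj
    obtain ⟨a, ha⟩ := hne
    by_cases h1 : ∃ b ∈ Y, b ≠ a
    · obtain ⟨b, hb, hba⟩ := h1
      obtain ⟨h, hspl⟩ := (hF c X Y v).1 ⟨a, ha, b, hb, fun he => hba (hinj ha hb he).symm⟩
      obtain ⟨⟨x, hx, y, hy, hxy⟩, hs⟩ := hspl
      have key : ∀ β : Bool, ∃ T : BT X, (∀ x, x ∈ T.lvs ↔ (x ∈ Y ∧ h x = β)) ∧ Sh v T := by
        intro β
        have hsub : {x | x ∈ Y ∧ h x = β} ⊆ Y := fun x hx => hx.1
        have hlt : ({x | x ∈ Y ∧ h x = β} : Set X).ncard < n := by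
          rw [← hYn]
          apply Set.ncard_lt_ncard _ (Set.toFinite Y)
          refine ⟨hsub, fun hc => hxy ?_⟩
          rw [(hc hx).2, (hc hy).2]
        have hne' : ({x | x ∈ Y ∧ h x = β} : Set X).Nonempty := by
          by_cases hβ : h x = β
          · exact ⟨x, hx, hβ⟩
          · refine ⟨y, hy, ?_⟩
            revert hxy hβ
            cases h x <;> cases h y <;> cases β <;> simp
        exact ih _ hlt _ rfl hne' (hinj.mono hsub)
      obtain ⟨l, hl, hl'⟩ := key false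
      obtain ⟨r, hr, hr'⟩ := key true
      refine ⟨nd l r, ?_, hl', hr', ?_, ?_⟩
      · intro z
        have e1 : z ∈ (nd l r).lvs ↔ z ∈ l.lvs ∨ z ∈ r.lvs := List.mem_append
        rw [e1, hl, hr]
        constructor
        · rintro (hz | hz)
          · exact hz.1
          · exact hz.1
        · intro hz
          cases hhz : h z
          · exact Or.inl ⟨hz, rfl⟩
          · exact Or.inr ⟨hz, rfl⟩
      · intro x hx y hy z hz
        have hx' := (hl x).1 hx
        have hy' := (hl y).1 hy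
        have hz' := (hr z).1 hz
        exact hs x hx'.1 y hy'.1 z hz'.1 (by rw [hx'.2, hy'.2]) (by rw [hx'.2, hz'.2]; decide)
      · intro x hx y hy z hz
        have hx' := (hl x).1 hx
        have hy' := (hr y).1 hy
        have hz' := (hr z).1 hz
        exact hs y hy'.1 z hz'.1 x hx'.1 (by rw [hy'.2, hz'.2]) (by rw [hx'.2, hy'.2]; decide)
    · push Not at h1
      refine ⟨lf a, ?_, trivial⟩
      intro x
      have e1 : x ∈ (lf a).lvs ↔ x = a := List.mem_singleton
      rw [e1]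
      constructor
      · rintro rfl
        exact ha
      · exact h1 x

end FSHX

theorem SHX_pf (hJ : S_JOI) (hF : S_FSX) (hS : S_SHF) : S_SHX := by
  intro c X _
  exact ⟨FSHX.part1 hJ hS c, fun v Y hY hi => FSHX.part2 hF v _ Y rfl hY hi⟩

end Pool.Agent.Work.MP_8dbde4_lc.Full
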