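import Pool.Agent.Work.MP_8dbde4_lc.Full.StmtsB

/-! Item SJC: jumps give all combs. -/

set_option autoImplicit false
open Classical

namespace Pool.Agent.Work.MP_8dbde4_lc.Full

open Pool.Agent.Work.MP_8dbde4_lc.TS Pool.Agent.Work.MP_8dbde4_lc.Tree
  Pool.Agent.Work.MP_8dbde4_lc.Phy BT

namespace FSJC

theorem rw_perm {X : Type} {t u : BT X} (h : Rw t u) : List.Perm t.lvs u.lvs := by
  induction h with
  | refl t => exact List.Perm.refl _
  | trans _ _ h1 h2 => exact h1.trans h2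
  | swap l r => exact List.perm_append_comm
  | jump x Y Z =>
    show List.Perm (([x] ++ Y.lvs) ++ Z.lvs) (([x] ++ Z.lvs) ++ Y.lvs)
    rw [List.append_assoc, List.append_assoc]
    exact List.Perm.append_left [x] List.perm_append_comm
  | congr r _ h => exact List.Perm.append_right r.lvs h

theorem fill_perm {X : Type} (K : Cx X) : ∀ t u : BT X, List.Perm t.lvs u.lvs →
    List.Perm (K.fill t).lvs (K.fill u).lvs := by
  induction K with
  | hole => exact fun t u h => h
  | ctx k r ih =>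
    intro t u h
    exact ih (nd t r) (nd u r) (List.Perm.append_right r.lvs h)

theorem fill_sh {c : ℚ → Bool} {X : Type} (v : X → Word c) (K : Cx X) : ∀ t u : BT X,
    List.Perm t.lvs u.lvs → (Sh v t → Sh v u) → Sh v (K.fill t) → Sh v (K.fill u) := by
  induction K with
  | hole => exact fun t u _ h => h
  | ctx k r ih =>
    intro t u hp h
    refine ih (nd t r) (nd u r) (List.Perm.append_right r.lvs hp) ?_
    rintro ⟨h1, h2, h3, h4⟩
    refine ⟨h h1, h2, ?_, ?_⟩
    · intro x hx y hy z hz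
      exact h3 x (hp.mem_iff.2 hx) y (hp.mem_iff.2 hy) z hz
    · intro x hx y hy z hz
      exact h4 x (hp.mem_iff.2 hx) y hy z hz

theorem combT_lvs {X : Type} (ℓ : List X) : ∀ x : X, (combT x ℓ).lvs = x :: ℓ := by
  induction ℓ with
  | nil => exact fun x => rfl
  | cons y ℓ ih =>
    intro x
    show [x] ++ (combT y ℓ).lvs = x :: y :: ℓ
    rw [ih y]
    rfl

theorem combT_sh {c : ℚ → Bool} {X : Type} (z : X → Word c) (ℓ : List X) : ∀ x : X,
    CombL z (x :: ℓ) → Sh z (combT x ℓ) := by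
  induction ℓ with
  | nil => exact fun x _ => trivial
  | cons y ℓ ih =>
    intro x h
    obtain ⟨h1, h2⟩ := h
    refine ⟨trivial, ih y h2, ?_, ?_⟩
    · intro a ha b hb d hd
      rw [combT_lvs] at hd
      have ha' : a = x := List.mem_singleton.1 ha
      have hb' : b = x := List.mem_singleton.1 hb
      subst ha'
      subst hb'
      exact cc_self (cc_ne (h1 d hd d hd)).symm
    · intro a ha b hb d hd
      rw [combT_lvs] at hb hd
      have ha' : a = x := List.mem_singleton.1 ha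
      subst ha'
      exact h1 b hb d hd

theorem same_arr (hARR : S_ARR) (hSHF : S_SHF) (c : ℚ → Bool) (σ : Sig) (𝔅 : Str σ (Word c))
    (hI : AllInv 𝔅) {X : Type} [Finite X] (T : BT X) (v w : X → Word c) (hT : ∀ x, x ∈ T.lvs)
    (hv : Sh v T) (hw : Sh w T) : Arr 𝔅 v w := by
  refine (hARR c σ 𝔅 hI).1 X v w ?_
  have h := (hSHF c X T).2.1 v w hv hw
  have hu : {x | x ∈ T.lvs} = (Set.univ : Set X) := Set.eq_univ_of_forall hT
  rw [hu] at h
  exact h

theorem rw_arr (hARR : S_ARR) (hSHF : S_SHF) (hSHX : S_SHX) (c : ℚ → Bool) (σ : Sig)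
    (𝔅 : Str σ (Word c)) (hI : AllInv 𝔅) (hSJ : SJ 𝔅) {X : Type} [Finite X] {t u : BT X}
    (h : Rw t u) : ∀ K : Cx X, (∀ x, x ∈ (K.fill t).lvs) → ∀ v w : X → Word c,
      Sh v (K.fill t) → Sh w (K.fill u) → Arr 𝔅 v w := by
  induction h with
  | refl t =>
    intro K hK v w hv hw
    exact same_arr hARR hSHF c σ 𝔅 hI (K.fill t) v w hK hv hw
  | @trans t u s h1 h2 ih1 ih2 =>
    intro K hK v w hv hw
    have hp : List.Perm (K.fill t).lvs (K.fill u).lvs := fill_perm K t u (rw_perm h1)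
    have hnd : (K.fill u).lvs.Nodup := hp.nodup_iff.1 ((hSHF c X (K.fill t)).1 v hv).1
    obtain ⟨m, hm⟩ := (hSHX c X).1 (K.fill u) hnd
    exact Arr.trans (ih1 K hK v m hv hm)
      (ih2 K (fun x => hp.mem_iff.1 (hK x)) m w hm hw)
  | swap l r =>
    intro K hK v w hv hw
    refine same_arr hARR hSHF c σ 𝔅 hI (K.fill (nd l r)) v w hK hv ?_
    refine fill_sh w K (nd r l) (nd l r) List.perm_append_comm ?_ hw
    rintro ⟨h1, h2, h3, h4⟩
    refine ⟨h2, h1, ?_, ?_⟩
    · intro x hx y hy z hz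
      exact h4 z hz x hx y hy
    · intro x hx y hy z hz
      exact h3 y hy z hz x hx
  | jump x Y Z =>
    intro K hK v w hv hw
    exact hSJ X K x Y Z v w hK hv hw
  | @congr l l' r h ih =>
    intro K hK v w hv hw
    exact ih (Cx.ctx K r) hK v w hv hw

end FSJC

theorem SJC_pf (hRWC : S_RWC) (hARR : S_ARR) (hSHF : S_SHF) (hSHX : S_SHX) : S_SJC := by
  intro c σ 𝔅 hI hSJ X _ v z ℓ hinj hℓ hnd hz
  rcases ℓ with _ | ⟨x, ℓ⟩
  · have hvz : v = z := funext fun x => absurd (hℓ x) (List.not_mem_nil)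
    rw [hvz]
    exact Arr.refl 𝔅 z
  · obtain ⟨T, hT1, hT2⟩ := (hSHX c X).2 v Set.univ ⟨x, trivial⟩ hinj.injOn
    have hT3 : T.lvs.Nodup := ((hSHF c X T).1 v hT2).1
    have hp : List.Perm T.lvs (x :: ℓ) := by
      rw [List.perm_ext_iff_of_nodup hT3 hnd]
      intro a
      exact ⟨fun _ => hℓ a, fun _ => (hT1 a).2 trivial⟩
    exact FSJC.rw_arr hARR hSHF hSHX c σ 𝔅 hI hSJ (hRWC X T x ℓ hp) Cx.hole
      (fun a => (hT1 a).2 trivial) v z hT2 (FSJC.combT_sh z ℓ x hz)

end Pool.Agent.Work.MP_8dbde4_lc.Full
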