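import Pool.Agent.Work.MP_8dbde4_lc.Full.StmtsB

/-!
# The jump of a leaf (S_SJT)
-/

set_option autoImplicit false
open Classical

namespace Pool.Agent.Work.MP_8dbde4_lc.Full

open Pool.Agent.Work.MP_8dbde4_lc.TS Pool.Agent.Work.MP_8dbde4_lc.Tree
  Pool.Agent.Work.MP_8dbde4_lc.Phy BT

namespace FSJT

variable {c : ℚ → Bool} {X I : Type}

/-- The leaves of a context. -/
def outs : Cx X → List X
  | .hole => []
  | .ctx k r => r.lvs ++ outs k

theorem mem_fill (K : Cx X) : ∀ (t : BT X) (y : X),
    y ∈ (K.fill t).lvs ↔ y ∈ t.lvs ∨ y ∈ outs K := by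
  induction K with
  | hole => intro t y; simp [Cx.fill, outs]
  | ctx k r ih =>
    intro t y
    simp only [Cx.fill, outs, ih, lvs, List.mem_append]
    tauto

theorem sh_fill (v : X → Word c) (K : Cx X) : ∀ t : BT X, Sh v (K.fill t) → Sh v t := by
  induction K with
  | hole => intro t h; exact h
  | ctx k r ih =>
    intro t h
    exact (ih _ h).1

theorem sh_out (v : X → Word c) (K : Cx X) : ∀ t : BT X, Sh v (K.fill t) →
    ∀ p ∈ outs K, ∀ y ∈ t.lvs, ∀ y' ∈ t.lvs, Cc (v p) (v y) (v y') := by
  induction K with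
  | hole => intro t _ p hp; simp [outs] at hp
  | ctx k r ih =>
    intro t h p hp y hy y' hy'
    rw [outs, List.mem_append] at hp
    rcases hp with hp | hp
    · exact (sh_fill v k _ h).2.2.1 y hy y' hy' p hp
    · exact ih (nd t r) h p hp y (by simp [lvs, hy]) y' (by simp [lvs, hy'])

theorem sh_mono (v : X → Word c) (K : Cx X) : ∀ t t' : BT X, (∀ y, y ∈ t'.lvs → y ∈ t.lvs) →
    (Sh v t → Sh v t') → Sh v (K.fill t) → Sh v (K.fill t') := by
  induction K with
  | hole => intro t t' _ h h1; exact h h1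
  | ctx k r ih =>
    intro t t' hl h h1
    refine ih (nd t r) (nd t' r) ?_ ?_ h1
    · intro y hy
      simp only [lvs, List.mem_append] at hy ⊢
      rcases hy with hy | hy
      · exact Or.inl (hl y hy)
      · exact Or.inr hy
    · rintro ⟨h2, h3, h4⟩
      refine ⟨h h2, h3, ?_, ?_⟩
      · intro a ha b hb d hd
        exact h4.1 a (hl a ha) b (hl b hb) d hd
      · intro a ha b hb d hd
        exact h4.2 a (hl a ha) b hb d hd

/-- Convex blocks. -/
theorem bl_of (v : X → Word c) (π : X → I) (s : I → X) (hs : ∀ y, π (s (π y)) = π y)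
    (H : ∀ y y' z, π y = π y' → π z ≠ π y → Cc (v z) (v y) (v y')) :
    Bl π (fun i => v (s i)) v := by
  have key : ∀ a b z, π a = π b → π z ≠ π a → ∀ u, Cc (v z) (v a) u → Cc (v z) (v b) u := by
    intro a b z hab hza u h
    exact cc_trans (cc_symm (H a b z hab hza)) h
  have key2 : ∀ a b z z', π z = π z' → π a ≠ π z → Cc (v z) (v a) (v b) →
      Cc (v z') (v a) (v b) := by
    intro a b z z' hz ha h
    rcases cc_or h (v z') with h1 | h1
    · exact absurd h1 (cc_asymm (H z z' a hz ha))
    · exact h1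
  have all : ∀ a b z a' b' z', π a = π a' → π b = π b' → π z = π z' → π z ≠ π a → π z ≠ π b →
      Cc (v z) (v a) (v b) → Cc (v z') (v a') (v b') := by
    intro a b z a' b' z' ha hb hz h1 h2 h
    have e1 : Cc (v z) (v a') (v b) := key a a' z ha h1 _ h
    have e2 : Cc (v z) (v b') (v a') := key b b' z hb h2 _ (cc_symm e1)
    exact cc_symm (key2 b' a' z z' hz (by rw [← hb]; exact h2.symm) e2)
  intro y y' y'' h1 h2
  constructor
  · exact all y y' y'' _ _ _ (hs y).symm (hs y').symm (hs y'').symm h1 h2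
  · refine all _ _ _ y y' y'' (hs y) (hs y') (hs y'') ?_ ?_
    · rw [hs, hs]; exact h1
    · rw [hs, hs]; exact h2

theorem ex_leaf : ∀ t : BT X, ∃ y, y ∈ t.lvs
  | lf x => ⟨x, by simp [lvs]⟩
  | nd l r => by
    obtain ⟨y, hy⟩ := ex_leaf l
    exact ⟨y, by simp [lvs, hy]⟩

theorem sub_leaf : ∀ (t : BT X) (y : X), y ∈ t.lvs → Sub (lf y) t
  | lf x, y, h => by
    simp only [lvs, List.mem_singleton] at h
    subst h
    exact Sub.rfl y
  | nd l r, y, h => by
    simp only [lvs, List.mem_append] at h
    rcases h with h | h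
    · exact Sub.left r (sub_leaf l y h)
    · exact Sub.right l (sub_leaf r y h)

/-- The hypothesis on blocks for a tuple of the shape `K (x A) B`. -/
theorem conv (v : X → Word c) (K : Cx X) (x : X) (A B : BT X)
    (h : Sh v (K.fill (nd (nd (lf x) A) B))) (hinj : Function.Injective v) (y y' z : X)
    (hy : (y = x ∧ y' = x ∧ z ≠ x) ∨ (y ∈ A.lvs ∧ y' ∈ A.lvs ∧ (z = x ∨ z ∈ B.lvs ∨ z ∈ outs K)) ∨
      (y ∈ B.lvs ∧ y' ∈ B.lvs ∧ (z = x ∨ z ∈ A.lvs ∨ z ∈ outs K)) ∨ (y = y' ∧ z ≠ y)) :
    Cc (v z) (v y) (v y') := by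
  have h0 := sh_fill v K _ h
  have hout := sh_out v K _ h
  obtain ⟨⟨_, _, h3⟩, _, h5⟩ := h0
  rcases hy with ⟨rfl, rfl, hz⟩ | ⟨h1, h2, hz⟩ | ⟨h1, h2, hz⟩ | ⟨rfl, hz⟩
  · exact cc_self (fun e => hz (hinj e))
  · rcases hz with rfl | hz | hz
    · exact h3.2 z (by simp [lvs]) y h1 y' h2
    · exact h5.1 y (by simp [lvs, h1]) y' (by simp [lvs, h2]) z hz
    · exact hout z hz y (by simp [lvs, h1]) y' (by simp [lvs, h2])
  · rcases hz with rfl | hz | hz
    · exact h5.2 z (by simp [lvs]) y h1 y' h2
    · exact h5.2 z (by simp [lvs, hz]) y h1 y' h2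
    · exact hout z hz y (by simp [lvs, h1]) y' (by simp [lvs, h2])
  · exact cc_self (fun e => hz (hinj e))

theorem sameOn_single (v w : X → Word c) (Y : Set X) (h : ∀ y ∈ Y, ∀ y' ∈ Y, y = y') :
    SameOn Y v w := by
  constructor
  · intro a ha b hb
    rw [h a ha b hb]
    simp
  · intro a ha b hb d hd
    rw [h a ha b hb, h d hd b hb]
    exact ⟨fun e => absurd e cc_irrefl, fun e => absurd e cc_irrefl⟩

theorem so_mono {v w : X → Word c} {Y Y' : Set X} (h : SameOn Y v w) (hY : ∀ y ∈ Y', y ∈ Y) :
    SameOn Y' v w :=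
  ⟨fun a ha b hb => h.1 a (hY a ha) b (hY b hb),
    fun a ha b hb d hd => h.2 a (hY a ha) b (hY b hb) d (hY d hd)⟩

end FSJT

open FSJT

theorem SJT_pf (hSHF : S_SHF) : S_SJT := by
  intro c σ 𝔅 _ hD X _ K x Y Z v w hall hv hw
  have hmem : ∀ y : X, y = x ∨ y ∈ Y.lvs ∨ y ∈ Z.lvs ∨ y ∈ outs K := by
    intro y
    have := (mem_fill K _ y).1 (hall y)
    simp only [lvs, List.mem_append, List.mem_singleton] at this
    tauto
  have hall' : ∀ y, y ∈ (K.fill (nd (nd (lf x) Z) Y)).lvs := by
    intro y
    rw [mem_fill]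
    simp only [lvs, List.mem_append, List.mem_singleton]
    have := hmem y
    tauto
  have hvi : Function.Injective v := by
    intro a b hab
    exact ((hSHF c X _).1 v hv).2 (hall a) (hall b) hab
  have hwi : Function.Injective w := by
    intro a b hab
    exact ((hSHF c X _).1 w hw).2 (hall' a) (hall' b) hab
  have hv0 := sh_fill v K _ hv
  have hw0 := sh_fill w K _ hw
  have hvo := sh_out v K _ hv
  have hwo := sh_out w K _ hw
  obtain ⟨y0, hy0⟩ := ex_leaf Y
  obtain ⟨z0, hz0⟩ := ex_leaf Z
  -- the section and the projection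
  let P : Type := {p : X // p ∈ outs K}
  let s : Fin 3 ⊕ P → X := fun i => match i with
    | .inl 0 => x
    | .inl 1 => y0
    | .inl 2 => z0
    | .inr p => p.1
  let π : X → Fin 3 ⊕ P := fun y => if y = x then .inl 0 else if y ∈ Y.lvs then .inl 1 else
    if y ∈ Z.lvs then .inl 2 else if h : y ∈ outs K then .inr ⟨y, h⟩ else .inl 0
  have hxY : x ∉ Y.lvs := by
    intro h
    exact cc_irrefl (hv0.1.2.2.2 x (by simp [lvs]) x h x h)
  have hxZ : x ∉ Z.lvs := by
    intro h
    exact cc_irrefl (hv0.2.2.2 x (by simp [lvs]) x h x h)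
  have hYZ : ∀ y ∈ Y.lvs, y ∉ Z.lvs := by
    intro y hy h
    exact cc_irrefl (hv0.2.2.2 y (by simp [lvs, hy]) y h y h)
  have hPx : x ∉ outs K := fun h => cc_irrefl (hvo x h x (by simp [lvs]) x (by simp [lvs]))
  have hPY : ∀ y ∈ Y.lvs, y ∉ outs K := fun y hy h =>
    cc_irrefl (hvo y h y (by simp [lvs, hy]) y (by simp [lvs, hy]))
  have hPZ : ∀ y ∈ Z.lvs, y ∉ outs K := fun y hy h =>
    cc_irrefl (hvo y h y (by simp [lvs, hy]) y (by simp [lvs, hy]))
  have πx : π x = .inl 0 := by simp [π]
  have πY : ∀ y ∈ Y.lvs, π y = .inl 1 := by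
    intro y hy
    have h1 : y ≠ x := fun e => hxY (e ▸ hy)
    simp [π, h1, hy]
  have πZ : ∀ y ∈ Z.lvs, π y = .inl 2 := by
    intro y hy
    have h1 : y ≠ x := fun e => hxZ (e ▸ hy)
    have h2 : y ∉ Y.lvs := fun e => hYZ y e hy
    simp [π, h1, h2, hy]
  have πP : ∀ (y : X) (h : y ∈ outs K), π y = .inr ⟨y, h⟩ := by
    intro y hy
    have h1 : y ≠ x := fun e => hPx (e ▸ hy)
    have h2 : y ∉ Y.lvs := fun e => hPY y e hy
    have h3 : y ∉ Z.lvs := fun e => hPZ y e hy
    simp [π, h1, h2, h3, hy]
  have hs : ∀ y, π (s (π y)) = π y := by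
    intro y
    rcases hmem y with rfl | h | h | h
    · rw [πx]; exact πx
    · rw [πY y h]; exact πY y0 hy0
    · rw [πZ y h]; exact πZ z0 hz0
    · rw [πP y h]; exact πP y h
  have hcomb : ∀ y y' z, π y = π y' → π z ≠ π y →
      ((y = x ∧ y' = x ∧ z ≠ x) ∨ (y ∈ Y.lvs ∧ y' ∈ Y.lvs ∧ (z = x ∨ z ∈ Z.lvs ∨ z ∈ outs K)) ∨
      (y ∈ Z.lvs ∧ y' ∈ Z.lvs ∧ (z = x ∨ z ∈ Y.lvs ∨ z ∈ outs K)) ∨ (y = y' ∧ z ≠ y)) := by
    intro y y' z h1 h2
    rcases hmem y with rfl | h | h | h
    · have hy' : y' = y := by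
        rcases hmem y' with e | e | e | e
        · exact e
        · rw [πx, πY y' e] at h1; simp at h1
        · rw [πx, πZ y' e] at h1; simp at h1
        · rw [πx, πP y' e] at h1; simp at h1
      subst hy'
      exact Or.inl ⟨rfl, rfl, fun e => h2 (by rw [e])⟩
    · have hy' : y' ∈ Y.lvs := by
        rcases hmem y' with e | e | e | e
        · rw [e, πx, πY y h] at h1; simp at h1
        · exact e
        · rw [πY y h, πZ y' e] at h1; simp at h1
        · rw [πY y h, πP y' e] at h1; simp at h1
      refine Or.inr (Or.inl ⟨h, hy', ?_⟩)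
      rcases hmem z with e | e | e | e
      · exact Or.inl e
      · exact absurd (by rw [πY z e, πY y h]) h2
      · exact Or.inr (Or.inl e)
      · exact Or.inr (Or.inr e)
    · have hy' : y' ∈ Z.lvs := by
        rcases hmem y' with e | e | e | e
        · rw [e, πx, πZ y h] at h1; simp at h1
        · rw [πZ y h, πY y' e] at h1; simp at h1
        · exact e
        · rw [πZ y h, πP y' e] at h1; simp at h1
      refine Or.inr (Or.inr (Or.inl ⟨h, hy', ?_⟩))
      rcases hmem z with e | e | e | e
      · exact Or.inl e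
      · exact Or.inr (Or.inl e)
      · exact absurd (by rw [πZ z e, πZ y h]) h2
      · exact Or.inr (Or.inr e)
    · have hy' : y' = y := by
        rcases hmem y' with e | e | e | e
        · rw [e, πx, πP y h] at h1; simp at h1
        · rw [πY y' e, πP y h] at h1; simp at h1
        · rw [πZ y' e, πP y h] at h1; simp at h1
        · rw [πP y' e, πP y h] at h1
          exact (congrArg Subtype.val (Sum.inr.inj h1)).symm
      subst hy'
      exact Or.inr (Or.inr (Or.inr ⟨rfl, fun e => h2 (by rw [e])⟩))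
  have hBv : Bl π (fun i => v (s i)) v := bl_of v π s hs (fun y y' z h1 h2 =>
    conv v K x Y Z hv hvi y y' z (hcomb y y' z h1 h2))
  have hBw : Bl π (fun i => w (s i)) w := bl_of w π s hs (fun y y' z h1 h2 =>
    conv w K x Z Y hw hwi y y' z (by
      rcases hcomb y y' z h1 h2 with h | h | h | h
      · exact Or.inl h
      · exact Or.inr (Or.inr (Or.inl h))
      · exact Or.inr (Or.inl h)
      · exact Or.inr (Or.inr (Or.inr h))))
  have hsi : Function.Injective s := by
    have hπs : ∀ i, π (s i) = i := by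
      rintro (i | p)
      · fin_cases i
        · exact πx
        · exact πY y0 hy0
        · exact πZ z0 hz0
      · exact πP p.1 p.2
    intro i j hij
    rw [← hπs i, ← hπs j, hij]
  have hFat : Fat 𝔅 {i | i ≠ .inl 0} (fun i => v (s i)) (fun i => w (s i)) := by
    refine hD P (fun i => v (s i)) (fun i => w (s i)) (hvi.comp hsi) (hwi.comp hsi) ?_ ?_ ?_ ?_ ?_
    · exact hv0.2.2.1 x (by simp [lvs]) y0 (by simp [lvs, hy0]) z0 hz0
    · exact hw0.2.2.1 x (by simp [lvs]) z0 (by simp [lvs, hz0]) y0 hy0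
    · intro p i j
      have hm : ∀ i : Fin 3, s (.inl i) ∈ (nd (nd (lf x) Y) Z).lvs := by
        intro i
        fin_cases i
        · simp [s, lvs]
        · simp [s, lvs, hy0]
        · simp [s, lvs, hz0]
      exact hvo p.1 p.2 _ (hm i) _ (hm j)
    · intro p i j
      have hm : ∀ i : Fin 3, s (.inl i) ∈ (nd (nd (lf x) Z) Y).lvs := by
        intro i
        fin_cases i
        · simp [s, lvs]
        · simp [s, lvs, hy0]
        · simp [s, lvs, hz0]
      exact hwo p.1 p.2 _ (hm i) _ (hm j)
    · -- the same splits on `y0`, `z0`, `P`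
      have hv1 : Sh v (K.fill (nd (lf y0) (lf z0))) := by
        refine sh_mono v K _ _ ?_ ?_ hv
        · intro y hy
          simp only [lvs, List.mem_append, List.mem_singleton] at hy ⊢
          rcases hy with rfl | rfl
          · exact Or.inl (Or.inr hy0)
          · exact Or.inr hz0
        · intro h
          exact ((hSHF c X _).2.2.2.2.2.1 _ v (Sub.both (Sub.right _ (sub_leaf Y y0 hy0))
            (sub_leaf Z z0 hz0)) h)
      have hw1 : Sh w (K.fill (nd (lf y0) (lf z0))) := by
        refine sh_mono w K _ _ ?_ ?_ hw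
        · intro y hy
          simp only [lvs, List.mem_append, List.mem_singleton] at hy ⊢
          rcases hy with rfl | rfl
          · exact Or.inr hy0
          · exact Or.inl (Or.inr hz0)
        · intro h
          have h1 : Sh w (nd (lf z0) (lf y0)) := (hSHF c X _).2.2.2.2.2.1 _ w
            (Sub.both (Sub.right _ (sub_leaf Z z0 hz0)) (sub_leaf Y y0 hy0)) h
          exact ⟨trivial, trivial, fun a ha b hb d hd => h1.2.2.2 d hd a ha b hb,
            fun a ha b hb d hd => h1.2.2.1 b hb d hd a ha⟩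
      have hso := (hSHF c X _).2.1 v w hv1 hw1
      have hmem2 : ∀ i : Fin 3 ⊕ P, i ≠ .inl 0 →
          s i ∈ {y | y ∈ (K.fill (nd (lf y0) (lf z0))).lvs} := by
        intro i hi
        simp only [Set.mem_ofPred_eq]
        rw [mem_fill]
        rcases i with i | p
        · left
          fin_cases i
          · exact absurd rfl hi
          · simp [s, lvs]
          · simp [s, lvs]
        · right
          exact p.2
      exact ⟨fun i hi j hj => hso.1 _ (hmem2 i hi) _ (hmem2 j hj),
        fun i hi j hj k hk => hso.2 _ (hmem2 i hi) _ (hmem2 j hj) _ (hmem2 k hk)⟩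
  refine hFat X π v w ?_ hvi hwi hBv hBw ?_
  · intro y y' h1 h2
    have h3 : π y = .inl 0 := by
      by_contra hc
      exact h2 hc
    have key : ∀ u, π u = .inl 0 → u = x := by
      intro u hu
      rcases hmem u with e | e | e | e
      · exact e
      · rw [πY u e] at hu; simp at hu
      · rw [πZ u e] at hu; simp at hu
      · rw [πP u e] at hu; simp at hu
    rw [key y h3, key y' (h1 ▸ h3)]
  · intro i
    have hYs := (hSHF c X Y).2.1 v w hv0.1.2.1 hw0.2.1
    have hZs := (hSHF c X Z).2.1 v w hv0.2.1 hw0.1.2.1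
    rcases i with i | p
    · fin_cases i
      · refine sameOn_single v w _ ?_
        intro y hy y' hy'
        have key : ∀ u, π u = .inl 0 → u = x := by
          intro u hu
          rcases hmem u with e | e | e | e
          · exact e
          · rw [πY u e] at hu; simp at hu
          · rw [πZ u e] at hu; simp at hu
          · rw [πP u e] at hu; simp at hu
        rw [key y hy, key y' hy']
      · refine so_mono hYs ?_
        intro u hu
        have hu : π u = .inl 1 := hu
        rcases hmem u with e | e | e | e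
        · rw [e, πx] at hu; simp at hu
        · exact e
        · rw [πZ u e] at hu; simp at hu
        · rw [πP u e] at hu; simp at hu
      · refine so_mono hZs ?_
        intro u hu
        have hu : π u = .inl 2 := hu
        rcases hmem u with e | e | e | e
        · rw [e, πx] at hu; simp at hu
        · rw [πY u e] at hu; simp at hu
        · exact e
        · rw [πP u e] at hu; simp at hu
    · refine sameOn_single v w _ ?_
      have key : ∀ u, π u = .inr p → u = p.1 := by
        intro u hu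
        rcases hmem u with e | e | e | e
        · rw [e, πx] at hu; simp at hu
        · rw [πY u e] at hu; simp at hu
        · rw [πZ u e] at hu; simp at hu
        · rw [πP u e] at hu
          have := Sum.inr.inj hu
          rw [← this]
      intro y hy y' hy'
      rw [key y hy, key y' hy']

end Pool.Agent.Work.MP_8dbde4_lc.Full
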