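import Pool.Agent.Work.MP_8dbde4_lc.Full.StmtsA

/-!
# Facts on trees (item SUB)
-/

set_option autoImplicit false
open Classical

namespace Pool.Agent.Work.MP_8dbde4_lc.Full

open Pool.Agent.Work.MP_8dbde4_lc.TS Pool.Agent.Work.MP_8dbde4_lc.Tree
  Pool.Agent.Work.MP_8dbde4_lc.Phy BT

namespace FSUB

variable {X Y : Type}

theorem sub_refl : ∀ t : BT X, Sub t t
  | lf x => Sub.rfl x
  | nd l r => Sub.both (sub_refl l) (sub_refl r)

theorem sub_trans {u s : BT X} (h : Sub u s) : ∀ {t : BT X}, Sub t u → Sub t s := by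
  induction h with
  | rfl x => intro t ht; exact ht
  | left r _ ih => intro t ht; exact Sub.left r (ih ht)
  | right l _ ih => intro t ht; exact Sub.right l (ih ht)
  | @both a b l r _ _ ih1 ih2 =>
    intro t ht
    cases ht with
    | left _ h => exact Sub.left r (ih1 h)
    | right _ h => exact Sub.right l (ih2 h)
    | both h h' => exact Sub.both (ih1 h) (ih2 h')

theorem cpl_sub : ∀ (y : BT X) (n N : ℕ), y.Cpl N → n ≤ N → ∃ z, Sub z y ∧ z.Cpl n
  | lf x, n, 0, _, hn => ⟨lf x, Sub.rfl x, by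
      have : n = 0 := by omega
      subst this
      exact trivial⟩
  | lf _, _, _ + 1, h, _ => by exact absurd h (by simp [Cpl])
  | nd _ _, _, 0, h, _ => by exact absurd h (by simp [Cpl])
  | nd l r, 0, N + 1, h, _ => by
      obtain ⟨z, hz, hc⟩ := cpl_sub l 0 N h.1 (Nat.zero_le _)
      exact ⟨z, Sub.left r hz, hc⟩
  | nd l r, n + 1, N + 1, h, hn => by
      obtain ⟨z, hz, hc⟩ := cpl_sub l n N h.1 (by omega)
      obtain ⟨z', hz', hc'⟩ := cpl_sub r n N h.2 (by omega)
      exact ⟨nd z z', Sub.both hz hz', hc, hc'⟩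

theorem lvs_sub : ∀ (y : BT X) (ℓ : List X), List.Sublist ℓ y.lvs → ℓ ≠ [] →
    ∃ t, Sub t y ∧ t.lvs = ℓ
  | lf x, ℓ, h, hne => by
      have h' : List.Sublist ℓ [x] := h
      rcases List.sublist_singleton.1 h' with h1 | h1
      · exact absurd h1 hne
      · exact ⟨lf x, Sub.rfl x, h1.symm⟩
  | nd l r, ℓ, h, hne => by
      have h' : List.Sublist ℓ (l.lvs ++ r.lvs) := h
      obtain ⟨ℓ₁, ℓ₂, rfl, h1, h2⟩ := List.sublist_append_iff.1 h'
      by_cases e1 : ℓ₁ = []
      · subst e1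
        by_cases e2 : ℓ₂ = []
        · subst e2
          exact absurd rfl hne
        · obtain ⟨t, ht, hl⟩ := lvs_sub r ℓ₂ h2 e2
          exact ⟨t, Sub.right l ht, by simpa using hl⟩
      · obtain ⟨t, ht, hl⟩ := lvs_sub l ℓ₁ h1 e1
        by_cases e2 : ℓ₂ = []
        · subst e2
          exact ⟨t, Sub.left r ht, by simpa using hl⟩
        · obtain ⟨t', ht', hl'⟩ := lvs_sub r ℓ₂ h2 e2
          refine ⟨nd t t', Sub.both ht ht', ?_⟩
          show t.lvs ++ t'.lvs = _
          rw [hl, hl']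

theorem map_sub (e : X → Y) {t u : BT X} (h : Sub t u) : Sub (t.map e) (u.map e) := by
  induction h with
  | rfl x => exact Sub.rfl (e x)
  | left r _ ih => exact Sub.left (r.map e) ih
  | right l _ ih => exact Sub.right (l.map e) ih
  | both _ _ ih1 ih2 => exact Sub.both ih1 ih2

theorem map_congr (e e' : X → Y) : ∀ T : BT X, (∀ x ∈ T.lvs, e x = e' x) → T.map e = T.map e'
  | lf x, h => by
      show lf (e x) = lf (e' x)
      rw [h x (by simp [lvs])]
  | nd l r, h => by
      show nd (l.map e) (r.map e) = nd (l.map e') (r.map e')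
      rw [map_congr e e' l (fun x hx => h x (by simp [lvs, hx])),
        map_congr e e' r (fun x hx => h x (by simp [lvs, hx]))]

theorem exists_leaf : ∀ y : BT Y, ∃ x, Sub (lf x) y
  | lf x => ⟨x, Sub.rfl x⟩
  | nd l r => by
      obtain ⟨x, hx⟩ := exists_leaf l
      exact ⟨x, Sub.left r hx⟩

theorem embed : ∀ T : BT X, T.lvs.Nodup → ∃ n₀ : ℕ, ∀ n, n₀ ≤ n → ∀ (Y : Type) (y : BT Y),
    y.Cpl n → ∃ e : X → Y, Sub (T.map e) y
  | lf x, _ => ⟨0, fun n _ Y y _ => by
      obtain ⟨a, ha⟩ := exists_leaf y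
      exact ⟨fun _ => a, ha⟩⟩
  | nd l r, h => by
      have h' : (l.lvs ++ r.lvs).Nodup := h
      rw [List.nodup_append] at h'
      obtain ⟨hl, hr, hd⟩ := h'
      obtain ⟨n₁, h1⟩ := embed l hl
      obtain ⟨n₂, h2⟩ := embed r hr
      refine ⟨max n₁ n₂ + 1, fun n hn Y y hy => ?_⟩
      match n, y, hy with
      | 0, _, _ => exact absurd hn (by omega)
      | n + 1, lf _, hy => exact absurd hy (by simp [Cpl])
      | n + 1, nd y₁ y₂, hy =>
        have hn1 : n₁ ≤ n := by
          have := le_max_left n₁ n₂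
          omega
        have hn2 : n₂ ≤ n := by
          have := le_max_right n₁ n₂
          omega
        obtain ⟨e₁, he₁⟩ := h1 n hn1 Y y₁ hy.1
        obtain ⟨e₂, he₂⟩ := h2 n hn2 Y y₂ hy.2
        refine ⟨fun x => if x ∈ l.lvs then e₁ x else e₂ x, ?_⟩
        show Sub (nd (l.map _) (r.map _)) (nd y₁ y₂)
        rw [map_congr (fun x => if x ∈ l.lvs then e₁ x else e₂ x) e₁ l
            (fun x hx => if_pos hx),
          map_congr (fun x => if x ∈ l.lvs then e₁ x else e₂ x) e₂ r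
            (fun x hx => if_neg (fun hx' => hd x hx' x hx rfl))]
        exact Sub.both he₁ he₂

end FSUB

theorem SUB_pf : S_SUB := by
  intro X
  exact ⟨FSUB.sub_refl, fun t u s h1 h2 => FSUB.sub_trans h2 h1, FSUB.cpl_sub, FSUB.lvs_sub,
    fun Y e t u h => FSUB.map_sub e h, FSUB.embed⟩

end Pool.Agent.Work.MP_8dbde4_lc.Full
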