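import Pool.Agent.Work.MP_8dbde4_lc.Full.StmtsA

set_option autoImplicit false
open Classical

namespace Pool.Agent.Work.MP_8dbde4_lc.Full

open Pool.Agent.Work.MP_8dbde4_lc.TS Pool.Agent.Work.MP_8dbde4_lc.Tree
  Pool.Agent.Work.MP_8dbde4_lc.Phy BT

theorem TP1_pf : S_TP1 := by
  intro c Λ w l r b hS
  by_cases h : ∀ a ∈ l.lvs, ∀ a' ∈ l.lvs, Cc b (w a) (w a')
  · exact Or.inl h
  · right
    push Not at h
    obtain ⟨a, ha, a', ha', hb⟩ := h
    obtain ⟨_, _, h1, h2⟩ := hS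
    intro d hd d' hd'
    have h3 : Cc (w d) (w a) b := by
      rcases cc_or (h1 a ha a' ha' d hd) b with h4 | h4
      · exact h4
      · exact absurd h4 hb
    exact cc_mid h3 (h2 a ha d hd d' hd')

end Pool.Agent.Work.MP_8dbde4_lc.Full
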