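import Pool.Agent.Work.MP_8dbde4_lc.Full.StmtsA

/-!
Item TP2 of the block Full of MP_8dbde4_lc: two trees.
-/

set_option autoImplicit false
open Classical

namespace Pool.Agent.Work.MP_8dbde4_lc.Full

open Pool.Agent.Work.MP_8dbde4_lc.TS Pool.Agent.Work.MP_8dbde4_lc.Tree
  Pool.Agent.Work.MP_8dbde4_lc.Phy BT

namespace FTP2

theorem lvs_ne {X : Type} (t : BT X) : ∃ a, a ∈ t.lvs := by
  induction t with
  | lf x => exact ⟨x, by simp [lvs]⟩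
  | nd l r ihl ihr =>
    obtain ⟨a, ha⟩ := ihl
    exact ⟨a, by simp [lvs, ha]⟩

theorem core (hTP1 : S_TP1) (hSUB : S_SUB) (hSHF : S_SHF) {c : ℚ → Bool} {Λ : Type}
    (w : Λ → Word c) (s H z : BT Λ) (m : ℕ) (hH : Sh w H) (hz : Sub z H) (hzm : z.Cpl (m + 1))
    (hs : ∀ b ∈ z.lvs, ∀ a ∈ s.lvs, ∀ a' ∈ s.lvs, Cc (w b) (w a) (w a')) :
    ∃ H', Sub H' H ∧ H'.Cpl m ∧
      (∀ a ∈ s.lvs, ∀ a' ∈ s.lvs, ∀ b ∈ H'.lvs, Cc (w b) (w a) (w a')) ∧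
      ∀ a ∈ s.lvs, ∀ b ∈ H'.lvs, ∀ b' ∈ H'.lvs, Cc (w a) (w b) (w b') := by
  obtain ⟨a0, ha0⟩ := lvs_ne s
  have hSz : Sh w z := (hSHF c Λ H).2.2.2.2.2.1 z w hz hH
  cases z with
  | lf x => exact absurd hzm (by simp [Cpl])
  | nd z1 z2 =>
    have hc : z1.Cpl m ∧ z2.Cpl m := by simpa [Cpl] using hzm
    have key : ∀ H' : BT Λ, (∀ b ∈ H'.lvs, b ∈ (nd z1 z2).lvs) →
        (∀ b ∈ H'.lvs, ∀ b' ∈ H'.lvs, Cc (w a0) (w b) (w b')) →
        (∀ a ∈ s.lvs, ∀ a' ∈ s.lvs, ∀ b ∈ H'.lvs, Cc (w b) (w a) (w a')) ∧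
        ∀ a ∈ s.lvs, ∀ b ∈ H'.lvs, ∀ b' ∈ H'.lvs, Cc (w a) (w b) (w b') := by
      intro H' hsub h0
      refine ⟨fun a ha a' ha' b hb => hs b (hsub b hb) a ha a' ha', ?_⟩
      intro a ha b hb b' hb'
      rcases cc_or (h0 b hb b' hb') (w a) with h1 | h1
      · exact absurd (hs b (hsub b hb) a0 ha0 a ha) (cc_asymm h1)
      · exact h1
    rcases hTP1 c Λ w z1 z2 (w a0) hSz with h | h
    · refine ⟨z1, (hSUB Λ).2.1 _ _ _ (Sub.left z2 ((hSUB Λ).1 z1)) hz, hc.1, ?_⟩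
      exact key z1 (fun b hb => by simp [lvs, hb]) (fun b hb b' hb' => h b hb b' hb')
    · refine ⟨z2, (hSUB Λ).2.1 _ _ _ (Sub.right z1 ((hSUB Λ).1 z2)) hz, hc.2, ?_⟩
      exact key z2 (fun b hb => by simp [lvs, hb]) (fun b hb b' hb' => h b hb b' hb')

end FTP2

theorem TP2_pf (hTP1 : S_TP1) (hLPH : S_LPH) (hSUB : S_SUB) (hSHF : S_SHF) : S_TP2 := by
  intro c Λ w K H k m hK hH hSK hSH
  cases K with
  | lf x => exact absurd hK (by simp [Cpl])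
  | nd l r =>
    have hc : l.Cpl k ∧ r.Cpl k := by simpa [Cpl] using hK
    let χ : Λ → Bool := fun b => decide (∀ a ∈ l.lvs, ∀ a' ∈ l.lvs, Cc (w b) (w a) (w a'))
    obtain ⟨i, z, hz, hzm, hcol⟩ := hLPH Λ Bool χ (2 * m + 2) (fun _ => m + 1) H hH (by
      simp only [Finset.sum_const, Finset.card_univ, Fintype.card_bool, smul_eq_mul]
      omega)
    cases i with
    | true =>
      have hs : ∀ b ∈ z.lvs, ∀ a ∈ l.lvs, ∀ a' ∈ l.lvs, Cc (w b) (w a) (w a') := by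
        intro b hb
        exact of_decide_eq_true (hcol b hb)
      obtain ⟨H', h1, h2, h3, h4⟩ := FTP2.core hTP1 hSUB hSHF w l H z m hSH hz hzm hs
      exact ⟨l, H', Sub.left r ((hSUB Λ).1 l), h1, hc.1, h2, h3, h4⟩
    | false =>
      have hs : ∀ b ∈ z.lvs, ∀ a ∈ r.lvs, ∀ a' ∈ r.lvs, Cc (w b) (w a) (w a') := by
        intro b hb
        rcases hTP1 c Λ w l r (w b) hSK with h | h
        · exact absurd h (of_decide_eq_false (hcol b hb))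
        · exact h
      obtain ⟨H', h1, h2, h3, h4⟩ := FTP2.core hTP1 hSUB hSHF w r H z m hSH hz hzm hs
      exact ⟨r, H', Sub.right l ((hSUB Λ).1 r), h1, hc.2, h2, h3, h4⟩

end Pool.Agent.Work.MP_8dbde4_lc.Full
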