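import Pool.Agent.Work.MP_8dbde4_lc.Full.StmtsB

/-!
# Item [8dbde4 FU VD]: violations on three points
-/

set_option autoImplicit false
open Classical

namespace Pool.Agent.Work.MP_8dbde4_lc.Full

open Pool.Agent.Work.MP_8dbde4_lc.TS Pool.Agent.Work.MP_8dbde4_lc.Tree
  Pool.Agent.Work.MP_8dbde4_lc.Phy BT

namespace FVD

variable {c : ℚ → Bool} {σ : Sig}

/-- two different words -/
lemma two (c : ℚ → Bool) : ∃ a b : Word c, a ≠ b := by
  refine ⟨⟨c, ?_⟩, ⟨fun r => if r = 0 then !c r else c r, ?_⟩, ?_⟩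
  · refine Set.finite_empty.subset ?_
    intro r hr
    exact absurd rfl hr
  · refine (Set.finite_singleton (0 : ℚ)).subset ?_
    intro r hr
    by_contra h
    have h1 : r ≠ 0 := h
    have h2 : (if r = 0 then !c r else c r) ≠ c r := hr
    rw [if_neg h1] at h2
    exact h2 rfl
  · intro h
    have h1 : c 0 = (if (0 : ℚ) = 0 then !c 0 else c 0) :=
      congrArg (fun w : Word c => w.1 0) h
    rw [if_pos rfl] at h1
    cases h2 : c 0 <;> rw [h2] at h1 <;> simp at h1

/-- a split of three points -/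
lemma ex3 (hB : S_BLW) (c : ℚ → Bool) :
    ∃ v : Fin 3 → Word c, Function.Injective v ∧ Cc (v 2) (v 0) (v 1) := by
  obtain ⟨a, b, hab⟩ := two c
  have h1 : Function.Injective (fun t : Bool => if t then a else b) := by
    intro s t hst
    cases s <;> cases t
    · rfl
    · exact absurd hst.symm hab
    · exact absurd hst hab
    · rfl
  obtain ⟨v', hv', hbl, -⟩ := hB c Bool (Fin 3) ![false, false, true]
    (fun t : Bool => if t then a else b) ![a, b, a] h1 (by
      intro y y' h2 h3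
      fin_cases y <;> fin_cases y' <;>
        first
        | rfl
        | (exfalso; exact Bool.noConfusion h2)
        | (exfalso; exact hab h3)
        | (exfalso; exact hab h3.symm))
  refine ⟨v', hv', ?_⟩
  have h4 := hbl 0 1 2 (by simp) (by simp)
  rw [h4]
  exact cc_self (by
    show (if true = true then a else b) ≠ (if false = true then a else b)
    simpa using hab)

/-- a point close to `v k` -/
lemma close (hB : S_BLW) (v : Fin 3 → Word c) (hv : Function.Injective v) (k : Fin 3) :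
    ∃ v' : Option (Fin 3) → Word c, Function.Injective v' ∧
      SameOn Set.univ v (fun i => v' (some i)) ∧
      ∀ i, i ≠ k → Cc (v' (some i)) (v' none) (v' (some k)) := by
  obtain ⟨a, b, hab⟩ := two c
  obtain ⟨v', hv', hbl, -⟩ := hB c (Fin 3) (Option (Fin 3)) (fun o => o.getD k) v
    (fun o => if o = none then a else b) hv (by
      intro y y' h2 h3
      rcases y with _ | i <;> rcases y' with _ | j
      · rfl
      · exact absurd h3 (by simpa using hab)
      · exact absurd h3 (by simpa using hab.symm)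
      · have : i = j := h2
        rw [this])
  refine ⟨v', hv', ⟨?_, ?_⟩, ?_⟩
  · intro x _ y _
    constructor
    · intro h
      rw [hv h]
    · intro h
      have := hv' h
      rw [Option.some.inj this]
  · intro x _ y _ z _
    by_cases hzx : z = x
    · subst hzx
      exact ⟨fun h => absurd h cc_irrefl, fun h => absurd h cc_irrefl⟩
    · by_cases hzy : z = y
      · subst hzy
        exact ⟨fun h => absurd h cc_irrefl', fun h => absurd h cc_irrefl'⟩
      · exact (hbl (some x) (some y) (some z) hzx hzy).symm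
  · intro i hi
    have h4 := hbl none (some k) (some i) hi hi
    rw [h4]
    exact cc_self fun h => hi (hv h)

/-- the first violation -/
lemma step1 (hF : S_FAT) (hB : S_BLW) (𝔅 : Str σ (Word c)) (hI : AllInv 𝔅) (hE : E3 𝔅)
    (hX : Ext 𝔅) : ∃ v w : Fin 3 → Word c, Function.Injective v ∧ Function.Injective w ∧
      Fat 𝔅 {1} v w ∧ Cc (v 2) (v 0) (v 1) ∧ ¬ Cc (w 2) (w 0) (w 1) := by
  obtain ⟨v, hv, hvc⟩ := ex3 hB c
  obtain ⟨v', hv', hs, hcl⟩ := close hB v hv 1
  have hp : Function.Injective (![2, 0, 1] : Fin 3 → Fin 3) := by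
    decide
  have hw : Function.Injective (fun i : Fin 3 => v ((![2, 0, 1] : Fin 3 → Fin 3) i)) :=
    hv.comp hp
  have hwc : Cc (v 2) (v 0) (v 1) := hvc
  have hv1 : Function.Injective (fun i => v' (some i)) := fun i j h =>
    Option.some.inj (hv' h)
  have hc1 : Cc (v' (some 2)) (v' (some 0)) (v' (some 1)) :=
    (hs.2 0 trivial 1 trivial 2 trivial).1 hvc
  have hfat : Fat 𝔅 ∅ (fun i => v' (some i))
      (fun i : Fin 3 => v ((![2, 0, 1] : Fin 3 → Fin 3) i)) :=
    (hF c σ 𝔅 hI (Fin 3) Set.univ _ _ hv1 hw).2.1 (hE _ _ hv1 hw)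
  obtain ⟨w', hw', hww, hfat'⟩ := hX (Fin 3) ∅ _ _ hv1 hw hfat v' hv' (fun x => rfl)
  have e0 : w' (some 0) = v 2 := hww 0
  have e1 : w' (some 1) = v 0 := hww 1
  have e2 : w' (some 2) = v 1 := hww 2
  have hcw : Cc (w' (some 0)) (w' (some 1)) (w' (some 2)) := by
    rw [e0, e1, e2]
    exact hvc
  by_cases hA : Cc (w' (some 2)) (w' (some 0)) (w' none)
  · have hi : Function.Injective (![some 1, none, some 2] : Fin 3 → Option (Fin 3)) := by
      decide
    have h6 := (hF c σ 𝔅 hI (Option (Fin 3)) _ v' w' hv' hw').2.2.2.2.2.1 (Fin 3) _ hi hfat'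
    have h7 := (hF c σ 𝔅 hI (Fin 3) _ _ _ (hv'.comp hi) (hw'.comp hi)).2.2.2.1 {1} (by
      rintro x rfl
      intro y hy
      exact absurd hy (by simp)) h6
    refine ⟨_, _, hv'.comp hi, hw'.comp hi, h7, ?_, ?_⟩
    · exact cc_symm (hcl 2 (by decide))
    · intro h8
      have h9 : Cc (w' (some 2)) (w' (some 1)) (w' none) := h8
      have h10 := cc_trans h9 (cc_symm hA)
      exact cc_asymm (cc_symm hcw) (cc_symm h10)
  · have hi : Function.Injective (![some 0, none, some 2] : Fin 3 → Option (Fin 3)) := by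
      decide
    have h6 := (hF c σ 𝔅 hI (Option (Fin 3)) _ v' w' hv' hw').2.2.2.2.2.1 (Fin 3) _ hi hfat'
    have h7 := (hF c σ 𝔅 hI (Fin 3) _ _ _ (hv'.comp hi) (hw'.comp hi)).2.2.2.1 {1} (by
      rintro x rfl
      intro y hy
      exact absurd hy (by simp)) h6
    refine ⟨_, _, hv'.comp hi, hw'.comp hi, h7, ?_, hA⟩
    exact cc_trans hc1 (cc_symm (hcl 2 (by decide)))

/-- the second violation -/
lemma step2 (hF : S_FAT) (hB : S_BLW) (𝔅 : Str σ (Word c)) (hI : AllInv 𝔅)
    (hX : Ext 𝔅) (v w : Fin 3 → Word c) (hv : Function.Injective v)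
    (hw : Function.Injective w) (hfat : Fat 𝔅 {1} v w) (hvc : Cc (v 2) (v 0) (v 1))
    (hwc : ¬ Cc (w 2) (w 0) (w 1)) :
    ∃ v w : Fin 3 → Word c, Function.Injective v ∧ Function.Injective w ∧
      Fat 𝔅 {1, 2} v w ∧ Cc (v 2) (v 0) (v 1) ∧ ¬ Cc (w 2) (w 0) (w 1) := by
  obtain ⟨v', hv', hs, hcl⟩ := close hB v hv 2
  have hv1 : Function.Injective (fun i => v' (some i)) := fun i j h =>
    Option.some.inj (hv' h)
  have hc1 : Cc (v' (some 2)) (v' (some 0)) (v' (some 1)) :=
    (hs.2 0 trivial 1 trivial 2 trivial).1 hvc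
  have hww' : SameOn Set.univ w w := ⟨fun _ _ _ _ => Iff.rfl, fun _ _ _ _ _ _ => Iff.rfl⟩
  have hfat1 : Fat 𝔅 {1} (fun i => v' (some i)) w :=
    (hF c σ 𝔅 hI (Fin 3) {1} v w hv hw).2.2.2.2.1 _ _ hs hww' hfat
  obtain ⟨w', hw', hww, hfat'⟩ := hX (Fin 3) {1} _ _ hv1 hw hfat1 v' hv' (fun x => rfl)
  have hwc' : ¬ Cc (w' (some 2)) (w' (some 0)) (w' (some 1)) := by
    rw [hww 0, hww 1, hww 2]
    exact hwc
  by_cases hA : Cc (w' none) (w' (some 0)) (w' (some 1))
  · have hi : Function.Injective (![some 2, none, some 1] : Fin 3 → Option (Fin 3)) := by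
      decide
    have h6 := (hF c σ 𝔅 hI (Option (Fin 3)) _ v' w' hv' hw').2.2.2.2.2.1 (Fin 3) _ hi hfat'
    have h7 := (hF c σ 𝔅 hI (Fin 3) _ _ _ (hv'.comp hi) (hw'.comp hi)).2.2.2.1 {1, 2} (by
      rintro x (rfl | rfl)
      · intro y hy
        exact absurd hy (by simp)
      · intro y hy
        exact (Option.some.inj hy).symm) h6
    refine ⟨_, _, hv'.comp hi, hw'.comp hi, h7, ?_, ?_⟩
    · exact cc_symm (hcl 1 (by decide))
    · intro h8
      have h9 : Cc (w' (some 1)) (w' (some 2)) (w' none) := h8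
      rcases cc_or (cc_symm hA) (w' (some 2)) with h10 | h10
      · exact cc_asymm h10 (cc_symm h9)
      · exact hwc' (cc_symm h10)
  · have hi : Function.Injective (![some 0, some 1, none] : Fin 3 → Option (Fin 3)) := by
      decide
    have h6 := (hF c σ 𝔅 hI (Option (Fin 3)) _ v' w' hv' hw').2.2.2.2.2.1 (Fin 3) _ hi hfat'
    have h7 := (hF c σ 𝔅 hI (Fin 3) _ _ _ (hv'.comp hi) (hw'.comp hi)).2.2.2.1 {1, 2} (by
      rintro x (rfl | rfl)
      · intro y hy
        exact (Option.some.inj hy).symm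
      · intro y hy
        exact absurd hy (by simp)) h6
    refine ⟨_, _, hv'.comp hi, hw'.comp hi, h7, ?_, hA⟩
    show Cc (v' none) (v' (some 0)) (v' (some 1))
    rcases cc_or hc1 (v' none) with h10 | h10
    · exact absurd (cc_symm (hcl 0 (by decide))) (cc_asymm h10)
    · exact h10

end FVD

theorem VD_pf (hF : S_FAT) (hB : S_BLW) : S_VD := by
  intro c σ 𝔅 hI hE hX
  obtain ⟨v, w, hv, hw, hf, h1, h2⟩ := FVD.step1 hF hB 𝔅 hI hE hX
  obtain ⟨v, w, hv, hw, hf, h1, h2⟩ := FVD.step2 hF hB 𝔅 hI hX v w hv hw hf h1 h2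
  rcases cc_tri (x := w 0) (y := w 1) (z := w 2) (fun h => absurd (hw h) (by decide))
    (fun h => absurd (hw h) (by decide)) with h3 | h3 | h3
  · exact Or.inl ⟨v, w, hv, hw, hf, h1, h3⟩
  · exact Or.inr ⟨v, w, hv, hw, hf, h1, h3⟩
  · exact absurd h3 h2

end Pool.Agent.Work.MP_8dbde4_lc.Full
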