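import Pool.Agent.Work.MP_8dbde4_lc.Full.StmtsB

/-!
# Block [8dbde4 FU], item ZFP: constant tuples
-/

set_option autoImplicit false
open Classical

namespace Pool.Agent.Work.MP_8dbde4_lc.Full

open Pool.Agent.Work.MP_8dbde4_lc.TS Pool.Agent.Work.MP_8dbde4_lc.Tree
  Pool.Agent.Work.MP_8dbde4_lc.Phy BT

namespace FZFP

variable {c : ℚ → Bool}

/-- constant tuples have the same splits -/
theorem const_sameOn {X : Type} (a b : Word c) :
    SameOn (Set.univ : Set X) (fun _ => a) (fun _ => b) :=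
  ⟨fun _ _ _ _ => ⟨fun _ => rfl, fun _ => rfl⟩,
    fun _ _ _ _ _ _ => ⟨fun h => absurd h cc_irrefl, fun h => absurd h cc_irrefl⟩⟩

/-- a relation which is everything or nothing -/
theorem hornC_const {n : ℕ} (Q : Prop) : HornC (c := c) (fun _ : Fin n → Word c => Q) := by
  by_cases hQ : Q
  · exact ⟨∅, fun v => ⟨fun _ C hC => absurd hC (Set.notMem_empty C), fun _ => hQ⟩⟩
  · refine ⟨{⟨∅, none⟩}, fun v => ⟨fun h => absurd h hQ, fun h => ?_⟩⟩
    exact (h ⟨∅, none⟩ rfl (fun e he => absurd he (by simp))).elim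

end FZFP

open FZFP

theorem ZFP_pf : S_ZFP := by
  intro hFP c σ 𝔅 hInv hC
  obtain ⟨φ, hφ⟩ := hFP c σ ⟨fun R _ => ∃ v, 𝔅.rel R v⟩ (fun R => hornC_const _)
  refine ⟨φ, fun A _ _ 𝔄 v => (hφ A 𝔄 v).trans ?_⟩
  constructor
  · rintro ⟨h, hh⟩
    refine ⟨fun _ => h (Classical.arbitrary A), fun R t ht => ?_⟩
    obtain ⟨a, ha⟩ := hC R (hh R t ht)
    exact hInv R _ _ (const_sameOn a _) ha
  · rintro ⟨h, hh⟩
    exact ⟨h, fun R t ht => ⟨_, hh R t ht⟩⟩

end Pool.Agent.Work.MP_8dbde4_lc.Full
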