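import Pool.Agent.Work.MP_8dbde4_lc.Phy.Main
import Pool.Agent.Work.MP_8dbde4_lc.Full.Asm
import Pool.Agent.Work.MP_8dbde4_lc.Full.Example
import Pool.Agent.Work.MP_8dbde4_lc.Full.I_IN2
import Pool.Agent.Work.MP_8dbde4_lc.Full.I_ARR
import Pool.Agent.Work.MP_8dbde4_lc.Full.I_NEC
import Pool.Agent.Work.MP_8dbde4_lc.Full.I_E3
import Pool.Agent.Work.MP_8dbde4_lc.Full.I_BLW
import Pool.Agent.Work.MP_8dbde4_lc.Full.I_BLF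
import Pool.Agent.Work.MP_8dbde4_lc.Full.I_SHF
import Pool.Agent.Work.MP_8dbde4_lc.Full.I_SHX
import Pool.Agent.Work.MP_8dbde4_lc.Full.I_SUB
import Pool.Agent.Work.MP_8dbde4_lc.Full.I_LPH
import Pool.Agent.Work.MP_8dbde4_lc.Full.I_RAM
import Pool.Agent.Work.MP_8dbde4_lc.Full.I_BEH
import Pool.Agent.Work.MP_8dbde4_lc.Full.I_CAN
import Pool.Agent.Work.MP_8dbde4_lc.Full.I_TP1
import Pool.Agent.Work.MP_8dbde4_lc.Full.I_TP2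
import Pool.Agent.Work.MP_8dbde4_lc.Full.I_THN
import Pool.Agent.Work.MP_8dbde4_lc.Full.I_NLN
import Pool.Agent.Work.MP_8dbde4_lc.Full.I_FAT
import Pool.Agent.Work.MP_8dbde4_lc.Full.I_NFF
import Pool.Agent.Work.MP_8dbde4_lc.Full.I_EXN
import Pool.Agent.Work.MP_8dbde4_lc.Full.I_EXT2
import Pool.Agent.Work.MP_8dbde4_lc.Full.I_EXM
import Pool.Agent.Work.MP_8dbde4_lc.Full.I_VD
import Pool.Agent.Work.MP_8dbde4_lc.Full.I_HU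
import Pool.Agent.Work.MP_8dbde4_lc.Full.I_LTI
import Pool.Agent.Work.MP_8dbde4_lc.Full.I_D2C
import Pool.Agent.Work.MP_8dbde4_lc.Full.I_SJT
import Pool.Agent.Work.MP_8dbde4_lc.Full.I_RWC
import Pool.Agent.Work.MP_8dbde4_lc.Full.I_SJC
import Pool.Agent.Work.MP_8dbde4_lc.Full.I_LTC
import Pool.Agent.Work.MP_8dbde4_lc.Full.I_LNC
import Pool.Agent.Work.MP_8dbde4_lc.Full.I_QFA
import Pool.Agent.Work.MP_8dbde4_lc.Full.I_QV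
import Pool.Agent.Work.MP_8dbde4_lc.Full.I_QFT
import Pool.Agent.Work.MP_8dbde4_lc.Full.I_F3T
import Pool.Agent.Work.MP_8dbde4_lc.Full.I_BET
import Pool.Agent.Work.MP_8dbde4_lc.Full.I_BLT
import Pool.Agent.Work.MP_8dbde4_lc.Full.I_RRT
import Pool.Agent.Work.MP_8dbde4_lc.Full.I_QPP
import Pool.Agent.Work.MP_8dbde4_lc.Full.I_COM
import Pool.Agent.Work.MP_8dbde4_lc.Full.I_GLS
import Pool.Agent.Work.MP_8dbde4_lc.Full.I_BFG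
import Pool.Agent.Work.MP_8dbde4_lc.Full.I_ENG
import Pool.Agent.Work.MP_8dbde4_lc.Full.I_QQP
import Pool.Agent.Work.MP_8dbde4_lc.Full.I_QQT
import Pool.Agent.Work.MP_8dbde4_lc.Full.I_QGD
import Pool.Agent.Work.MP_8dbde4_lc.Full.I_FRQ
import Pool.Agent.Work.MP_8dbde4_lc.Full.I_NFQ
import Pool.Agent.Work.MP_8dbde4_lc.Full.I_EGD
import Pool.Agent.Work.MP_8dbde4_lc.Full.I_FRE
import Pool.Agent.Work.MP_8dbde4_lc.Full.I_NFE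
import Pool.Agent.Work.MP_8dbde4_lc.Full.I_KIP
import Pool.Agent.Work.MP_8dbde4_lc.Full.I_EQP
import Pool.Agent.Work.MP_8dbde4_lc.Full.I_EQU
import Pool.Agent.Work.MP_8dbde4_lc.Full.I_EQD
import Pool.Agent.Work.MP_8dbde4_lc.Full.I_EQN
import Pool.Agent.Work.MP_8dbde4_lc.Full.I_CMB
import Pool.Agent.Work.MP_8dbde4_lc.Full.I_CCK
import Pool.Agent.Work.MP_8dbde4_lc.Full.I_KCL
import Pool.Agent.Work.MP_8dbde4_lc.Full.I_EQH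
import Pool.Agent.Work.MP_8dbde4_lc.Full.I_EFP
import Pool.Agent.Work.MP_8dbde4_lc.Full.I_ZFP

/-!
# The classification of all phylogeny templates
-/

set_option autoImplicit false
open Classical

namespace Pool.Agent.Work.MP_8dbde4_lc.Full

open Pool.Agent.Work.MP_8dbde4_lc.TS Pool.Agent.Work.MP_8dbde4_lc.Tree
  Pool.Agent.Work.MP_8dbde4_lc.Phy BT

theorem IN2_ok : S_IN2 := IN2_pf AMA_ok
theorem ARR_ok : S_ARR := ARR_pf IN2_ok PPB_pf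
theorem NEC_ok : S_NEC := NEC_pf ARR_ok PPB_pf
theorem E3_ok : S_E3 := E3_pf ARR_ok PPB_pf
theorem BLW_ok : S_BLW := BLW_pf
theorem BLF_ok : S_BLF := BLF_pf
theorem SHF_ok : S_SHF := SHF_pf
theorem SHX_ok : S_SHX := SHX_pf JOI_pf FSX_ok SHF_ok
theorem SUB_ok : S_SUB := SUB_pf
theorem LPH_ok : S_LPH := LPH_pf
theorem RAM_ok : S_RAM := RAM_pf LPH_ok SUB_ok
theorem BEH_ok : S_BEH := BEH_pf
theorem CAN_ok : S_CAN := CAN_pf RAM_ok BEH_ok SUB_ok SHF_ok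
theorem TP1_ok : S_TP1 := TP1_pf
theorem TP2_ok : S_TP2 := TP2_pf TP1_ok LPH_ok SUB_ok SHF_ok
theorem THN_ok : S_THN := THN_pf TP1_ok TP2_ok SUB_ok SHF_ok
theorem NLN_ok : S_NLN := NLN_pf ARR_ok SHF_ok SUB_ok
theorem FAT_ok : S_FAT := FAT_pf ARR_ok BLW_ok BLF_ok
theorem NFF_ok : S_NFF := NFF_pf ARR_ok BLF_ok SHF_ok SHX_ok SUB_ok
theorem EXN_ok : S_EXN :=
  EXN_pf ARR_ok BLW_ok BLF_ok SHF_ok SHX_ok SUB_ok CAN_ok THN_ok NLN_ok AMA_ok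
theorem EXT2_ok : S_EXT2 := EXT2_pf EXN_ok NFF_ok SUB_ok SHF_ok
theorem EXM_ok : S_EXM := EXM_pf FAT_ok
theorem VD_ok : S_VD := VD_pf FAT_ok BLW_ok
theorem HU_ok : S_HU := HU_pf FAT_ok
theorem LTI_ok : S_LTI := LTI_pf FAT_ok EXM_ok HU_ok BLW_ok BLF_ok
theorem D2C_ok : S_D2C := D2C_pf FAT_ok EXM_ok HU_ok
theorem SJT_ok : S_SJT := SJT_pf SHF_ok
theorem RWC_ok : S_RWC := RWC_pf
theorem SJC_ok : S_SJC := SJC_pf RWC_ok ARR_ok SHF_ok SHX_ok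
theorem LTC_ok : S_LTC := LTC_pf ARR_ok
theorem LNC_ok : S_LNC := LNC_pf SHF_ok SHX_ok
theorem QFA_ok : S_QFA := QFA_pf
theorem QV_ok : S_QV := QV_pf ARR_ok FAT_ok QFA_ok
theorem QFT_ok : S_QFT := QFT_pf FAT_ok
theorem F3T_ok : S_F3T := F3T_pf SHF_ok
theorem BET_ok : S_BET := BET_pf QFT_ok FAT_ok SHF_ok
theorem BLT_ok : S_BLT := BLT_pf F3T_ok BET_ok ARR_ok SHF_ok SHX_ok
theorem RRT_ok : S_RRT := RRT_pf F3T_ok SHF_ok SHX_ok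
theorem QPP_ok : S_QPP := QPP_pf ARR_ok QFT_ok FAT_ok QFA_ok
theorem COM_ok : S_COM := COM_pf
theorem GLS_ok : S_GLS := GLS_pf
theorem BFG_ok : S_BFG := BFG_pf EXT_ok
theorem ENG_ok : S_ENG := ENG_pf GAME_pf PGRP_ok DEN_ok COM_ok GLS_ok BFG_ok
theorem QQP_ok : S_QQP := QQP_pf PPB_pf QFA_ok
theorem QQT_ok : S_QQT := QQT_pf
theorem QGD_ok : S_QGD := QGD_pf QFA_ok
theorem FRQ_ok : S_FRQ := FRQ_pf
theorem NFQ_ok : S_NFQ := NFQ_pf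
theorem EGD_ok : S_EGD := EGD_pf
theorem FRE_ok : S_FRE := FRE_pf
theorem NFE_ok : S_NFE := NFE_pf
theorem KIP_ok : S_KIP := KIP_pf
theorem EQP_ok : S_EQP := EQP_pf PPB_pf
theorem EQU_ok : S_EQU := EQU_pf PPB_pf
theorem EQD_ok : S_EQD := EQD_pf PPB_pf
theorem EQN_ok : S_EQN := EQN_pf
theorem CMB_ok : S_CMB := CMB_pf
theorem CCK_ok : S_CCK := CCK_pf
theorem KCL_ok : S_KCL := KCL_pf CMB_ok
theorem EQH_ok : S_EQH := EQH_pf PPB_pf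
theorem EFP_ok : S_EFP := EFP_pf KCL_ok CMB_ok FSX_ok
theorem ZFP_ok : S_ZFP := ZFP_pf

variable {c : ℚ → Bool} {σ : Sig}

theorem nfe_ok (σ : Sig) (B : Type) (𝔅 : Str σ B) (a a' a'' : B) (h : a ≠ a') (h' : a ≠ a'')
    (h'' : a' ≠ a'') (hK : PP 𝔅 (K7 (B := B))) (hN : PP 𝔅 (N7 (B := B))) : ¬ InFPC (CSP 𝔅) :=
  NFE_ok ENG_ok EGD_ok GAD_ok TWIN_pf FRE_ok σ B 𝔅 a a' a'' h h' h'' hK hN

theorem eqh_ok (𝔅 : Str σ (Word c)) (hA : AllInv 𝔅) (hN : NEq 𝔅) (hC : CC 𝔅)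
    (hF : InFPC (CSP 𝔅)) : ∀ R, EqH (𝔅.rel R) :=
  EQH_ok CCK_ok KCL_ok (EQN_ok KIP_ok EQP_ok EQU_ok EQD_ok nfe_ok) c σ 𝔅 hA hN hC hF

theorem nfq_ok (𝔅 : Str σ (Word c)) (hA : AllInv 𝔅) (hQ : PP 𝔅 (Q4 (c := c))) (hR : RR 𝔅) :
    ¬ InFPC (CSP 𝔅) :=
  NFQ_ok ENG_ok QGD_ok GAD_ok TWIN_pf SA0_ok (UN1_pf PLC_pf) FRQ_ok QQP_ok QQT_ok c σ 𝔅 hA hQ hR

/-- Templates in FPC have constant tuples or are `HornC` or `EqH`. -/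
theorem class_ok (𝔅 : Str σ (Word c)) (hA : AllInv 𝔅) (hF : InFPC (CSP 𝔅)) :
    Cst0 𝔅 ∨ (∀ R, HornC (𝔅.rel R)) ∨ ∀ R, EqH (𝔅.rel R) :=
  class_of NEC_ok E3_ok (fun 𝔅 hL h => hornC_of_inFPC 𝔅 hL h)
    (fun 𝔅 hA hN h3 hCC => quartets_of LNC_ok EXT2_ok VD_ok LTI_ok D2C_ok SJT_ok SJC_ok LTC_ok
      QV_ok BLT_ok RRT_ok QPP_ok 𝔅 hA hN h3 hCC)
    (fun 𝔅 hA hQ hR => nfq_ok 𝔅 hA hQ hR)
    (fun 𝔅 hA hN hC h => eqh_ok 𝔅 hA hN hC h) 𝔅 hA hF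

theorem inFP_of_horn (c : ℚ → Bool) (σ : Sig) (𝔅 : Str σ (Word c)) (h : ∀ R, HornC (𝔅.rel R)) :
    InFP (CSP 𝔅) := inFP_of_hornC 𝔅 h

/-- The converse. -/
theorem fp_ok (𝔅 : Str σ (Word c)) (hA : AllInv 𝔅)
    (h : Cst0 𝔅 ∨ (∀ R, HornC (𝔅.rel R)) ∨ ∀ R, EqH (𝔅.rel R)) : InFP (CSP 𝔅) := by
  rcases h with h | h | h
  · exact ZFP_ok inFP_of_horn c σ 𝔅 hA h
  · exact inFP_of_hornC 𝔅 h
  · exact EFP_ok inFP_of_horn c σ 𝔅 h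

/-- The classification. -/
theorem main (𝔅 : Str σ (Word c)) (h : ∀ R, AutInv (𝔅.rel R)) :
    (InFPC (CSP 𝔅) ↔ InFP (CSP 𝔅)) ∧
    (InFP (CSP 𝔅) ↔ Cst0 𝔅 ∨ (∀ R, HornC (𝔅.rel R)) ∨ ∀ R, EqH (𝔅.rel R)) ∧ RFBH 𝔅 := by
  have hA : AllInv 𝔅 := fun R => inv_of_autInv (h R)
  have e1 : InFPC (CSP 𝔅) → Cst0 𝔅 ∨ (∀ R, HornC (𝔅.rel R)) ∨ ∀ R, EqH (𝔅.rel R) :=
    class_ok 𝔅 hA
  have e2 : (Cst0 𝔅 ∨ (∀ R, HornC (𝔅.rel R)) ∨ ∀ R, EqH (𝔅.rel R)) → InFP (CSP 𝔅) := fp_ok 𝔅 hA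
  have e3 : InFP (CSP 𝔅) → InFPC (CSP 𝔅) := fun h => F2C_pf σ _ h
  exact ⟨⟨fun h => e2 (e1 h), e3⟩, ⟨fun h => e1 (e3 h), e2⟩, rfbh_ok 𝔅 hA⟩

/-- Homogeneity of the split relation. -/
theorem homog {X : Type} [Finite X] {v w : X → Word c} (h : SameOn Set.univ v w) :
    ∃ g : Word c ≃ Word c, (∀ x y z, Cc x y z ↔ Cc (g x) (g y) (g z)) ∧ ∀ x, g (v x) = w x := by
  refine (AUT_pf HMC_ok c X (fun u => ∃ g : Word c ≃ Word c,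
    (∀ x y z, Cc x y z ↔ Cc (g x) (g y) (g z)) ∧ ∀ x, g (v x) = u x)).2 ?_ v w h
    ⟨Equiv.refl _, fun _ _ _ => Iff.rfl, fun _ => rfl⟩
  rintro g hg u ⟨g', hg', hu⟩
  exact ⟨g'.trans g, fun x y z => (hg' x y z).trans (hg _ _ _), fun x => congrArg g (hu x)⟩

/-- Rooted triples are in FP. -/
theorem inFP_Cst : InFP (CSP (Cst c)) := inFP_of_hornC _ (fun _ => hornC_C3)

/-- Rooted triples with even splits are not in FPC. -/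
theorem not_inFPC_Even4 : ¬ InFPC (CSP (withR (Even4 (c := c)))) := fun h =>
  not_hornC_Even4 (hornC_of_inFPC _ (plang_withR inv_Even4) h (Sum.inr ()))

/-- The quartet relation is not in FPC. -/
theorem not_inFPC_Qst : ¬ InFPC (CSP (Qst c)) := fun h => by
  rcases class_ok (Qst c) allInv_Qst h with h | h | h
  · exact not_cst0_Qst h
  · exact not_hornC_Q4 (h ())
  · exact not_eqH_Q4 (h ())

end Pool.Agent.Work.MP_8dbde4_lc.Full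

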