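import Pool.Agent.Work.MP_8dbde4_lc.Full.Defs

/-!
Statements of the block Full of MP_8dbde4_lc, first part: arrows, shapes, Ramsey, thinning. Every
docstring contains the proof. The facts `cc_symm`, `cc_ne`, `cc_self`, `cc_iff_ne`, `cc_asymm`,
`cc_or`, `cc_trans`, `cc_tri`, `cc_mid`, `cc_irrefl` of Full/Defs.lean are proved and can be used
everywhere; they determine all configurations of few points.

Theorem FULL: for every structure `𝔅` on `Word c` of finite signature with invariant relations
CSP(𝔅) in FPC, CSP(𝔅) in FP, and `Cst0 𝔅 ∨ (∀ R, HornC (𝔅.rel R)) ∨ (∀ R, EqH (𝔅.rel R))` are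
equivalent.
-/

set_option autoImplicit false
open Classical

namespace Pool.Agent.Work.MP_8dbde4_lc.Full

open Pool.Agent.Work.MP_8dbde4_lc.TS Pool.Agent.Work.MP_8dbde4_lc.Tree
  Pool.Agent.Work.MP_8dbde4_lc.Phy BT

/-! ### Part A: arrows -/

/-- Primitive positive definable sets are invariant (S_INV of Phy with the weaker hypothesis
`AllInv`). Let `v = f ∘ m`, `w` with the same splits. By S_AMA (for `w := f`, `a := w`, `b := m`) there
is `g : D → Word c` with the splits of `f` and `g ∘ m = w`; it is a homomorphism because the relations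
of `𝔅` are invariant. (See Phy/I_INV.lean.) -/
def S_IN2 : Prop := ∀ (c : ℚ → Bool) (σ : Sig) (𝔅 : Str σ (Word c)), AllInv 𝔅 →
  ∀ (X : Type) [Finite X] (S : (X → Word c) → Prop), PP 𝔅 S → Inv S

/-- Arrows. (1) S_IN2. (2) S_PPB (3): `fun v => S (fun y => v (e y))` is PP. (3) The set of the `u` with
`Arr 𝔅 v u` is PP: for every `u` with `¬ Arr 𝔅 v u` choose a PP set `S_u` with `S_u v`, `¬ S_u u`. The
tuples fall into finitely many classes with respect to `SameOn univ` (such a class is determined by
the set of the pairs with `v x = v y` and the set of the triples with `Cc`); by (1) finitely many of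
the `S_u` (one for each class that contains such a `u`) suffice: `Arr 𝔅 v u` iff `u` is in their
intersection, which is PP (S_PPB (7)). (4) The projection (S_PPB (4)) of the PP set
`{u | Arr 𝔅 v' u}` along `i` contains `v' ∘ i`, so `w`. (5) `{u | u x = u y}` is PP (S_PPB (5)).
(6) `{u | u x ≠ u y}` is PP if `NEq 𝔅` (S_PPB (3) for the map `![x, y]`). -/
def S_ARR : Prop := ∀ (c : ℚ → Bool) (σ : Sig) (𝔅 : Str σ (Word c)), AllInv 𝔅 →
  (∀ (X : Type) [Finite X] (v w : X → Word c), SameOn Set.univ v w → Arr 𝔅 v w) ∧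
  (∀ (X Y : Type) [Finite X] (e : Y → X) (v w : X → Word c), Arr 𝔅 v w →
    Arr 𝔅 (fun y => v (e y)) (fun y => w (e y))) ∧
  (∀ (X : Type) [Finite X] (v : X → Word c), PP 𝔅 (fun u => Arr 𝔅 v u)) ∧
  (∀ (X X' : Type) [Finite X'] (i : X → X') (v' : X' → Word c) (w : X → Word c),
    Arr 𝔅 (fun x => v' (i x)) w → ∃ w' : X' → Word c, (∀ x, w' (i x) = w x) ∧ Arr 𝔅 v' w') ∧
  (∀ (X : Type) [Finite X] (v w : X → Word c) (x y : X), Arr 𝔅 v w → v x = v y → w x = w y) ∧
  (NEq 𝔅 → ∀ (X : Type) [Finite X] (v w : X → Word c) (x y : X), Arr 𝔅 v w → v x ≠ v y →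
    w x ≠ w y)

/-- If disequality is not PP then every nonempty PP set contains a constant tuple. Let `v 0 ≠ v 1`
(`Fin 2`). By S_ARR (3) the set `{u | Arr 𝔅 v u}` is PP and contains all the pairs of different
words (they have the same splits as `v`); it is not the disequality, so it contains a constant pair,
so (S_IN2) all the constant pairs. So `Arr 𝔅 ![a, b] ![d, d]` for all `a ≠ b`, `d`. Now let `S` be PP
(for `𝔅.rel R` use S_PPB (1)), `v ∈ S` with a maximal number of pairs `(x, y)` such that `v x = v y`. If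
`v x ≠ v y` for some `x, y` then S_ARR (4) for `i = ![x, y]` gives `w` with `Arr 𝔅 v w`, so `w ∈ S`,
`w x = w y`, and `w` satisfies all the equalities of `v` (S_ARR (5)), contradiction. So `v` is constant. -/
def S_NEC : Prop := ∀ (c : ℚ → Bool) (σ : Sig) (𝔅 : Str σ (Word c)), AllInv 𝔅 → ¬ NEq 𝔅 → Cst0 𝔅

/-- Three points. Let `v` be injective with `Cc (v 0) (v 1) (v 2)`. If `Arr 𝔅 v u` only for tuples `u`
with the splits of `v` (`u` is injective by S_ARR (6)), then `O = {u | Arr 𝔅 v u}` is PP (S_ARR (3)) and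
is the set of all injective `u` with `Cc (u 0) (u 1) (u 2)`, and `C3 u` iff there is a word `e` with
`O ![u 0, u 1, e]` and `O ![u 0, u 2, e]` (choose `e ≠ u 1, u 2` very close to `u 1`: `Cc (u 0) (u 1) e`;
conversely `cc_trans`), so `C3` is PP (S_PPB (2), (3), (4)), contradiction. So there is an arrow from `v`
to a tuple of another shape, and with the transposition of 1 and 2 (S_ARR (2) and (1)) to both other
shapes. By S_ARR (2) with permutations this holds for all the shapes (for every injective triple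
exactly one of the three points splits off from the others, `cc_tri`). -/
def S_E3 : Prop := ∀ (c : ℚ → Bool) (σ : Sig) (𝔅 : Str σ (Word c)), AllInv 𝔅 → NEq 𝔅 →
  ¬ PP 𝔅 (C3 (c := c)) → E3 𝔅

/-! ### Part B: blow-ups and shapes -/

/-- Blow-ups exist, with arbitrary blocks. Let `q₀` be a place above all the places where one of the
`v x` (`x : X`, finitely many) differs from `c`, and `ρ : ℚ → ℚ` an increasing map with values above
`q₀` (for example `ρ q = q₀ + 1 + q + |q| + ...`: choose `ρ` on the finite set `Δ` of the places where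
one of the `u y` differs from `c` only, by an order embedding of `Δ`). Let `v' y` have the letters of
`v (π y)` below or at `q₀`, at the place `ρ q`, `q ∈ Δ`, the letter `u y q`, and the letter of `c` at all
other places above `q₀`. If `π y ≠ π y'` the first place where `v' y`, `v' y'` differ is that of
`v (π y)`, `v (π y')` (at most `q₀`); if `π y = π y'` it is `ρ q` for the first `q` where `u y`, `u y'`
differ. -/
def S_BLW : Prop := ∀ (c : ℚ → Bool) (X Y : Type) [Finite X] [Finite Y] (π : Y → X)
  (v : X → Word c) (u : Y → Word c), Function.Injective v →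
  (∀ y y', π y = π y' → u y = u y' → y = y') →
  ∃ v' : Y → Word c, Function.Injective v' ∧ Bl π v v' ∧ ∀ x, SameOn {y | π y = x} u v'

/-- Facts on blow-ups. (1) If the blocks have one element. (2) Composition. (3) Two blow-ups of `v`
with the same blocks have the same splits: for `π y'' ≠ π y, π y'` both are determined by `v`; if
`π y = π y' = π y''` by the blocks; if `π y'' = π y ≠ π y'` then `Cc (v' y'') (v' y) (v' y')` is false:
`Cc (v' y') (v' y'') (v' y)` is true (`Bl` with `v` injective), `cc_asymm`, and `cc_irrefl` if `y'' = y`.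
(4) `v'` restricted to a block and `v'` on a section: if `s : X → Y`, `π (s x) = x`, then `v' ∘ s` has the
splits of `v`. -/
def S_BLF : Prop := ∀ (c : ℚ → Bool) (X Y : Type) (π : Y → X) (v : X → Word c)
  (v' : Y → Word c), Function.Injective v → Function.Injective v' → Bl π v v' →
  (Function.Injective π → SameOn Set.univ (fun y => v (π y)) v') ∧
  (∀ (Z : Type) (ρ : Z → Y) (v'' : Z → Word c), Bl ρ v' v'' → Bl (fun z => π (ρ z)) v v'') ∧
  (∀ v'' : Y → Word c, Function.Injective v'' → Bl π v v'' →
    (∀ x, SameOn {y | π y = x} v' v'') → SameOn Set.univ v' v'') ∧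
  (∀ s : X → Y, (∀ x, π (s x) = x) → SameOn Set.univ v (fun x => v' (s x)))

/-- Facts on shapes, by induction on the tree. (1) A tuple with a shape is injective on the leaves,
and every leaf occurs once. (2) The shape determines the splits (as S_GLU of Phy: for three leaves
not on the same side, two of them are on one side, `Sep`, `cc_asymm`). (3) The shape is determined by
the splits. (4) Renaming. (5) Mirror image (`Sep v A B ↔ Sep v B A`). (6) Subtrees obtained by deletion.
(7) The leaves of such a subtree form a sublist. -/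
def S_SHF : Prop := ∀ (c : ℚ → Bool) (X : Type) (T : BT X),
  (∀ v : X → Word c, Sh v T → T.lvs.Nodup ∧ Set.InjOn v {x | x ∈ T.lvs}) ∧
  (∀ v w : X → Word c, Sh v T → Sh w T → SameOn {x | x ∈ T.lvs} v w) ∧
  (∀ v w : X → Word c, Sh v T → SameOn {x | x ∈ T.lvs} v w → Sh w T) ∧
  (∀ (Y : Type) (e : X → Y) (v : Y → Word c), Sh v (T.map e) ↔ Sh (fun x => v (e x)) T) ∧
  (∀ v : X → Word c, (Sh v T.mir ↔ Sh v T) ∧ T.mir.lvs = T.lvs.reverse) ∧
  (∀ (t : BT X) (v : X → Word c), Sub t T → Sh v T → Sh v t) ∧
  (∀ t : BT X, Sub t T → List.Sublist t.lvs T.lvs)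

/-- Shapes exist. (1) Every tree with different leaves is the shape of a tuple: induction; S_JOI of
Phy for the two sides (`h x = decide (x ∈ r.lvs)`). (2) If `v` is injective on the nonempty set `Y` it has
a shape with the set of leaves `Y`: strong induction on the size of `Y`; if `Y = {x}` the tree `lf x`;
otherwise let `h` be the first split of `v` on `Y` (S_FSX of Phy), take the trees of the two sides;
`Sep` is the definition of `Spl`. -/
def S_SHX : Prop := ∀ (c : ℚ → Bool) (X : Type) [Finite X],
  (∀ T : BT X, T.lvs.Nodup → ∃ v : X → Word c, Sh v T) ∧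
  (∀ (v : X → Word c) (Y : Set X), Y.Nonempty → Set.InjOn v Y →
    ∃ T : BT X, (∀ x, x ∈ T.lvs ↔ x ∈ Y) ∧ Sh v T)

/-- Facts on trees. (1) `Sub` is reflexive and transitive. (2) A complete tree of depth `N` contains
complete trees of all smaller depths. (3) Every nonempty sublist of the list of the leaves is the
list of the leaves of a subtree obtained by deletion (induction on the tree: split the sublist of
`l.lvs ++ r.lvs`, `List.sublist_append_iff`). (4) Subtrees of renamed trees are renamed subtrees.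
(5) Every tree with different leaves can be embedded into complete trees of large depth: `n₀ = 0` for
`lf x`, one more than the maximum for `nd l r`; `e x` is given by the embedding of `l` if `x ∈ l.lvs`,
by that of `r` otherwise (deeper trees: (2)); `map` depends only on the values of `e` on the leaves. -/
def S_SUB : Prop := ∀ X : Type,
  (∀ t : BT X, Sub t t) ∧ (∀ t u s : BT X, Sub t u → Sub u s → Sub t s) ∧
  (∀ (y : BT X) (n N : ℕ), y.Cpl N → n ≤ N → ∃ z, Sub z y ∧ z.Cpl n) ∧
  (∀ (y : BT X) (ℓ : List X), List.Sublist ℓ y.lvs → ℓ ≠ [] → ∃ t, Sub t y ∧ t.lvs = ℓ) ∧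
  (∀ (Y : Type) (e : X → Y) (t u : BT X), Sub t u → Sub (t.map e) (u.map e)) ∧
  (∀ T : BT X, T.lvs.Nodup → ∃ n₀ : ℕ, ∀ n, n₀ ≤ n → ∀ (Y : Type) (y : BT Y), y.Cpl n →
    ∃ e : X → Y, Sub (T.map e) y)

/-! ### Part R: Ramsey theorem for binary trees -/

/-- Pigeonhole for leaves. Induction on `h` for all `n` with sum at most `h`. If all the `n k` are `0`
take any leaf. Otherwise `n k₀ ≥ 1`, `h ≥ 1` and `y = nd l r`: apply the induction hypothesis to `l` and
`r` and `n` with `n k₀` decreased by one. If one of the two gives a colour `k ≠ k₀` take its tree,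
otherwise join the two trees. -/
def S_LPH : Prop := ∀ (Λ κ : Type) [Fintype κ] (χ : Λ → κ) (h : ℕ) (n : κ → ℕ) (y : BT Λ),
  y.Cpl h → ∑ k, n k ≤ h → ∃ (k : κ) (z : BT Λ), Sub z y ∧ z.Cpl (n k) ∧ ∀ x ∈ z.lvs, χ x = k

/-- The Ramsey theorem: colour the trees obtained by deletion of leaves with `r` colours; in a
complete tree of large depth there is a complete tree of depth `n` in which all those of the shape
`P` have the same colour. Induction on `P`. `P = lf ()`: S_LPH (`χ (lf x)`), `N = r n`. `P = nd P₁ P₂`.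
(Step 1) For every `M` there is `M'` such that for every node `nd l r`, `l.Cpl M'`, `r.Cpl M'`, there are
`Sub l' l`, `Sub r' r`, `l'.Cpl M`, `r'.Cpl M`, such that `χ (nd t₁ t₂)` is the same for all `Sub t₁ l'` of
shape `P₁` and `Sub t₂ r'` of shape `P₂`: let `N₂ = N(P₂, r, M)`, `r₀` a complete subtree of depth `N₂` of
`r`; colour the `t₁` by the functions `t₂ ↦ χ (nd t₁ t₂)` on the finite set of the `t₂` with `Sub t₂ r₀`;
the number of these functions is bounded by a number `r'` which depends on `N₂` and `r` only (a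
complete tree of depth `N₂` has at most `s(N₂)` such `t₂`, `s(0) = 1`, `s(N+1) = 2 s(N) + s(N)^2`), so they
can be coded by `Fin r'`; `M' = max (N(P₁, r', M), N₂)`. This gives `l'`, for which `χ (nd t₁ t₂)` depends
only on `t₂`; then `N(P₂, r, M)` gives `r'`. (Step 2) For every `h` there is `N` such that in every
complete tree `y` of depth `N` there is `z` complete of depth `h`, `Sub z y`, with
(*) for every node of `z` there is a colour `k` such that `χ (nd t₁ t₂) = k` for all `t₁` of shape `P₁` left
of it and `t₂` of shape `P₂` right of it: (*) is a recursive property `HC` (for `lf` true, for `nd l r`: it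
holds for `l`, `r` and at the root); induction on `h`: step 1 with `M` = the number for `h`, then the
induction hypothesis for `l'`, `r'`. (Step 3) If `z` satisfies (*) and is complete of depth `h ≥ ∑ k, n k`
then for some colour `k` there is `Sub z' z` complete of depth `n k` in which all nodes have the colour
`k`: induction on `h`; if some `n k = 0` take a leaf; otherwise let `k₀` be the colour of the root,
decrease `n k₀` by one, apply the induction hypothesis to both sides; a colour `k ≠ k₀` on one side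
is enough, otherwise join the two trees. Take all `n k = n`. -/
def S_RAM : Prop := ∀ (P : BT Unit) (r n : ℕ), ∃ N : ℕ, ∀ (Λ : Type) (y : BT Λ), y.Cpl N →
  ∀ χ : BT Λ → Fin r, ∃ z, Sub z y ∧ z.Cpl n ∧
    ∃ k, ∀ t, Sub t z → t.map (fun _ => ()) = P → χ t = k

/-- The behaviour on three leaves: `i = 0, 1, 2` splits off from the other two. -/
def Beh {c : ℚ → Bool} {Λ : Type} (w : Λ → Word c) (i : Fin 3) (a b d : Λ) : Prop :=
  match i with
  | 0 => Cc (w a) (w b) (w d)
  | 1 => Cc (w b) (w a) (w d)
  | 2 => Cc (w d) (w a) (w b)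

/-- Constant behaviour on triples. Let `z` be complete of depth at least 3, with constant behaviour
`i` on the subtrees `(a b) d` and `j` on the subtrees `a (b d)`. Then `(i, j)` is `(2, 0)`, `(0, 0)` or
`(2, 2)`. Four leaves `((a b) d) e` of `z` (they exist: depth 3) exclude `i = 1`: `Beh 1` for `(a, b, d)`,
`(a, b, e)` says that `b` splits off from `a, d` and from `a, e`, so from `d, e` (`cc_trans`), and `Beh 1`
for `(b, d, e)` that `d` splits off from `b, e` (`cc_asymm`). Four leaves `a (b (d e))` exclude `j = 1` in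
the same way (`(a, b, d)`, `(a, b, e)`, `(b, d, e)`). Four leaves `(a b) (d e)` exclude `(0, 2)`: `(a, b, d)`,
`(a, b, e)`: `a` splits off from `b, d` and `b, e`, so from `d, e`; but `(a, d, e)` has the shape
`a (d e)`, so `e` splits off from `a, d`. Case `(2, 0)`: `Sh w z`: for a node `nd l r`, `x, y ∈ l.lvs` and
`u ∈ r.lvs`: if `x = y` use `cc_self`, otherwise `x, y, u` (or `y, x, u`) are the leaves of a subtree
`(x y) u` (S_SUB (4) for the pair in `l`, `Sub.both`); the same for the other side. Case `(0, 0)`: all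
triples `a, b, d` of leaves in this order form a subtree of one of the two shapes (S_SUB (4)), so `a`
splits off from `b, d`: `CombL w z.lvs`. Case `(2, 2)`: `CombL w z.lvs.reverse`. -/
def S_BEH : Prop := ∀ (c : ℚ → Bool) (Λ : Type) (z : BT Λ) (w : Λ → Word c) (n : ℕ) (i j : Fin 3),
  3 ≤ n → z.Cpl n → z.lvs.Nodup → Set.InjOn w {x | x ∈ z.lvs} →
  (∀ a b d, Sub (nd (nd (lf a) (lf b)) (lf d)) z → Beh w i a b d) →
  (∀ a b d, Sub (nd (lf a) (nd (lf b) (lf d))) z → Beh w j a b d) →
  Sh w z ∨ CombL w z.lvs ∨ CombL w z.lvs.reverse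

/-- Canonical behaviour. Colour the trees with three leaves `a, b, d` (in this order; `t.lvs`) by the
`i : Fin 3` with `Beh w i a b d` (`cc_tri`; other trees arbitrarily). S_RAM for `nd (nd . .) .` and then
inside the result for `nd . (nd . .)` (with `n' = max n 3`), then S_BEH, and a subtree of depth `n`
(S_SUB; `Sh` and `CombL` are inherited by S_SHF (6), (7)). -/
def S_CAN : Prop := ∀ n : ℕ, ∃ N : ℕ, ∀ (c : ℚ → Bool) (Λ : Type) (y : BT Λ) (w : Λ → Word c),
  y.Cpl N → y.lvs.Nodup → Set.InjOn w {x | x ∈ y.lvs} →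
  ∃ z, Sub z y ∧ z.Cpl n ∧ (Sh w z ∨ CombL w z.lvs ∨ CombL w z.lvs.reverse)

/-! ### Part T: thinning -/

/-- A point relative to a tree. Let `H = nd l r`. If `l.lvs` does not do it there are `a, a' ∈ l.lvs` with
`¬ Cc b (w a) (w a')`. Claim: then `Cc b (w d) (w d')` for all `d, d' ∈ r.lvs`. We have
`Cc (w d) (w a) (w a')`, so by `cc_or` `Cc (w d) (w a) b`, or `Cc b (w a) (w a')` which is false. So
`Cc (w d) (w a) b` for all `d ∈ r.lvs`; and `Cc (w a) (w d) (w d')`; so `Cc b (w d) (w d')` (`cc_mid` for
`Cc (w d) (w a) b` and `Cc (w a) (w d) (w d')`). -/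
def S_TP1 : Prop := ∀ (c : ℚ → Bool) (Λ : Type) (w : Λ → Word c) (l r : BT Λ) (b : Word c),
  Sh w (nd l r) → (∀ a ∈ l.lvs, ∀ a' ∈ l.lvs, Cc b (w a) (w a')) ∨
    (∀ a ∈ r.lvs, ∀ a' ∈ r.lvs, Cc b (w a) (w a'))

/-- Two trees. `K = nd l r`. Colour the leaves `b` of `H` by the side of `K` which S_TP1 gives for `w b`.
S_LPH with both numbers `m + 1`: `H₁` of depth `m + 1`, say with the side `l` for all its leaves (the
other case is the same); `K' = l`. Take `a₀ ∈ l.lvs`. S_TP1 for `H₁` and `w a₀` gives `H'`, a side of `H₁`,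
with `Cc (w a₀) (w b) (w b')` for all its leaves. For another `a ∈ l.lvs`: `cc_or` gives
`Cc (w a₀) (w b) (w a)` or `Cc (w a) (w b) (w b')`; the first contradicts `Cc (w b) (w a₀) (w a)`
(`cc_asymm`). -/
def S_TP2 : Prop := ∀ (c : ℚ → Bool) (Λ : Type) (w : Λ → Word c) (K H : BT Λ) (k m : ℕ),
  K.Cpl (k + 1) → H.Cpl (2 * m + 2) → Sh w K → Sh w H → ∃ K' H', Sub K' K ∧ Sub H' H ∧
    K'.Cpl k ∧ H'.Cpl m ∧ (∀ a ∈ K'.lvs, ∀ a' ∈ K'.lvs, ∀ b ∈ H'.lvs, Cc (w b) (w a) (w a')) ∧
    ∀ a ∈ K'.lvs, ∀ b ∈ H'.lvs, ∀ b' ∈ H'.lvs, Cc (w a) (w b) (w b')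

/-- One tree relative to a finite family. Induction on the finite type `X` (`g` is the function
`m ↦ 2 m + 2` iterated `Nat.card X` times, or by induction over a finite subset of `X`), treating the
elements of `X` one after the other: for `x ∈ F` S_TP2; for `x ∉ F` choose a leaf `a₀` of `K x`,
`K' x = lf a₀`, and S_TP1 for `H` and `w a₀` (one side of `H`, and a smaller complete subtree, S_SUB
(3)). The properties are inherited when `H` is replaced by a subtree. -/
def S_THN : Prop := ∀ (X : Type) [Finite X] (n : ℕ), ∃ N : ℕ, ∀ (c : ℚ → Bool) (Λ : Type)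
  (w : Λ → Word c) (F : Set X) (K : X → BT Λ) (H : BT Λ), (∀ x ∈ F, (K x).Cpl (n + 1)) →
  (∀ x, Sh w (K x)) → H.Cpl N → Sh w H → (∀ x, ∀ a ∈ (K x).lvs, ∀ b ∈ H.lvs, w a ≠ w b) →
  ∃ (K' : X → BT Λ) (H' : BT Λ), (∀ x, Sub (K' x) (K x)) ∧ Sub H' H ∧ (∀ x ∈ F, (K' x).Cpl n) ∧
    (∀ x, x ∉ F → ∃ a, K' x = lf a) ∧ H'.Cpl n ∧
    (∀ x, ∀ a ∈ (K' x).lvs, ∀ a' ∈ (K' x).lvs, ∀ b ∈ H'.lvs, Cc (w b) (w a) (w a')) ∧
    (∀ x, ∀ a ∈ (K' x).lvs, ∀ b ∈ H'.lvs, ∀ b' ∈ H'.lvs, Cc (w a) (w b) (w b'))

/-- If `LIN` fails then no arrow maps large complete trees to combs. Let `T₀` (on `X₀`), `v₀`, `z₀` be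
a counterexample to `LIN`; its leaves are different (S_SHF (1)). `n₀` is the number of S_SUB (6) for
`T₀` and for `T₀.mir`. Suppose `y` is complete of depth `n₀`, `Arr 𝔅 v w` and `CombL w y.lvs`. Let
`e : X₀ → Λ`, `Sub (T₀.map e) y`. Then `v ∘ e` has the shape `T₀` (S_SHF (6), (4)), so the splits of `v₀`
(S_SHF (2)), and `w ∘ e` satisfies `CombL` for `T₀.lvs` (sublist; `CombL` of a list of different elements
determines the splits), so it has the splits of `z₀`. By S_ARR (2), (1) `Arr 𝔅 v₀ z₀`, contradiction.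
If `CombL w y.lvs.reverse` take `T₀.mir` (S_SHF (5)). -/
def S_NLN : Prop := ∀ (c : ℚ → Bool) (σ : Sig) (𝔅 : Str σ (Word c)), AllInv 𝔅 → ¬ LIN 𝔅 →
  ∃ n₀ : ℕ, ∀ (Λ : Type) [Finite Λ] (y : BT Λ) (v w : Λ → Word c), y.Cpl n₀ → Sh v y →
    Arr 𝔅 v w → ¬ CombL w y.lvs ∧ ¬ CombL w y.lvs.reverse

/-! ### Part F: fat arrows -/

/-- Facts on fat arrows (all injective). (1) `π = id`: `Arr`. (2) From `Arr`: if `F = ∅` then `π` is
injective and `v'` has the splits of `v ∘ π` (S_BLF (1)); S_ARR (2), (1). (3) Composition: given blow-ups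
`v'`, `w'` of `v`, `w` take a blow-up `u'` of `u` with the blocks of `v'` (S_BLW). (4) Smaller `F`.
(5) Same splits: `Bl π v v'` depends only on the splits of `v`. (6) Restriction along an injective map
`i : X₀ → X`: for a blow-up `π₀ : Y → X₀` use `i ∘ π₀`. (7) Substitution: blow-ups of blow-ups are
blow-ups (S_BLF (2)); the blocks of `i ∘ ρ` agree in `v''` and `w''` by the argument of S_BLF (3). -/
def S_FAT : Prop := ∀ (c : ℚ → Bool) (σ : Sig) (𝔅 : Str σ (Word c)), AllInv 𝔅 →
  ∀ (X : Type) [Finite X] (F : Set X) (v w : X → Word c), Function.Injective v →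
    Function.Injective w →
  (Fat 𝔅 F v w → Arr 𝔅 v w) ∧ (Arr 𝔅 v w → Fat 𝔅 ∅ v w) ∧
  (∀ u : X → Word c, Function.Injective u → Fat 𝔅 F v u → Fat 𝔅 F u w → Fat 𝔅 F v w) ∧
  (∀ F' ⊆ F, Fat 𝔅 F v w → Fat 𝔅 F' v w) ∧
  (∀ v₁ w₁ : X → Word c, SameOn Set.univ v v₁ → SameOn Set.univ w w₁ → Fat 𝔅 F v w →
    Fat 𝔅 F v₁ w₁) ∧
  (∀ (X₀ : Type) (i : X₀ → X), Function.Injective i → Fat 𝔅 F v w →
    Fat 𝔅 {x | i x ∈ F} (fun x => v (i x)) (fun x => w (i x))) ∧
  (∀ (Y : Type) [Finite Y] (π : Y → X) (v' w' : Y → Word c) (F' : Set Y),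
    (∀ y y', π y = π y' → π y ∉ F → y = y') → (∀ y ∈ F', π y ∈ F) → Function.Injective v' →
    Function.Injective w' → Bl π v v' → Bl π w w' → (∀ x, SameOn {y | π y = x} v' w') →
    Fat 𝔅 F v w → Fat 𝔅 F' v' w')

/-- Arrows between blow-ups with complete trees of all depths suffice. Let `v₀, w₀ : Y₀ → Word c` be
blow-ups of `v`, `w` along `π₀` with the same blocks, the blocks of the points outside `F` having at
most one element. For `x ∈ F` with a nonempty block let `S x` be the shape of `v₀` on the block (S_SHX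
(2)); it is also a shape of `w₀` (S_SHF (3)). Let `n` be larger than all the numbers S_SUB (6) for the
`S x`, and `Y, π, K, v', w'` as in `NF` for `n`. Define `e : Y₀ → Y`: on the block of `x ∈ F` the embedding
of `S x` into `K x`, on that of `x ∉ F` a leaf of `K x`. So `π (e y) = π₀ y`. The tuple `v' ∘ e` has the
splits of `v₀`: S_BLF (3) (it is a blow-up of `v` along `π₀`, with the shape `S x` on the blocks), and
`w' ∘ e` those of `w₀`. S_ARR (2), (1). -/
def S_NFF : Prop := ∀ (c : ℚ → Bool) (σ : Sig) (𝔅 : Str σ (Word c)), AllInv 𝔅 →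
  ∀ (X : Type) [Finite X] (F : Set X) (v w : X → Word c), Function.Injective v →
    Function.Injective w → (∀ n, NF 𝔅 n F v w) → Fat 𝔅 F v w

/-- One step of the extension. Let `n₁` be the maximum of `n` and of the number of S_THN for `X`, `n`,
and of the number `n₀` of S_NLN; `N` the number of S_CAN for `n₁` (and `N ≥ n + 1`). Let
`Y = Option X × (Fin N → Bool)` (or any finite type with a complete tree `C o` of depth `N` with different
leaves over each point `o`), `v''` the blow-up of `v'` with blocks of these shapes (S_BLW, S_SHX (1)).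
Let `Y₁ ⊆ Y` consist of the blocks of the `some x`, `x ∈ F`, of one leaf in each block of `some x`,
`x ∉ F`, and of the block of `none`; `Y₀ ⊆ Y₁` without the last block. `v''` on `Y₀` is a blow-up of `v`;
let `w₀` be the blow-up of `w` on `Y₀` with the same blocks (S_BLW). As `Fat 𝔅 F v w` we get an arrow from
`v''` on `Y₀` to `w₀`, and (S_ARR (4)) an arrow from `v''` on `Y₁` to some `w₁` which extends `w₀`; `w₁` is
injective (S_ARR (6)). S_CAN for the tree `C none` and `w₁`: a subtree of depth `n₁` on which `w₁` has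
the shape of the tree or is a comb; the second is excluded by S_NLN (for a subtree of depth `n₀`,
S_ARR (2) for the leaves of it; `CombL` is inherited by sublists). S_THN for `K x = C (some x)` (for
`x ∉ F` the chosen leaf) and this subtree as `H` (cut to the depth needed, S_SUB (3)): `K' x`, `H'`.
Define `w' : Option X → Word c` by `w₁` at a leaf of `K' x`, of `H'`. `w₁` on the set `Y₂` of the leaves of
the `K' x` and `H'` is a blow-up of it: for two blocks of points of `X` this holds for `w₀`; for `H'` and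
the others it is S_THN; for three blocks it follows (if `π y'' ≠ π y, π y'` and `π y ≠ π y'` replace the
points by the chosen ones one after the other, `cc_trans`, `cc_mid`). So `NF 𝔅 n` holds for `v'` and
this `w'` (`K (some x) = K' x`, `K none = H'`, on the subtype `Y₂`), and `w' ∘ some` has the splits of
`w`. Finally (S_AMA of Phy, on `Option X`) move `w'` such that `w' (some x) = w x`; `NF` depends on the
splits of `w'` only. -/
def S_EXN : Prop := ∀ (c : ℚ → Bool) (σ : Sig) (𝔅 : Str σ (Word c)), AllInv 𝔅 → NEq 𝔅 →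
  ¬ LIN 𝔅 → ∀ (X : Type) [Finite X] (F : Set X) (v w : X → Word c), Function.Injective v →
  Function.Injective w → Fat 𝔅 F v w → ∀ v' : Option X → Word c, Function.Injective v' →
  (∀ x, v' (some x) = v x) → ∀ n : ℕ, ∃ w' : Option X → Word c, Function.Injective w' ∧
    (∀ x, w' (some x) = w x) ∧ NF 𝔅 n {o | ∀ x, o = some x → x ∈ F} v' w'

/-- The extension property. By S_EXN there is for each `n` a tuple `w'_n` with `NF 𝔅 n`. `NF 𝔅 (n + 1)`
implies `NF 𝔅 n` (S_SUB (3), S_SHF (6)), and `NF` depends on the splits of `w'` only (`Bl π w' w''`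
does). There are finitely many possible sets of pairs and triples describing the splits of a tuple
on `Option X`. If for every `w'` which extends `w` there were an `n` with `¬ NF 𝔅 n F' v' w'`, take the
maximum `n` of such numbers for one `w'` in each class: contradiction to the existence of `w'_n`. So
some `w'` satisfies `NF 𝔅 n` for all `n`: S_NFF. -/
def S_EXT2 : Prop := ∀ (c : ℚ → Bool) (σ : Sig) (𝔅 : Str σ (Word c)), AllInv 𝔅 → NEq 𝔅 →
  ¬ LIN 𝔅 → Ext 𝔅

/-- Extension by finitely many points, by induction on the number of elements of `P`: if `P` is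
empty this is clear (`Sum.inl` is a bijection, S_FAT (6)/(7)); for `P` with one more element `p` use
the induction hypothesis for `X ⊕ {x // x ≠ p}`, then `Ext`, and rename (S_FAT (6) for the bijection of
`X ⊕ P` with `Option (X ⊕ {x // x ≠ p})`). -/
def S_EXM : Prop := ∀ (c : ℚ → Bool) (σ : Sig) (𝔅 : Str σ (Word c)), AllInv 𝔅 → Ext 𝔅 →
  ∀ (X P : Type) [Finite X] [Finite P] (F : Set X) (v : X ⊕ P → Word c) (w : X → Word c),
  Function.Injective v → Function.Injective w → Fat 𝔅 F (fun x => v (.inl x)) w →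
  ∃ w' : X ⊕ P → Word c, Function.Injective w' ∧ (∀ x, w' (.inl x) = w x) ∧
    Fat 𝔅 {o | ∀ x, o = .inl x → x ∈ F} v w'

end Pool.Agent.Work.MP_8dbde4_lc.Full
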