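import Pool.Agent.Work.MP_8dbde4_lc.Full.StmtsA

/-!
Statements of the block Full of MP_8dbde4_lc, second part: the classification of the arrows, the
engine, quartets, equality languages, the positive part. Every docstring contains the proof. The
facts `cc_...` of Full/Defs.lean are proved.
-/

set_option autoImplicit false
open Classical

namespace Pool.Agent.Work.MP_8dbde4_lc.Full

open Pool.Agent.Work.MP_8dbde4_lc.TS Pool.Agent.Work.MP_8dbde4_lc.Tree
  Pool.Agent.Work.MP_8dbde4_lc.Phy BT

/-! ### Part C: classification -/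

/-- Three points. Start with `v : Fin 3 → Word c`, `Cc (v 2) (v 0) (v 1)`, and `w` with
`Cc (w 0) (w 1) (w 2)`; `Fat ∅ v w` by `E3` and S_FAT (2). (Step 1) Add a point `f` next to `v 1`: let
`v' : Option (Fin 3) → Word c` be injective, `v' (some i) = v i`, `Cc (v i) (v' none) (v 1)` for
`i = 0, 2` (`v' none` very close to `v 1`: change a letter of `v 1` at a place above all the places of
differences). `Ext` gives `w'`; write `f` for `none`. If `¬ Cc (w' 2) (w' 0) (w' f)` restrict to
`![0, f, 2]` (S_FAT (6)). Otherwise `Cc (w' 2) (w' 0) (w' f)` and `Cc (w' 0) (w' 1) (w' 2)`, so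
`¬ Cc (w' 2) (w' 1) (w' f)` (else `Cc (w' 2) (w' 1) (w' 0)` by `cc_trans`, contradiction to
`cc_asymm`), restrict to `![1, f, 2]`. In both cases we have: (V1) `v`, `w` on `Fin 3` with
`Fat {1} v w`, `Cc (v 2) (v 0) (v 1)`, `¬ Cc (w 2) (w 0) (w 1)`. (Step 2) From (V1): add `f` next to
`v 2`. If `¬ Cc (w' f) (w' 0) (w' 1)` restrict to `![0, 1, f]`. Otherwise
`¬ Cc (w' 1) (w' 2) (w' f)`: if it held, `cc_or` for `Cc (w' f) (w' 1) (w' 0)` and the point `w' 2` gives
`Cc (w' f) (w' 1) (w' 2)`, which contradicts `Cc (w' 1) (w' f) (w' 2)`, or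
`Cc (w' 2) (w' 1) (w' 0)`, which contradicts (V1). Restrict to `![2, f, 1]` (in `v'`:
`Cc (v 1) (v 2) (v' f)`). In both cases we have `v`, `w` on `Fin 3` with `Fat {1, 2} v w`,
`Cc (v 2) (v 0) (v 1)`, `¬ Cc (w 2) (w 0) (w 1)`. By `cc_tri` `Cc (w 0) (w 1) (w 2)` (`D1`) or
`Cc (w 1) (w 0) (w 2)` (`D2`). -/
def S_VD : Prop := ∀ (c : ℚ → Bool) (σ : Sig) (𝔅 : Str σ (Word c)), AllInv 𝔅 → E3 𝔅 → Ext 𝔅 →
  D1 𝔅 ∨ D2 𝔅

/-- Fat points keep their shape if `F3` fails. If `v`, `w : X → Word c` with `Fat F v w` had different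
splits on `F`, then (as both are injective) for some three different points of `F` the point which
splits off from the two others is different for `v` and `w` (`cc_tri`, `cc_asymm`), so (S_FAT (6)) there
is a fat arrow (`F = univ`) on `Fin 3` between two different shapes; with the transposition which
fixes the shape of `v` (and S_FAT (5)) also to the third shape, and with all permutations and
compositions (S_FAT (3)) all the fat arrows between shapes: `F3`. -/
def S_HU : Prop := ∀ (c : ℚ → Bool) (σ : Sig) (𝔅 : Str σ (Word c)), AllInv 𝔅 → ¬ F3 𝔅 →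
  ∀ (X : Type) [Finite X] (F : Set X) (v w : X → Word c), Function.Injective v →
  Function.Injective w → Fat 𝔅 F v w → SameOn F v w

/-- Case `D1`. Claim by strong induction on `Nat.card X`: for all injective `v, w : Option X → Word c`
with the same splits on `{o | o ≠ none}` and `w none` on the top, `Fat {o | o ≠ none} v w`. (This gives
`LT` by S_FAT (1).) Write `a = none`. If `v a` is on the top (`Cc (v a) (v x) (v y)` for all `x y : X`)
then `v`, `w` have the same splits, S_FAT (5) (and reflexivity: `Fat F v v` by S_BLF (3)). Otherwise let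
`N₁` be the set of the `x : X` such that `Cc (v x) (v a) (v y)` holds for no `y : X` (the points closest
to `a`), and `N₂` the set of the `x ∉ N₁` such that `Cc (v x) (v a) (v y)` holds for no `y ∉ N₁`. (With
`δ(x)` = the first place where `v a`, `v x` differ: `Cc (v x) (v a) (v y)` iff `δ x < δ y`; `N₁`: `δ`
maximal, `N₂`: the second largest value.) Both are not empty (`N₁ = X` would mean that `v a` is on the
top). Facts: `Cc (v n₂) (v a) (v n₁)`, `Cc (v n₂) (v n₁) (v n₁')`, `Cc (v a) (v n₁) (v n₁')`,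
`Cc (v n₁) (v n₂) (v n₂')`, `Cc (v a) (v n₂) (v n₂')`, and `Cc (v y) (v n) (v n')` for `y` outside
and `n, n' ∈ N₁ ∪ N₂ ∪ {a}`. So `v` on `N₁ ∪ N₂ ∪ {a}` is a blow-up of the triple `v₀` of `D1`
(`a ↦ 0`, `N₁ ↦ 1`, `N₂ ↦ 2`); let `w₁` be the blow-up of `w₀` with the same blocks (S_BLW); S_FAT (7):
a fat arrow on `N₁ ∪ N₂ ∪ {a}` with all points except `a` fat, from `v` to `w₁`, where
`Cc (w₁ a) (w₁ n) (w₁ n')` for `n, n' ∈ N₁ ∪ N₂`. S_EXM (rename `Option X` as the sum of the subtype of
`N₁ ∪ N₂ ∪ {a}` and the rest): a fat arrow from `v` to some `w₂` on `Option X` which extends `w₁`. S_HU: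
`w₂` has the splits of `v` on `X`, and `w₂ a` is above `N₁ ∪ N₂`. If `N₁ ∪ N₂ = X` then `w₂` has the splits
of `w`, done. Otherwise contract: let `x₁ ∈ N₁`, `X' = {x : X // x ∉ N₁ ∪ N₂ ∨ x = x₁}` (fewer elements),
`ρ : Option X → Option X'` the retraction (`N₁ ∪ N₂` to `x₁`). `w₂` and `w` are blow-ups along `ρ` of their
restrictions to `Option X'` (`N₁ ∪ N₂` does not split relative to the other points, by the facts above,
SameOn, and because `w₂ a`, `w a` are above `N₁ ∪ N₂`). The induction hypothesis for `X'` and S_FAT (7)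
give a fat arrow from `w₂` to `w`, S_FAT (3). -/
def S_LTI : Prop := ∀ (c : ℚ → Bool) (σ : Sig) (𝔅 : Str σ (Word c)), AllInv 𝔅 → Ext 𝔅 →
  ¬ F3 𝔅 → D1 𝔅 → LT 𝔅

/-- Case `D2` in a context. By S_FAT (5) the fat arrow of `D2` holds for all triples of these shapes,
so for `v ∘ inl` (shape `2 | 0 1`) and any `w₀` with `Cc (w₀ 1) (w₀ 0) (w₀ 2)`, with the fat points
`{1, 2}`. S_EXM: `w₂ : Fin 3 ⊕ P → Word c`, `Fat {x | x ≠ inl 0} v w₂`, `w₂ ∘ inl = w₀`. S_HU: `w₂` has the
splits of `v`, so of `w`, on `{x | x ≠ inl 0}`. It has the splits of `w` everywhere: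
`Cc (w₂ p) (w₂ 1) (w₂ 2)` and `Cc (w₂ 1) (w₂ 0) (w₂ 2)` imply `Cc (w₂ p) (w₂ i) (w₂ j)` for all `i, j`
(`cc_or`, `cc_asymm`, `cc_trans`), and for `0` and two points `p, p'` of `P` replace `0` by `2`
(`Cc (w₂ p) (w₂ 0) (w₂ 2)` for all `p`, `cc_trans`, `cc_mid`); the same for `w`. S_FAT (5). -/
def S_D2C : Prop := ∀ (c : ℚ → Bool) (σ : Sig) (𝔅 : Str σ (Word c)), AllInv 𝔅 → Ext 𝔅 →
  ¬ F3 𝔅 → D2 𝔅 → D2C 𝔅

/-- The jump of a leaf. Let `T = K.fill (nd (nd (lf x) Y) Z)`, `T' = K.fill (nd (nd (lf x) Z) Y)` (each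
point of `X` occurs exactly once, S_SHF (1)). Let `P` be the set of the leaves outside `lf x, Y, Z` (the
subtype), `π : X → Fin 3 ⊕ P` with `x ↦ inl 0`, `Y ↦ inl 1`, `Z ↦ inl 2`, `p ↦ inr p`. By induction on
the context every `p ∈ P` splits off from any two points of the filling, and does not separate them:
`Cc (v p) (v y) (v y')`; and `v`, `w` have the same splits on `P ∪ {one point of the filling}`. So `v` and
`w` are blow-ups along `π` of their restrictions `v₀`, `w₀` to `x`, one leaf of `Y`, one leaf of `Z`, and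
`P`, and `v₀`, `w₀` satisfy the hypotheses of `D2C`. The blocks of `v` and `w` have the same shapes `Y`,
`Z`. `D2C` and the definition of `Fat` (or S_FAT (7), (1)). -/
def S_SJT : Prop := ∀ (c : ℚ → Bool) (σ : Sig) (𝔅 : Str σ (Word c)), AllInv 𝔅 → D2C 𝔅 → SJ 𝔅

/-- Rewriting to combs. Strong induction on the number `n` of leaves, for all `T`, `x`, `ℓ`. `n = 1`:
`T = lf x`. `n ≥ 2`, `T = nd T₁ T₂`. (Step 1) `T` can be rewritten to some `nd (lf z) T'`: induction on the
number of leaves of `T₁`: if `T₁ = lf z` nothing to do; otherwise by the induction hypothesis for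
`T₁` it can be rewritten to `nd (lf z) C` (a comb), and `nd (nd (lf z) C) T₂` to `nd (nd (lf z) T₂) C`
(`jump`), which is `swap`ped to `nd C (nd (lf z) T₂)`, where `C` has fewer leaves than `T₁`. (Step 2)
`T` is rewritten to `nd (lf z) T'`, `T'` has `n - 1` leaves. If `z = x` the induction hypothesis for `T'`
finishes. If `z ≠ x` then `x` is a leaf of `T'`, which can be rewritten to a comb with first leaf `x`.
If `n = 2` then `T' = lf x`: swap. Otherwise `T'` becomes `nd (lf x) C`, and
`nd (lf z) (nd (lf x) C)`, `nd (nd (lf x) C) (lf z)`, `nd (nd (lf x) (lf z)) C`,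
`nd (nd (lf z) (lf x)) C`, `nd (nd (lf z) C) (lf x)`, `nd (lf x) (nd (lf z) C)` by `swap`, `jump`,
`congr` of `swap`, `jump`, `swap`; then the induction hypothesis for `nd (lf z) C`. (Rewriting on the
right side: `swap`, `congr`, `swap`. The lists of leaves of `t`, `u` with `Rw t u` are permutations of
each other.) -/
def S_RWC : Prop := ∀ (X : Type) (T : BT X) (x : X) (ℓ : List X), List.Perm T.lvs (x :: ℓ) →
  Rw T (combT x ℓ)

/-- Jumps give all combs. (1) By induction on `Rw t u` (generalizing the context): for all contexts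
`K` with all points of `X` among the leaves of `K.fill t`, and `Sh v (K.fill t)`, `Sh w (K.fill u)`:
`Arr 𝔅 v w`. (`refl`: same splits, S_SHF (2); `trans`: take a tuple of the shape `K.fill u`, S_SHX (1), the
leaves of `K.fill u` are a permutation of those of `K.fill t`; `swap`: S_SHF (2), because `Sh` does not
see the order: `Sep v A B ↔ Sep v B A`; `jump`: `SJ`; `congr`: the context `K.ctx r`.) (2) Let `v` be
injective and `z` a comb along `ℓ`; if `X` is empty this is trivial. The shape `T` of `v` (S_SHX (2)) can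
be rewritten to `combT` of `ℓ` (S_RWC; the leaves of `T` are different and all of `X`), which is the
shape of `z`. -/
def S_SJC : Prop := ∀ (c : ℚ → Bool) (σ : Sig) (𝔅 : Str σ (Word c)), AllInv 𝔅 → SJ 𝔅 → CC 𝔅

/-- Moving points to the top gives all combs. Let `ℓ = x₁, …, x_n`. For `k ≤ n` let `v_k` be a tuple in
which the last `k` points of the list form a comb above the others, which have the splits of `v`:
`Cc (v_k x_i) (v_k y) (v_k y')` for `i > n - k` and all `y, y'` which are unmoved (`x_j`, `j ≤ n - k`) or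
`x_j` with `j > i`. `v_0 = v`; `v_(k+1)` arises from `v_k` by moving the point `x_(n-k)` to the top: such a
tuple exists (keep all the others, and take for the new point a word on the top: change the letter
of some word of the tuple at a place below all places where two of them differ), and `LT` (with
`X = {x_(n-k)} ∪ rest` written as `Option`) gives the arrow. `v_n` has the splits of `z`. -/
def S_LTC : Prop := ∀ (c : ℚ → Bool) (σ : Sig) (𝔅 : Str σ (Word c)), AllInv 𝔅 → LT 𝔅 → CC 𝔅

/-- Linear order of the leaves gives all combs. Write `ℓ → ℓ'` if there are arrows from the combs along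
`ℓ` to those along `ℓ'` (lists without repetition of all the points of `X`). The shape `T` of `v` (S_SHX
(2)) gives an arrow from `v` to the combs along `T.lvs`. For `ℓ = pre ++ x :: post` the comb along `ℓ` has
also the shape with the list of leaves `pre ++ post ++ [x]` (if `post` is not empty: at the node where
`x` splits off exchange left and right), so `LIN` gives `ℓ → pre ++ post ++ [x]`. Moving the elements of
the list `ℓ` of the target to the end, one after the other, gives `T.lvs → ℓ`. Combs along every list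
without repetition exist (S_SHX (1) for `combT`). -/
def S_LNC : Prop := ∀ (c : ℚ → Bool) (σ : Sig) (𝔅 : Str σ (Word c)), AllInv 𝔅 → LIN 𝔅 → CC 𝔅

/-- Facts on quartets. (1) Symmetries: from the definition. (2) Exactly one of the three quartets
holds for four different words. (3) Five points: if `a` is attached to the unrooted tree of
`b₁, b₂, b₃` next to `b₁` and `f` is not, then no quartet `a f | b_i b_j` holds: if `a f | b_i b_j` then `a`
and `f` are attached at the same place of the path from `b_i` to `b_j`. (All statements on at most five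
words: the first split of the five words, then `cc_...`; or use the places.) -/
def S_QFA : Prop := ∀ (c : ℚ → Bool),
  (∀ x y z t : Word c, (Qr x y z t → Qr y x z t) ∧ (Qr x y z t → Qr z t x y) ∧
    (Qr x y z t → x ≠ y ∧ x ≠ z ∧ x ≠ t ∧ y ≠ z ∧ y ≠ t ∧ z ≠ t)) ∧
  (∀ x y z t : Word c, x ≠ y → x ≠ z → x ≠ t → y ≠ z → y ≠ t → z ≠ t →
    (Qr x y z t ∨ Qr x z y t ∨ Qr x t y z) ∧ ¬ (Qr x y z t ∧ Qr x z y t)) ∧
  (∀ a f b₁ b₂ b₃ : Word c, a ≠ f → Qr a b₁ b₂ b₃ → ¬ Qr f b₁ b₂ b₃ → f ≠ b₁ → f ≠ b₂ → f ≠ b₃ →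
    ¬ Qr a f b₁ b₂ ∧ ¬ Qr a f b₁ b₃ ∧ ¬ Qr a f b₂ b₃)

/-- Four points. Call `(F, v, w)` with `F ⊆ Fin 4` a violation if `Fat F v w`, `Q4 v`, `¬ Q4 w` (after
renaming; both injective). We start with `F = ∅` (S_FAT (2); the second tuple of a failure of `QP` is
injective by S_ARR (6)). (Step) From a violation with `|F| ≤ 2` we
get one with `|F| + 1` fat points: let `a ∉ F` be a point, `b₁, b₂, b₃` the others, `b₁` the partner of `a`
in `v` (`Qr (v a) (v b₁) (v b₂) (v b₃)`). Add `f` next to `v a`: `Cc (v y) (v a) (v' f)` for `y ≠ a`; so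
`Qr (v' f) (v b₁) (v b₂) (v b₃)` and `Qr (v a) (v' f) (v b_i) (v b_j)`. `Ext` gives `w'`. If
`¬ Qr (w' f) (w' b₁) (w' b₂) (w' b₃)` restrict to `f, b₁, b₂, b₃` (fat: `f` and those of `F`, which is
contained in the `b_i`). Otherwise (as `¬ Qr (w a) (w b₁) (w b₂) (w b₃)`) S_QFA (3) (with the roles of
`a` and `f` exchanged) gives `¬ Qr (w' a) (w' f) (w' b_i) (w' b_j)` for all `i ≠ j`; choose `i, j` such that
`b_i, b_j` contain `F` and restrict to `a, f, b_i, b_j`. After three steps there are three fat points and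
one point `a` which is not fat; rename such that `a = 0`, `v`: `Qr (v 0) (v 1) (v 2) (v 3)` and `w`:
`Qr (w 0) (w 2) (w 1) (w 3)` (S_QFA (2); exchange 2 and 3 if necessary; S_FAT (4) if more are fat). -/
def S_QV : Prop := ∀ (c : ℚ → Bool) (σ : Sig) (𝔅 : Str σ (Word c)), AllInv 𝔅 → NEq 𝔅 →
  Ext 𝔅 → ¬ QP 𝔅 → BP 𝔅

/-- Rerooting on four points. The five shapes of four points with the quartet `01 | 23` are
`0 (1 (2 3))`, `1 (0 (2 3))`, `(0 1) (2 3)`, `2 (3 (0 1))`, `3 (2 (0 1))` (`Q4 v`: if
`Cc (v 2) (v 0) (v 1)`, `Cc (v 3) (v 0) (v 1)` look at the first split of the triple `v 0, v 2, v 3`;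
similarly in the other case). The first three are blow-ups of triples with the block `{2, 3}`
(`i ↦ i` for `i = 0, 1`, `2, 3 ↦ 2`), the last three with the block `{0, 1}`; in these blow-ups the
blocks have two elements, so any two have the same blocks. So `F3` (and the definition of `Fat`, for
the fat version S_FAT (7) with `F' = univ`) gives fat arrows between the first three and between the
last three, S_FAT (3). -/
def S_QFT : Prop := ∀ (c : ℚ → Bool) (σ : Sig) (𝔅 : Str σ (Word c)), AllInv 𝔅 → F3 𝔅 →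
  ∀ v w : Fin 4 → Word c, Function.Injective v → Function.Injective w → Q4 v → Q4 w →
    Fat 𝔅 Set.univ v w

/-- Rerooting at the node next to the root. `nd (nd A B) C` is the blow-up of a triple of the shape
`(0 1) 2` with the blocks of the shapes `A`, `B`, `C`, and `nd A (nd B C)` of one of the shape `0 (1 2)`.
`F3` and the definition of `Fat`. -/
def S_F3T : Prop := ∀ (c : ℚ → Bool) (σ : Sig) (𝔅 : Str σ (Word c)), AllInv 𝔅 → F3 𝔅 →
  ∀ (X : Type) [Finite X] (A B C : BT X) (v w : X → Word c),
    (∀ x, x ∈ (nd (nd A B) C).lvs) → Sh v (nd (nd A B) C) → Sh w (nd A (nd B C)) → Arr 𝔅 v w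

/-- The displacement `BP` for trees with the leaf `a` on the top. `nd (lf a) (nd A (nd B C))` is a
blow-up of a tuple on `Fin 4` of the shape `0 (1 (2 3))` with the blocks `{a}`, `A`, `B`, `C`, and the
second one of a tuple of the shape `0 (2 (1 3))`. With S_QFT and `BP` (S_FAT (3), (4)) we have a fat
arrow with the fat points 1, 2, 3 between these two. Definition of `Fat`. -/
def S_BET : Prop := ∀ (c : ℚ → Bool) (σ : Sig) (𝔅 : Str σ (Word c)), AllInv 𝔅 → F3 𝔅 → BP 𝔅 →
  ∀ (X : Type) [Finite X] (a : X) (A B C : BT X) (v w : X → Word c),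
    (∀ x, x ∈ (nd (lf a) (nd A (nd B C))).lvs) → Sh v (nd (lf a) (nd A (nd B C))) →
    Sh w (nd (lf a) (nd B (nd A C))) → Arr 𝔅 v w

/-- `F3` and `BP` allow to move points to the top. Let `T - a` be the tree `T` without the leaf `a`.
Claim: for every tree `T` (all points of `X` are leaves, each once; at least two leaves) and `a ∈ T.lvs`
there are arrows from the tuples of shape `T` to those of shape `nd (lf a) (T - a)`. Induction on the
number of leaves of the side of `T` which contains `a`. By symmetry `T = nd P B` with `a ∈ P`. If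
`P = lf a` nothing to do. Otherwise `P = nd A₁ A₂` and by symmetry `a ∈ A₁`. S_F3T: an arrow from
`nd (nd A₁ A₂) B` to `nd A₁ (nd A₂ B)`. If `A₁ = lf a` we are done. Otherwise the induction hypothesis
gives an arrow to `nd (lf a) (nd (A₁ - a) (nd A₂ B))`, and S_BET (with `B`, `A₂` exchanged:
`X (Z Y) → Z (X Y)` for `X = A₁ - a`, `Y = A₂`, `Z = B`) one to `nd (lf a) (nd B (nd (A₁ - a) A₂))`, which
is `nd (lf a) (T - a)` up to exchanging left and right. For `LT`: take for `T` the shape of `v` (S_SHX),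
`a = none`; `w` has the shape `nd (lf none) (T - none)` (S_SHF (3)). If `X` is empty this is trivial.
Tuples of the intermediate shapes exist by S_SHX (1). -/
def S_BLT : Prop := ∀ (c : ℚ → Bool) (σ : Sig) (𝔅 : Str σ (Word c)), AllInv 𝔅 → F3 𝔅 → BP 𝔅 →
  LT 𝔅

/-- `F3` allows to make every point the top: let `T` be the shape of `v` (S_SHX (2)); induction on the
number of leaves of the side of `T` which contains `s`: `T = nd (nd A₁ A₂) B` with `s ∈ A₁` is mapped
to `nd A₁ (nd A₂ B)` (S_F3T) until `s` is alone on its side (S_SHX (1) for the existence of tuples). -/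
def S_RRT : Prop := ∀ (c : ℚ → Bool) (σ : Sig) (𝔅 : Str σ (Word c)), AllInv 𝔅 → F3 𝔅 → RR 𝔅

/-- The quartet relation is primitive positive definable. Let `Q4 v₀` (`v₀` is injective). The set
`{u | Arr 𝔅 v₀ u}` is PP (S_ARR (3)). It is contained in `Q4` (`QP`) and contains `Q4` (S_QFT, S_FAT (1)). -/
def S_QPP : Prop := ∀ (c : ℚ → Bool) (σ : Sig) (𝔅 : Str σ (Word c)), AllInv 𝔅 → F3 𝔅 → QP 𝔅 →
  PP 𝔅 (Q4 (c := c))

/-! ### Part E: the engine -/

/-- Finitely many PP sets are defined by structures on one common finite domain, with different marked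
points. Let `𝔇_k` on `D_k` and `m_k` define `S k`; `m_k` is injective (if `m_k x = m_k x'` then all
members of `S k` have equal entries). `D = Σ k, D_k`, `str k` has the relations of `𝔇_k` on the part
`D_k` (all other elements are isolated; `B` is nonempty). -/
def S_COM : Prop := ∀ (σ : Sig) (B : Type) [Nonempty B] (𝔅 : Str σ B) (K X : Type) [Finite K]
  (S : K → (X → B) → Prop), (∀ k, PP 𝔅 (S k)) → (∀ k x x', x ≠ x' → ∃ v, S k v ∧ v x ≠ v x') →
  ∃ (D : Type) (_ : Finite D) (str : K → Str σ D) (m : K → X → D),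
    (∀ k, Function.Injective (m k)) ∧
    ∀ k v, S k v ↔ ∃ f : D → B, Hom (str k) 𝔅 f ∧ ∀ x, v x = f (m k x)

/-- The glued structure expresses the constraints. (→) Restrict the homomorphism to `E`; for `τ` the
map `d ↦ h (psE (m (kd τ)) (ep τ) τ d)` is a homomorphism from `str (kd τ)`, with the value
`h (inl (ep τ x))` at `m x` (`m` injective). (←) For each `τ` choose a homomorphism `f_τ` with
`f_τ (m x) = f (ep τ x)`; `h (inl e) = f e`, `h (inr (τ, d)) = f_τ d`. -/
def S_GLS : Prop := ∀ (σ : Sig) (B : Type) (𝔅 : Str σ B) (E T K D X : Type)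
  (S : K → (X → B) → Prop) (str : K → Str σ D) (m : K → X → D) (kd : T → K) (ep : T → X → E),
  (∀ k, Function.Injective (m k)) →
  (∀ k v, S k v ↔ ∃ f : D → B, Hom (str k) 𝔅 f ∧ ∀ x, v x = f (m k x)) →
  (CSP 𝔅 _ (Glue str m kd ep) ↔ ∃ f : E → B, ∀ τ, S (kd τ) (fun x => f (ep τ x)))

/-- The back-and-forth system between the two glued structures: the proof of S_BFP (file
Phy/I_BFP.lean, proved; copy it) for frames. The action on `E ⊕ T × D` is `aE y` on `E` and
`(τ, d) ↦ (aT y τ, d)`; the base of `inl e` is `bE e`, of `(τ, d)` it is `inr (bT τ)`. `Z v w` iff there is `y`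
with `y 1 = 0`, `RowEq` for all the rows inside the closure of `{1} ∪ ` the touched points of the `v i`,
and `w i = y · v i`. Relations: if some element of the tuple has the base `inr (bT τ)` (all elements
`(τ, d)` do) the row equation holds at `bT τ` and `ep_act` shows that the image is the tuple for
`aT y τ` (`psE` is equivariant: the two `choose`s are the same); otherwise all the elements of the tuple
are endpoints with another base and `ep_ex` gives `τ'`. For the inverse direction use `- y`. Forth: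
for every base one extension of `y` (S_EXT). For the last part take the tuples with all entries
`inl e0` and `y = 0`. (The bijection: `a ↦ ys (base a) · a`; its inverse uses `- ys (base a)`.) -/
def S_BFG : Prop := ∀ (σ : Sig) (G : Type) [Group G] [Finite G] (g h : G) (p : ℕ)
  (E T K D X : Type) (str : K → Str σ D) (m : K → X → D) (fr : Frame G g h p E T K X) (k : ℕ),
  p.Prime → (∀ v : G, (row g h v).card = 3) → Den (row g h) (3 * k + 5) →
  ∃ Z : (Fin k → E ⊕ T × D) → (Fin k → E ⊕ T × D) → Prop,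
    BFSys (Glue str m fr.kd (fr.ep 0)) (Glue str m fr.kd (fr.ep 1)) k Z ∧ ∃ v w, Z v w

/-- The engine. S_COM gives `D`, `str`, `m`. For `k` pebbles S_PGRP (words of length at most
`2 (3 k + 5)`) gives a group `G`, `g`, `h`, S_DEN the density (and `1, g, h` are different, so the rows
have three elements; see Phy/I_KPF.lean). The frame gives the two structures (S_GLS: the first is in
the class, the second not), S_BFG the system, S_GAME. -/
def S_ENG : Prop := ∀ (σ : Sig) (B : Type) [Nonempty B] (𝔅 : Str σ B) (K X : Type) [Finite K]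
  (S : K → (X → B) → Prop) (p : ℕ), p.Prime → (∀ k, PP 𝔅 (S k)) →
  (∀ k x x', x ≠ x' → ∃ v, S k v ∧ v x ≠ v x') →
  (∀ (G : Type) [Group G] [Finite G] (g h : G), IsPGroup p G →
    ∃ (E T : Type) (_ : Finite E) (_ : Finite T) (fr : Frame G g h p E T K X),
      (∃ f : E → B, ∀ τ, S (fr.kd τ) (fun x => f (fr.ep 0 τ x))) ∧
      ¬ ∃ f : E → B, ∀ τ, S (fr.kd τ) (fun x => f (fr.ep 1 τ x))) →
  ¬ InFPC (CSP 𝔅)

/-! ### Part Q: quartets -/

/-- `QQ v` iff there is `e` with `Qr (v 0) (v 1) (v 2) e` and `Qr (v 0) (v 1) (v 3) e`; then S_PPB (2), (3),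
(4). (→) Take `e ≠ v 2` very close to `v 2` (`Cc (v i) (v 2) e` for all `i` with `v i ≠ v 2`). (←)
`v 0, v 1 | v 2, e` and `v 0, v 1 | v 3, e` imply `v 2 = v 3` or `v 0, v 1 | v 2, v 3`, and all are different
from `v 0`, `v 1`. -/
def S_QQP : Prop := ∀ (c : ℚ → Bool) (σ : Sig) (𝔅 : Str σ (Word c)), PP 𝔅 (Q4 (c := c)) →
  PP 𝔅 (QQ (c := c))

/-- Quartets with a point on the top are splits: if `s` is above `z, x, y` then
`QQ ![s, z, x, y] ↔ Cc z x y`. Let `Cc s a b` for all `a, b ∈ {z, x, y}`. (→) If `x = y`: `z ≠ x`. If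
`Qr s z x y`: the first case `Cc x s z` is impossible (`cc_asymm`), the second one contains `Cc z x y`.
(←) `z ≠ x`; if `x = y` the first case of `QQ`; otherwise `Qr s z x y` by the second case. -/
def S_QQT : Prop := ∀ (c : ℚ → Bool) (s z x y : Word c), (∀ a ∈ ({z, x, y} : Set (Word c)),
  ∀ b ∈ ({z, x, y} : Set (Word c)), Cc s a b) → (QQ ![s, z, x, y] ↔ Cc z x y)

/-- The gadget. The family `pf Q4` of the patterns (the constant patterns and the first splits of
the members of `Q4`) is minimal and has the twin property (as in the proof of S_KPF, file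
Phy/I_KPF.lean): otherwise S_TWIN shows that it is closed under `&&` or (as it is closed under
complements, `Spl.not`) in both cases under `&&`; but the patterns with one `false` and three `true`
belong to it (first splits `i | j k l`), and `![false, true, true, true] && ![true, true, false, true]`
= `![false, true, false, true]` does not: if `Q4 v` had the first split `{0, 2} | {1, 3}` then
`Cc (v 1) (v 0) (v 2)`, `Cc (v 3) (v 0) (v 2)`, so `Qr (v 0) (v 2) (v 1) (v 3)`, S_QFA (2). S_GAD. -/
def S_QGD : Prop := S_GAD → S_TWIN → ∀ c : ℚ → Bool, ∃ (p : ℕ) (I : Type) (Δ : Gad Bool p I),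
  p.Prime ∧ Finite I ∧ Δ.OK (pf (Q4 (c := c)))

/-- The kinds and the endpoints of the constraints of the instances for quartets. Elements:
`Option (EE G p I T 4 (Fin 4) Empty)`, `none` is the additional point. Constraints: `inl (v, α, β, t)` with
the endpoints `fr v α β t j` (kind `true`: `Q4`), and `inr τ` for the ties (kind `false`: `QQ`) with the
endpoints `none`, the anchor, `lo τ`, `hi τ`. -/
noncomputable def epQ {G : Type} [Group G] {p : ℕ} {I T : Type} (Δ : Gad Bool p I)
    (tt : T → Fin 4 → I → Bool) (g h : G) (b : ZMod p) :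
    (G × ZMod p × ZMod p × T) ⊕ TI G p T 4 → Fin 4 → Option (EE G p I T 4 (Fin 4) Empty)
  | .inl (v, α, β, t), j => some (.fr v α β t j)
  | .inr τ, j => ![none, some (anc (hi tt g h b τ)), some (lo Δ id τ), some (hi tt g h b τ)] j

/-- This is a frame: `aE` is the action `act` of Phy/I_BFP.lean on `some x` and the identity on `none`;
`aT` acts on `(v, α, β, t)` by `(v, α + y v, β + y (v * g), t)` and on ties by `tact`; the bases: `inl 1` for
`none`; `v` for `(v, α, β, t)`, `tv τ` for ties. `ep_act`: `lo_act`, `hi_act`, `anc_act` of Phy/I_BFP.lean.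
`ep_ex`: for `inl (v, α, β, t)` take `inl (v, α + y v, β + y (v * g), t)`; for a tie `hi_ex` (the endpoint
`lo` has the base `inr (tv τ)`, `base_lo`), and the anchor by `anc_act`. `e0 = none`. -/
def S_FRQ : Prop := ∀ (G : Type) [Group G] (g h : G) (p : ℕ) (I T : Type) (Δ : Gad Bool p I)
  (tt : T → Fin 4 → I → Bool),
  ∃ fr : Frame G g h p (Option (EE G p I T 4 (Fin 4) Empty))
    ((G × ZMod p × ZMod p × T) ⊕ TI G p T 4) Bool (Fin 4),
    (fr.kd = fun τ => τ.isLeft) ∧ fr.ep = epQ Δ tt g h

/-- Quartet problems are not in FPC. `p, I, Δ` from S_QGD; S_ENG with `K = Bool`, `X = Fin 4`,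
`S true = Q4`, `S false = QQ` (S_QQP; all pairs of coordinates are separated by some member), and for
a `p`-group `G` the frame S_FRQ with `T = CT Q4 I`, `tt t = t.1`. (Solvable for `b = 0`) S_SA0 (`Q4` is
invariant and nonempty) gives `M, A, Fr` with `Sat Q4 Δ ... 0`; put `f (main v s) = M v s`,
`f (site v α β t) = A v α β t`, `f (fr v α β t j) = Fr v α β t j` and for `f none` a word above all the
(finitely many) values (change a letter of one of them at a place below all the places where two of
them differ): the constraints of kind `Q4` are `Sat.cop`, those of kind `QQ` hold by S_QQT and the other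
fields of `Sat` (`av M v s` is the value of the anchor of `main v s`; the anchor of a site is
`main 1 0`). (Not solvable for `b = 1`) Let `f` be a solution. Let `X` be the range of `f` (finite), `v` the
inclusion, `s = f none`. `RR` gives `w : X → Word c` with `Arr 𝔅 v w` and `w s` on the top. `f' = w ∘ f`
(as a map into `X`) is a solution too: `{u | S k (u ∘ (endpoints of τ))}` is PP (S_PPB (3)), contains `v`,
so `w`. All the elements except `none` are different from `none` under `f'` (every element is an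
endpoint of a tie of kind `QQ`: `fr` of the ties `f`, `site v α β t` is the second element of a tie `f`
for a constraint `t'` with `t' j = t` (the constant tuple `t' = (t, t, t, t)` is in `CT`), `main v s` is `hi`
of the tie `x v 0 0 s`; and `QQ` says that the entries 1, 2, 3 differ from the entry 0). So `w s` is
above all of them and by S_QQT `M, A, Fr` (the values of `f'`) satisfy `Sat Q4 Δ ... 1`, contradiction to
S_UN1. -/
def S_NFQ : Prop := S_ENG → S_QGD → S_GAD → S_TWIN → S_SA0 → S_UN1 → S_FRQ → S_QQP → S_QQT →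
  ∀ (c : ℚ → Bool) (σ : Sig) (𝔅 : Str σ (Word c)), AllInv 𝔅 → PP 𝔅 (Q4 (c := c)) → RR 𝔅 →
    ¬ InFPC (CSP 𝔅)

/-! ### Part K: equality languages -/

/-- The family of the patterns `p 0 = p 1 ∨ p 2 = p 3`. -/
def FE : Fam (sg 4) Bool where
  P _ p := p (0 : Fin 4) = p (1 : Fin 4) ∨ p (2 : Fin 4) = p (3 : Fin 4)
  const _ _ := Or.inl rfl

/-- The gadget: `FE` is minimal and has the twin property: otherwise S_TWIN shows that it is closed
under `&&` (`meet false true`) or `||`; but `![true, false, true, true]`, `![true, true, true, false]`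
have the conjunction `![true, false, true, false]`, and their complements have the disjunction
`![false, true, false, true]`. S_GAD. (See Phy/I_KPF.lean.) -/
def S_EGD : Prop := S_GAD → S_TWIN → ∃ (p : ℕ) (I : Type) (Δ : Gad Bool p I),
  p.Prime ∧ Finite I ∧ Δ.OK FE

/-- The constraints of the copies of the power. -/
def CE (I : Type) : Type := {t : Fin 4 → I → Bool // ∀ i, FE.P () (fun j => t j i)}

/-- The endpoints of the constraints for equality languages. Elements:
`Option (EE G p I T 4 (Fin 4) Unit)`. Constraints `inl (v, α, β, t)` (kind `true`: `K7`) with the endpoints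
`fr v α β t j`, `main 1 0`, `main 1 1`, `none`; `inr (τ, false)` and `inr (τ, true)` (kind `false`: `N7`)
with the first two endpoints `lo τ`, `tf τ ()` resp. `hi τ`, `tf τ ()`, and 4, 5: `main 1 0`, `main 1 1` (the
others: `none`). -/
noncomputable def epE {G : Type} [Group G] {p : ℕ} {I T : Type} (Δ : Gad Bool p I)
    (tt : T → Fin 4 → I → Bool) (g h : G) (b : ZMod p) :
    (G × ZMod p × ZMod p × T) ⊕ (TI G p T 4 × Bool) → Fin 7 →
      Option (EE G p I T 4 (Fin 4) Unit)
  | .inl (v, α, β, t), j => ![some (.fr v α β t 0), some (.fr v α β t 1), some (.fr v α β t 2),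
      some (.fr v α β t 3), some (.main 1 0), some (.main 1 1), none] j
  | .inr (τ, e), j => ![if e then some (hi tt g h b τ) else some (lo Δ id τ), some (.tf τ ()),
      none, none, some (.main 1 0), some (.main 1 1), none] j

/-- This is a frame (as S_FRQ). `ep_ex` for `inr (τ, e)`: if `e = false` both first endpoints have the
base `inr (tv τ)`, take `(tact g y τ, false)`; if `e = true` take `τ'` from `hi_ex` (the endpoint
`tf τ ()` has the base `inr (tv τ)`). -/
def S_FRE : Prop := ∀ (G : Type) [Group G] (g h : G) (p : ℕ) (I T : Type) (Δ : Gad Bool p I)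
  (tt : T → Fin 4 → I → Bool),
  ∃ fr : Frame G g h p (Option (EE G p I T 4 (Fin 4) Unit))
    ((G × ZMod p × ZMod p × T) ⊕ (TI G p T 4 × Bool)) Bool (Fin 7),
    (fr.kd = fun τ => τ.isLeft) ∧ fr.ep = epE Δ tt g h

/-- Templates (with at least three elements) in which `K7` and `N7` are PP are not in FPC. `p, I, Δ` from
S_EGD, S_ENG with `K = Bool`, `X = Fin 7`, `S true = K7`, `S false = N7` (all pairs of coordinates are
separated by some member), frame S_FRE with `T = CE I`, `tt t = t.1`. (Solvable for `b = 0`) Let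
`a, a', a''` be different elements of `B`; `W β = a` if `β = Δ.io 0`, `a'` otherwise (`β : Bool`, so
`W` is injective). Let `f_(α,β)` be from `Gad.OK.sol`. `φ (main v s) = io s`,
`φ (site v α β t) = f_(α,β) t`, `φ (fr v α β t j) = f_(α,β) (tt t j)`, `φ (tf τ ()) = ! φ (lo τ)`;
`f (some x) = W (φ x)`, `f none = a''`. Then `f (main 1 0) = a`, `f (main 1 1) = a'`; `φ (lo τ) = φ (hi τ)`
by `sol` (`b = 0`), and `f_(α,β)` is a polymorphism of `FE`. (Not solvable for `b = 1`) Let `f` be a
solution, `φ x = decide (f (some x) = f (some (main 1 1)))`. By the `N7`-constraints for `τ` the elements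
`lo τ`, `hi τ`, `tf τ ()` have values in `{f (main 1 0), f (main 1 1)}`, different elements, and
`f (lo τ) ≠ f (tf τ ()) ≠ f (hi τ)`, so `f (lo τ) = f (hi τ)`. By the `K7`-constraints
`t ↦ φ (site v α β t)` is a polymorphism of `FE` (the ties `f` identify `fr v α β t j` and the site
`tt t j`). `Gad.OK.uns` with `H v s = φ (main v s)`: `φ (main 1 0) = φ (main 1 1)`, contradiction. -/
def S_NFE : Prop := S_ENG → S_EGD → S_GAD → S_TWIN → S_FRE →
  ∀ (σ : Sig) (B : Type) (𝔅 : Str σ B) (a a' a'' : B), a ≠ a' → a ≠ a'' → a' ≠ a'' →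
    PP 𝔅 (K7 (B := B)) → PP 𝔅 (N7 (B := B)) → ¬ InFPC (CSP 𝔅)

/-- PP sets of equality languages depend on the equalities only. Let `v x = f (m x)` and let `w` have
the same equalities. The map `f (m x) ↦ w x` is injective on its finite domain; extend it to an
injective map `j` on the finite range of `f` (`B` is infinite). `j ∘ f` is a homomorphism. -/
def S_KIP : Prop := ∀ (σ : Sig) (B : Type) [Infinite B] (𝔅 : Str σ B), (∀ R, KI (𝔅.rel R)) →
  ∀ (X : Type) [Finite X] (S : (X → B) → Prop), PP 𝔅 S → KI S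

/-- A disjunction of two equalities. Let `S₁ u` iff `S u` and `u x = u y` for all `x, y` with
`v₁ x = v₁ y` and `v₂ x = v₂ y` (PP, S_PPB); `v₁, v₂ ∈ S₁`. Let `E` be the set of the other pairs. No
member of `S₁` satisfies `u x ≠ u y` for all the pairs in `E`. For `D ⊆ E` let `S₁(D)` be the set of the
`u ∈ S₁` with `u x ≠ u y` for all `(x, y) ∈ D` (PP by `NEq`). Let `D₀ ⊆ E` be maximal with `S₁(D₀)` not
empty; let `e ∈ E \ D₀`, so `S₁(D₀ ∪ {e})` is empty. Let `D₁ ⊆ D₀` be minimal with `S₁(D₁ ∪ {e})` empty.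
`D₁` is not empty as `v₁` or `v₂` is in `S₁({e})`. Let `f ∈ D₁`, `D₂ = D₁ \ {f}`. With `e = (x, y)`,
`f = (z, t)` let `P` be the set of the `(u x, u y, u z, u t)`, `u ∈ S₁(D₂)`. It is PP; some member has
`p 0 ≠ p 1` (`S₁(D₂ ∪ {e})` is not empty by minimality), some member has `p 2 ≠ p 3` (`S₁(D₀)` is not
empty), no member has both. -/
def S_EQP : Prop := ∀ (σ : Sig) (B : Type) (𝔅 : Str σ B), NEq 𝔅 → ∀ (X : Type) [Finite X]
  (S : (X → B) → Prop) (v₁ v₂ : X → B), PP 𝔅 S → S v₁ → S v₂ →
  (¬ ∃ u, S u ∧ ∀ x y, u x = u y ↔ v₁ x = v₁ y ∧ v₂ x = v₂ y) →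
  ∃ P : (Fin 4 → B) → Prop, PP 𝔅 P ∧ (∃ p, P p ∧ p 0 ≠ p 1) ∧ (∃ p, P p ∧ p 2 ≠ p 3) ∧
    ∀ p, P p → p 0 = p 1 ∨ p 2 = p 3

/-- `U3` is PP. `U3 ![o, i, y]` iff there are `o', i', y'` with `P ![o, y, y', i']`, `P ![o', y', y, i]`,
`o ≠ i`, `o' ≠ i'`; this is PP (S_PPB). (←) If `y ≠ o` then `y' = i'` by the first, so `y' ≠ o'`, so `y = i` by
the second. (→) `P` depends on equalities only. Let `p` be a member with `p 0 ≠ p 1` (so `p 2 = p 3`)
and `q` one with `q 2 ≠ q 3`, `q 0 = q 1`. If `y = i`, `o ≠ i`: choose `y' = i'` and `i', o'` as follows: if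
`p 2 ∉ {p 0, p 1}` both new and different; if `p 2 = p 0`: `i' = o`, `o' = i`; if `p 2 = p 1`: `i' = i`,
`o'` new. Then `![o, i, i', i']` and `![o', i', i, i]` have the equalities of `p`. If `y = o`: choose
`y' = o'`: if `q 0 ∉ {q 2, q 3}`: `o', i'` new and different; if `q 0 = q 2`: `o' = o`, `i'` new; if
`q 0 = q 3`: `i' = o`, `o' = i`. Then `![o, o, o', i']`, `![o', o', o, i]` have the equalities of `q`. -/
def S_EQU : Prop := ∀ (σ : Sig) (B : Type) [Infinite B] (𝔅 : Str σ B), NEq 𝔅 →
  ∀ P : (Fin 4 → B) → Prop, PP 𝔅 P → KI P → (∃ p, P p ∧ p 0 ≠ p 1) → (∃ p, P p ∧ p 2 ≠ p 3) →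
  (∀ p, P p → p 0 = p 1 ∨ p 2 = p 3) → PP 𝔅 (U3 (B := B))

/-- `K7` and `N7` are PP. `N7`: from `U3` and `NEq`. `K7`, with `o = v 4`, `i = v 5`, `e = v 6`: `o, i, e` are
different, `U3 ![o, i, v j]` for `j < 4`, and there are `w, a, w', a'` with `U3 ![o, i, w]`,
`U3 ![w, e, a]`, `a ≠ v 0`, `a ≠ v 1`, `U3 ![o, i, w']`, `U3 ![w', e, a']`, `a' ≠ v 2`, `a' ≠ v 3`,
`a ≠ a'`. (The conditions say that `a, a' ∈ {o, i, e}`: if `v 0 ≠ v 1` then `a = e`, if `v 2 ≠ v 3` then
`a' = e`, not both. If `v 0 = v 1` take `a = w` the other one of `o, i`, and `a' = e`, `w' = o`; if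
`v 2 = v 3` symmetrically.) -/
def S_EQD : Prop := ∀ (σ : Sig) (B : Type) (𝔅 : Str σ B), NEq 𝔅 → PP 𝔅 (U3 (B := B)) →
  PP 𝔅 (K7 (B := B)) ∧ PP 𝔅 (N7 (B := B))

/-- Equality languages in FPC are Horn. S_KIP, S_EQP, S_EQU (with S_KIP for `P`), S_EQD, and the
conclusion of S_NFE. -/
def S_EQN : Prop := S_KIP → S_EQP → S_EQU → S_EQD →
  (∀ (σ : Sig) (B : Type) (𝔅 : Str σ B) (a a' a'' : B), a ≠ a' → a ≠ a'' → a' ≠ a'' →
    PP 𝔅 (K7 (B := B)) → PP 𝔅 (N7 (B := B)) → ¬ InFPC (CSP 𝔅)) →
  ∀ (σ : Sig) (B : Type) [Infinite B] (𝔅 : Str σ B), (∀ R, KI (𝔅.rel R)) → NEq 𝔅 →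
    InFPC (CSP 𝔅) → ∀ (X : Type) [Finite X] (S : (X → B) → Prop), PP 𝔅 S → ∀ v₁ v₂, S v₁ → S v₂ →
    ∃ u, S u ∧ ∀ x y, u x = u y ↔ v₁ x = v₁ y ∧ v₂ x = v₂ y

/-! ### Part P: kernels and the positive part -/

/-- Combs with prescribed equalities exist: let `r : X → ℕ` have the same equalities as `f`; `z x` is
`c` changed at the place `r x`. -/
def S_CMB : Prop := ∀ (c : ℚ → Bool) (X B : Type) [Finite X] (f : X → B),
  ∃ z : X → Word c, CombT z ∧ ∀ x y, z x = z y ↔ f x = f y

/-- The case `CC`: PP sets are closed under passing to combs with the same equalities. Let `S v`,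
`z` a comb with the same equalities as `v`. Let `X₀ ⊆ X` be a set of representatives of the classes of
the equal entries; `v` and `z` on `X₀` are injective, `z` is a comb along the list of `X₀` ordered by
`r`. The set `S'` of the restrictions to `X₀` of the `u ∈ S` with `u x = u y` for all `x, y` with `v x = v y` is
PP (S_PPB) and contains the restriction of `v`, so (`CC`) that of `z`; the corresponding `u` is `z`. -/
def S_CCK : Prop := ∀ (c : ℚ → Bool) (σ : Sig) (𝔅 : Str σ (Word c)), AllInv 𝔅 → CC 𝔅 →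
  ∀ (X : Type) [Finite X] (S : (X → Word c) → Prop), PP 𝔅 S → ∀ v z : X → Word c, S v →
  CombT z → (∀ x y, z x = z y ↔ v x = v y) → S z

/-- The kernel closure has the same CSP, if combs with the same equalities stay in the relations
(first hypothesis, from S_CCK or from `EqH`). (1) A homomorphism to `kc 𝔅` composed with S_CMB is one
to `𝔅`. (2) The same structure and marked points define disequality in `kc 𝔅`: (←) let `f` be a
homomorphism from `𝔇` to `kc 𝔅`, `z` the comb of `f`: a homomorphism to `𝔅` with the same equalities.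
(→) clear (a homomorphism to `𝔅` is one to `kc 𝔅`); for given `v` with `v 0 ≠ v 1` there is one with
`f ∘ m = v`. -/
def S_KCL : Prop := ∀ (c : ℚ → Bool) (σ : Sig) (𝔅 : Str σ (Word c)),
  (∀ (R : σ.S) (v z : Fin (σ.ar R) → Word c), 𝔅.rel R v → CombT z →
    (∀ x y, z x = z y ↔ v x = v y) → 𝔅.rel R z) →
  (∀ (A : Type) [Finite A] (𝔄 : Str σ A), CSP 𝔅 A 𝔄 ↔ CSP (kc 𝔅) A 𝔄) ∧ (NEq 𝔅 → NEq (kc 𝔅))

/-- The case `CC` in FPC: all the relations are `EqH`. `kc 𝔅` is an equality language with the same CSP
(S_CCK for the relations, S_PPB (1); S_KCL), `Word c` is infinite. By the conclusion of S_EQN for `kc 𝔅` the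
equalities of the members of `(kc 𝔅).rel R` are closed under intersections: for `v, w ∈ 𝔅.rel R` there
is `u ∈ (kc 𝔅).rel R`, so `u' ∈ 𝔅.rel R`, with the common equalities of `v`, `w`; for a comb `z` with
these equalities S_CCK gives `𝔅.rel R z`. -/
def S_EQH : Prop := S_CCK → S_KCL →
  (∀ (σ : Sig) (B : Type) [Infinite B] (𝔅 : Str σ B), (∀ R, KI (𝔅.rel R)) → NEq 𝔅 →
    InFPC (CSP 𝔅) → ∀ (X : Type) [Finite X] (S : (X → B) → Prop), PP 𝔅 S → ∀ v₁ v₂, S v₁ → S v₂ →
    ∃ u, S u ∧ ∀ x y, u x = u y ↔ v₁ x = v₁ y ∧ v₂ x = v₂ y) →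
  ∀ (c : ℚ → Bool) (σ : Sig) (𝔅 : Str σ (Word c)), AllInv 𝔅 → NEq 𝔅 → CC 𝔅 →
    InFPC (CSP 𝔅) → ∀ R, EqH (𝔅.rel R)

/-- `EqH` implies FP. The hypothesis of S_KCL holds (`EqH` for `v = w`), so `𝔅` and `kc 𝔅` have the same
CSP. The relations of `kc 𝔅` are `HornC`: take all clauses with the conclusions `none` or
`some (i, j, ∅)` which hold in `R' = (kc 𝔅).rel R`. Let `v` satisfy them, `θ` = the pairs with
`v i = v j`. Some member of `R'` satisfies the equalities `θ` (clause `θ → none`). The intersection of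
the kernels of all such members (finitely many kernels) is the kernel of a member `u` (`EqH` and
S_CMB: a comb with the common equalities). For `i, j` with `u i = u j` the clause `θ → (i, j, ∅)` holds in
`R'`, so (S_FSX of Phy for `{i, j}`) `v i = v j`. So `v` and `u` have the same equalities and `R' v`. -/
def S_EFP : Prop := (∀ (c : ℚ → Bool) (σ : Sig) (𝔅 : Str σ (Word c)), (∀ R, HornC (𝔅.rel R)) →
    InFP (CSP 𝔅)) →
  ∀ (c : ℚ → Bool) (σ : Sig) (𝔅 : Str σ (Word c)), (∀ R, EqH (𝔅.rel R)) → InFP (CSP 𝔅)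

/-- Constant tuples: let `𝔅'` have the relations `R' v` iff `𝔅.rel R` is not empty. They are `HornC` (no
clauses, or the clause `∅ → none`). `𝔅` and `𝔅'` have the same CSP: a constant map is a homomorphism to
`𝔅` whenever `𝔄` has a homomorphism to `𝔅'` (all constant tuples have the same splits). -/
def S_ZFP : Prop := (∀ (c : ℚ → Bool) (σ : Sig) (𝔅 : Str σ (Word c)), (∀ R, HornC (𝔅.rel R)) →
    InFP (CSP 𝔅)) →
  ∀ (c : ℚ → Bool) (σ : Sig) (𝔅 : Str σ (Word c)), AllInv 𝔅 → Cst0 𝔅 → InFP (CSP 𝔅)

end Pool.Agent.Work.MP_8dbde4_lc.Full
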